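import Pool.Agent.TH36.E3.Words

set_option autoImplicit false
set_option linter.all false

/-! Words with three factors `c` vanish when `c` is a strong sandwich. -/

namespace Pool.Agent.TH36.E3

open Pool.Agent.H461R3.E3

universe u

variable {B : Type u} [NonUnitalNonAssocRing B]

open Classical in
/-- the values `((cu)(cv))(cw)` of total length `n` -/
noncomputable def TT (c : B) (n : ℕ) (u v w : List B) : B :=
  if u.length + v.length + w.length = n then (ext c u * ext c v) * ext c w else 0

open Classical in
/-- the values `(((cu)(cv))a)(cw)` of total length `n` -/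
noncomputable def TA (c : B) (n : ℕ) (u v : List B) (a : B) (w : List B) : B :=
  if u.length + v.length + w.length + 1 = n then ((ext c u * ext c v) * a) * ext c w else 0

theorem TTp {c : B} {n : ℕ} {u v w : List B} (hn : u.length + v.length + w.length = n) :
    TT c n u v w = (ext c u * ext c v) * ext c w := if_pos hn

theorem TTn {c : B} {n : ℕ} {u v w : List B} (hn : ¬ u.length + v.length + w.length = n) :
    TT c n u v w = 0 := if_neg hn

theorem TAp {c : B} {n : ℕ} {u v w : List B} {a : B}
    (hn : u.length + v.length + w.length + 1 = n) :
    TA c n u v a w = ((ext c u * ext c v) * a) * ext c w := if_pos hn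

theorem TAn {c : B} {n : ℕ} {u v w : List B} {a : B}
    (hn : ¬ u.length + v.length + w.length + 1 = n) :
    TA c n u v a w = 0 := if_neg hn

section
variable (h : Eng B) (h2 : ∀ x : B, x + x = 0 → x = 0) {c : B} (hc : Str c) {n : ℕ}
  (hlow : ∀ m x, m < n → W c 3 m x → x = 0)

include h hlow in
theorem m2ss {j k : ℕ} {m w : B} (x y : B) (hm : W c 2 j m) (hw : W c 1 k w) (hn : j + k + 2 = n) :
    ((m * x) * y) * w + ((m * y) * x) * w = 0 := by
  rw [← m2 h hlow x y hm hw hn, ← m2 h hlow y x hm hw hn, m2s h hlow x y hm hw hn]
  abel

include h in
theorem ax_Tsw (u v w : List B) : TT c n u v w = - TT c n v u w := by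
  by_cases hn : u.length + v.length + w.length = n
  · rw [TTp hn, TTp (by omega), h.ac (ext c u), neg_mul]
  · rw [TTn hn, TTn (by omega), neg_zero]

include h in
theorem ax_Tasw (u v : List B) (a : B) (w : List B) : TA c n u v a w = - TA c n v u a w := by
  by_cases hn : u.length + v.length + w.length + 1 = n
  · rw [TAp hn, TAp (by omega), h.ac (ext c u), neg_mul, neg_mul]
  · rw [TAn hn, TAn (by omega), neg_zero]

include h hlow in
theorem ax_T1 (p : List B) (x y z : B) (u v w : List B) :
    TT c n (p ++ x :: y :: z :: u) v w = - TT c n (p ++ y :: x :: z :: u) v w := by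
  by_cases hn : (p ++ x :: y :: z :: u).length + v.length + w.length = n
  · have hn' : (p ++ y :: x :: z :: u).length + v.length + w.length = n := by
      simp only [List.length_append, List.length_cons] at hn ⊢; omega
    rw [TTp hn, TTp hn']
    have h1 := Lo_mul_W (Lo_mul_W (tailLo h c p x y z u) (wd_W c v)) (wd_W c w)
    have h3 : (ext c (p ++ x :: y :: z :: u) + ext c (p ++ y :: x :: z :: u)) * ext c v * ext c w
        = 0 := by
      refine Lo3 h hlow ?_
      convert h1 using 2
      simp only [List.length_append, List.length_cons] at hn
      omega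
    rw [add_mul, add_mul] at h3
    exact eq_neg_of_add_eq_zero_left h3
  · rw [TTn hn, TTn (by simp only [List.length_append, List.length_cons] at hn ⊢; omega), neg_zero]

include h hlow in
theorem ax_Ta1 (p : List B) (x y z : B) (u v : List B) (a : B) (w : List B) :
    TA c n (p ++ x :: y :: z :: u) v a w = - TA c n (p ++ y :: x :: z :: u) v a w := by
  by_cases hn : (p ++ x :: y :: z :: u).length + v.length + w.length + 1 = n
  · have hn' : (p ++ y :: x :: z :: u).length + v.length + w.length + 1 = n := by
      simp only [List.length_append, List.length_cons] at hn ⊢; omega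
    rw [TAp hn, TAp hn']
    have h1 := Lo_mul_W (Lo_mul_W (Lo_mul_W (tailLo h c p x y z u) (wd_W c v)) (W.l a)) (wd_W c w)
    have h3 : (ext c (p ++ x :: y :: z :: u) + ext c (p ++ y :: x :: z :: u)) * ext c v * a *
        ext c w = 0 := by
      refine Lo3 h hlow ?_
      convert h1 using 2
      simp only [List.length_append, List.length_cons] at hn
      omega
    rw [add_mul, add_mul, add_mul] at h3
    exact eq_neg_of_add_eq_zero_left h3
  · rw [TAn hn, TAn (by simp only [List.length_append, List.length_cons] at hn ⊢; omega), neg_zero]

include h hlow in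
theorem ax_T3 (u v p : List B) (x y z : B) (w : List B) :
    TT c n u v (p ++ x :: y :: z :: w) = - TT c n u v (p ++ y :: x :: z :: w) := by
  by_cases hn : u.length + v.length + (p ++ x :: y :: z :: w).length = n
  · have hn' : u.length + v.length + (p ++ y :: x :: z :: w).length = n := by
      simp only [List.length_append, List.length_cons] at hn ⊢; omega
    rw [TTp hn, TTp hn']
    have h1 := W_mul_Lo ((wd_W c u).mul (wd_W c v)) (tailLo h c p x y z w)
    have h3 : (ext c u * ext c v) * (ext c (p ++ x :: y :: z :: w) + ext c (p ++ y :: x :: z :: w))
        = 0 := by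
      refine Lo3 h hlow ?_
      convert h1 using 2
      simp only [List.length_append, List.length_cons] at hn
      omega
    rw [mul_add] at h3
    exact eq_neg_of_add_eq_zero_left h3
  · rw [TTn hn, TTn (by simp only [List.length_append, List.length_cons] at hn ⊢; omega), neg_zero]

include h hlow in
theorem ax_Ta3 (u v : List B) (a : B) (p : List B) (x y z : B) (w : List B) :
    TA c n u v a (p ++ x :: y :: z :: w) = - TA c n u v a (p ++ y :: x :: z :: w) := by
  by_cases hn : u.length + v.length + (p ++ x :: y :: z :: w).length + 1 = n
  · have hn' : u.length + v.length + (p ++ y :: x :: z :: w).length + 1 = n := by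
      simp only [List.length_append, List.length_cons] at hn ⊢; omega
    rw [TAp hn, TAp hn']
    have h1 := W_mul_Lo (((wd_W c u).mul (wd_W c v)).mul (W.l a)) (tailLo h c p x y z w)
    have h3 : (ext c u * ext c v) * a * (ext c (p ++ x :: y :: z :: w) +
        ext c (p ++ y :: x :: z :: w)) = 0 := by
      refine Lo3 h hlow ?_
      convert h1 using 2
      simp only [List.length_append, List.length_cons] at hn
      omega
    rw [mul_add] at h3
    exact eq_neg_of_add_eq_zero_left h3
  · rw [TAn hn, TAn (by simp only [List.length_append, List.length_cons] at hn ⊢; omega), neg_zero]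

include h hlow in
theorem ax_T3e0 (u v : List B) (x y : B) : TT c n u v [x, y] = - TT c n u v [y, x] := by
  by_cases hn : u.length + v.length + [x, y].length = n
  · have hn' : u.length + v.length + [y, x].length = n := hn
    rw [TTp hn, TTp hn']
    exact m2s h hlow y x ((wd_W c u).mul (wd_W c v)) W.c
      (by simp only [List.length_cons, List.length_nil] at hn; omega)
  · rw [TTn hn, TTn (by simpa using hn), neg_zero]

include h hlow in
theorem ax_T3e2 (u v : List B) (p q x y : B) :
    TT c n u v [p, q, x, y] = - TT c n u v [p, q, y, x] := by
  by_cases hn : u.length + v.length + [p, q, x, y].length = n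
  · have hn' : u.length + v.length + [p, q, y, x].length = n := hn
    rw [TTp hn, TTp hn']
    simp only [List.length_cons, List.length_nil] at hn
    have hM := (wd_W c u).mul (wd_W c v)
    have h1 := m2 h hlow q p hM ((W.c.mul (W.l y)).mul (W.l x) : W c 1 (0 + 1 + 1) ((c * y) * x))
      (by omega)
    have h3 := m2 h hlow q p hM ((W.c.mul (W.l x)).mul (W.l y) : W c 1 (0 + 1 + 1) ((c * x) * y))
      (by omega)
    have h4 := m2s h hlow y x ((hM.mul (W.l q)).mul (W.l p)) W.c (by omega)
    simp only [ext]
    rw [h1, h3, h4]
  · rw [TTn hn, TTn (by simpa using hn), neg_zero]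

include h hlow in
theorem ax_R3 (u v w : List B) (a : B) :
    TT c n (a :: u) v w + TT c n (a :: u) w v + TA c n u v a w + TA c n u w a v = 0 := by
  by_cases hn : u.length + v.length + w.length + 1 = n
  · rw [TTp (by simp only [List.length_cons]; omega), TTp (by simp only [List.length_cons]; omega),
      TAp hn, TAp (by omega)]
    have e := h.e3 (ext c u) (ext c v) (ext c w) a
    have z1 : (ext c u * ext c v) * ext c w = 0 :=
      hlow _ _ (by omega) (((wd_W c u).mul (wd_W c v)).mul (wd_W c w))
    have z2 : (ext c u * ext c w) * ext c v = 0 :=
      hlow _ _ (by omega) (((wd_W c u).mul (wd_W c w)).mul (wd_W c v))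
    rw [z1, z2, zero_mul] at e
    simp only [ext]
    linear_combination (norm := module) e
  · rw [TTn (by simp only [List.length_cons]; omega), TTn (by simp only [List.length_cons]; omega),
      TAn hn, TAn (by omega)]
    abel

include h hlow in
theorem ax_R7 (u v w : List B) (a b : B) :
    TA c n (a :: u) v b w + TA c n (b :: u) v a w + TT c n (b :: a :: u) v w
    + TT c n (a :: b :: u) v w = 0 := by
  by_cases hn : u.length + v.length + w.length + 2 = n
  · rw [TTp (by simp only [List.length_cons]; omega), TTp (by simp only [List.length_cons]; omega),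
      TAp (by simp only [List.length_cons]; omega), TAp (by simp only [List.length_cons]; omega)]
    have e := congrArg (fun t => t * ext c w) (h.e3 (ext c u) (ext c v) a b)
    simp only [add_mul, zero_mul] at e
    have z := m2ss h hlow a b ((wd_W c u).mul (wd_W c v)) (wd_W c w) (by omega)
    simp only [ext]
    linear_combination (norm := module) e - z
  · rw [TTn (by simp only [List.length_cons]; omega), TTn (by simp only [List.length_cons]; omega),
      TAn (by simp only [List.length_cons]; omega), TAn (by simp only [List.length_cons]; omega)]
    abel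

include h hlow in
theorem ax_RII (u v w : List B) (a b : B) :
    TA c n (a :: u) v b w - TA c n u (a :: v) b w + TT c n (b :: a :: u) v w
    - TT c n u (b :: a :: v) w = 0 := by
  by_cases hn : u.length + v.length + w.length + 2 = n
  · rw [TTp (by simp only [List.length_cons]; omega), TTp (by simp only [List.length_cons]; omega),
      TAp (by simp only [List.length_cons]; omega), TAp (by simp only [List.length_cons]; omega)]
    have e := congrArg (fun t => t * ext c w) (h.e3 a (ext c u) (ext c v) b)
    simp only [add_mul, zero_mul] at e
    have z1 : (((a * b) * ext c u) * ext c v) * ext c w = 0 :=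
      hlow _ _ (by omega) ((((W.l (a * b)).mul (wd_W c u)).mul (wd_W c v)).mul (wd_W c w))
    have z2 : (((a * b) * ext c v) * ext c u) * ext c w = 0 :=
      hlow _ _ (by omega) ((((W.l (a * b)).mul (wd_W c v)).mul (wd_W c u)).mul (wd_W c w))
    rw [z1, z2, h.ac a (ext c u), h.ac a (ext c v)] at e
    simp only [neg_mul] at e
    rw [h.ac (ext c v * a) (ext c u), h.ac (ext c v * a * b) (ext c u)] at e
    simp only [neg_mul] at e
    simp only [ext]
    linear_combination (norm := module) -e
  · rw [TTn (by simp only [List.length_cons]; omega), TTn (by simp only [List.length_cons]; omega),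
      TAn (by simp only [List.length_cons]; omega), TAn (by simp only [List.length_cons]; omega)]
    abel

include h hlow in
theorem ax_RIIp (u v w : List B) (a b e : B) :
    TT c n (a :: u) v (e :: b :: w) - TT c n u (a :: v) (e :: b :: w)
    + TA c n (b :: a :: u) v e w - TA c n u (b :: a :: v) e w = 0 := by
  by_cases hn : u.length + v.length + w.length + 3 = n
  · rw [TTp (by simp only [List.length_cons]; omega), TTp (by simp only [List.length_cons]; omega),
      TAp (by simp only [List.length_cons]; omega), TAp (by simp only [List.length_cons]; omega)]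
    have k := congrArg (fun t => (t * e) * ext c w) (h.e3 a (ext c u) (ext c v) b)
    simp only [add_mul, zero_mul] at k
    have z1 : ((((a * b) * ext c u) * ext c v) * e) * ext c w = 0 :=
      hlow _ _ (by omega) (((((W.l (a * b)).mul (wd_W c u)).mul (wd_W c v)).mul (W.l e)).mul
        (wd_W c w))
    have z2 : ((((a * b) * ext c v) * ext c u) * e) * ext c w = 0 :=
      hlow _ _ (by omega) (((((W.l (a * b)).mul (wd_W c v)).mul (wd_W c u)).mul (W.l e)).mul
        (wd_W c w))
    rw [z1, z2, h.ac a (ext c u), h.ac a (ext c v)] at k
    simp only [neg_mul] at k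
    rw [h.ac (ext c v * a) (ext c u), h.ac (ext c v * a * b) (ext c u)] at k
    simp only [neg_mul] at k
    have k1 := m2 h hlow b e (((wd_W c u).mul (W.l a)).mul (wd_W c v)) (wd_W c w) (by omega)
    have k2 := m2 h hlow b e ((wd_W c u).mul ((wd_W c v).mul (W.l a))) (wd_W c w) (by omega)
    simp only [ext]
    linear_combination (norm := module) -k + k1 - k2
  · rw [TTn (by simp only [List.length_cons]; omega), TTn (by simp only [List.length_cons]; omega),
      TAn (by simp only [List.length_cons]; omega), TAn (by simp only [List.length_cons]; omega)]
    abel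

include h hlow in
theorem ax_RIp (u v w : List B) (a b e : B) :
    TA c n u v a (e :: b :: w) + TA c n u v b (e :: a :: w) + TT c n (a :: u) v (e :: b :: w)
    + TT c n (b :: u) v (e :: a :: w) + TA c n (b :: a :: u) v e w + TA c n (a :: b :: u) v e w
    = 0 := by
  by_cases hn : u.length + v.length + w.length + 3 = n
  · rw [TTp (by simp only [List.length_cons]; omega), TTp (by simp only [List.length_cons]; omega),
      TAp (by simp only [List.length_cons]; omega), TAp (by simp only [List.length_cons]; omega),
      TAp (by simp only [List.length_cons]; omega), TAp (by simp only [List.length_cons]; omega)]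
    have k := congrArg (fun t => (t * e) * ext c w) (h.e3 (ext c u) (ext c v) a b)
    simp only [add_mul, zero_mul] at k
    have hM := (wd_W c u).mul (wd_W c v)
    have k1 := m2 h hlow b e (hM.mul (W.l a)) (wd_W c w) (by omega)
    have k2 := m2 h hlow a e (hM.mul (W.l b)) (wd_W c w) (by omega)
    have k3 := m2 h hlow b e (((wd_W c u).mul (W.l a)).mul (wd_W c v)) (wd_W c w) (by omega)
    have k4 := m2 h hlow a e (((wd_W c u).mul (W.l b)).mul (wd_W c v)) (wd_W c w) (by omega)
    simp only [ext]
    linear_combination (norm := module) k + k1 + k2 + k3 + k4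
  · rw [TTn (by simp only [List.length_cons]; omega), TTn (by simp only [List.length_cons]; omega),
      TAn (by simp only [List.length_cons]; omega), TAn (by simp only [List.length_cons]; omega),
      TAn (by simp only [List.length_cons]; omega), TAn (by simp only [List.length_cons]; omega)]
    abel

end

end Pool.Agent.TH36.E3
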