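import Pool.Agent.TH36.E3.Sys

set_option autoImplicit false
set_option linter.all false

namespace Pool.Agent.TH36.E3
namespace Sys
universe u v
variable {α : Type u} {M : Type v} [AddCommGroup M] (S : Sys α M)

theorem Omega2 (u : List α) (b a d e : α) : S.V (d :: u) [b, a] [] e = 0 := by
  have i0 := S.G [d, a] (b :: u) [] e
  have i1 := S.BT [] [e, d] (b :: u) a (nz (S.Tasw [] [e, d] a (b :: u)) (S.c20 e d a (b :: u)))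
  have i2 := S.STAR [] (b :: u) [] a d e
  have i3 := S.G [a] (e :: b :: u) [] d
  have i4 := S.BT [d] [a] (b :: u) e (S.c11 d a e (b :: u))
  have i5 := S.RI [e] u [] a d b
  have k0 : S.V (b :: u) [d, a] [] e = S.V [d] [b, a] u e := (np (S.V23 (b :: u) [d, a] [] e) (nn (S.V12 u [] [d, a] b e) (np (S.V23 [b] u [d, a] e) (nn (S.V12 [] [d, a] u b e) (np (S.V1_0 b d a [] [] u e) (S.V12 [b, a] [] u d e))))))
  have k1 : S.T [] (e :: d :: a :: b :: u) [] = 0 := (nz (S.Tsw [] (e :: d :: a :: b :: u) []) (S.d00 (e :: d :: a :: b :: u)))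
  have k2 : S.V [] (b :: u) [e, d] a = -S.V [] [e, d] (b :: u) a := (S.V23 [] (b :: u) [e, d] a)
  have k3 : S.V (b :: u) [] [e, d] a = -S.V [b] [a, d] u e := (nn (S.V12 u [] [e, d] b a) (np (S.V23 [b] u [e, d] a) (nn (S.Vab [] [e, d] u b a) (np (S.V12 [] [e, d] u a b) (nn (S.V1_0 a e d [] [] u b) (np (S.V12 [a, d] [] u e b) (S.Vab [] [a, d] u e b)))))))
  have k4 : S.V (d :: a :: b :: u) [] [] e = 0 := (nz (S.V12 (a :: b :: u) [] [] d e) (nz (S.V23 [d] (a :: b :: u) [] e) (S.Vee (a :: b :: u) d e)))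
  have k5 : S.T [a] (d :: e :: b :: u) [] = 0 := (nz (S.Tsw [a] (d :: e :: b :: u) []) (S.d10 (d :: e :: b :: u) a))
  have k6 : S.V [a] (e :: b :: u) [] d = 0 := (nz (S.V23 [a] (e :: b :: u) [] d) (S.Vee (e :: b :: u) a d))
  have k7 : S.V (e :: b :: u) [a] [] d = S.V [d] [a] (b :: u) e := (np (S.V23 (e :: b :: u) [a] [] d) (nn (S.V12 (b :: u) [] [a] e d) (np (S.V23 [e] (b :: u) [a] d) (S.Vab [] [a] (b :: u) e d))))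
  have k8 : S.T [e, d] [a] (b :: u) = -S.T [a] [e, d] (b :: u) := (S.Tsw [e, d] [a] (b :: u))
  have k9 : S.V [e] u [b, d] a = -S.V [b] [a, d] u e := (nn (S.V23 [e] u [b, d] a) (np (S.Vab [] [b, d] u e a) (nn (S.V12 [] [b, d] u a e) (np (S.V1_0 a b d [] [] u e) (S.V12 [a, d] [] u b e)))))
  have k10 : S.V [e] u [b, a] d = S.V [d] [b, a] u e := (np (S.V23 [e] u [b, a] d) (S.Vab [] [b, a] u e d))
  have k11 : S.V [d, a, e] u [] b = -S.V [b] [a, e] u d := (nn (S.V23 [d, a, e] u [] b) (np (S.V12 [a, e] [] u d b) (S.Vab [] [a, e] u d b)))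
  have k12 : S.V [a, d, e] u [] b = S.V [b] [a, e] u d := (np (S.V23 [a, d, e] u [] b) (nn (S.V12 [d, e] [] u a b) (np (S.V12 [] [d, e] u a b) (nn (S.V1_0 a d e [] [] u b) (np (S.V12 [a, e] [] u d b) (S.Vab [] [a, e] u d b))))))
  have k13 : S.T [b, d, a, e] u [] = -S.T [d, b, a, e] u [] := (S.T1_0 b d a [e] u [])
  have k14 : S.T [b, a, d, e] u [] = S.T [d, b, a, e] u [] := (np (S.T1_1 b a d e [] u []) (S.T1_0 b d a [e] u []))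
  have k15 : S.V (d :: u) [b, a] [] e = -S.V [d] [b, a] u e := (nn (S.V23 (d :: u) [b, a] [] e) (np (S.V12 u [] [b, a] d e) (S.V23 [d] u [b, a] e)))
  refine S.m2 ?_
  linear_combination (norm := module) (1:ℤ) • i0 + (1:ℤ) • i1 + (-1:ℤ) • i2 + (1:ℤ) • i3 + (1:ℤ) • i4 + (-1:ℤ) • i5 + (1:ℤ) • k0 + (-1:ℤ) • k1 + (-1:ℤ) • k2 + (-1:ℤ) • k3 + (-1:ℤ) • k4 + (1:ℤ) • k5 + (1:ℤ) • k6 + (1:ℤ) • k7 + (1:ℤ) • k8 + (1:ℤ) • k9 + (1:ℤ) • k10 + (1:ℤ) • k11 + (1:ℤ) • k12 + (-1:ℤ) • k13 + (-1:ℤ) • k14 + (2:ℤ) • k15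

theorem E2 (u : List α) (a b d e : α) : S.V (d :: a :: u) [b] [] e = 0 := by
  have i0 := S.RI [] [a] u b d e
  have i1 := S.G [a] [b, d] u e
  have i2 := S.G [e, a] [d] u b
  have i3 := S.RI [] [d] u a b e
  have i4 := S.G [a] [e, b] u d
  have i5 := S.STAR [] [b] u a d e
  have i6 := S.G [d, a] [b] u e
  have i7 := S.RI [] u [b] a d e
  have i8 := S.STAR [] u [b] a d e
  have i9 := S.G [e, d, b] u [] a
  have i10 := S.G [] [e, a, b] u d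
  have i11 := S.G [e, d] u [b] a
  have i12 := S.STAR [b] u [] a d e
  have i13 := S.G [d] (a :: u) [b] e
  have i14 := S.G [] (e :: a :: u) [b] d
  have i15 := S.G [d, b] (a :: u) [] e
  have i16 := S.G [b] (e :: a :: u) [] d
  have k0 : S.V [] [a] (e :: d :: u) b = 0 := (S.V01 a (e :: d :: u) b)
  have k1 : S.V [] [a] (e :: b :: u) d = 0 := (S.V01 a (e :: b :: u) d)
  have k2 : S.V [d, b] [a] u e = -S.V [d, a] [b] u e := (S.V12 [b] [a] u d e)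
  have k3 : S.T [e, d, b] [a] u = -S.T [a] [e, d, b] u := (S.Tsw [e, d, b] [a] u)
  have k4 : S.T [e, b, d] [a] u = -S.T [a] [e, b, d] u := (S.Tsw [e, b, d] [a] u)
  have k5 : S.V [a] [b, d] u e = 0 := (nz (S.V23 [a] [b, d] u e) (nz (S.V12 [] u [b, d] a e) (nz (S.V23 (a :: u) [] [b, d] e) (S.Omega2 u b d a e))))
  have k6 : S.T [b, e, a] [d] u = -S.T [e, b, a] [d] u := (S.T1_0 b e a [] [d] u)
  have k7 : S.V [e, a] [d] u b = -S.V [b, a] [d] u e := (S.Vab [a] [d] u e b)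
  have k8 : S.V [d] [e, a] u b = 0 := (nz (S.V23 [d] [e, a] u b) (nz (S.V12 [] u [e, a] d b) (nz (S.V23 (d :: u) [] [e, a] b) (S.Omega2 u e a d b))))
  have k9 : S.V [] [d] (e :: b :: u) a = 0 := (S.V01 d (e :: b :: u) a)
  have k10 : S.V [] [d] (e :: a :: u) b = 0 := (S.V01 d (e :: a :: u) b)
  have k11 : S.T [a] [d, e, b] u = -S.T [a] [e, d, b] u := (S.T2_0 d e b [] [a] u)
  have k12 : S.V [a] [e, b] u d = 0 := (nz (S.V23 [a] [e, b] u d) (nz (S.V12 [] u [e, b] a d) (nz (S.V23 (a :: u) [] [e, b] d) (S.Omega2 u e b a d))))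
  have k13 : S.V [e, b] [a] u d = S.V [d, a] [b] u e := (np (S.V12 [b] [a] u e d) (S.Vab [a] [b] u e d))
  have k14 : S.V [] [b] (e :: d :: u) a = 0 := (S.V01 b (e :: d :: u) a)
  have k15 : S.V [b] [] (e :: d :: u) a = 0 := (S.Vee (e :: d :: u) b a)
  have k16 : S.V [d, a, b] [] u e = 0 := (nz (S.V23 [d, a, b] [] u e) (nz (S.V12 [a, b] u [] d e) (S.Omega2 u a b d e)))
  have k17 : S.V [b] [d, a] u e = 0 := (nz (S.V23 [b] [d, a] u e) (nz (S.V12 [] u [d, a] b e) (nz (S.V23 (b :: u) [] [d, a] e) (S.Omega2 u d a b e))))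
  have k18 : S.V [] u [e, a, b] d = -S.V [] [e, a, b] u d := (S.V23 [] u [e, a, b] d)
  have k19 : S.V [a, d] u [b] e = S.V [a, b] [d] u e := (np (S.V23 [a, d] u [b] e) (S.V12 [d] [b] u a e))
  have k20 : S.T [] (e :: d :: a :: u) [b] = 0 := (nz (S.Tsw [] (e :: d :: a :: u) [b]) (S.d01 (e :: d :: a :: u) b))
  have k21 : S.V (d :: a :: u) [] [b] e = S.V [d] [b] (a :: u) e := (np (S.V12 (a :: u) [] [b] d e) (S.V23 [d] (a :: u) [b] e))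
  have k22 : S.T [a, e, d, b] u [] = S.T [e, d, a, b] u [] := (np (S.T1_0 a e d [b] u []) (S.T1_1 e a d b [] u []))
  have k23 : S.V [e, d, b] u [] a = 0 := (nz (S.V12 [d, b] u [] e a) (S.Omega2 u d b e a))
  have k24 : S.V u [e, d, b] [] a = -S.V u [] [e, d, b] a := (S.V23 u [e, d, b] [] a)
  have k25 : S.T [d] [e, a, b] u = -S.T [e, a, b] [d] u := (S.Tsw [d] [e, a, b] u)
  have k26 : S.T [] [d, e, a, b] u = -S.T [] [e, d, a, b] u := (S.T2_0 d e a [b] [] u)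
  have k27 : S.V [e, a, b] [] u d = 0 := (nz (S.V23 [e, a, b] [] u d) (nz (S.V12 [a, b] u [] e d) (S.Omega2 u a b e d)))
  have k28 : S.T [a, e, d] u [b] = -S.T [e, a, d] u [b] := (S.T1_0 a e d [] u [b])
  have k29 : S.V [e, d] u [b] a = -S.V [a, b] [d] u e := (nn (S.V23 [e, d] u [b] a) (np (S.V12 [d] [b] u e a) (S.Vab [b] [d] u e a)))
  have k30 : S.V u [e, d] [b] a = -S.V u [b] [e, d] a := (S.V23 u [e, d] [b] a)
  have k31 : S.T [b] (e :: d :: a :: u) [] = 0 := (nz (S.Tsw [b] (e :: d :: a :: u) []) (S.d10 (e :: d :: a :: u) b))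
  have k32 : S.V [b] u [e, d] a = 0 := (nz (S.V12 [] u [e, d] b a) (nz (S.V23 (b :: u) [] [e, d] a) (S.Omega2 u e d b a)))
  have k33 : S.V [d, a, b] u [] e = 0 := (nz (S.V12 [a, b] u [] d e) (S.Omega2 u a b d e))
  have k34 : S.V (d :: a :: u) [b] [] e = -S.V [d] [b] (a :: u) e := (nn (S.V23 (d :: a :: u) [b] [] e) (np (S.V12 (a :: u) [] [b] d e) (S.V23 [d] (a :: u) [b] e)))
  have k35 : S.V [d] (a :: u) [b] e = -S.V [d] [b] (a :: u) e := (S.V23 [d] (a :: u) [b] e)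
  have k36 : S.V (a :: u) [d] [b] e = -S.V [a, b] [d] u e := (nn (S.V23 (a :: u) [d] [b] e) (np (S.V12 u [b] [d] a e) (S.V23 [a, b] u [d] e)))
  have k37 : S.T [] (d :: e :: a :: u) [b] = 0 := (nz (S.Tsw [] (d :: e :: a :: u) [b]) (S.d01 (d :: e :: a :: u) b))
  have k38 : S.V [] (e :: a :: u) [b] d = 0 := (nz (S.V23 [] (e :: a :: u) [b] d) (S.V01 b (e :: a :: u) d))
  have k39 : S.V (e :: a :: u) [] [b] d = -S.V [d] [b] (a :: u) e := (nn (S.V12 (a :: u) [] [b] e d) (np (S.V23 [e] (a :: u) [b] d) (S.Vab [] [b] (a :: u) e d)))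
  have k40 : S.V [d, b] (a :: u) [] e = S.V [d] [b] (a :: u) e := (np (S.V23 [d, b] (a :: u) [] e) (S.V12 [b] [] (a :: u) d e))
  have k41 : S.V (a :: u) [d, b] [] e = 0 := (S.Omega2 u d b a e)
  have k42 : S.T [b] (d :: e :: a :: u) [] = 0 := (nz (S.Tsw [b] (d :: e :: a :: u) []) (S.d10 (d :: e :: a :: u) b))
  have k43 : S.V [b] (e :: a :: u) [] d = 0 := (nz (S.V23 [b] (e :: a :: u) [] d) (S.Vee (e :: a :: u) b d))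
  have k44 : S.V (e :: a :: u) [b] [] d = S.V [d] [b] (a :: u) e := (np (S.V23 (e :: a :: u) [b] [] d) (nn (S.V12 (a :: u) [] [b] e d) (np (S.V23 [e] (a :: u) [b] d) (S.Vab [] [b] (a :: u) e d))))
  refine S.m6 ?_
  linear_combination (norm := module) (-1:ℤ) • i0 + (-1:ℤ) • i1 + (-1:ℤ) • i2 + (1:ℤ) • i3 + (1:ℤ) • i4 + (-1:ℤ) • i5 + (1:ℤ) • i6 + (1:ℤ) • i7 + (1:ℤ) • i8 + (1:ℤ) • i9 + (-1:ℤ) • i10 + (-1:ℤ) • i11 + (-1:ℤ) • i12 + (-1:ℤ) • i13 + (-1:ℤ) • i14 + (1:ℤ) • i15 + (1:ℤ) • i16 + (1:ℤ) • k0 + (1:ℤ) • k1 + (1:ℤ) • k2 + (-1:ℤ) • k3 + (-1:ℤ) • k4 + (-1:ℤ) • k5 + (1:ℤ) • k6 + (-1:ℤ) • k7 + (-1:ℤ) • k8 + (-1:ℤ) • k9 + (-1:ℤ) • k10 + (1:ℤ) • k11 + (1:ℤ) • k12 + (1:ℤ) • k13 + (-1:ℤ) • k14 + (-1:ℤ) • k15 + (-1:ℤ) • k16 + (1:ℤ) • k17 + (-1:ℤ) • k18 + (-1:ℤ) • k19 + (1:ℤ) • k20 + (1:ℤ) • k21 + (-1:ℤ) • k22 + (1:ℤ) • k23 + (1:ℤ) • k24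 + (1:ℤ) • k25 + (-1:ℤ) • k26 + (-1:ℤ) • k27 + (1:ℤ) • k28 + (-1:ℤ) • k29 + (-1:ℤ) • k30 + (-1:ℤ) • k31 + (-1:ℤ) • k32 + (-1:ℤ) • k33 + (5:ℤ) • k34 + (-1:ℤ) • k35 + (-1:ℤ) • k36 + (-1:ℤ) • k37 + (-1:ℤ) • k38 + (-1:ℤ) • k39 + (1:ℤ) • k40 + (1:ℤ) • k41 + (1:ℤ) • k42 + (1:ℤ) • k43 + (1:ℤ) • k44

theorem Omega1 (u : List α) (b a e : α) : S.V (a :: u) [b] [] e = 0 := by
  cases u with
  | nil => rw [S.V23, S.Vee, neg_zero]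
  | cons x u => exact S.E2 u x b a e

theorem E3 (u : List α) (a b d e f : α) : S.V (e :: a :: u) [b] [d] f = 0 := by
  have i0 := S.STAR [b] u [d] a e f
  have i1 := S.G [f, e, d] u [b] a
  have i2 := S.G [] [f, e, b] (a :: u) d
  have i3 := S.STAR [] (a :: u) [b] d f e
  have i4 := S.STAR [d] u [b] a e f
  have i5 := S.G [f, e, b] u [d] a
  have i6 := S.G [] (f :: e :: a :: u) [b] d
  have i7 := S.G [] [f, e, d] (a :: u) b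
  have i8 := S.RI [] (a :: u) [d] b f e
  have i9 := S.STAR [] (a :: u) [d] f e b
  have i10 := S.STAR [] [d] (a :: u) f e b
  have i11 := S.RI [] [d] (a :: u) b f e
  have i12 := S.G [] (f :: e :: a :: u) [d] b
  have i13 := S.STAR [] [b] (a :: u) d f e
  have k0 : S.V [b] u [f, e, d] a = S.V [e] [b, a, d] u f := (np (S.V23 [b] u [f, e, d] a) (nn (S.Vab [] [f, e, d] u b a) (np (S.V12 [] [f, e, d] u a b) (nn (S.V1_1 a f e d [] [] u b) (np (S.V1_0 a e f [d] [] u b) (nn (S.V1_1 e a f d [] [] u b) (np (S.V12 [f, a, d] [] u e b) (nn (S.Vab [] [f, a, d] u e b) (np (S.V12 [] [f, a, d] u b e) (nn (S.V1_0 b f a [d] [] u e) (np (S.V12 [b, a, d] [] u f e) (S.Vab [] [b, a, d] u f e))))))))))))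
  have k1 : S.V [e, a, b] u [d] f = -S.V [e, a, b] [d] u f := (S.V23 [e, a, b] u [d] f)
  have k2 : S.V (e :: a :: u) [b] [d] f = S.V [e, b] [d] (a :: u) f := (np (S.V12 (a :: u) [b] [d] e f) (S.V23 [e, b] (a :: u) [d] f))
  have k3 : S.T [a, f, e, d] u [b] = S.T [f, e, a, d] u [b] := (np (S.T1_0 a f e [d] u [b]) (S.T1_1 f a e d [] u [b]))
  have k4 : S.V [f, e, d] u [b] a = S.V [e, b] [a, d] u f := (np (S.V23 [f, e, d] u [b] a) (nn (S.V12 [e, d] [b] u f a) (np (S.Vab [b] [e, d] u f a) (nn (S.V12 [b] [e, d] u a f) (np (S.V1_0 a e d [] [b] u f) (S.V12 [a, d] [b] u e f))))))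
  have k5 : S.V u [f, e, d] [b] a = -S.V u [b] [f, e, d] a := (S.V23 u [f, e, d] [b] a)
  have k6 : S.T [d] [f, e, b] (a :: u) = -S.T [f, e, b] [d] (a :: u) := (S.Tsw [d] [f, e, b] (a :: u))
  have k7 : S.T [] [d, f, e, b] (a :: u) = S.T [] [f, e, d, b] (a :: u) := (np (S.T2_0 d f e [b] [] (a :: u)) (S.T2_1 f d e b [] [] (a :: u)))
  have k8 : S.V [f, e, b] [] (a :: u) d = 0 := (nz (S.V23 [f, e, b] [] (a :: u) d) (nz (S.V12 [e, b] (a :: u) [] f d) (S.Omega2 (a :: u) e b f d)))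
  have k9 : S.T [e, f, d] (a :: u) [b] = -S.T [f, e, d] (a :: u) [b] := (S.T1_0 e f d [] (a :: u) [b])
  have k10 : S.T [] (e :: f :: d :: a :: u) [b] = 0 := (nz (S.Tsw [] (e :: f :: d :: a :: u) [b]) (S.d01 (e :: f :: d :: a :: u) b))
  have k11 : S.V [] (a :: u) [e, f, b] d = S.V [] [f, e, b] (a :: u) d := (np (S.V3_0 e f b [] [] (a :: u) d) (S.V23 [] (a :: u) [f, e, b] d))
  have k12 : S.V (a :: u) [] [e, f, b] d = -S.V [e] [d, a, b] u f := (nn (S.V12 u [] [e, f, b] a d) (np (S.V23 [a] u [e, f, b] d) (nn (S.V12 [] [e, f, b] u a d) (np (S.V1_1 a e f b [] [] u d) (nn (S.V1_0 a f e [b] [] u d) (np (S.V1_1 f a e b [] [] u d) (nn (S.V12 [e, a, b] [] u f d) (np (S.Vab [] [e, a, b] u f d) (nn (S.V12 [] [e, a, b] u d f) (np (S.V1_0 d e a [b] [] u f) (S.V12 [d, a, b] [] u e f)))))))))))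
  have k13 : S.V [f, d] (a :: u) [b] e = -S.V [e, b] [d] (a :: u) f := (nn (S.V23 [f, d] (a :: u) [b] e) (np (S.V12 [d] [b] (a :: u) f e) (S.Vab [b] [d] (a :: u) f e)))
  have k14 : S.V (f :: d :: a :: u) [] [b] e = 0 := (nz (S.V23 (f :: d :: a :: u) [] [b] e) (S.Omega1 (d :: a :: u) b f e))
  have k15 : S.V [d] u [f, e, b] a = S.V [e] [d, a, b] u f := (np (S.V23 [d] u [f, e, b] a) (nn (S.Vab [] [f, e, b] u d a) (np (S.V12 [] [f, e, b] u a d) (nn (S.V1_1 a f e b [] [] u d) (np (S.V1_0 a e f [b] [] u d) (nn (S.V1_1 e a f b [] [] u d) (np (S.V12 [f, a, b] [] u e d) (nn (S.Vab [] [f, a, b] u e d) (np (S.V12 [] [f, a, b] u d e) (nn (S.V1_0 d f a [b] [] u e) (np (S.V12 [d, a, b] [] u f e) (S.Vab [] [d, a, b] u f e))))))))))))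
  have k16 : S.V u [d] [f, e, b] a = -S.V u [f, e, b] [d] a := (S.V23 u [d] [f, e, b] a)
  have k17 : S.V [e, a, d] u [b] f = S.V [e, b] [a, d] u f := (np (S.V23 [e, a, d] u [b] f) (S.V12 [a, d] [b] u e f))
  have k18 : S.V (e :: a :: u) [d] [b] f = -S.V [e, b] [d] (a :: u) f := (nn (S.V23 (e :: a :: u) [d] [b] f) (np (S.V12 (a :: u) [b] [d] e f) (S.V23 [e, b] (a :: u) [d] f)))
  have k19 : S.T [a, f, e, b] u [d] = S.T [f, e, a, b] u [d] := (np (S.T1_0 a f e [b] u [d]) (S.T1_1 f a e b [] u [d]))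
  have k20 : S.V [f, e, b] u [d] a = -S.V [e, a, b] [d] u f := (nn (S.V23 [f, e, b] u [d] a) (np (S.Vab [e, b] [d] u f a) (S.V1_0 a e b [] [d] u f)))
  have k21 : S.T [] (d :: f :: e :: a :: u) [b] = 0 := (nz (S.Tsw [] (d :: f :: e :: a :: u) [b]) (S.d01 (d :: f :: e :: a :: u) b))
  have k22 : S.V [] (f :: e :: a :: u) [b] d = 0 := (nz (S.V23 [] (f :: e :: a :: u) [b] d) (S.V01 b (f :: e :: a :: u) d))
  have k23 : S.V (f :: e :: a :: u) [] [b] d = 0 := (nz (S.V23 (f :: e :: a :: u) [] [b] d) (S.Omega1 (e :: a :: u) b f d))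
  have k24 : S.T [] [b, f, e, d] (a :: u) = S.T [] [f, e, b, d] (a :: u) := (np (S.T2_0 b f e [d] [] (a :: u)) (S.T2_1 f b e d [] [] (a :: u)))
  have k25 : S.V [f, e, d] [] (a :: u) b = 0 := (nz (S.V23 [f, e, d] [] (a :: u) b) (nz (S.V12 [e, d] (a :: u) [] f b) (S.Omega2 (a :: u) e d f b)))
  have k26 : S.V [] (a :: u) [e, f, d] b = S.V [] [f, e, d] (a :: u) b := (np (S.V3_0 e f d [] [] (a :: u) b) (S.V23 [] (a :: u) [f, e, d] b))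
  have k27 : S.V [] (a :: u) [e, b, d] f = -S.V [] [e, b, d] (a :: u) f := (S.V23 [] (a :: u) [e, b, d] f)
  have k28 : S.V [f, b] (a :: u) [d] e = S.V [e, b] [d] (a :: u) f := (np (S.V23 [f, b] (a :: u) [d] e) (S.Vab [b] [d] (a :: u) f e))
  have k29 : S.V [b, f] (a :: u) [d] e = S.V [b, d] [f] (a :: u) e := (np (S.V23 [b, f] (a :: u) [d] e) (S.V12 [f] [d] (a :: u) b e))
  have k30 : S.T [e, f, b] (a :: u) [d] = -S.T [f, e, b] (a :: u) [d] := (S.T1_0 e f b [] (a :: u) [d])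
  have k31 : S.T [b, e, f] (a :: u) [d] = -S.T [e, b, f] (a :: u) [d] := (S.T1_0 b e f [] (a :: u) [d])
  have k32 : S.T [] (b :: e :: f :: a :: u) [d] = 0 := (nz (S.Tsw [] (b :: e :: f :: a :: u) [d]) (S.d01 (b :: e :: f :: a :: u) d))
  have k33 : S.V [] (a :: u) [b, e, d] f = S.V [] [e, b, d] (a :: u) f := (np (S.V3_0 b e d [] [] (a :: u) f) (S.V23 [] (a :: u) [e, b, d] f))
  have k34 : S.V (a :: u) [] [b, e, d] f = -S.V [e] [b, a, d] u f := (nn (S.V12 u [] [b, e, d] a f) (np (S.V23 [a] u [b, e, d] f) (nn (S.V12 [] [b, e, d] u a f) (np (S.V1_1 a b e d [] [] u f) (nn (S.V1_0 a e b [d] [] u f) (np (S.V1_1 e a b d [] [] u f) (S.V12 [b, a, d] [] u e f)))))))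
  have k35 : S.V [e, f] (a :: u) [d] b = -S.V [b, d] [f] (a :: u) e := (nn (S.V23 [e, f] (a :: u) [d] b) (np (S.V12 [f] [d] (a :: u) e b) (S.Vab [d] [f] (a :: u) e b)))
  have k36 : S.V (e :: f :: a :: u) [] [d] b = 0 := (nz (S.V23 (e :: f :: a :: u) [] [d] b) (S.Omega1 (f :: a :: u) d e b))
  have k37 : S.T [b, e, f] [d] (a :: u) = S.T [d] [e, b, f] (a :: u) := (np (S.T1_0 b e f [] [d] (a :: u)) (S.Tsw [e, b, f] [d] (a :: u)))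
  have k38 : S.T [] [b, e, f, d] (a :: u) = -S.T [] [f, e, b, d] (a :: u) := (nn (S.T2_1 b e f d [] [] (a :: u)) (np (S.T2_0 b f e [d] [] (a :: u)) (S.T2_1 f b e d [] [] (a :: u))))
  have k39 : S.V [] [d] (b :: e :: a :: u) f = 0 := (S.V01 d (b :: e :: a :: u) f)
  have k40 : S.V [d] [] (b :: e :: a :: u) f = 0 := (S.Vee (b :: e :: a :: u) d f)
  have k41 : S.V [e, f] [d] (a :: u) b = S.V [b, d] [f] (a :: u) e := (np (S.V12 [f] [d] (a :: u) e b) (S.Vab [d] [f] (a :: u) e b))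
  have k42 : S.V [e, f, d] [] (a :: u) b = 0 := (nz (S.V23 [e, f, d] [] (a :: u) b) (nz (S.V12 [f, d] (a :: u) [] e b) (S.Omega2 (a :: u) f d e b)))
  have k43 : S.V [] [d] (e :: f :: a :: u) b = 0 := (S.V01 d (e :: f :: a :: u) b)
  have k44 : S.V [] [d] (e :: b :: a :: u) f = 0 := (S.V01 d (e :: b :: a :: u) f)
  have k45 : S.V [f, b] [d] (a :: u) e = -S.V [e, b] [d] (a :: u) f := (S.Vab [b] [d] (a :: u) f e)
  have k46 : S.V [b, f] [d] (a :: u) e = -S.V [b, d] [f] (a :: u) e := (S.V12 [f] [d] (a :: u) b e)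
  have k47 : S.T [e, f, b] [d] (a :: u) = -S.T [f, e, b] [d] (a :: u) := (S.T1_0 e f b [] [d] (a :: u))
  have k48 : S.T [e, b, f] [d] (a :: u) = -S.T [d] [e, b, f] (a :: u) := (S.Tsw [e, b, f] [d] (a :: u))
  have k49 : S.T [] (b :: f :: e :: a :: u) [d] = 0 := (nz (S.Tsw [] (b :: f :: e :: a :: u) [d]) (S.d01 (b :: f :: e :: a :: u) d))
  have k50 : S.V [] (f :: e :: a :: u) [d] b = 0 := (nz (S.V23 [] (f :: e :: a :: u) [d] b) (S.V01 d (f :: e :: a :: u) b))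
  have k51 : S.V (f :: e :: a :: u) [] [d] b = 0 := (nz (S.V23 (f :: e :: a :: u) [] [d] b) (S.Omega1 (e :: a :: u) d f b))
  have k52 : S.T [e, f, d] [b] (a :: u) = S.T [b] [f, e, d] (a :: u) := (np (S.T1_0 e f d [] [b] (a :: u)) (S.Tsw [f, e, d] [b] (a :: u)))
  have k53 : S.T [] [e, f, d, b] (a :: u) = -S.T [] [f, e, d, b] (a :: u) := (S.T2_0 e f d [b] [] (a :: u))
  have k54 : S.V [] [b] (e :: f :: a :: u) d = 0 := (S.V01 b (e :: f :: a :: u) d)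
  have k55 : S.V [b] [] (e :: f :: a :: u) d = 0 := (S.Vee (e :: f :: a :: u) b d)
  have k56 : S.V [f, d] [b] (a :: u) e = S.V [e, b] [d] (a :: u) f := (np (S.V12 [d] [b] (a :: u) f e) (S.Vab [b] [d] (a :: u) f e))
  have k57 : S.V [f, d, b] [] (a :: u) e = 0 := (nz (S.V23 [f, d, b] [] (a :: u) e) (nz (S.V12 [d, b] (a :: u) [] f e) (S.Omega2 (a :: u) d b f e)))
  refine S.m6 ?_
  linear_combination (norm := module) (-1:ℤ) • i0 + (-1:ℤ) • i1 + (-1:ℤ) • i2 + (1:ℤ) • i3 + (1:ℤ) • i4 + (1:ℤ) • i5 + (1:ℤ) • i6 + (1:ℤ) • i7 + (1:ℤ) • i8 + (-1:ℤ) • i9 + (1:ℤ) • i10 + (-1:ℤ) • i11 + (-1:ℤ) • i12 + (-1:ℤ) • i13 + (-1:ℤ) • k0 + (-1:ℤ) • k1 + (5:ℤ) • k2 + (1:ℤ) • k3 + (-1:ℤ) • k4 + (-1:ℤ) • k5 + (1:ℤ) • k6 + (-1:ℤ) • k7 + (-1:ℤ) • k8 + (-1:ℤ) • k9 + (1:ℤ) • k10 + (1:ℤ) • k11 + (1:ℤ) • k12 + (1:ℤ) • k13 + (1:ℤ) • k14 + (1:ℤ) • k15 + (1:ℤ)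 • k16 + (1:ℤ) • k17 + (1:ℤ) • k18 + (-1:ℤ) • k19 + (1:ℤ) • k20 + (1:ℤ) • k21 + (1:ℤ) • k22 + (1:ℤ) • k23 + (1:ℤ) • k24 + (1:ℤ) • k25 + (-1:ℤ) • k26 + (-1:ℤ) • k27 + (-1:ℤ) • k28 + (-1:ℤ) • k29 + (1:ℤ) • k30 + (1:ℤ) • k31 + (-1:ℤ) • k32 + (-1:ℤ) • k33 + (-1:ℤ) • k34 + (-1:ℤ) • k35 + (-1:ℤ) • k36 + (-1:ℤ) • k37 + (1:ℤ) • k38 + (1:ℤ) • k39 + (1:ℤ) • k40 + (1:ℤ) • k41 + (1:ℤ) • k42 + (1:ℤ) • k43 + (1:ℤ) • k44 + (1:ℤ) • k45 + (1:ℤ) • k46 + (-1:ℤ) • k47 + (-1:ℤ) • k48 + (-1:ℤ) • k49 + (-1:ℤ) • k50 + (-1:ℤ) • k51 + (1:ℤ) • k52 + (-1:ℤ) • k53 + (-1:ℤ) • k54 + (-1:ℤ) • k55 + (-1:ℤ) • k56 + (-1:ℤ) • k57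

theorem Z11 (u : List α) (b d a e : α) : S.V (a :: u) [b] [d] e = 0 := by
  cases u with
  | nil => rw [S.V12, S.V23, S.Omega1, neg_zero, neg_zero]
  | cons x u => exact S.E3 u x b d a e

theorem E4 (u v : List α) (u0 v0 a b d e f : α) : S.V (e :: a :: u0 :: u) (b :: v0 :: v) [d] f = 0 := by
  have i0 := S.STAR (u0 :: u) (b :: v0 :: v) [d] f e a
  have i1 := S.G [f, a, d] (u0 :: u) (b :: v0 :: v) e
  have i2 := S.STAR [d] (v0 :: v) (e :: u0 :: u) f b a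
  have i3 := S.G (f :: e :: a :: u0 :: u) (v0 :: v) [d] b
  have i4 := S.STAR (b :: u0 :: u) (v0 :: v) [d] e a f
  have i5 := S.G [f, a, d] (v0 :: v) (e :: u0 :: u) b
  have i6 := S.G (u0 :: u) (f :: e :: a :: v0 :: v) [d] b
  have i7 := S.STAR [d] (u0 :: u) (b :: v0 :: v) e f a
  have i8 := S.G [] (f :: e :: a :: u0 :: u) (b :: v0 :: v) d
  have i9 := S.STAR [] (b :: v0 :: v) (e :: u0 :: u) d a f
  have i10 := S.G [] (f :: b :: a :: v0 :: v) (e :: u0 :: u) d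
  have i11 := S.STAR [] (e :: u0 :: u) (b :: v0 :: v) d a f
  have k0 : S.T (a :: e :: f :: u0 :: u) (b :: v0 :: v) [d] = -S.T (f :: e :: a :: u0 :: u) (b :: v0 :: v) [d] := (nn (S.T1_1 a e f u0 u (b :: v0 :: v) [d]) (np (S.T1_0 a f e (u0 :: u) (b :: v0 :: v) [d]) (S.T1_1 f a e u0 u (b :: v0 :: v) [d])))
  have k1 : S.T (u0 :: u) (a :: e :: f :: b :: v0 :: v) [d] = S.T (u0 :: u) (f :: e :: b :: a :: v0 :: v) [d] := (np (S.T2_1 a e f b (v0 :: v) (u0 :: u) [d]) (nn (S.T2_0 a f e (b :: v0 :: v) (u0 :: u) [d]) (np (S.T2_1 f a e b (v0 :: v) (u0 :: u) [d]) (S.T2_2 f e a b v0 v (u0 :: u) [d]))))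
  have k2 : S.V (u0 :: u) (b :: v0 :: v) [a, e, d] f = -S.V [f, b, a, d] u (e :: v0 :: v) u0 := (nn (S.V23 (u0 :: u) (b :: v0 :: v) [a, e, d] f) (np (S.V12 u [a, e, d] (b :: v0 :: v) u0 f) (nn (S.V1_0 u0 a e [d] u (b :: v0 :: v) f) (np (S.V1_1 a u0 e d [] u (b :: v0 :: v) f) (nn (S.V1_0 a e u0 [d] u (b :: v0 :: v) f) (np (S.V1_1 e a u0 d [] u (b :: v0 :: v) f) (nn (S.V23 [e, u0, a, d] u (b :: v0 :: v) f) (np (S.V12 [u0, a, d] (b :: v0 :: v) u e f) (nn (S.V1_0 e b v0 v [u0, a, d] u f) (np (S.V12 (e :: v0 :: v) [u0, a, d] u b f) (nn (S.V23 [b, u0, a, d] (e :: v0 :: v) u f) (np (S.V1_0 b u0 a [d] u (e :: v0 :: v) f) (S.Vab [b, a, d] u (e :: v0 :: v) u0 f)))))))))))))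
  have k3 : S.V (b :: v0 :: v) (u0 :: u) [a, e, d] f = -S.V [e, b, a, d] (u0 :: u) (v0 :: v) f := (nn (S.V23 (b :: v0 :: v) (u0 :: u) [a, e, d] f) (np (S.V12 (v0 :: v) [a, e, d] (u0 :: u) b f) (nn (S.V23 [b, a, e, d] (v0 :: v) (u0 :: u) f) (np (S.V1_0 b a e [d] (u0 :: u) (v0 :: v) f) (nn (S.V1_1 a b e d [] (u0 :: u) (v0 :: v) f) (np (S.V1_0 a e b [d] (u0 :: u) (v0 :: v) f) (S.V1_1 e a b d [] (u0 :: u) (v0 :: v) f)))))))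
  have k4 : S.V (e :: f :: u0 :: u) (b :: v0 :: v) [d] a = -S.V [e, d] (a :: u0 :: u) (b :: v0 :: v) f := (nn (S.V23 (e :: f :: u0 :: u) (b :: v0 :: v) [d] a) (np (S.V12 (f :: u0 :: u) [d] (b :: v0 :: v) e a) (nn (S.Vab [d] (f :: u0 :: u) (b :: v0 :: v) e a) (np (S.V12 [d] (f :: u0 :: u) (b :: v0 :: v) a e) (nn (S.V1_0 a f u0 u [d] (b :: v0 :: v) e) (np (S.V12 (a :: u0 :: u) [d] (b :: v0 :: v) f e) (S.Vab [d] (a :: u0 :: u) (b :: v0 :: v) f e)))))))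
  have k5 : S.V (e :: f :: b :: v0 :: v) (u0 :: u) [d] a = -S.V [e, d] (u0 :: u) (b :: a :: v0 :: v) f := (nn (S.V23 (e :: f :: b :: v0 :: v) (u0 :: u) [d] a) (np (S.V12 (f :: b :: v0 :: v) [d] (u0 :: u) e a) (nn (S.V23 [e, d] (f :: b :: v0 :: v) (u0 :: u) a) (np (S.Vab [d] (u0 :: u) (f :: b :: v0 :: v) e a) (nn (S.V23 [a, d] (u0 :: u) (f :: b :: v0 :: v) e) (np (S.V12 [d] (f :: b :: v0 :: v) (u0 :: u) a e) (nn (S.V1_1 a f b v0 v [d] (u0 :: u) e) (np (S.V1_0 a b f (v0 :: v) [d] (u0 :: u) e) (nn (S.V1_1 b a f v0 v [d] (u0 :: u) e) (np (S.V12 (f :: a :: v0 :: v) [d] (u0 :: u) b e) (nn (S.V23 [b, d] (f :: a :: v0 :: v) (u0 :: u) e) (np (S.V23 [b, d] (u0 :: u) (f :: a :: v0 :: v) e) (nn (S.V12 [d] (f :: a :: v0 :: v) (u0 :: u) b e) (np (S.V1_0 b f a (v0 :: v) [d] (u0 :: u) e) (nn (S.V12 (b :: a :: v0 :: v) [d] (u0 :: u) f e) (np (S.V23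 [f, d] (b :: a :: v0 :: v) (u0 :: u) e) (S.Vab [d] (u0 :: u) (b :: a :: v0 :: v) f e)))))))))))))))))
  have k6 : S.T [e, f, a, d] (u0 :: u) (b :: v0 :: v) = -S.T [f, e, a, d] (u0 :: u) (b :: v0 :: v) := (S.T1_0 e f a [d] (u0 :: u) (b :: v0 :: v))
  have k7 : S.V [f, a, d] (u0 :: u) (b :: v0 :: v) e = -S.V [e, a, d] (u0 :: u) (b :: v0 :: v) f := (S.Vab [a, d] (u0 :: u) (b :: v0 :: v) f e)
  have k8 : S.V (u0 :: u) [f, a, d] (b :: v0 :: v) e = S.V [f, b, a, d] u (e :: v0 :: v) u0 := (np (S.V12 u [f, a, d] (b :: v0 :: v) u0 e) (nn (S.V23 [u0, f, a, d] u (b :: v0 :: v) e) (np (S.V12 [f, a, d] (b :: v0 :: v) u u0 e) (nn (S.V1_0 u0 b v0 v [f, a, d] u e) (np (S.V12 (u0 :: v0 :: v) [f, a, d] u b e) (nn (S.V23 [b, f, a, d] (u0 :: v0 :: v) u e) (np (S.V1_0 b f a [d] u (u0 :: v0 :: v) e) (nn (S.Vab [b, a, d] u (u0 :: v0 :: v) f e) (np (S.V23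 [e, b, a, d] u (u0 :: v0 :: v) f) (nn (S.V12 [b, a, d] (u0 :: v0 :: v) u e f) (np (S.V1_0 e u0 v0 v [b, a, d] u f) (nn (S.V12 (e :: v0 :: v) [b, a, d] u u0 f) (np (S.V23 [u0, b, a, d] (e :: v0 :: v) u f) (S.Vab [b, a, d] u (e :: v0 :: v) u0 f))))))))))))))
  have k9 : S.T [a, b, f, d] (v0 :: v) (e :: u0 :: u) = -S.T [f, b, a, d] (v0 :: v) (e :: u0 :: u) := (nn (S.T1_1 a b f d [] (v0 :: v) (e :: u0 :: u)) (np (S.T1_0 a f b [d] (v0 :: v) (e :: u0 :: u)) (S.T1_1 f a b d [] (v0 :: v) (e :: u0 :: u))))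
  have k10 : S.T [d] (a :: b :: f :: v0 :: v) (e :: u0 :: u) = -S.T [d] (f :: b :: a :: v0 :: v) (e :: u0 :: u) := (nn (S.T2_1 a b f v0 v [d] (e :: u0 :: u)) (np (S.T2_0 a f b (v0 :: v) [d] (e :: u0 :: u)) (S.T2_1 f a b v0 v [d] (e :: u0 :: u))))
  have k11 : S.V [d] (v0 :: v) (a :: b :: e :: u0 :: u) f = -S.V [e] (d :: b :: a :: u0 :: u) (v0 :: v) f := (nn (S.V23 [d] (v0 :: v) (a :: b :: e :: u0 :: u) f) (np (S.V12 [] (a :: b :: e :: u0 :: u) (v0 :: v) d f) (nn (S.V1_0 d a b (e :: u0 :: u) [] (v0 :: v) f) (np (S.V12 (d :: b :: e :: u0 :: u) [] (v0 :: v) a f) (nn (S.V12 [] (d :: b :: e :: u0 :: u) (v0 :: v) a f) (np (S.V1_2 a d b e u0 u [] (v0 :: v) f) (nn (S.V1_1 a d e b (u0 :: u) [] (v0 :: v) f) (np (S.V1_0 a e d (b :: u0 :: u) [] (v0 :: v) f) (nn (S.V1_1 e a d b (u0 :: u) [] (v0 :: v) f) (np (S.V1_2 e d a b u0 u [] (v0 :: v)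 f) (S.V12 (d :: b :: a :: u0 :: u) [] (v0 :: v) e f)))))))))))
  have k12 : S.V (v0 :: v) [d] (a :: b :: e :: u0 :: u) f = S.V [f, d] (e :: b :: a :: u0 :: u) v v0 := (np (S.V12 v [d] (a :: b :: e :: u0 :: u) v0 f) (nn (S.V23 [v0, d] v (a :: b :: e :: u0 :: u) f) (np (S.V12 [d] (a :: b :: e :: u0 :: u) v v0 f) (nn (S.V1_0 v0 a b (e :: u0 :: u) [d] v f) (np (S.V12 (v0 :: b :: e :: u0 :: u) [d] v a f) (nn (S.V12 [d] (v0 :: b :: e :: u0 :: u) v a f) (np (S.V1_2 a v0 b e u0 u [d] v f) (nn (S.V1_1 a v0 e b (u0 :: u) [d] v f) (np (S.V1_0 a e v0 (b :: u0 :: u) [d] v f) (nn (S.V1_1 e a v0 b (u0 :: u) [d] v f) (np (S.V1_2 e v0 a b u0 u [d] v f) (nn (S.V12 (v0 :: b :: a :: u0 :: u) [d] v e f) (np (S.V12 [d] (v0 :: b :: a :: u0 :: u) v e f) (nn (S.V1_0 e v0 b (a :: u0 :: u) [d] v f) (np (S.V12 (e :: b :: a :: u0 :: u) [d] v v0 f) (S.Vab [d]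 (e :: b :: a :: u0 :: u) v v0 f))))))))))))))))
  have k13 : S.V [b, f, d] (v0 :: v) (e :: u0 :: u) a = -S.V [e, a, d] (b :: u0 :: u) (v0 :: v) f := (nn (S.V23 [b, f, d] (v0 :: v) (e :: u0 :: u) a) (np (S.Vab [f, d] (e :: u0 :: u) (v0 :: v) b a) (nn (S.V1_0 a f d [] (e :: u0 :: u) (v0 :: v) b) (np (S.Vab [a, d] (e :: u0 :: u) (v0 :: v) f b) (nn (S.V12 [a, d] (e :: u0 :: u) (v0 :: v) b f) (np (S.V1_0 b e u0 u [a, d] (v0 :: v) f) (S.V12 (b :: u0 :: u) [a, d] (v0 :: v) e f)))))))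
  have k14 : S.V (b :: f :: v0 :: v) [d] (e :: u0 :: u) a = -S.V [e, d] (a :: u0 :: u) (b :: v0 :: v) f := (nn (S.V12 (f :: v0 :: v) [d] (e :: u0 :: u) b a) (np (S.V23 [b, d] (f :: v0 :: v) (e :: u0 :: u) a) (nn (S.Vab [d] (e :: u0 :: u) (f :: v0 :: v) b a) (np (S.V12 [d] (e :: u0 :: u) (f :: v0 :: v) a b) (nn (S.V1_0 a e u0 u [d] (f :: v0 :: v) b) (np (S.V12 (a :: u0 :: u) [d] (f :: v0 :: v) e b) (nn (S.Vab [d] (a :: u0 :: u) (f :: v0 :: v) e b) (np (S.V23 [b, d] (a :: u0 :: u) (f :: v0 :: v) e) (nn (S.V12 [d] (f :: v0 :: v) (a :: u0 :: u) b e) (np (S.V1_0 b f v0 v [d] (a :: u0 :: u) e) (nn (S.V12 (b :: v0 :: v) [d] (a :: u0 :: u) f e) (np (S.V23 [f, d] (b :: v0 :: v) (a :: u0 :: u) e) (S.Vab [d] (a :: u0 :: u) (b :: v0 :: v) f e)))))))))))))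
  have k15 : S.T (b :: f :: e :: a :: u0 :: u) (v0 :: v) [d] = S.T (f :: e :: b :: a :: u0 :: u) (v0 :: v) [d] := (np (S.T1_0 b f e (a :: u0 :: u) (v0 :: v) [d]) (S.T1_1 f b e a (u0 :: u) (v0 :: v) [d]))
  have k16 : S.V (f :: e :: a :: u0 :: u) (v0 :: v) [d] b = S.V [e, d] (b :: a :: u0 :: u) (v0 :: v) f := (np (S.V23 (f :: e :: a :: u0 :: u) (v0 :: v) [d] b) (nn (S.V12 (e :: a :: u0 :: u) [d] (v0 :: v) f b) (np (S.Vab [d] (e :: a :: u0 :: u) (v0 :: v) f b) (nn (S.V12 [d] (e :: a :: u0 :: u) (v0 :: v) b f) (np (S.V1_0 b e a (u0 :: u) [d] (v0 :: v) f) (S.V12 (b :: a :: u0 :: u) [d] (v0 :: v) e f))))))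
  have k17 : S.V (v0 :: v) (f :: e :: a :: u0 :: u) [d] b = S.V [f, d] (e :: b :: a :: u0 :: u) v v0 := (np (S.V23 (v0 :: v) (f :: e :: a :: u0 :: u) [d] b) (nn (S.V12 v [d] (f :: e :: a :: u0 :: u) v0 b) (np (S.V23 [v0, d] v (f :: e :: a :: u0 :: u) b) (nn (S.Vab [d] (f :: e :: a :: u0 :: u) v v0 b) (np (S.V12 [d] (f :: e :: a :: u0 :: u) v b v0) (nn (S.V1_1 b f e a (u0 :: u) [d] v v0) (np (S.V1_0 b e f (a :: u0 :: u) [d] v v0) (nn (S.V1_1 e b f a (u0 :: u) [d] v v0) (np (S.V12 (f :: b :: a :: u0 :: u) [d] v e v0) (nn (S.V12 [d] (f :: b :: a :: u0 :: u) v e v0) (np (S.V1_0 e f b (a :: u0 :: u) [d] v v0) (S.V12 (e :: b :: a :: u0 :: u) [d] v f v0))))))))))))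
  have k18 : S.T (f :: a :: e :: b :: u0 :: u) (v0 :: v) [d] = S.T (f :: e :: b :: a :: u0 :: u) (v0 :: v) [d] := (np (S.T1_1 f a e b (u0 :: u) (v0 :: v) [d]) (S.T1_2 f e a b u0 u (v0 :: v) [d]))
  have k19 : S.T (b :: u0 :: u) (f :: a :: e :: v0 :: v) [d] = -S.T (b :: u0 :: u) (f :: e :: a :: v0 :: v) [d] := (S.T2_1 f a e v0 v (b :: u0 :: u) [d])
  have k20 : S.V (b :: u0 :: u) (v0 :: v) [f, a, d] e = S.V [e, b, a, d] (u0 :: u) (v0 :: v) f := (np (S.V23 (b :: u0 :: u) (v0 :: v) [f, a, d] e) (nn (S.V12 (u0 :: u) [f, a, d] (v0 :: v) b e) (np (S.V1_0 b f a [d] (u0 :: u) (v0 :: v) e) (S.Vab [b, a, d] (u0 :: u) (v0 :: v) f e))))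
  have k21 : S.V (v0 :: v) (b :: u0 :: u) [f, a, d] e = S.V [f, b, a, d] (e :: u0 :: u) v v0 := (np (S.V23 (v0 :: v) (b :: u0 :: u) [f, a, d] e) (nn (S.V12 v [f, a, d] (b :: u0 :: u) v0 e) (np (S.V23 [v0, f, a, d] v (b :: u0 :: u) e) (nn (S.V12 [f, a, d] (b :: u0 :: u) v v0 e) (np (S.V1_0 v0 b u0 u [f, a, d] v e) (nn (S.V12 (v0 :: u0 :: u) [f, a, d] v b e) (np (S.V1_0 b f a [d] (v0 :: u0 :: u) v e) (nn (S.Vab [b, a, d] (v0 :: u0 :: u) v f e) (np (S.V12 [b, a, d] (v0 :: u0 :: u) v e f) (nn (S.V1_0 e v0 u0 u [b, a, d] v f) (np (S.V12 (e :: u0 :: u) [b, a, d] v v0 f) (S.Vab [b, a, d] (e :: u0 :: u) v v0 f))))))))))))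
  have k22 : S.V (a :: e :: b :: u0 :: u) (v0 :: v) [d] f = S.V [e, d] (b :: a :: u0 :: u) (v0 :: v) f := (np (S.V23 (a :: e :: b :: u0 :: u) (v0 :: v) [d] f) (nn (S.V12 (e :: b :: u0 :: u) [d] (v0 :: v) a f) (np (S.V12 [d] (e :: b :: u0 :: u) (v0 :: v) a f) (nn (S.V1_1 a e b u0 u [d] (v0 :: v) f) (np (S.V1_0 a b e (u0 :: u) [d] (v0 :: v) f) (nn (S.V1_1 b a e u0 u [d] (v0 :: v) f) (np (S.V12 (e :: a :: u0 :: u) [d] (v0 :: v) b f) (nn (S.V12 [d] (e :: a :: u0 :: u) (v0 :: v) b f) (np (S.V1_0 b e a (u0 :: u) [d] (v0 :: v) f) (S.V12 (b :: a :: u0 :: u) [d] (v0 :: v) e f))))))))))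
  have k23 : S.V (a :: e :: v0 :: v) (b :: u0 :: u) [d] f = -S.V [e, d] (a :: u0 :: u) (b :: v0 :: v) f := (nn (S.V23 (a :: e :: v0 :: v) (b :: u0 :: u) [d] f) (np (S.V12 (e :: v0 :: v) [d] (b :: u0 :: u) a f) (nn (S.V23 [a, d] (e :: v0 :: v) (b :: u0 :: u) f) (np (S.V12 [d] (b :: u0 :: u) (e :: v0 :: v) a f) (nn (S.V1_0 a b u0 u [d] (e :: v0 :: v) f) (np (S.V12 (a :: u0 :: u) [d] (e :: v0 :: v) b f) (nn (S.V23 [b, d] (a :: u0 :: u) (e :: v0 :: v) f) (np (S.V12 [d] (e :: v0 :: v) (a :: u0 :: u) b f) (nn (S.V1_0 b e v0 v [d] (a :: u0 :: u) f) (np (S.V12 (b :: v0 :: v) [d] (a :: u0 :: u) e f) (S.V23 [e, d] (b :: v0 :: v) (a :: u0 :: u) f)))))))))))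
  have k24 : S.T [b, f, a, d] (v0 :: v) (e :: u0 :: u) = -S.T [f, b, a, d] (v0 :: v) (e :: u0 :: u) := (S.T1_0 b f a [d] (v0 :: v) (e :: u0 :: u))
  have k25 : S.V [f, a, d] (v0 :: v) (e :: u0 :: u) b = -S.V [e, a, d] (b :: u0 :: u) (v0 :: v) f := (nn (S.V23 [f, a, d] (v0 :: v) (e :: u0 :: u) b) (np (S.Vab [a, d] (e :: u0 :: u) (v0 :: v) f b) (nn (S.V12 [a, d] (e :: u0 :: u) (v0 :: v) b f) (np (S.V1_0 b e u0 u [a, d] (v0 :: v) f) (S.V12 (b :: u0 :: u) [a, d] (v0 :: v) e f)))))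
  have k26 : S.V (v0 :: v) [f, a, d] (e :: u0 :: u) b = S.V [f, b, a, d] (e :: u0 :: u) v v0 := (np (S.V12 v [f, a, d] (e :: u0 :: u) v0 b) (nn (S.V23 [v0, f, a, d] v (e :: u0 :: u) b) (np (S.Vab [f, a, d] (e :: u0 :: u) v v0 b) (S.V1_0 b f a [d] (e :: u0 :: u) v v0))))
  have k27 : S.T (u0 :: u) (b :: f :: e :: a :: v0 :: v) [d] = S.T (u0 :: u) (f :: e :: b :: a :: v0 :: v) [d] := (np (S.T2_0 b f e (a :: v0 :: v) (u0 :: u) [d]) (S.T2_1 f b e a (v0 :: v) (u0 :: u) [d]))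
  have k28 : S.V (u0 :: u) (f :: e :: a :: v0 :: v) [d] b = -S.V [f, d] u (e :: b :: a :: v0 :: v) u0 := (nn (S.V23 (u0 :: u) (f :: e :: a :: v0 :: v) [d] b) (np (S.V12 u [d] (f :: e :: a :: v0 :: v) u0 b) (nn (S.Vab [d] u (f :: e :: a :: v0 :: v) u0 b) (np (S.V23 [b, d] u (f :: e :: a :: v0 :: v) u0) (nn (S.V12 [d] (f :: e :: a :: v0 :: v) u b u0) (np (S.V1_1 b f e a (v0 :: v) [d] u u0) (nn (S.V1_0 b e f (a :: v0 :: v) [d] u u0) (np (S.V1_1 e b f a (v0 :: v) [d] u u0) (nn (S.V12 (f :: b :: a :: v0 :: v) [d] u e u0) (np (S.V23 [e, d] (f :: b :: a :: v0 :: v) u u0) (nn (S.V23 [e, d] u (f :: b :: a :: v0 :: v) u0) (np (S.V12 [d] (f :: b :: a :: v0 :: v) u e u0) (nn (S.V1_0 e f b (a :: v0 :: v) [d] u u0) (np (S.V12 (e :: b :: a :: v0 :: v) [d] u f u0) (S.V23 [f, d] (e :: b :: a :: v0 :: v) u u0)))))))))))))))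
  have k29 : S.V (f :: e :: a :: v0 :: v) (u0 :: u) [d] b = -S.V [e, d] (u0 :: u) (b :: a :: v0 :: v) f := (nn (S.V23 (f :: e :: a :: v0 :: v) (u0 :: u) [d] b) (np (S.V12 (e :: a :: v0 :: v) [d] (u0 :: u) f b) (nn (S.V23 [f, d] (e :: a :: v0 :: v) (u0 :: u) b) (np (S.Vab [d] (u0 :: u) (e :: a :: v0 :: v) f b) (nn (S.V23 [b, d] (u0 :: u) (e :: a :: v0 :: v) f) (np (S.V12 [d] (e :: a :: v0 :: v) (u0 :: u) b f) (nn (S.V1_0 b e a (v0 :: v) [d] (u0 :: u) f) (np (S.V12 (b :: a :: v0 :: v) [d] (u0 :: u) e f) (S.V23 [e, d] (b :: a :: v0 :: v) (u0 :: u) f)))))))))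
  have k30 : S.T [a, f, e, d] (u0 :: u) (b :: v0 :: v) = S.T [f, e, a, d] (u0 :: u) (b :: v0 :: v) := (np (S.T1_0 a f e [d] (u0 :: u) (b :: v0 :: v)) (S.T1_1 f a e d [] (u0 :: u) (b :: v0 :: v)))
  have k31 : S.T [d] (a :: f :: e :: u0 :: u) (b :: v0 :: v) = S.T [d] (f :: e :: a :: u0 :: u) (b :: v0 :: v) := (np (S.T2_0 a f e (u0 :: u) [d] (b :: v0 :: v)) (S.T2_1 f a e u0 u [d] (b :: v0 :: v)))
  have k32 : S.V [d] (u0 :: u) (a :: f :: b :: v0 :: v) e = S.V [e] (u0 :: u) (d :: b :: a :: v0 :: v) f := (np (S.V23 [d] (u0 :: u) (a :: f :: b :: v0 :: v) e) (nn (S.V12 [] (a :: f :: b :: v0 :: v) (u0 :: u) d e) (np (S.V1_0 d a f (b :: v0 :: v) [] (u0 :: u) e) (nn (S.V12 (d :: f :: b :: v0 :: v) [] (u0 :: u) a e) (np (S.V23 [a] (d :: f :: b :: v0 :: v) (u0 :: u) e) (nn (S.V23 [a] (u0 :: u) (d :: f :: b :: v0 :: v) e) (np (S.V12 [] (d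 :: f :: b :: v0 :: v) (u0 :: u) a e) (nn (S.V1_2 a d f b v0 v [] (u0 :: u) e) (np (S.V1_1 a d b f (v0 :: v) [] (u0 :: u) e) (nn (S.V1_0 a b d (f :: v0 :: v) [] (u0 :: u) e) (np (S.V1_1 b a d f (v0 :: v) [] (u0 :: u) e) (nn (S.V1_2 b d a f v0 v [] (u0 :: u) e) (np (S.V12 (d :: f :: a :: v0 :: v) [] (u0 :: u) b e) (nn (S.V23 [b] (d :: f :: a :: v0 :: v) (u0 :: u) e) (np (S.V23 [b] (u0 :: u) (d :: f :: a :: v0 :: v) e) (nn (S.V12 [] (d :: f :: a :: v0 :: v) (u0 :: u) b e) (np (S.V1_1 b d f a (v0 :: v) [] (u0 :: u) e) (nn (S.V1_0 b f d (a :: v0 :: v) [] (u0 :: u) e) (np (S.V1_1 f b d a (v0 :: v) [] (u0 :: u) e) (nn (S.V12 (d :: b :: a :: v0 :: v) [] (u0 :: u) f e) (np (S.V23 [f] (d :: b :: a :: v0 :: v) (u0 :: u) e) (S.Vab [] (u0 :: u) (d :: b :: a :: v0 :: v) f e))))))))))))))))))))))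
  have k33 : S.V (u0 :: u) [d] (a :: f :: b :: v0 :: v) e = -S.V [f, d] u (e :: b :: a :: v0 :: v) u0 := (nn (S.V12 u [d] (a :: f :: b :: v0 :: v) u0 e) (np (S.V23 [u0, d] u (a :: f :: b :: v0 :: v) e) (nn (S.V12 [d] (a :: f :: b :: v0 :: v) u u0 e) (np (S.V1_0 u0 a f (b :: v0 :: v) [d] u e) (nn (S.V12 (u0 :: f :: b :: v0 :: v) [d] u a e) (np (S.V23 [a, d] (u0 :: f :: b :: v0 :: v) u e) (nn (S.V23 [a, d] u (u0 :: f :: b :: v0 :: v) e) (np (S.V12 [d] (u0 :: f :: b :: v0 :: v) u a e) (nn (S.V1_2 a u0 f b v0 v [d] u e) (np (S.V1_1 a u0 b f (v0 :: v) [d] u e) (nn (S.V1_0 a b u0 (f :: v0 :: v) [d] u e) (np (S.V1_1 b a u0 f (v0 :: v) [d] u e) (nn (S.V1_2 b u0 a f v0 v [d] u e) (np (S.V12 (u0 :: f :: a :: v0 :: v) [d] u b e) (nn (S.V23 [b, d] (u0 :: f :: a :: v0 :: v) u e) (np (S.V23 [b, d] u (u0 :: f :: a :: v0 :: v) e) (nn (S.V12 [d]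 (u0 :: f :: a :: v0 :: v) u b e) (np (S.V1_1 b u0 f a (v0 :: v) [d] u e) (nn (S.V1_0 b f u0 (a :: v0 :: v) [d] u e) (np (S.V1_1 f b u0 a (v0 :: v) [d] u e) (nn (S.V12 (u0 :: b :: a :: v0 :: v) [d] u f e) (np (S.V23 [f, d] (u0 :: b :: a :: v0 :: v) u e) (nn (S.Vab [d] u (u0 :: b :: a :: v0 :: v) f e) (np (S.V23 [e, d] u (u0 :: b :: a :: v0 :: v) f) (nn (S.V12 [d] (u0 :: b :: a :: v0 :: v) u e f) (np (S.V1_0 e u0 b (a :: v0 :: v) [d] u f) (nn (S.V12 (e :: b :: a :: v0 :: v) [d] u u0 f) (np (S.V23 [u0, d] (e :: b :: a :: v0 :: v) u f) (S.Vab [d] u (e :: b :: a :: v0 :: v) u0 f)))))))))))))))))))))))))))))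
  have k34 : S.V [f, e, d] (u0 :: u) (b :: v0 :: v) a = S.V [e, a, d] (u0 :: u) (b :: v0 :: v) f := (np (S.Vab [e, d] (u0 :: u) (b :: v0 :: v) f a) (S.V1_0 a e d [] (u0 :: u) (b :: v0 :: v) f))
  have k35 : S.V (f :: e :: u0 :: u) [d] (b :: v0 :: v) a = -S.V [e, d] (a :: u0 :: u) (b :: v0 :: v) f := (nn (S.V12 (e :: u0 :: u) [d] (b :: v0 :: v) f a) (np (S.Vab [d] (e :: u0 :: u) (b :: v0 :: v) f a) (nn (S.V12 [d] (e :: u0 :: u) (b :: v0 :: v) a f) (np (S.V1_0 a e u0 u [d] (b :: v0 :: v) f) (S.V12 (a :: u0 :: u) [d] (b :: v0 :: v) e f)))))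
  have k36 : S.T [] (d :: f :: e :: a :: u0 :: u) (b :: v0 :: v) = S.T [] (f :: e :: d :: a :: u0 :: u) (b :: v0 :: v) := (np (S.T2_0 d f e (a :: u0 :: u) [] (b :: v0 :: v)) (S.T2_1 f d e a (u0 :: u) [] (b :: v0 :: v)))
  have k37 : S.V (f :: e :: a :: u0 :: u) [] (b :: v0 :: v) d = S.V [e] (b :: a :: u0 :: u) (d :: v0 :: v) f := (np (S.V12 (e :: a :: u0 :: u) [] (b :: v0 :: v) f d) (nn (S.V23 [f] (e :: a :: u0 :: u) (b :: v0 :: v) d) (np (S.V12 [] (b :: v0 :: v) (e :: a :: u0 :: u) f d) (nn (S.V1_0 f b v0 v [] (e :: a :: u0 :: u) d) (np (S.V12 (f :: v0 :: v) [] (e :: a :: u0 :: u) b d) (nn (S.V23 [b] (f :: v0 :: v) (e :: a :: u0 :: u) d) (np (S.V12 [] (e :: a :: u0 :: u) (f :: v0 :: v) b d) (nn (S.V1_0 b e a (u0 :: u) [] (f :: v0 :: v) d) (np (S.V12 (b :: a :: u0 :: u) [] (f :: v0 :: v) e d) (nn (S.Vab [] (b :: a :: u0 :: u) (f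 :: v0 :: v) e d) (np (S.V23 [d] (b :: a :: u0 :: u) (f :: v0 :: v) e) (nn (S.V12 [] (f :: v0 :: v) (b :: a :: u0 :: u) d e) (np (S.V1_0 d f v0 v [] (b :: a :: u0 :: u) e) (nn (S.V12 (d :: v0 :: v) [] (b :: a :: u0 :: u) f e) (np (S.V23 [f] (d :: v0 :: v) (b :: a :: u0 :: u) e) (S.Vab [] (b :: a :: u0 :: u) (d :: v0 :: v) f e))))))))))))))))
  have k38 : S.T [] (f :: a :: d :: b :: v0 :: v) (e :: u0 :: u) = S.T [] (f :: d :: b :: a :: v0 :: v) (e :: u0 :: u) := (np (S.T2_1 f a d b (v0 :: v) [] (e :: u0 :: u)) (S.T2_2 f d a b v0 v [] (e :: u0 :: u)))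
  have k39 : S.V [] (b :: v0 :: v) (f :: a :: e :: u0 :: u) d = S.V [] (f :: e :: a :: u0 :: u) (b :: v0 :: v) d := (np (S.V3_1 f a e u0 u [] (b :: v0 :: v) d) (S.V23 [] (b :: v0 :: v) (f :: e :: a :: u0 :: u) d))
  have k40 : S.V (b :: v0 :: v) [] (f :: a :: e :: u0 :: u) d = -S.V [e] (d :: b :: a :: u0 :: u) (v0 :: v) f := (nn (S.V12 (v0 :: v) [] (f :: a :: e :: u0 :: u) b d) (np (S.V23 [b] (v0 :: v) (f :: a :: e :: u0 :: u) d) (nn (S.V12 [] (f :: a :: e :: u0 :: u) (v0 :: v) b d) (np (S.V1_1 b f a e (u0 :: u) [] (v0 :: v) d) (nn (S.V1_0 b a f (e :: u0 :: u) [] (v0 :: v) d) (np (S.V1_1 a b f e (u0 :: u) [] (v0 :: v) d) (nn (S.V12 (f :: b :: e :: u0 :: u) [] (v0 :: v) a d) (np (S.V12 [] (f :: b :: e :: u0 :: u) (v0 :: v) a d) (nn (S.V1_2 a f b e u0 u [] (v0 :: v) d) (np (S.V1_1 a f e b (u0 :: u) [] (v0 :: v) d) (nn (S.V1_0 a e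 f (b :: u0 :: u) [] (v0 :: v) d) (np (S.V1_1 e a f b (u0 :: u) [] (v0 :: v) d) (nn (S.V1_2 e f a b u0 u [] (v0 :: v) d) (np (S.V12 (f :: b :: a :: u0 :: u) [] (v0 :: v) e d) (nn (S.Vab [] (f :: b :: a :: u0 :: u) (v0 :: v) e d) (np (S.V12 [] (f :: b :: a :: u0 :: u) (v0 :: v) d e) (nn (S.V1_0 d f b (a :: u0 :: u) [] (v0 :: v) e) (np (S.V12 (d :: b :: a :: u0 :: u) [] (v0 :: v) f e) (S.Vab [] (d :: b :: a :: u0 :: u) (v0 :: v) f e)))))))))))))))))))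
  have k41 : S.V [a, d] (b :: v0 :: v) (e :: u0 :: u) f = S.V [e, d] (a :: u0 :: u) (b :: v0 :: v) f := (np (S.V23 [a, d] (b :: v0 :: v) (e :: u0 :: u) f) (nn (S.V12 [d] (e :: u0 :: u) (b :: v0 :: v) a f) (np (S.V1_0 a e u0 u [d] (b :: v0 :: v) f) (S.V12 (a :: u0 :: u) [d] (b :: v0 :: v) e f))))
  have k42 : S.V (a :: d :: b :: v0 :: v) [] (e :: u0 :: u) f = -S.V [e] (a :: u0 :: u) (d :: b :: v0 :: v) f := (nn (S.V12 (d :: b :: v0 :: v) [] (e :: u0 :: u) a f) (np (S.V23 [a] (d :: b :: v0 :: v) (e :: u0 :: u) f) (nn (S.V12 [] (e :: u0 :: u) (d :: b :: v0 :: v) a f) (np (S.V1_0 a e u0 u [] (d :: b :: v0 :: v) f) (S.V12 (a :: u0 :: u) [] (d :: b :: v0 :: v) e f)))))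
  have k43 : S.T [] (d :: f :: b :: a :: v0 :: v) (e :: u0 :: u) = -S.T [] (f :: d :: b :: a :: v0 :: v) (e :: u0 :: u) := (S.T2_0 d f b (a :: v0 :: v) [] (e :: u0 :: u))
  have k44 : S.V [] (f :: b :: a :: v0 :: v) (e :: u0 :: u) d = -S.V [] (e :: u0 :: u) (f :: b :: a :: v0 :: v) d := (S.V23 [] (f :: b :: a :: v0 :: v) (e :: u0 :: u) d)
  have k45 : S.V (f :: b :: a :: v0 :: v) [] (e :: u0 :: u) d = S.V [e] (a :: u0 :: u) (d :: b :: v0 :: v) f := (np (S.V12 (b :: a :: v0 :: v) [] (e :: u0 :: u) f d) (nn (S.V23 [f] (b :: a :: v0 :: v) (e :: u0 :: u) d) (np (S.V23 [f] (e :: u0 :: u) (b :: a :: v0 :: v) d) (nn (S.V12 [] (b :: a :: v0 :: v) (e :: u0 :: u) f d) (np (S.V1_1 f b a v0 v [] (e :: u0 :: u) d) (nn (S.V1_0 f a b (v0 :: v) [] (e :: u0 :: u) d) (np (S.V1_1 a f b v0 v [] (e :: u0 :: u) d) (nn (S.V12 (b :: f :: v0 :: v) [] (e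 :: u0 :: u) a d) (np (S.V23 [a] (b :: f :: v0 :: v) (e :: u0 :: u) d) (nn (S.V12 [] (e :: u0 :: u) (b :: f :: v0 :: v) a d) (np (S.V1_0 a e u0 u [] (b :: f :: v0 :: v) d) (nn (S.V12 (a :: u0 :: u) [] (b :: f :: v0 :: v) e d) (np (S.V23 [e] (a :: u0 :: u) (b :: f :: v0 :: v) d) (nn (S.V12 [] (b :: f :: v0 :: v) (a :: u0 :: u) e d) (np (S.V1_0 e b f (v0 :: v) [] (a :: u0 :: u) d) (nn (S.V12 (e :: f :: v0 :: v) [] (a :: u0 :: u) b d) (np (S.V23 [b] (e :: f :: v0 :: v) (a :: u0 :: u) d) (nn (S.V23 [b] (a :: u0 :: u) (e :: f :: v0 :: v) d) (np (S.V12 [] (e :: f :: v0 :: v) (a :: u0 :: u) b d) (nn (S.V1_1 b e f v0 v [] (a :: u0 :: u) d) (np (S.V1_0 b f e (v0 :: v) [] (a :: u0 :: u) d) (nn (S.V1_1 f b e v0 v [] (a :: u0 :: u) d) (np (S.V12 (e :: b :: v0 :: v) [] (a :: u0 :: u) f d) (nn (S.V23 [f] (e :: b :: v0 :: v) (a :: u0 :: u) d)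 (np (S.Vab [] (a :: u0 :: u) (e :: b :: v0 :: v) f d) (nn (S.V23 [d] (a :: u0 :: u) (e :: b :: v0 :: v) f) (np (S.V12 [] (e :: b :: v0 :: v) (a :: u0 :: u) d f) (nn (S.V1_0 d e b (v0 :: v) [] (a :: u0 :: u) f) (np (S.V12 (d :: b :: v0 :: v) [] (a :: u0 :: u) e f) (S.V23 [e] (d :: b :: v0 :: v) (a :: u0 :: u) f))))))))))))))))))))))))))))))
  have k46 : S.T [] (f :: a :: d :: e :: u0 :: u) (b :: v0 :: v) = -S.T [] (f :: e :: d :: a :: u0 :: u) (b :: v0 :: v) := (nn (S.T2_2 f a d e u0 u [] (b :: v0 :: v)) (np (S.T2_1 f a e d (u0 :: u) [] (b :: v0 :: v)) (S.T2_2 f e a d u0 u [] (b :: v0 :: v))))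
  have k47 : S.V [] (e :: u0 :: u) (f :: a :: b :: v0 :: v) d = -S.V [] (e :: u0 :: u) (f :: b :: a :: v0 :: v) d := (S.V3_1 f a b v0 v [] (e :: u0 :: u) d)
  have k48 : S.V (e :: u0 :: u) [] (f :: a :: b :: v0 :: v) d = -S.V [e] (u0 :: u) (d :: b :: a :: v0 :: v) f := (nn (S.V12 (u0 :: u) [] (f :: a :: b :: v0 :: v) e d) (np (S.V23 [e] (u0 :: u) (f :: a :: b :: v0 :: v) d) (nn (S.V12 [] (f :: a :: b :: v0 :: v) (u0 :: u) e d) (np (S.V1_1 e f a b (v0 :: v) [] (u0 :: u) d) (nn (S.V1_0 e a f (b :: v0 :: v) [] (u0 :: u) d) (np (S.V1_1 a e f b (v0 :: v) [] (u0 :: u) d) (nn (S.V12 (f :: e :: b :: v0 :: v) [] (u0 :: u) a d) (np (S.V23 [a] (f :: e :: b :: v0 :: v) (u0 :: u) d) (nn (S.V23 [a] (u0 :: u) (f :: e :: b :: v0 :: v) d) (np (S.V12 [] (f :: e :: b :: v0 :: v) (u0 :: u) a d) (nn (S.V1_2 a f e b v0 v [] (u0 :: u) d) (np (S.V1_1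 a f b e (v0 :: v) [] (u0 :: u) d) (nn (S.V1_0 a b f (e :: v0 :: v) [] (u0 :: u) d) (np (S.V1_1 b a f e (v0 :: v) [] (u0 :: u) d) (nn (S.V1_2 b f a e v0 v [] (u0 :: u) d) (np (S.V12 (f :: e :: a :: v0 :: v) [] (u0 :: u) b d) (nn (S.V23 [b] (f :: e :: a :: v0 :: v) (u0 :: u) d) (np (S.V23 [b] (u0 :: u) (f :: e :: a :: v0 :: v) d) (nn (S.V12 [] (f :: e :: a :: v0 :: v) (u0 :: u) b d) (np (S.V1_1 b f e a (v0 :: v) [] (u0 :: u) d) (nn (S.V1_0 b e f (a :: v0 :: v) [] (u0 :: u) d) (np (S.V1_1 e b f a (v0 :: v) [] (u0 :: u) d) (nn (S.V12 (f :: b :: a :: v0 :: v) [] (u0 :: u) e d) (np (S.V23 [e] (f :: b :: a :: v0 :: v) (u0 :: u) d) (nn (S.Vab [] (u0 :: u) (f :: b :: a :: v0 :: v) e d) (np (S.V23 [d] (u0 :: u) (f :: b :: a :: v0 :: v) e) (nn (S.V12 [] (f :: b :: a :: v0 :: v) (u0 :: u) d e) (np (S.V1_0 d f b (a :: v0 :: v) [] (u0 :: u)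 e) (nn (S.V12 (d :: b :: a :: v0 :: v) [] (u0 :: u) f e) (np (S.V23 [f] (d :: b :: a :: v0 :: v) (u0 :: u) e) (S.Vab [] (u0 :: u) (d :: b :: a :: v0 :: v) f e)))))))))))))))))))))))))))))))
  have k49 : S.V [a, d] (e :: u0 :: u) (b :: v0 :: v) f = -S.V [e, d] (a :: u0 :: u) (b :: v0 :: v) f := (nn (S.V12 [d] (e :: u0 :: u) (b :: v0 :: v) a f) (np (S.V1_0 a e u0 u [d] (b :: v0 :: v) f) (S.V12 (a :: u0 :: u) [d] (b :: v0 :: v) e f)))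
  have k50 : S.V (a :: d :: e :: u0 :: u) [] (b :: v0 :: v) f = -S.V [e] (b :: a :: u0 :: u) (d :: v0 :: v) f := (nn (S.V12 (d :: e :: u0 :: u) [] (b :: v0 :: v) a f) (np (S.V12 [] (d :: e :: u0 :: u) (b :: v0 :: v) a f) (nn (S.V1_1 a d e u0 u [] (b :: v0 :: v) f) (np (S.V1_0 a e d (u0 :: u) [] (b :: v0 :: v) f) (nn (S.V1_1 e a d u0 u [] (b :: v0 :: v) f) (np (S.V12 (d :: a :: u0 :: u) [] (b :: v0 :: v) e f) (nn (S.V23 [e] (d :: a :: u0 :: u) (b :: v0 :: v) f) (np (S.V12 [] (b :: v0 :: v) (d :: a :: u0 :: u) e f) (nn (S.V1_0 e b v0 v [] (d :: a :: u0 :: u) f) (np (S.V12 (e :: v0 :: v) [] (d :: a :: u0 :: u) b f) (nn (S.V23 [b] (e :: v0 :: v) (d :: a :: u0 :: u) f) (np (S.V12 [] (d :: a :: u0 :: u) (e :: v0 :: v) b f) (nn (S.V1_0 b d a (u0 :: u) [] (e :: v0 :: v) f) (np (S.V12 (b :: a :: u0 :: u) [] (e :: v0 :: v) d f) (nn (S.V23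 [d] (b :: a :: u0 :: u) (e :: v0 :: v) f) (np (S.V12 [] (e :: v0 :: v) (b :: a :: u0 :: u) d f) (nn (S.V1_0 d e v0 v [] (b :: a :: u0 :: u) f) (np (S.V12 (d :: v0 :: v) [] (b :: a :: u0 :: u) e f) (S.V23 [e] (d :: v0 :: v) (b :: a :: u0 :: u) f)))))))))))))))))))
  have k51 : S.V (e :: a :: u0 :: u) (b :: v0 :: v) [d] f = S.V [e, d] (a :: u0 :: u) (b :: v0 :: v) f := (np (S.V23 (e :: a :: u0 :: u) (b :: v0 :: v) [d] f) (S.V12 (a :: u0 :: u) [d] (b :: v0 :: v) e f))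
  refine S.m6 ?_
  linear_combination (norm := module) (1:ℤ) • i0 + (1:ℤ) • i1 + (1:ℤ) • i2 + (-1:ℤ) • i3 + (1:ℤ) • i4 + (-1:ℤ) • i5 + (-1:ℤ) • i6 + (1:ℤ) • i7 + (1:ℤ) • i8 + (-1:ℤ) • i9 + (-1:ℤ) • i10 + (1:ℤ) • i11 + (-1:ℤ) • k0 + (1:ℤ) • k1 + (1:ℤ) • k2 + (1:ℤ) • k3 + (1:ℤ) • k4 + (1:ℤ) • k5 + (-1:ℤ) • k6 + (1:ℤ) • k7 + (1:ℤ) • k8 + (-1:ℤ) • k9 + (1:ℤ) • k10 + (1:ℤ) • k11 + (1:ℤ) • k12 + (1:ℤ) • k13 + (1:ℤ) • k14 + (1:ℤ) • k15 + (-1:ℤ) • k16 + (-1:ℤ) • k17 + (-1:ℤ) • k18 + (1:ℤ) • k19 + (1:ℤ) • k20 + (1:ℤ) • k21 + (1:ℤ) • k22 + (1:ℤ) • k23 + (1:ℤ) • k24 + (-1:ℤ) • k25 + (-1:ℤ) • k26 + (-1:ℤ) • k27 + (-1:ℤ) • k28 + (-1:ℤ) • k29 + (-1:ℤ) • k30 + (1:ℤ) • k31 + (1:ℤ) • k32 + (1:ℤ) • k33 + (1:ℤ) • k34 + (1:ℤ) • k35 + (1:ℤ) • k36 + (1:ℤ) • k37 + (-1:ℤ) • k38 + (-1:ℤ) • k39 + (-1:ℤ) • k40 + (-1:ℤ) • k41 + (-1:ℤ) • k42 + (-1:ℤ) • k43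 + (-1:ℤ) • k44 + (-1:ℤ) • k45 + (1:ℤ) • k46 + (1:ℤ) • k47 + (1:ℤ) • k48 + (1:ℤ) • k49 + (1:ℤ) • k50 + (6:ℤ) • k51

theorem P1V (u v : List α) (d a e : α) : S.V (a :: u) v [d] e = 0 := by
  rcases u with _ | ⟨x, _ | ⟨y, u⟩⟩
  · rw [S.V12, S.V23, S.Omega1, neg_zero, neg_zero]
  · rw [S.V12, S.Z11, neg_zero]
  · rcases v with _ | ⟨z, _ | ⟨w, v⟩⟩
    · rw [S.V23, S.Omega1, neg_zero]
    · rw [S.Z11]
    · exact S.E4 u v y w x z d a e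

theorem E5 (u v : List α) (u0 v0 a b d e f g : α) : S.V (f :: a :: u0 :: u) (b :: v0 :: v) [e, d] g = 0 := by
  have i0 := S.RI (g :: a :: u0 :: u) (e :: v0 :: v) [] b d f
  have i1 := S.RI (f :: d :: v0 :: v) (g :: u0 :: u) [] a b e
  have i2 := S.STAR [a] (b :: v0 :: v) (e :: u0 :: u) f d g
  have i3 := S.STAR [g, a] (v0 :: v) (e :: u0 :: u) b f d
  have i4 := S.G [a] (f :: d :: b :: v0 :: v) (e :: u0 :: u) g
  have i5 := S.G [g, f, d, a] (v0 :: v) (e :: u0 :: u) b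
  have i6 := S.STAR (e :: u0 :: u) (v0 :: v) [f, a] d g b
  have i7 := S.STAR [f, a] (u0 :: u) (e :: v0 :: v) g d b
  have i8 := S.G (u0 :: u) (e :: d :: b :: v0 :: v) [f, a] g
  have i9 := S.G (u0 :: u) (e :: d :: b :: v0 :: v) [a, f] g
  have i10 := S.G (u0 :: u) (g :: d :: b :: v0 :: v) [a, f] e
  have i11 := S.G (e :: d :: b :: u0 :: u) (v0 :: v) [f, a] g
  have i12 := S.STAR (u0 :: u) (g :: v0 :: v) [f, a] b d e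
  have i13 := S.G [g, f, b, a] (u0 :: u) (e :: v0 :: v) d
  have i14 := S.G [a] (g :: d :: b :: u0 :: u) (e :: v0 :: v) f
  have i15 := S.STAR [a] (d :: u0 :: u) (e :: v0 :: v) g b f
  have k0 : S.V (g :: a :: u0 :: u) (e :: v0 :: v) [f, d] b = -S.V [f, a, d] (b :: u0 :: u) (e :: v0 :: v) g := (nn (S.V23 (g :: a :: u0 :: u) (e :: v0 :: v) [f, d] b) (np (S.V12 (a :: u0 :: u) [f, d] (e :: v0 :: v) g b) (nn (S.V12 [f, d] (a :: u0 :: u) (e :: v0 :: v) g b) (np (S.V1_0 g a u0 u [f, d] (e :: v0 :: v) b) (nn (S.V12 (g :: u0 :: u) [f, d] (e :: v0 :: v) a b) (np (S.V1_0 a f d [] (g :: u0 :: u) (e :: v0 :: v) b) (nn (S.Vab [a, d] (g :: u0 :: u) (e :: v0 :: v) f b) (np (S.V12 [a, d] (g :: u0 :: u) (e :: v0 :: v) b f) (nn (S.V1_0 b g u0 u [a, d] (e :: v0 :: v) f) (np (S.V12 (b :: u0 :: u) [a, d] (e :: v0 :: v) g f) (S.Vab [a, d] (b :: u0 ::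 u) (e :: v0 :: v) g f)))))))))))
  have k1 : S.V (g :: a :: u0 :: u) (e :: v0 :: v) [f, b] d = -S.V [f, a, b] (d :: u0 :: u) (e :: v0 :: v) g := (nn (S.V23 (g :: a :: u0 :: u) (e :: v0 :: v) [f, b] d) (np (S.V12 (a :: u0 :: u) [f, b] (e :: v0 :: v) g d) (nn (S.V12 [f, b] (a :: u0 :: u) (e :: v0 :: v) g d) (np (S.V1_0 g a u0 u [f, b] (e :: v0 :: v) d) (nn (S.V12 (g :: u0 :: u) [f, b] (e :: v0 :: v) a d) (np (S.V1_0 a f b [] (g :: u0 :: u) (e :: v0 :: v) d) (nn (S.Vab [a, b] (g :: u0 :: u) (e :: v0 :: v) f d) (np (S.V12 [a, b] (g :: u0 :: u) (e :: v0 :: v) d f) (nn (S.V1_0 d g u0 u [a, b] (e :: v0 :: v) f) (np (S.V12 (d :: u0 :: u) [a, b] (e :: v0 :: v) g f) (S.Vab [a, b] (d :: u0 :: u) (e :: v0 :: v) g f)))))))))))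
  have k2 : S.V (d :: b :: g :: a :: u0 :: u) (e :: v0 :: v) [] f = -S.V [f] (d :: b :: a :: u0 :: u) (e :: v0 :: v) g := (nn (S.V23 (d :: b :: g :: a :: u0 :: u) (e :: v0 :: v) [] f) (np (S.V12 (b :: g :: a :: u0 :: u) [] (e :: v0 :: v) d f) (nn (S.V12 [] (b :: g :: a :: u0 :: u) (e :: v0 :: v) d f) (np (S.V1_0 d b g (a :: u0 :: u) [] (e :: v0 :: v) f) (nn (S.V12 (d :: g :: a :: u0 :: u) [] (e :: v0 :: v) b f) (np (S.V12 [] (d :: g :: a :: u0 :: u) (e :: v0 :: v) b f) (nn (S.V1_1 b d g a (u0 :: u) [] (e :: v0 :: v) f) (np (S.V1_0 b g d (a :: u0 :: u) [] (e :: v0 :: v) f) (nn (S.V1_1 g b d a (u0 :: u) [] (e :: v0 :: v) f) (np (S.V12 (d :: b :: a :: u0 :: u) [] (e :: v0 :: v) g f) (S.Vab [] (d :: b :: a :: u0 :: u) (e :: v0 :: v) g f)))))))))))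
  have k3 : S.V (b :: d :: g :: a :: u0 :: u) (e :: v0 :: v) [] f = S.V [f] (d :: b :: a :: u0 :: u) (e :: v0 :: v) g := (np (S.V23 (b :: d :: g :: a :: u0 :: u) (e :: v0 :: v) [] f) (nn (S.V12 (d :: g :: a :: u0 :: u) [] (e :: v0 :: v) b f) (np (S.V12 [] (d :: g :: a :: u0 :: u) (e :: v0 :: v) b f) (nn (S.V1_1 b d g a (u0 :: u) [] (e :: v0 :: v) f) (np (S.V1_0 b g d (a :: u0 :: u) [] (e :: v0 :: v) f) (nn (S.V1_1 g b d a (u0 :: u) [] (e :: v0 :: v) f) (np (S.V12 (d :: b :: a :: u0 :: u) [] (e :: v0 :: v) g f) (S.Vab [] (d :: b :: a :: u0 :: u) (e :: v0 :: v) g f))))))))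
  have k4 : S.T (f :: d :: b :: g :: a :: u0 :: u) (e :: v0 :: v) [] = -S.T (g :: f :: d :: b :: a :: u0 :: u) (e :: v0 :: v) [] := (nn (S.T1_2 f d b g a (u0 :: u) (e :: v0 :: v) []) (np (S.T1_1 f d g b (a :: u0 :: u) (e :: v0 :: v) []) (S.T1_0 f g d (b :: a :: u0 :: u) (e :: v0 :: v) [])))
  have k5 : S.T (f :: b :: d :: g :: a :: u0 :: u) (e :: v0 :: v) [] = S.T (g :: f :: d :: b :: a :: u0 :: u) (e :: v0 :: v) [] := (np (S.T1_2 f b d g a (u0 :: u) (e :: v0 :: v) []) (nn (S.T1_1 f b g d (a :: u0 :: u) (e :: v0 :: v) []) (np (S.T1_2 f g b d a (u0 :: u) (e :: v0 :: v) []) (S.T1_0 f g d (b :: a :: u0 :: u) (e :: v0 :: v) []))))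
  have k6 : S.V (f :: d :: v0 :: v) (g :: u0 :: u) [e, b] a = S.V [f, a, b] (d :: u0 :: u) (e :: v0 :: v) g := (np (S.V23 (f :: d :: v0 :: v) (g :: u0 :: u) [e, b] a) (nn (S.V12 (d :: v0 :: v) [e, b] (g :: u0 :: u) f a) (np (S.V23 [f, e, b] (d :: v0 :: v) (g :: u0 :: u) a) (nn (S.Vab [e, b] (g :: u0 :: u) (d :: v0 :: v) f a) (np (S.V1_0 a e b [] (g :: u0 :: u) (d :: v0 :: v) f) (nn (S.V23 [e, a, b] (g :: u0 :: u) (d :: v0 :: v) f) (np (S.V12 [a, b] (d :: v0 :: v) (g :: u0 :: u) e f) (nn (S.V1_0 e d v0 v [a, b] (g :: u0 :: u) f) (np (S.V12 (e :: v0 :: v) [a, b] (g :: u0 :: u) d f) (nn (S.V23 [d, a, b] (e :: v0 :: v) (g :: u0 :: u) f) (np (S.V12 [a, b] (g :: u0 :: u) (e :: v0 :: v) d f) (nn (S.V1_0 d g u0 u [a, b] (e :: v0 :: v) f) (np (S.V12 (d :: u0 :: u) [a, b] (e :: v0 :: v) g f) (S.Vab [a, b] (d :: u0 :: u) (e :: v0 :: v) g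 f))))))))))))))
  have k7 : S.V (f :: d :: v0 :: v) (g :: u0 :: u) [e, a] b = S.V [f, b, a] (d :: u0 :: u) (e :: v0 :: v) g := (np (S.V23 (f :: d :: v0 :: v) (g :: u0 :: u) [e, a] b) (nn (S.V12 (d :: v0 :: v) [e, a] (g :: u0 :: u) f b) (np (S.V23 [f, e, a] (d :: v0 :: v) (g :: u0 :: u) b) (nn (S.Vab [e, a] (g :: u0 :: u) (d :: v0 :: v) f b) (np (S.V1_0 b e a [] (g :: u0 :: u) (d :: v0 :: v) f) (nn (S.V23 [e, b, a] (g :: u0 :: u) (d :: v0 :: v) f) (np (S.V12 [b, a] (d :: v0 :: v) (g :: u0 :: u) e f) (nn (S.V1_0 e d v0 v [b, a] (g :: u0 :: u) f) (np (S.V12 (e :: v0 :: v) [b, a] (g :: u0 :: u) d f) (nn (S.V23 [d, b, a] (e :: v0 :: v) (g :: u0 :: u) f) (np (S.V12 [b, a] (g :: u0 :: u) (e :: v0 :: v) d f) (nn (S.V1_0 d g u0 u [b, a] (e :: v0 :: v) f) (np (S.V12 (d :: u0 :: u) [b, a] (e :: v0 :: v) g f) (S.Vab [b, a] (d :: u0 :: u) (e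 :: v0 :: v) g f))))))))))))))
  have k8 : S.V (b :: a :: f :: d :: v0 :: v) (g :: u0 :: u) [] e = -S.V [f] (a :: u0 :: u) (e :: d :: b :: v0 :: v) g := (nn (S.V23 (b :: a :: f :: d :: v0 :: v) (g :: u0 :: u) [] e) (np (S.V12 (a :: f :: d :: v0 :: v) [] (g :: u0 :: u) b e) (nn (S.V23 [b] (a :: f :: d :: v0 :: v) (g :: u0 :: u) e) (np (S.V23 [b] (g :: u0 :: u) (a :: f :: d :: v0 :: v) e) (nn (S.V12 [] (a :: f :: d :: v0 :: v) (g :: u0 :: u) b e) (np (S.V1_0 b a f (d :: v0 :: v) [] (g :: u0 :: u) e) (nn (S.V12 (b :: f :: d :: v0 :: v) [] (g :: u0 :: u) a e) (np (S.V23 [a] (b :: f :: d :: v0 :: v) (g :: u0 :: u) e) (nn (S.V12 [] (g :: u0 :: u) (b :: f :: d :: v0 :: v) a e) (np (S.V1_0 a g u0 u [] (b :: f :: d :: v0 :: v) e) (nn (S.V12 (a :: u0 :: u) [] (b :: f :: d :: v0 :: v) g e) (np (S.V23 [g] (a :: u0 :: u) (b :: f :: d :: v0 ::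 v) e) (nn (S.V12 [] (b :: f :: d :: v0 :: v) (a :: u0 :: u) g e) (np (S.V1_0 g b f (d :: v0 :: v) [] (a :: u0 :: u) e) (nn (S.V12 (g :: f :: d :: v0 :: v) [] (a :: u0 :: u) b e) (np (S.V23 [b] (g :: f :: d :: v0 :: v) (a :: u0 :: u) e) (nn (S.V23 [b] (a :: u0 :: u) (g :: f :: d :: v0 :: v) e) (np (S.V12 [] (g :: f :: d :: v0 :: v) (a :: u0 :: u) b e) (nn (S.V1_2 b g f d v0 v [] (a :: u0 :: u) e) (np (S.V1_1 b g d f (v0 :: v) [] (a :: u0 :: u) e) (nn (S.V1_0 b d g (f :: v0 :: v) [] (a :: u0 :: u) e) (np (S.V1_1 d b g f (v0 :: v) [] (a :: u0 :: u) e) (nn (S.V1_2 d g b f v0 v [] (a :: u0 :: u) e) (np (S.V12 (g :: f :: b :: v0 :: v) [] (a :: u0 :: u) d e) (nn (S.V23 [d] (g :: f :: b :: v0 :: v) (a :: u0 :: u) e) (np (S.V23 [d] (a :: u0 :: u) (g :: f :: b :: v0 :: v) e) (nn (S.V12 [] (g :: f :: b :: v0 :: v) (a :: u0 :: u) d e) (np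 (S.V1_1 d g f b (v0 :: v) [] (a :: u0 :: u) e) (nn (S.V1_0 d f g (b :: v0 :: v) [] (a :: u0 :: u) e) (np (S.V1_1 f d g b (v0 :: v) [] (a :: u0 :: u) e) (nn (S.V12 (g :: d :: b :: v0 :: v) [] (a :: u0 :: u) f e) (np (S.V23 [f] (g :: d :: b :: v0 :: v) (a :: u0 :: u) e) (nn (S.Vab [] (a :: u0 :: u) (g :: d :: b :: v0 :: v) f e) (np (S.V23 [e] (a :: u0 :: u) (g :: d :: b :: v0 :: v) f) (nn (S.V12 [] (g :: d :: b :: v0 :: v) (a :: u0 :: u) e f) (np (S.V1_0 e g d (b :: v0 :: v) [] (a :: u0 :: u) f) (nn (S.V12 (e :: d :: b :: v0 :: v) [] (a :: u0 :: u) g f) (np (S.V23 [g] (e :: d :: b :: v0 :: v) (a :: u0 :: u) f) (S.Vab [] (a :: u0 :: u) (e :: d :: b :: v0 :: v) g f)))))))))))))))))))))))))))))))))))))))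
  have k9 : S.V (a :: b :: f :: d :: v0 :: v) (g :: u0 :: u) [] e = S.V [f] (a :: u0 :: u) (e :: d :: b :: v0 :: v) g := (np (S.V23 (a :: b :: f :: d :: v0 :: v) (g :: u0 :: u) [] e) (nn (S.V12 (b :: f :: d :: v0 :: v) [] (g :: u0 :: u) a e) (np (S.V23 [a] (b :: f :: d :: v0 :: v) (g :: u0 :: u) e) (nn (S.V12 [] (g :: u0 :: u) (b :: f :: d :: v0 :: v) a e) (np (S.V1_0 a g u0 u [] (b :: f :: d :: v0 :: v) e) (nn (S.V12 (a :: u0 :: u) [] (b :: f :: d :: v0 :: v) g e) (np (S.V23 [g] (a :: u0 :: u) (b :: f :: d :: v0 :: v) e) (nn (S.V12 [] (b :: f :: d :: v0 :: v) (a :: u0 :: u) g e) (np (S.V1_0 g b f (d :: v0 :: v) [] (a :: u0 :: u) e) (nn (S.V12 (g :: f :: d :: v0 :: v) [] (a :: u0 :: u) b e) (np (S.V23 [b] (g :: f :: d :: v0 :: v) (a :: u0 :: u) e) (nn (S.V23 [b] (a :: u0 :: u) (g :: f :: d :: v0 :: v) e) (np (S.V12 [] (g :: f ::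 d :: v0 :: v) (a :: u0 :: u) b e) (nn (S.V1_2 b g f d v0 v [] (a :: u0 :: u) e) (np (S.V1_1 b g d f (v0 :: v) [] (a :: u0 :: u) e) (nn (S.V1_0 b d g (f :: v0 :: v) [] (a :: u0 :: u) e) (np (S.V1_1 d b g f (v0 :: v) [] (a :: u0 :: u) e) (nn (S.V1_2 d g b f v0 v [] (a :: u0 :: u) e) (np (S.V12 (g :: f :: b :: v0 :: v) [] (a :: u0 :: u) d e) (nn (S.V23 [d] (g :: f :: b :: v0 :: v) (a :: u0 :: u) e) (np (S.V23 [d] (a :: u0 :: u) (g :: f :: b :: v0 :: v) e) (nn (S.V12 [] (g :: f :: b :: v0 :: v) (a :: u0 :: u) d e) (np (S.V1_1 d g f b (v0 :: v) [] (a :: u0 :: u) e) (nn (S.V1_0 d f g (b :: v0 :: v) [] (a :: u0 :: u) e) (np (S.V1_1 f d g b (v0 :: v) [] (a :: u0 :: u) e) (nn (S.V12 (g :: d :: b :: v0 :: v) [] (a :: u0 :: u) f e) (np (S.V23 [f] (g :: d :: b :: v0 :: v) (a :: u0 :: u) e) (nn (S.Vab [] (a :: u0 :: u) (g :: d :: b :: v0 ::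 v) f e) (np (S.V23 [e] (a :: u0 :: u) (g :: d :: b :: v0 :: v) f) (nn (S.V12 [] (g :: d :: b :: v0 :: v) (a :: u0 :: u) e f) (np (S.V1_0 e g d (b :: v0 :: v) [] (a :: u0 :: u) f) (nn (S.V12 (e :: d :: b :: v0 :: v) [] (a :: u0 :: u) g f) (np (S.V23 [g] (e :: d :: b :: v0 :: v) (a :: u0 :: u) f) (S.Vab [] (a :: u0 :: u) (e :: d :: b :: v0 :: v) g f))))))))))))))))))))))))))))))))))
  have k10 : S.T (e :: b :: a :: f :: d :: v0 :: v) (g :: u0 :: u) [] = S.T (g :: u0 :: u) (f :: e :: d :: b :: a :: v0 :: v) [] := (np (S.T1_2 e b a f d (v0 :: v) (g :: u0 :: u) []) (nn (S.T1_3 e b f a d v0 v (g :: u0 :: u) []) (np (S.T1_1 e b f d (a :: v0 :: v) (g :: u0 :: u) []) (nn (S.T1_2 e f b d a (v0 :: v) (g :: u0 :: u) []) (np (S.T1_0 e f d (b :: a :: v0 :: v) (g :: u0 :: u) []) (S.Tsw (f :: e :: d :: b :: a :: v0 :: v) (g :: u0 :: u) []))))))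
  have k11 : S.T (e :: a :: b :: f :: d :: v0 :: v) (g :: u0 :: u) [] = -S.T (g :: u0 :: u) (f :: e :: d :: b :: a :: v0 :: v) [] := (nn (S.T1_2 e a b f d (v0 :: v) (g :: u0 :: u) []) (np (S.T1_3 e a f b d v0 v (g :: u0 :: u) []) (nn (S.T1_1 e a f d (b :: v0 :: v) (g :: u0 :: u) []) (np (S.T1_2 e f a d b (v0 :: v) (g :: u0 :: u) []) (nn (S.T1_3 e f d a b v0 v (g :: u0 :: u) []) (np (S.T1_0 e f d (b :: a :: v0 :: v) (g :: u0 :: u) []) (S.Tsw (f :: e :: d :: b :: a :: v0 :: v) (g :: u0 :: u) [])))))))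
  have k12 : S.T [g, d, f, a] (b :: v0 :: v) (e :: u0 :: u) = -S.T [g, f, d, a] (b :: v0 :: v) (e :: u0 :: u) := (S.T1_1 g d f a [] (b :: v0 :: v) (e :: u0 :: u))
  have k13 : S.T [a] (g :: d :: f :: b :: v0 :: v) (e :: u0 :: u) = -S.T [a] (g :: f :: d :: b :: v0 :: v) (e :: u0 :: u) := (S.T2_1 g d f b (v0 :: v) [a] (e :: u0 :: u))
  have k14 : S.V [a] (b :: v0 :: v) (g :: d :: e :: u0 :: u) f = S.V [f] (d :: b :: a :: u0 :: u) (e :: v0 :: v) g := (np (S.V23 [a] (b :: v0 :: v) (g :: d :: e :: u0 :: u) f) (nn (S.V12 [] (g :: d :: e :: u0 :: u) (b :: v0 :: v) a f) (np (S.V1_2 a g d e u0 u [] (b :: v0 :: v) f) (nn (S.V1_1 a g e d (u0 :: u) [] (b :: v0 :: v) f) (np (S.V1_0 a e g (d :: u0 :: u) [] (b :: v0 :: v) f) (nn (S.V1_1 e a g d (u0 :: u) [] (b :: v0 :: v) f) (np (S.V1_2 e g a d u0 u [] (b :: v0 :: v) f) (nn (S.V12 (g :: d ::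 a :: u0 :: u) [] (b :: v0 :: v) e f) (np (S.V23 [e] (g :: d :: a :: u0 :: u) (b :: v0 :: v) f) (nn (S.V12 [] (b :: v0 :: v) (g :: d :: a :: u0 :: u) e f) (np (S.V1_0 e b v0 v [] (g :: d :: a :: u0 :: u) f) (nn (S.V12 (e :: v0 :: v) [] (g :: d :: a :: u0 :: u) b f) (np (S.V23 [b] (e :: v0 :: v) (g :: d :: a :: u0 :: u) f) (nn (S.V12 [] (g :: d :: a :: u0 :: u) (e :: v0 :: v) b f) (np (S.V1_1 b g d a (u0 :: u) [] (e :: v0 :: v) f) (nn (S.V1_0 b d g (a :: u0 :: u) [] (e :: v0 :: v) f) (np (S.V1_1 d b g a (u0 :: u) [] (e :: v0 :: v) f) (nn (S.V12 (g :: b :: a :: u0 :: u) [] (e :: v0 :: v) d f) (np (S.V12 [] (g :: b :: a :: u0 :: u) (e :: v0 :: v) d f) (nn (S.V1_0 d g b (a :: u0 :: u) [] (e :: v0 :: v) f) (np (S.V12 (d :: b :: a :: u0 :: u) [] (e :: v0 :: v) g f) (S.Vab [] (d :: b :: a :: u0 :: u) (e :: v0 :: v) g f))))))))))))))))))))))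
  have k15 : S.V (b :: v0 :: v) [a] (g :: d :: e :: u0 :: u) f = 0 := (nz (S.V23 (b :: v0 :: v) [a] (g :: d :: e :: u0 :: u) f) (S.P1V (v0 :: v) (g :: d :: e :: u0 :: u) a b f))
  have k16 : S.V [d, f, a] (b :: v0 :: v) (e :: u0 :: u) g = S.V [f, b, a] (d :: u0 :: u) (e :: v0 :: v) g := (np (S.V23 [d, f, a] (b :: v0 :: v) (e :: u0 :: u) g) (nn (S.V23 [d, f, a] (e :: u0 :: u) (b :: v0 :: v) g) (np (S.V12 [f, a] (b :: v0 :: v) (e :: u0 :: u) d g) (nn (S.V1_0 d b v0 v [f, a] (e :: u0 :: u) g) (np (S.V12 (d :: v0 :: v) [f, a] (e :: u0 :: u) b g) (nn (S.V23 [b, f, a] (d :: v0 :: v) (e :: u0 :: u) g) (np (S.V1_0 b f a [] (e :: u0 :: u) (d :: v0 :: v) g) (nn (S.V23 [f, b, a] (e :: u0 :: u) (d :: v0 :: v) g) (np (S.V12 [b, a] (d :: v0 :: v) (e :: u0 :: u) f g) (nn (S.V1_0 f d v0 v [b, a] (e :: u0 :: u) g) (np (S.V12 (f :: v0 :: v) [b,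 a] (e :: u0 :: u) d g) (nn (S.V23 [d, b, a] (f :: v0 :: v) (e :: u0 :: u) g) (np (S.V12 [b, a] (e :: u0 :: u) (f :: v0 :: v) d g) (nn (S.V1_0 d e u0 u [b, a] (f :: v0 :: v) g) (np (S.V12 (d :: u0 :: u) [b, a] (f :: v0 :: v) e g) (nn (S.V23 [e, b, a] (d :: u0 :: u) (f :: v0 :: v) g) (np (S.V12 [b, a] (f :: v0 :: v) (d :: u0 :: u) e g) (nn (S.V1_0 e f v0 v [b, a] (d :: u0 :: u) g) (np (S.V12 (e :: v0 :: v) [b, a] (d :: u0 :: u) f g) (S.V23 [f, b, a] (e :: v0 :: v) (d :: u0 :: u) g))))))))))))))))))))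
  have k17 : S.V (d :: f :: b :: v0 :: v) [a] (e :: u0 :: u) g = 0 := (nz (S.V23 (d :: f :: b :: v0 :: v) [a] (e :: u0 :: u) g) (S.P1V (f :: b :: v0 :: v) (e :: u0 :: u) a d g))
  have k18 : S.T [d, f, b, g, a] (v0 :: v) (e :: u0 :: u) = S.T [g, f, d, b, a] (v0 :: v) (e :: u0 :: u) := (np (S.T1_2 d f b g a [] (v0 :: v) (e :: u0 :: u)) (nn (S.T1_1 d f g b [a] (v0 :: v) (e :: u0 :: u)) (np (S.T1_0 d g f [b, a] (v0 :: v) (e :: u0 :: u)) (S.T1_1 g d f b [a] (v0 :: v) (e :: u0 :: u)))))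
  have k19 : S.T [g, a] (d :: f :: b :: v0 :: v) (e :: u0 :: u) = -S.T [g, a] (f :: d :: b :: v0 :: v) (e :: u0 :: u) := (S.T2_0 d f b (v0 :: v) [g, a] (e :: u0 :: u))
  have k20 : S.V [g, a] (v0 :: v) (d :: f :: e :: u0 :: u) b = 0 := (nz (S.V12 [a] (v0 :: v) (d :: f :: e :: u0 :: u) g b) (nz (S.V23 (g :: v0 :: v) [a] (d :: f :: e :: u0 :: u) b) (S.P1V (v0 :: v) (d :: f :: e :: u0 :: u) a g b)))
  have k21 : S.V (v0 :: v) [g, a] (d :: f :: e :: u0 :: u) b = S.V [g, b, a] (f :: e :: d :: u0 :: u) v v0 := (np (S.V12 v [g, a] (d :: f :: e :: u0 :: u) v0 b) (nn (S.V23 [v0, g, a] v (d :: f :: e :: u0 :: u) b) (np (S.Vab [g, a] (d :: f :: e :: u0 :: u) v v0 b) (nn (S.V1_0 b g a [] (d :: f :: e :: u0 :: u) v v0) (np (S.V12 [b, a] (d :: f :: e :: u0 :: u) v g v0) (nn (S.V1_0 g d f (e :: u0 :: u) [b, a] v v0) (np (S.V12 (g :: f :: e ::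 u0 :: u) [b, a] v d v0) (nn (S.V12 [b, a] (g :: f :: e :: u0 :: u) v d v0) (np (S.V1_2 d g f e u0 u [b, a] v v0) (nn (S.V1_1 d g e f (u0 :: u) [b, a] v v0) (np (S.V1_0 d e g (f :: u0 :: u) [b, a] v v0) (nn (S.V1_1 e d g f (u0 :: u) [b, a] v v0) (np (S.V1_2 e g d f u0 u [b, a] v v0) (nn (S.V12 (g :: f :: d :: u0 :: u) [b, a] v e v0) (np (S.V12 [b, a] (g :: f :: d :: u0 :: u) v e v0) (nn (S.V1_1 e g f d (u0 :: u) [b, a] v v0) (np (S.V1_0 e f g (d :: u0 :: u) [b, a] v v0) (nn (S.V1_1 f e g d (u0 :: u) [b, a] v v0) (np (S.V12 (g :: e :: d :: u0 :: u) [b, a] v f v0) (nn (S.V12 [b, a] (g :: e :: d :: u0 :: u) v f v0) (np (S.V1_0 f g e (d :: u0 :: u) [b, a] v v0) (S.V12 (f :: e :: d :: u0 :: u) [b, a] v g v0))))))))))))))))))))))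
  have k22 : S.V [f, b, g, a] (v0 :: v) (e :: u0 :: u) d = -S.V [f, d, b, a] (e :: u0 :: u) (v0 :: v) g := (nn (S.V23 [f, b, g, a] (v0 :: v) (e :: u0 :: u) d) (np (S.V1_0 f b g [a] (e :: u0 :: u) (v0 :: v) d) (nn (S.V1_1 b f g a [] (e :: u0 :: u) (v0 :: v) d) (np (S.V1_0 b g f [a] (e :: u0 :: u) (v0 :: v) d) (nn (S.V1_1 g b f a [] (e :: u0 :: u) (v0 :: v) d) (np (S.Vab [f, b, a] (e :: u0 :: u) (v0 :: v) g d) (S.V1_0 d f b [a] (e :: u0 :: u) (v0 :: v) g)))))))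
  have k23 : S.V (f :: b :: v0 :: v) [g, a] (e :: u0 :: u) d = -S.V [f, b, a] (d :: u0 :: u) (e :: v0 :: v) g := (nn (S.V12 (b :: v0 :: v) [g, a] (e :: u0 :: u) f d) (np (S.V23 [f, g, a] (b :: v0 :: v) (e :: u0 :: u) d) (nn (S.V23 [f, g, a] (e :: u0 :: u) (b :: v0 :: v) d) (np (S.V12 [g, a] (b :: v0 :: v) (e :: u0 :: u) f d) (nn (S.V1_0 f b v0 v [g, a] (e :: u0 :: u) d) (np (S.V12 (f :: v0 :: v) [g, a] (e :: u0 :: u) b d) (nn (S.V23 [b, g, a] (f :: v0 :: v) (e :: u0 :: u) d) (np (S.V1_0 b g a [] (e :: u0 :: u) (f :: v0 :: v) d) (nn (S.Vab [b, a] (e :: u0 :: u) (f :: v0 :: v) g d) (np (S.V12 [b, a] (e :: u0 :: u) (f :: v0 :: v) d g) (nn (S.V1_0 d e u0 u [b, a] (f :: v0 :: v) g) (np (S.V12 (d :: u0 :: u) [b, a] (f :: v0 :: v) e g) (nn (S.V23 [e, b, a] (d :: u0 :: u) (f :: v0 :: v) g) (np (S.V12 [b, a] (f :: v0 :: v) (d :: u0 :: u)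 e g) (nn (S.V1_0 e f v0 v [b, a] (d :: u0 :: u) g) (np (S.V12 (e :: v0 :: v) [b, a] (d :: u0 :: u) f g) (S.V23 [f, b, a] (e :: v0 :: v) (d :: u0 :: u) g)))))))))))))))))
  have k24 : S.V [a] (f :: d :: b :: v0 :: v) (e :: u0 :: u) g = -S.V [f] (a :: u0 :: u) (e :: d :: b :: v0 :: v) g := (nn (S.V23 [a] (f :: d :: b :: v0 :: v) (e :: u0 :: u) g) (np (S.V12 [] (e :: u0 :: u) (f :: d :: b :: v0 :: v) a g) (nn (S.V1_0 a e u0 u [] (f :: d :: b :: v0 :: v) g) (np (S.V12 (a :: u0 :: u) [] (f :: d :: b :: v0 :: v) e g) (nn (S.V23 [e] (a :: u0 :: u) (f :: d :: b :: v0 :: v) g) (np (S.V12 [] (f :: d :: b :: v0 :: v) (a :: u0 :: u) e g) (nn (S.V1_0 e f d (b :: v0 :: v) [] (a :: u0 :: u) g) (np (S.V12 (e :: d :: b :: v0 :: v) [] (a :: u0 :: u) f g) (S.V23 [f] (e :: d :: b :: v0 :: v) (a :: u0 :: u) g)))))))))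
  have k25 : S.V (f :: d :: b :: v0 :: v) [a] (e :: u0 :: u) g = 0 := (nz (S.V23 (f :: d :: b :: v0 :: v) [a] (e :: u0 :: u) g) (S.P1V (d :: b :: v0 :: v) (e :: u0 :: u) a f g))
  have k26 : S.T [b, g, f, d, a] (v0 :: v) (e :: u0 :: u) = -S.T [g, f, d, b, a] (v0 :: v) (e :: u0 :: u) := (nn (S.T1_0 b g f [d, a] (v0 :: v) (e :: u0 :: u)) (np (S.T1_1 g b f d [a] (v0 :: v) (e :: u0 :: u)) (S.T1_2 g f b d a [] (v0 :: v) (e :: u0 :: u))))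
  have k27 : S.V [g, f, d, a] (v0 :: v) (e :: u0 :: u) b = S.V [f, d, b, a] (e :: u0 :: u) (v0 :: v) g := (np (S.V23 [g, f, d, a] (v0 :: v) (e :: u0 :: u) b) (nn (S.Vab [f, d, a] (e :: u0 :: u) (v0 :: v) g b) (np (S.V1_1 b f d a [] (e :: u0 :: u) (v0 :: v) g) (nn (S.V1_0 b d f [a] (e :: u0 :: u) (v0 :: v) g) (np (S.V1_1 d b f a [] (e :: u0 :: u) (v0 :: v) g) (S.V1_0 d f b [a] (e :: u0 :: u) (v0 :: v) g))))))
  have k28 : S.V (v0 :: v) [g, f, d, a] (e :: u0 :: u) b = -S.V [g, e, d, b, a] (f :: u0 :: u) v v0 := (nn (S.V12 v [g, f, d, a] (e :: u0 :: u) v0 b) (np (S.V23 [v0, g, f, d, a] v (e :: u0 :: u) b) (nn (S.Vab [g, f, d, a] (e :: u0 :: u) v v0 b) (np (S.V1_2 b g f d a [] (e :: u0 :: u) v v0) (nn (S.V1_1 b g d f [a] (e :: u0 :: u) v v0) (np (S.V1_0 b d g [f, a] (e :: u0 :: u) v v0) (nn (S.V1_1 d b g f [a] (e :: u0 :: u) v v0)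 (np (S.V1_2 d g b f a [] (e :: u0 :: u) v v0) (nn (S.V1_1 d g f b [a] (e :: u0 :: u) v v0) (np (S.V1_0 d f g [b, a] (e :: u0 :: u) v v0) (nn (S.V1_1 f d g b [a] (e :: u0 :: u) v v0) (np (S.V12 [g, d, b, a] (e :: u0 :: u) v f v0) (nn (S.V1_0 f e u0 u [g, d, b, a] v v0) (np (S.V12 (f :: u0 :: u) [g, d, b, a] v e v0) (S.V1_0 e g d [b, a] (f :: u0 :: u) v v0)))))))))))))))
  have k29 : S.T (b :: g :: d :: e :: u0 :: u) (v0 :: v) [f, a] = S.T (g :: e :: d :: b :: u0 :: u) (v0 :: v) [f, a] := (np (S.T1_2 b g d e u0 u (v0 :: v) [f, a]) (nn (S.T1_0 b g e (d :: u0 :: u) (v0 :: v) [f, a]) (np (S.T1_1 g b e d (u0 :: u) (v0 :: v) [f, a]) (S.T1_2 g e b d u0 u (v0 :: v) [f, a]))))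
  have k30 : S.T (e :: u0 :: u) (b :: g :: d :: v0 :: v) [f, a] = S.T (e :: u0 :: u) (g :: d :: b :: v0 :: v) [f, a] := (np (S.T2_0 b g d (v0 :: v) (e :: u0 :: u) [f, a]) (S.T2_1 g b d v0 v (e :: u0 :: u) [f, a]))
  have k31 : S.V (e :: u0 :: u) (v0 :: v) [b, g, f, a] d = -S.V [f, e, d, b, a] (u0 :: u) (v0 :: v) g := (nn (S.V23 (e :: u0 :: u) (v0 :: v) [b, g, f, a] d) (np (S.V12 (u0 :: u) [b, g, f, a] (v0 :: v) e d) (nn (S.V1_0 e b g [f, a] (u0 :: u) (v0 :: v) d) (np (S.V1_2 b e g f a [] (u0 :: u) (v0 :: v) d) (nn (S.V1_1 b e f g [a] (u0 :: u) (v0 :: v) d) (np (S.V1_0 b f e [g, a] (u0 :: u) (v0 :: v) d) (nn (S.V1_1 f b e g [a] (u0 :: u) (v0 :: v) d) (np (S.V1_2 f e b g a [] (u0 :: u) (v0 :: v) d) (nn (S.Vab [e, g, b, a] (u0 :: u) (v0 :: v) f d) (np (S.V1_1 d e g b [a] (u0 :: u) (v0 :: v) f) (nn (S.V1_0 d g e [b, a] (u0 :: u) (v0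 :: v) f) (np (S.V1_1 g d e b [a] (u0 :: u) (v0 :: v) f) (S.Vab [e, d, b, a] (u0 :: u) (v0 :: v) g f)))))))))))))
  have k32 : S.V (v0 :: v) (e :: u0 :: u) [b, g, f, a] d = -S.V [g, e, d, b, a] (f :: u0 :: u) v v0 := (nn (S.V23 (v0 :: v) (e :: u0 :: u) [b, g, f, a] d) (np (S.V12 v [b, g, f, a] (e :: u0 :: u) v0 d) (nn (S.V23 [v0, b, g, f, a] v (e :: u0 :: u) d) (np (S.V1_0 v0 b g [f, a] (e :: u0 :: u) v d) (nn (S.V1_2 b v0 g f a [] (e :: u0 :: u) v d) (np (S.V1_1 b v0 f g [a] (e :: u0 :: u) v d) (nn (S.V1_0 b f v0 [g, a] (e :: u0 :: u) v d) (np (S.V1_1 f b v0 g [a] (e :: u0 :: u) v d) (nn (S.V1_2 f v0 b g a [] (e :: u0 :: u) v d) (np (S.Vab [v0, g, b, a] (e :: u0 :: u) v f d) (nn (S.V1_1 d v0 g b [a] (e :: u0 :: u) v f) (np (S.V1_0 d g v0 [b, a] (e :: u0 :: u) v f) (nn (S.V1_1 g d v0 b [a] (e :: u0 :: u) v f) (np (S.V12 [v0, d,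 b, a] (e :: u0 :: u) v g f) (nn (S.V1_0 g e u0 u [v0, d, b, a] v f) (np (S.V12 (g :: u0 :: u) [v0, d, b, a] v e f) (nn (S.V1_0 e v0 d [b, a] (g :: u0 :: u) v f) (np (S.Vab [e, d, b, a] (g :: u0 :: u) v v0 f) (nn (S.V12 [e, d, b, a] (g :: u0 :: u) v f v0) (np (S.V1_0 f g u0 u [e, d, b, a] v v0) (S.V12 (f :: u0 :: u) [e, d, b, a] v g v0)))))))))))))))))))))
  have k33 : S.V (g :: d :: e :: u0 :: u) (v0 :: v) [f, a] b = -S.V [f, b, a] (e :: d :: u0 :: u) (v0 :: v) g := (nn (S.V23 (g :: d :: e :: u0 :: u) (v0 :: v) [f, a] b) (np (S.V12 (d :: e :: u0 :: u) [f, a] (v0 :: v) g b) (nn (S.Vab [f, a] (d :: e :: u0 :: u) (v0 :: v) g b) (np (S.V1_0 b f a [] (d :: e :: u0 :: u) (v0 :: v) g) (nn (S.V12 [b, a] (d :: e :: u0 :: u) (v0 :: v) f g) (np (S.V1_0 f d e (u0 :: u) [b, a] (v0 :: v) g) (nn (S.V12 (f :: e :: u0 :: u) [b, a] (v0 :: v) d g)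 (np (S.V12 [b, a] (f :: e :: u0 :: u) (v0 :: v) d g) (nn (S.V1_1 d f e u0 u [b, a] (v0 :: v) g) (np (S.V1_0 d e f (u0 :: u) [b, a] (v0 :: v) g) (nn (S.V1_1 e d f u0 u [b, a] (v0 :: v) g) (np (S.V12 (f :: d :: u0 :: u) [b, a] (v0 :: v) e g) (nn (S.V12 [b, a] (f :: d :: u0 :: u) (v0 :: v) e g) (np (S.V1_0 e f d (u0 :: u) [b, a] (v0 :: v) g) (S.V12 (e :: d :: u0 :: u) [b, a] (v0 :: v) f g)))))))))))))))
  have k34 : S.V (g :: d :: v0 :: v) (e :: u0 :: u) [f, a] b = S.V [f, b, a] (d :: u0 :: u) (e :: v0 :: v) g := (np (S.V23 (g :: d :: v0 :: v) (e :: u0 :: u) [f, a] b) (nn (S.V12 (d :: v0 :: v) [f, a] (e :: u0 :: u) g b) (np (S.V23 [g, f, a] (d :: v0 :: v) (e :: u0 :: u) b) (nn (S.Vab [f, a] (e :: u0 :: u) (d :: v0 :: v) g b) (np (S.V1_0 b f a [] (e :: u0 :: u) (d :: v0 :: v) g) (nn (S.V23 [f, b, a] (e :: u0 :: u) (d :: v0 :: v) g)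 (np (S.V12 [b, a] (d :: v0 :: v) (e :: u0 :: u) f g) (nn (S.V1_0 f d v0 v [b, a] (e :: u0 :: u) g) (np (S.V12 (f :: v0 :: v) [b, a] (e :: u0 :: u) d g) (nn (S.V23 [d, b, a] (f :: v0 :: v) (e :: u0 :: u) g) (np (S.V12 [b, a] (e :: u0 :: u) (f :: v0 :: v) d g) (nn (S.V1_0 d e u0 u [b, a] (f :: v0 :: v) g) (np (S.V12 (d :: u0 :: u) [b, a] (f :: v0 :: v) e g) (nn (S.V23 [e, b, a] (d :: u0 :: u) (f :: v0 :: v) g) (np (S.V12 [b, a] (f :: v0 :: v) (d :: u0 :: u) e g) (nn (S.V1_0 e f v0 v [b, a] (d :: u0 :: u) g) (np (S.V12 (e :: v0 :: v) [b, a] (d :: u0 :: u) f g) (S.V23 [f, b, a] (e :: v0 :: v) (d :: u0 :: u) g))))))))))))))))))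
  have k35 : S.T [b, d, g, f, a] (u0 :: u) (e :: v0 :: v) = -S.T [g, f, d, b, a] (u0 :: u) (e :: v0 :: v) := (nn (S.T1_1 b d g f [a] (u0 :: u) (e :: v0 :: v)) (np (S.T1_2 b g d f a [] (u0 :: u) (e :: v0 :: v)) (nn (S.T1_0 b g f [d, a] (u0 :: u) (e :: v0 :: v)) (np (S.T1_1 g b f d [a] (u0 :: u) (e :: v0 :: v)) (S.T1_2 g f b d a [] (u0 :: u) (e :: v0 :: v))))))
  have k36 : S.T [f, a] (b :: d :: g :: u0 :: u) (e :: v0 :: v) = -S.T [f, a] (g :: d :: b :: u0 :: u) (e :: v0 :: v) := (nn (S.T2_1 b d g u0 u [f, a] (e :: v0 :: v)) (np (S.T2_0 b g d (u0 :: u) [f, a] (e :: v0 :: v)) (S.T2_1 g b d u0 u [f, a] (e :: v0 :: v))))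
  have k37 : S.V [f, a] (u0 :: u) (b :: d :: e :: v0 :: v) g = 0 := (nz (S.V12 [a] (u0 :: u) (b :: d :: e :: v0 :: v) f g) (nz (S.V23 (f :: u0 :: u) [a] (b :: d :: e :: v0 :: v) g) (S.P1V (u0 :: u) (b :: d :: e :: v0 :: v) a f g)))
  have k38 : S.V (u0 :: u) [f, a] (b :: d :: e :: v0 :: v) g = S.V [g, b, a] u (f :: e :: d :: v0 :: v) u0 := (np (S.V12 u [f, a] (b :: d :: e :: v0 :: v) u0 g) (nn (S.V23 [u0, f, a] u (b :: d :: e :: v0 :: v) g) (np (S.V12 [f, a] (b :: d :: e :: v0 :: v) u u0 g) (nn (S.V1_0 u0 b d (e :: v0 :: v) [f, a] u g) (np (S.V12 (u0 :: d :: e :: v0 :: v) [f, a] u b g) (nn (S.V23 [b, f, a] (u0 :: d :: e :: v0 :: v) u g) (np (S.V1_0 b f a [] u (u0 :: d :: e :: v0 :: v) g) (nn (S.V23 [f, b, a] u (u0 :: d :: e :: v0 :: v) g) (np (S.V12 [b, a] (u0 :: d :: e :: v0 :: v) u f g) (nn (S.V1_1 f u0 d e (v0 :: v) [b, a] u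 g) (np (S.V1_0 f d u0 (e :: v0 :: v) [b, a] u g) (nn (S.V1_1 d f u0 e (v0 :: v) [b, a] u g) (np (S.V12 (u0 :: f :: e :: v0 :: v) [b, a] u d g) (nn (S.V23 [d, b, a] (u0 :: f :: e :: v0 :: v) u g) (np (S.V23 [d, b, a] u (u0 :: f :: e :: v0 :: v) g) (nn (S.V12 [b, a] (u0 :: f :: e :: v0 :: v) u d g) (np (S.V1_2 d u0 f e v0 v [b, a] u g) (nn (S.V1_1 d u0 e f (v0 :: v) [b, a] u g) (np (S.V1_0 d e u0 (f :: v0 :: v) [b, a] u g) (nn (S.V1_1 e d u0 f (v0 :: v) [b, a] u g) (np (S.V1_2 e u0 d f v0 v [b, a] u g) (nn (S.V12 (u0 :: f :: d :: v0 :: v) [b, a] u e g) (np (S.V23 [e, b, a] (u0 :: f :: d :: v0 :: v) u g) (nn (S.V23 [e, b, a] u (u0 :: f :: d :: v0 :: v) g) (np (S.V12 [b, a] (u0 :: f :: d :: v0 :: v) u e g) (nn (S.V1_1 e u0 f d (v0 :: v) [b, a] u g) (np (S.V1_0 e f u0 (d :: v0 :: v) [b, a] u g) (nn (S.V1_1 f e u0 d (v0 :: v) [b, a]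 u g) (np (S.V12 (u0 :: e :: d :: v0 :: v) [b, a] u f g) (nn (S.V23 [f, b, a] (u0 :: e :: d :: v0 :: v) u g) (np (S.V23 [f, b, a] u (u0 :: e :: d :: v0 :: v) g) (nn (S.V12 [b, a] (u0 :: e :: d :: v0 :: v) u f g) (np (S.V1_0 f u0 e (d :: v0 :: v) [b, a] u g) (nn (S.V12 (f :: e :: d :: v0 :: v) [b, a] u u0 g) (np (S.V23 [u0, b, a] (f :: e :: d :: v0 :: v) u g) (S.Vab [b, a] u (f :: e :: d :: v0 :: v) u0 g))))))))))))))))))))))))))))))))))))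
  have k39 : S.V [d, g, f, a] (u0 :: u) (e :: v0 :: v) b = -S.V [f, d, b, a] (u0 :: u) (e :: v0 :: v) g := (nn (S.Vab [g, f, a] (u0 :: u) (e :: v0 :: v) d b) (np (S.V1_1 b g f a [] (u0 :: u) (e :: v0 :: v) d) (nn (S.V1_0 b f g [a] (u0 :: u) (e :: v0 :: v) d) (np (S.V1_1 f b g a [] (u0 :: u) (e :: v0 :: v) d) (nn (S.Vab [g, b, a] (u0 :: u) (e :: v0 :: v) f d) (np (S.V1_0 d g b [a] (u0 :: u) (e :: v0 :: v) f) (S.Vab [d, b, a] (u0 :: u) (e :: v0 :: v) g f)))))))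
  have k40 : S.V (d :: g :: u0 :: u) [f, a] (e :: v0 :: v) b = S.V [f, b, a] (d :: u0 :: u) (e :: v0 :: v) g := (np (S.V12 (g :: u0 :: u) [f, a] (e :: v0 :: v) d b) (nn (S.Vab [f, a] (g :: u0 :: u) (e :: v0 :: v) d b) (np (S.V1_0 b f a [] (g :: u0 :: u) (e :: v0 :: v) d) (nn (S.Vab [b, a] (g :: u0 :: u) (e :: v0 :: v) f d) (np (S.V12 [b, a] (g :: u0 :: u) (e :: v0 :: v) d f) (nn (S.V1_0 d g u0 u [b, a] (e :: v0 :: v) f) (np (S.V12 (d :: u0 :: u) [b, a] (e :: v0 :: v) g f) (S.Vab [b, a] (d :: u0 :: u) (e :: v0 :: v) g f))))))))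
  have k41 : S.V (u0 :: u) (e :: d :: b :: v0 :: v) [f, a] g = S.V [g, b, a] u (f :: e :: d :: v0 :: v) u0 := (np (S.V23 (u0 :: u) (e :: d :: b :: v0 :: v) [f, a] g) (nn (S.V12 u [f, a] (e :: d :: b :: v0 :: v) u0 g) (np (S.V23 [u0, f, a] u (e :: d :: b :: v0 :: v) g) (nn (S.V12 [f, a] (e :: d :: b :: v0 :: v) u u0 g) (np (S.V1_2 u0 e d b v0 v [f, a] u g) (nn (S.V1_1 u0 e b d (v0 :: v) [f, a] u g) (np (S.V1_0 u0 b e (d :: v0 :: v) [f, a] u g) (nn (S.V1_1 b u0 e d (v0 :: v) [f, a] u g) (np (S.V1_2 b e u0 d v0 v [f, a] u g) (nn (S.V12 (e :: d :: u0 :: v0 :: v) [f, a] u b g) (np (S.V23 [b, f, a] (e :: d :: u0 :: v0 :: v) u g) (nn (S.V1_0 b f a [] u (e :: d :: u0 :: v0 :: v) g) (np (S.V23 [f, b, a] u (e :: d :: u0 :: v0 :: v) g) (nn (S.V12 [b, a] (e :: d :: u0 :: v0 :: v) u f g) (np (S.V1_1 f e d u0 (v0 :: v) [b, a] u g) (nn (S.V1_0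 f d e (u0 :: v0 :: v) [b, a] u g) (np (S.V1_1 d f e u0 (v0 :: v) [b, a] u g) (nn (S.V12 (e :: f :: u0 :: v0 :: v) [b, a] u d g) (np (S.V23 [d, b, a] (e :: f :: u0 :: v0 :: v) u g) (nn (S.V23 [d, b, a] u (e :: f :: u0 :: v0 :: v) g) (np (S.V12 [b, a] (e :: f :: u0 :: v0 :: v) u d g) (nn (S.V1_2 d e f u0 v0 v [b, a] u g) (np (S.V1_1 d e u0 f (v0 :: v) [b, a] u g) (nn (S.V1_0 d u0 e (f :: v0 :: v) [b, a] u g) (np (S.V1_1 u0 d e f (v0 :: v) [b, a] u g) (nn (S.V1_2 u0 e d f v0 v [b, a] u g) (np (S.V12 (e :: f :: d :: v0 :: v) [b, a] u u0 g) (nn (S.V23 [u0, b, a] (e :: f :: d :: v0 :: v) u g) (np (S.V23 [u0, b, a] u (e :: f :: d :: v0 :: v) g) (nn (S.V12 [b, a] (e :: f :: d :: v0 :: v) u u0 g) (np (S.V1_0 u0 e f (d :: v0 :: v) [b, a] u g) (nn (S.V12 (u0 :: f :: d :: v0 :: v) [b, a] u e g) (np (S.V23 [e, b, a] (u0 :: f :: d :: v0 :: v)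 u g) (nn (S.V23 [e, b, a] u (u0 :: f :: d :: v0 :: v) g) (np (S.V12 [b, a] (u0 :: f :: d :: v0 :: v) u e g) (nn (S.V1_1 e u0 f d (v0 :: v) [b, a] u g) (np (S.V1_0 e f u0 (d :: v0 :: v) [b, a] u g) (nn (S.V1_1 f e u0 d (v0 :: v) [b, a] u g) (np (S.V12 (u0 :: e :: d :: v0 :: v) [b, a] u f g) (nn (S.V23 [f, b, a] (u0 :: e :: d :: v0 :: v) u g) (np (S.V23 [f, b, a] u (u0 :: e :: d :: v0 :: v) g) (nn (S.V12 [b, a] (u0 :: e :: d :: v0 :: v) u f g) (np (S.V1_0 f u0 e (d :: v0 :: v) [b, a] u g) (nn (S.V12 (f :: e :: d :: v0 :: v) [b, a] u u0 g) (np (S.V23 [u0, b, a] (f :: e :: d :: v0 :: v) u g) (S.Vab [b, a] u (f :: e :: d :: v0 :: v) u0 g))))))))))))))))))))))))))))))))))))))))))))))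
  have k42 : S.V (e :: d :: b :: v0 :: v) (u0 :: u) [f, a] g = S.V [f, b, a] (u0 :: u) (e :: d :: v0 :: v) g := (np (S.V23 (e :: d :: b :: v0 :: v) (u0 :: u) [f, a] g) (nn (S.V12 (d :: b :: v0 :: v) [f, a] (u0 :: u) e g) (np (S.V23 [e, f, a] (d :: b :: v0 :: v) (u0 :: u) g) (nn (S.V23 [e, f, a] (u0 :: u) (d :: b :: v0 :: v) g) (np (S.V12 [f, a] (d :: b :: v0 :: v) (u0 :: u) e g) (nn (S.V1_1 e d b v0 v [f, a] (u0 :: u) g) (np (S.V1_0 e b d (v0 :: v) [f, a] (u0 :: u) g) (nn (S.V1_1 b e d v0 v [f, a] (u0 :: u) g) (np (S.V12 (d :: e :: v0 :: v) [f, a] (u0 :: u) b g) (nn (S.V23 [b, f, a] (d :: e :: v0 :: v) (u0 :: u) g) (np (S.V1_0 b f a [] (u0 :: u) (d :: e :: v0 :: v) g) (nn (S.V23 [f, b, a] (u0 :: u) (d :: e :: v0 :: v) g) (np (S.V12 [b, a] (d :: e :: v0 :: v) (u0 :: u) f g) (nn (S.V1_0 f d e (v0 :: v) [b, a] (u0 :: u) g) (np (S.V12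 (f :: e :: v0 :: v) [b, a] (u0 :: u) d g) (nn (S.V23 [d, b, a] (f :: e :: v0 :: v) (u0 :: u) g) (np (S.V23 [d, b, a] (u0 :: u) (f :: e :: v0 :: v) g) (nn (S.V12 [b, a] (f :: e :: v0 :: v) (u0 :: u) d g) (np (S.V1_1 d f e v0 v [b, a] (u0 :: u) g) (nn (S.V1_0 d e f (v0 :: v) [b, a] (u0 :: u) g) (np (S.V1_1 e d f v0 v [b, a] (u0 :: u) g) (nn (S.V12 (f :: d :: v0 :: v) [b, a] (u0 :: u) e g) (np (S.V23 [e, b, a] (f :: d :: v0 :: v) (u0 :: u) g) (nn (S.V23 [e, b, a] (u0 :: u) (f :: d :: v0 :: v) g) (np (S.V12 [b, a] (f :: d :: v0 :: v) (u0 :: u) e g) (nn (S.V1_0 e f d (v0 :: v) [b, a] (u0 :: u) g) (np (S.V12 (e :: d :: v0 :: v) [b, a] (u0 :: u) f g) (S.V23 [f, b, a] (e :: d :: v0 :: v) (u0 :: u) g))))))))))))))))))))))))))))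
  have k43 : S.T (g :: u0 :: u) (e :: d :: b :: v0 :: v) [a, f] = -S.T (g :: u0 :: u) (e :: d :: b :: v0 :: v) [f, a] := (S.T3e0 (g :: u0 :: u) (e :: d :: b :: v0 :: v) a f)
  have k44 : S.T (u0 :: u) (g :: e :: d :: b :: v0 :: v) [a, f] = -S.T (u0 :: u) (g :: e :: d :: b :: v0 :: v) [f, a] := (S.T3e0 (u0 :: u) (g :: e :: d :: b :: v0 :: v) a f)
  have k45 : S.V (u0 :: u) (e :: d :: b :: v0 :: v) [a, f] g = -S.V [g, a, f] u (e :: d :: b :: v0 :: v) u0 := (nn (S.V23 (u0 :: u) (e :: d :: b :: v0 :: v) [a, f] g) (np (S.V12 u [a, f] (e :: d :: b :: v0 :: v) u0 g) (S.Vab [a, f] u (e :: d :: b :: v0 :: v) u0 g)))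
  have k46 : S.V (e :: d :: b :: v0 :: v) (u0 :: u) [a, f] g = -S.V [e, a, f] (u0 :: u) (d :: b :: v0 :: v) g := (nn (S.V23 (e :: d :: b :: v0 :: v) (u0 :: u) [a, f] g) (np (S.V12 (d :: b :: v0 :: v) [a, f] (u0 :: u) e g) (S.V23 [e, a, f] (d :: b :: v0 :: v) (u0 :: u) g)))
  have k47 : S.T (e :: u0 :: u) (g :: d :: b :: v0 :: v) [a, f] = -S.T (e :: u0 :: u) (g :: d :: b :: v0 :: v) [f, a] := (S.T3e0 (e :: u0 :: u) (g :: d :: b :: v0 :: v) a f)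
  have k48 : S.T (u0 :: u) (e :: g :: d :: b :: v0 :: v) [a, f] = S.T (u0 :: u) (g :: e :: d :: b :: v0 :: v) [f, a] := (np (S.T2_0 e g d (b :: v0 :: v) (u0 :: u) [a, f]) (S.T3e0 (u0 :: u) (g :: e :: d :: b :: v0 :: v) a f))
  have k49 : S.V (u0 :: u) (g :: d :: b :: v0 :: v) [a, f] e = S.V [g, a, f] u (e :: d :: b :: v0 :: v) u0 := (np (S.V23 (u0 :: u) (g :: d :: b :: v0 :: v) [a, f] e) (nn (S.V12 u [a, f] (g :: d :: b :: v0 :: v) u0 e) (np (S.Vab [a, f] u (g :: d :: b :: v0 :: v) u0 e) (nn (S.V23 [e, a, f] u (g :: d :: b :: v0 :: v) u0) (np (S.V12 [a, f] (g :: d :: b :: v0 :: v) u e u0) (nn (S.V1_0 e g d (b :: v0 :: v) [a, f] u u0) (np (S.V12 (e :: d :: b :: v0 :: v) [a, f] u g u0) (S.V23 [g, a, f] (e :: d :: b :: v0 :: v) u u0))))))))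
  have k50 : S.V (g :: d :: b :: v0 :: v) (u0 :: u) [a, f] e = S.V [e, a, f] (u0 :: u) (d :: b :: v0 :: v) g := (np (S.V23 (g :: d :: b :: v0 :: v) (u0 :: u) [a, f] e) (nn (S.V12 (d :: b :: v0 :: v) [a, f] (u0 :: u) g e) (np (S.V23 [g, a, f] (d :: b :: v0 :: v) (u0 :: u) e) (S.Vab [a, f] (u0 :: u) (d :: b :: v0 :: v) g e))))
  have k51 : S.V (e :: d :: b :: u0 :: u) (v0 :: v) [f, a] g = -S.V [f, b, a] (e :: d :: u0 :: u) (v0 :: v) g := (nn (S.V23 (e :: d :: b :: u0 :: u) (v0 :: v) [f, a] g) (np (S.V12 (d :: b :: u0 :: u) [f, a] (v0 :: v) e g) (nn (S.V12 [f, a] (d :: b :: u0 :: u) (v0 :: v) e g) (np (S.V1_1 e d b u0 u [f, a] (v0 :: v) g) (nn (S.V1_0 e b d (u0 :: u) [f, a] (v0 :: v) g) (np (S.V1_1 b e d u0 u [f, a] (v0 :: v) g) (nn (S.V12 (d :: e :: u0 :: u) [f, a] (v0 :: v) b g) (np (S.V1_0 b f a [] (d :: e :: u0 :: u) (v0 :: v)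 g) (nn (S.V12 [b, a] (d :: e :: u0 :: u) (v0 :: v) f g) (np (S.V1_0 f d e (u0 :: u) [b, a] (v0 :: v) g) (nn (S.V12 (f :: e :: u0 :: u) [b, a] (v0 :: v) d g) (np (S.V12 [b, a] (f :: e :: u0 :: u) (v0 :: v) d g) (nn (S.V1_1 d f e u0 u [b, a] (v0 :: v) g) (np (S.V1_0 d e f (u0 :: u) [b, a] (v0 :: v) g) (nn (S.V1_1 e d f u0 u [b, a] (v0 :: v) g) (np (S.V12 (f :: d :: u0 :: u) [b, a] (v0 :: v) e g) (nn (S.V12 [b, a] (f :: d :: u0 :: u) (v0 :: v) e g) (np (S.V1_0 e f d (u0 :: u) [b, a] (v0 :: v) g) (S.V12 (e :: d :: u0 :: u) [b, a] (v0 :: v) f g)))))))))))))))))))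
  have k52 : S.V (v0 :: v) (e :: d :: b :: u0 :: u) [f, a] g = -S.V [g, b, a] (f :: e :: d :: u0 :: u) v v0 := (nn (S.V23 (v0 :: v) (e :: d :: b :: u0 :: u) [f, a] g) (np (S.V12 v [f, a] (e :: d :: b :: u0 :: u) v0 g) (nn (S.V23 [v0, f, a] v (e :: d :: b :: u0 :: u) g) (np (S.V12 [f, a] (e :: d :: b :: u0 :: u) v v0 g) (nn (S.V1_2 v0 e d b u0 u [f, a] v g) (np (S.V1_1 v0 e b d (u0 :: u) [f, a] v g) (nn (S.V1_0 v0 b e (d :: u0 :: u) [f, a] v g) (np (S.V1_1 b v0 e d (u0 :: u) [f, a] v g) (nn (S.V1_2 b e v0 d u0 u [f, a] v g) (np (S.V12 (e :: d :: v0 :: u0 :: u) [f, a] v b g) (nn (S.V1_0 b f a [] (e :: d :: v0 :: u0 :: u) v g) (np (S.V12 [b, a] (e :: d :: v0 :: u0 :: u) v f g) (nn (S.V1_1 f e d v0 (u0 :: u) [b, a] v g) (np (S.V1_0 f d e (v0 :: u0 :: u) [b, a] v g) (nn (S.V1_1 d f e v0 (u0 :: u) [b, a] v g) (np (S.V12 (e :: f :: v0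 :: u0 :: u) [b, a] v d g) (nn (S.V12 [b, a] (e :: f :: v0 :: u0 :: u) v d g) (np (S.V1_2 d e f v0 u0 u [b, a] v g) (nn (S.V1_1 d e v0 f (u0 :: u) [b, a] v g) (np (S.V1_0 d v0 e (f :: u0 :: u) [b, a] v g) (nn (S.V1_1 v0 d e f (u0 :: u) [b, a] v g) (np (S.V1_2 v0 e d f u0 u [b, a] v g) (nn (S.V12 (e :: f :: d :: u0 :: u) [b, a] v v0 g) (np (S.V12 [b, a] (e :: f :: d :: u0 :: u) v v0 g) (nn (S.V1_0 v0 e f (d :: u0 :: u) [b, a] v g) (np (S.V12 (v0 :: f :: d :: u0 :: u) [b, a] v e g) (nn (S.V12 [b, a] (v0 :: f :: d :: u0 :: u) v e g) (np (S.V1_1 e v0 f d (u0 :: u) [b, a] v g) (nn (S.V1_0 e f v0 (d :: u0 :: u) [b, a] v g) (np (S.V1_1 f e v0 d (u0 :: u) [b, a] v g) (nn (S.V12 (v0 :: e :: d :: u0 :: u) [b, a] v f g) (np (S.V12 [b, a] (v0 :: e :: d :: u0 :: u) v f g) (nn (S.V1_0 f v0 e (d :: u0 :: u) [b, a] v g) (np (S.V12 (f :: e :: d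 :: u0 :: u) [b, a] v v0 g) (S.Vab [b, a] (f :: e :: d :: u0 :: u) v v0 g)))))))))))))))))))))))))))))))))))
  have k53 : S.T (u0 :: u) (e :: d :: b :: g :: v0 :: v) [f, a] = -S.T (u0 :: u) (g :: e :: d :: b :: v0 :: v) [f, a] := (nn (S.T2_2 e d b g v0 v (u0 :: u) [f, a]) (np (S.T2_1 e d g b (v0 :: v) (u0 :: u) [f, a]) (S.T2_0 e g d (b :: v0 :: v) (u0 :: u) [f, a])))
  have k54 : S.V (u0 :: u) (g :: v0 :: v) [e, d, f, a] b = -S.V [g, e, d, b, a] u (f :: v0 :: v) u0 := (nn (S.V23 (u0 :: u) (g :: v0 :: v) [e, d, f, a] b) (np (S.V12 u [e, d, f, a] (g :: v0 :: v) u0 b) (nn (S.Vab [e, d, f, a] u (g :: v0 :: v) u0 b) (np (S.V1_2 b e d f a [] u (g :: v0 :: v) u0) (nn (S.V1_1 b e f d [a] u (g :: v0 :: v) u0) (np (S.V1_0 b f e [d, a] u (g :: v0 :: v) u0) (nn (S.V1_1 f b e d [a] u (g :: v0 :: v) u0) (np (S.V1_2 f e b d a [] u (g :: v0 ::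 v) u0) (nn (S.V23 [f, e, d, b, a] u (g :: v0 :: v) u0) (np (S.V12 [e, d, b, a] (g :: v0 :: v) u f u0) (nn (S.V1_0 f g v0 v [e, d, b, a] u u0) (np (S.V12 (f :: v0 :: v) [e, d, b, a] u g u0) (S.V23 [g, e, d, b, a] (f :: v0 :: v) u u0)))))))))))))
  have k55 : S.V (g :: v0 :: v) (u0 :: u) [e, d, f, a] b = -S.V [f, e, d, b, a] (u0 :: u) (v0 :: v) g := (nn (S.V23 (g :: v0 :: v) (u0 :: u) [e, d, f, a] b) (np (S.V12 (v0 :: v) [e, d, f, a] (u0 :: u) g b) (nn (S.V23 [g, e, d, f, a] (v0 :: v) (u0 :: u) b) (np (S.Vab [e, d, f, a] (u0 :: u) (v0 :: v) g b) (nn (S.V1_2 b e d f a [] (u0 :: u) (v0 :: v) g) (np (S.V1_1 b e f d [a] (u0 :: u) (v0 :: v) g) (nn (S.V1_0 b f e [d, a] (u0 :: u) (v0 :: v) g) (np (S.V1_1 f b e d [a] (u0 :: u) (v0 :: v) g) (S.V1_2 f e b d a [] (u0 :: u) (v0 :: v) g)))))))))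
  have k56 : S.V (d :: b :: u0 :: u) (g :: v0 :: v) [f, a] e = -S.V [f, b, a] (d :: u0 :: u) (e :: v0 :: v) g := (nn (S.V23 (d :: b :: u0 :: u) (g :: v0 :: v) [f, a] e) (np (S.V12 (b :: u0 :: u) [f, a] (g :: v0 :: v) d e) (nn (S.V12 [f, a] (b :: u0 :: u) (g :: v0 :: v) d e) (np (S.V1_0 d b u0 u [f, a] (g :: v0 :: v) e) (nn (S.V12 (d :: u0 :: u) [f, a] (g :: v0 :: v) b e) (np (S.V1_0 b f a [] (d :: u0 :: u) (g :: v0 :: v) e) (nn (S.Vab [b, a] (d :: u0 :: u) (g :: v0 :: v) f e) (np (S.V23 [e, b, a] (d :: u0 :: u) (g :: v0 :: v) f) (nn (S.V12 [b, a] (g :: v0 :: v) (d :: u0 :: u) e f) (np (S.V1_0 e g v0 v [b, a] (d :: u0 :: u) f) (nn (S.V12 (e :: v0 :: v) [b, a] (d :: u0 :: u) g f) (np (S.V23 [g, b, a] (e :: v0 :: v) (d :: u0 :: u) f) (S.Vab [b, a] (d :: u0 :: u) (e :: v0 :: v) g f)))))))))))))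
  have k57 : S.V (d :: b :: g :: v0 :: v) (u0 :: u) [f, a] e = -S.V [f, b, a] (u0 :: u) (e :: d :: v0 :: v) g := (nn (S.V23 (d :: b :: g :: v0 :: v) (u0 :: u) [f, a] e) (np (S.V12 (b :: g :: v0 :: v) [f, a] (u0 :: u) d e) (nn (S.V23 [d, f, a] (b :: g :: v0 :: v) (u0 :: u) e) (np (S.V23 [d, f, a] (u0 :: u) (b :: g :: v0 :: v) e) (nn (S.V12 [f, a] (b :: g :: v0 :: v) (u0 :: u) d e) (np (S.V1_0 d b g (v0 :: v) [f, a] (u0 :: u) e) (nn (S.V12 (d :: g :: v0 :: v) [f, a] (u0 :: u) b e) (np (S.V23 [b, f, a] (d :: g :: v0 :: v) (u0 :: u) e) (nn (S.V1_0 b f a [] (u0 :: u) (d :: g :: v0 :: v) e) (np (S.V23 [f, b, a] (u0 :: u) (d :: g :: v0 :: v) e) (nn (S.V12 [b, a] (d :: g :: v0 :: v) (u0 :: u) f e) (np (S.V1_0 f d g (v0 :: v) [b, a] (u0 :: u) e) (nn (S.V12 (f :: g :: v0 :: v) [b, a] (u0 :: u) d e) (np (S.V23 [d, b, a] (f :: g :: v0 :: v)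 (u0 :: u) e) (nn (S.V23 [d, b, a] (u0 :: u) (f :: g :: v0 :: v) e) (np (S.V12 [b, a] (f :: g :: v0 :: v) (u0 :: u) d e) (nn (S.V1_1 d f g v0 v [b, a] (u0 :: u) e) (np (S.V1_0 d g f (v0 :: v) [b, a] (u0 :: u) e) (nn (S.V1_1 g d f v0 v [b, a] (u0 :: u) e) (np (S.V12 (f :: d :: v0 :: v) [b, a] (u0 :: u) g e) (nn (S.V23 [g, b, a] (f :: d :: v0 :: v) (u0 :: u) e) (np (S.Vab [b, a] (u0 :: u) (f :: d :: v0 :: v) g e) (nn (S.V23 [e, b, a] (u0 :: u) (f :: d :: v0 :: v) g) (np (S.V12 [b, a] (f :: d :: v0 :: v) (u0 :: u) e g) (nn (S.V1_0 e f d (v0 :: v) [b, a] (u0 :: u) g) (np (S.V12 (e :: d :: v0 :: v) [b, a] (u0 :: u) f g) (S.V23 [f, b, a] (e :: d :: v0 :: v) (u0 :: u) g)))))))))))))))))))))))))))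
  have k58 : S.T [d, g, f, b, a] (u0 :: u) (e :: v0 :: v) = S.T [g, f, d, b, a] (u0 :: u) (e :: v0 :: v) := (np (S.T1_0 d g f [b, a] (u0 :: u) (e :: v0 :: v)) (S.T1_1 g d f b [a] (u0 :: u) (e :: v0 :: v)))
  have k59 : S.V [g, f, b, a] (u0 :: u) (e :: v0 :: v) d = S.V [f, d, b, a] (u0 :: u) (e :: v0 :: v) g := (np (S.Vab [f, b, a] (u0 :: u) (e :: v0 :: v) g d) (S.V1_0 d f b [a] (u0 :: u) (e :: v0 :: v) g))
  have k60 : S.V (u0 :: u) [g, f, b, a] (e :: v0 :: v) d = -S.V [g, e, d, b, a] u (f :: v0 :: v) u0 := (nn (S.V12 u [g, f, b, a] (e :: v0 :: v) u0 d) (np (S.Vab [g, f, b, a] u (e :: v0 :: v) u0 d) (nn (S.V1_1 d g f b [a] u (e :: v0 :: v) u0) (np (S.V1_0 d f g [b, a] u (e :: v0 :: v) u0) (nn (S.V1_1 f d g b [a] u (e :: v0 :: v) u0) (np (S.V23 [f, g, d, b, a] u (e :: v0 :: v) u0) (nn (S.V12 [g, d, b, a] (e :: v0 :: v) u f u0) (np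 (S.V1_0 f e v0 v [g, d, b, a] u u0) (nn (S.V12 (f :: v0 :: v) [g, d, b, a] u e u0) (np (S.V23 [e, g, d, b, a] (f :: v0 :: v) u u0) (S.V1_0 e g d [b, a] u (f :: v0 :: v) u0)))))))))))
  have k61 : S.T [a] (f :: g :: d :: b :: u0 :: u) (e :: v0 :: v) = -S.T [a] (g :: f :: d :: b :: u0 :: u) (e :: v0 :: v) := (S.T2_0 f g d (b :: u0 :: u) [a] (e :: v0 :: v))
  have k62 : S.V [a] (g :: d :: b :: u0 :: u) (e :: v0 :: v) f = S.V [f] (d :: b :: a :: u0 :: u) (e :: v0 :: v) g := (np (S.V12 [] (g :: d :: b :: u0 :: u) (e :: v0 :: v) a f) (nn (S.V1_2 a g d b u0 u [] (e :: v0 :: v) f) (np (S.V1_1 a g b d (u0 :: u) [] (e :: v0 :: v) f) (nn (S.V1_0 a b g (d :: u0 :: u) [] (e :: v0 :: v) f) (np (S.V1_1 b a g d (u0 :: u) [] (e :: v0 :: v) f) (nn (S.V1_2 b g a d u0 u [] (e :: v0 :: v) f) (np (S.V12 (g :: d :: a :: u0 :: u) [] (e :: v0 :: v) b f)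 (nn (S.V12 [] (g :: d :: a :: u0 :: u) (e :: v0 :: v) b f) (np (S.V1_1 b g d a (u0 :: u) [] (e :: v0 :: v) f) (nn (S.V1_0 b d g (a :: u0 :: u) [] (e :: v0 :: v) f) (np (S.V1_1 d b g a (u0 :: u) [] (e :: v0 :: v) f) (nn (S.V12 (g :: b :: a :: u0 :: u) [] (e :: v0 :: v) d f) (np (S.V12 [] (g :: b :: a :: u0 :: u) (e :: v0 :: v) d f) (nn (S.V1_0 d g b (a :: u0 :: u) [] (e :: v0 :: v) f) (np (S.V12 (d :: b :: a :: u0 :: u) [] (e :: v0 :: v) g f) (S.Vab [] (d :: b :: a :: u0 :: u) (e :: v0 :: v) g f))))))))))))))))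
  have k63 : S.V (g :: d :: b :: u0 :: u) [a] (e :: v0 :: v) f = 0 := (nz (S.V23 (g :: d :: b :: u0 :: u) [a] (e :: v0 :: v) f) (S.P1V (d :: b :: u0 :: u) (e :: v0 :: v) a g f))
  have k64 : S.T [f, b, g, a] (d :: u0 :: u) (e :: v0 :: v) = S.T [g, f, b, a] (d :: u0 :: u) (e :: v0 :: v) := (np (S.T1_1 f b g a [] (d :: u0 :: u) (e :: v0 :: v)) (S.T1_0 f g b [a] (d :: u0 :: u) (e :: v0 :: v)))
  have k65 : S.T [a] (f :: b :: g :: d :: u0 :: u) (e :: v0 :: v) = -S.T [a] (g :: f :: d :: b :: u0 :: u) (e :: v0 :: v) := (nn (S.T2_1 f b g d (u0 :: u) [a] (e :: v0 :: v)) (np (S.T2_2 f g b d u0 u [a] (e :: v0 :: v)) (S.T2_0 f g d (b :: u0 :: u) [a] (e :: v0 :: v))))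
  have k66 : S.V [a] (d :: u0 :: u) (f :: b :: e :: v0 :: v) g = S.V [f] (a :: u0 :: u) (e :: d :: b :: v0 :: v) g := (np (S.V12 [] (d :: u0 :: u) (f :: b :: e :: v0 :: v) a g) (nn (S.V1_0 a d u0 u [] (f :: b :: e :: v0 :: v) g) (np (S.V12 (a :: u0 :: u) [] (f :: b :: e :: v0 :: v) d g) (nn (S.V23 [d] (a :: u0 :: u) (f :: b :: e :: v0 :: v) g) (np (S.V12 [] (f :: b :: e :: v0 :: v) (a :: u0 :: u) d g) (nn (S.V1_1 d f b e (v0 :: v) [] (a :: u0 :: u) g) (np (S.V1_0 d b f (e :: v0 :: v) [] (a :: u0 :: u) g) (nn (S.V1_1 b d f e (v0 :: v) [] (a :: u0 :: u) g) (np (S.V12 (f :: d :: e :: v0 :: v) [] (a :: u0 :: u) b g) (nn (S.V23 [b] (f :: d :: e :: v0 :: v) (a :: u0 :: u) g) (np (S.V23 [b] (a :: u0 :: u) (f :: d :: e :: v0 :: v) g) (nn (S.V12 [] (f :: d :: e :: v0 :: v) (a :: u0 :: u) b g) (np (S.V1_2 b f d e v0 v [] (a :: u0 :: u) g)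 (nn (S.V1_1 b f e d (v0 :: v) [] (a :: u0 :: u) g) (np (S.V1_0 b e f (d :: v0 :: v) [] (a :: u0 :: u) g) (nn (S.V1_1 e b f d (v0 :: v) [] (a :: u0 :: u) g) (np (S.V1_2 e f b d v0 v [] (a :: u0 :: u) g) (nn (S.V12 (f :: d :: b :: v0 :: v) [] (a :: u0 :: u) e g) (np (S.V23 [e] (f :: d :: b :: v0 :: v) (a :: u0 :: u) g) (nn (S.V23 [e] (a :: u0 :: u) (f :: d :: b :: v0 :: v) g) (np (S.V12 [] (f :: d :: b :: v0 :: v) (a :: u0 :: u) e g) (nn (S.V1_0 e f d (b :: v0 :: v) [] (a :: u0 :: u) g) (np (S.V12 (e :: d :: b :: v0 :: v) [] (a :: u0 :: u) f g) (S.V23 [f] (e :: d :: b :: v0 :: v) (a :: u0 :: u) g))))))))))))))))))))))))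
  have k67 : S.V (d :: u0 :: u) [a] (f :: b :: e :: v0 :: v) g = 0 := (nz (S.V23 (d :: u0 :: u) [a] (f :: b :: e :: v0 :: v) g) (S.P1V (u0 :: u) (f :: b :: e :: v0 :: v) a d g))
  have k68 : S.V [b, g, a] (d :: u0 :: u) (e :: v0 :: v) f = S.V [f, b, a] (d :: u0 :: u) (e :: v0 :: v) g := (np (S.V1_0 b g a [] (d :: u0 :: u) (e :: v0 :: v) f) (S.Vab [b, a] (d :: u0 :: u) (e :: v0 :: v) g f))
  have k69 : S.V (b :: g :: d :: u0 :: u) [a] (e :: v0 :: v) f = 0 := (nz (S.V23 (b :: g :: d :: u0 :: u) [a] (e :: v0 :: v) f) (S.P1V (g :: d :: u0 :: u) (e :: v0 :: v) a b f))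
  have k70 : S.V (f :: a :: u0 :: u) (b :: v0 :: v) [e, d] g = S.V [f, a, d] (b :: u0 :: u) (e :: v0 :: v) g := (np (S.V23 (f :: a :: u0 :: u) (b :: v0 :: v) [e, d] g) (nn (S.V12 (a :: u0 :: u) [e, d] (b :: v0 :: v) f g) (np (S.V12 [e, d] (a :: u0 :: u) (b :: v0 :: v) f g) (nn (S.V1_0 f a u0 u [e, d] (b :: v0 :: v) g) (np (S.V12 (f :: u0 :: u) [e, d] (b :: v0 :: v) a g) (nn (S.V1_0 a e d [] (f :: u0 :: u) (b :: v0 :: v) g) (np (S.V23 [e, a, d] (f :: u0 :: u) (b :: v0 :: v) g) (nn (S.V12 [a, d] (b :: v0 :: v) (f :: u0 :: u) e g) (np (S.V1_0 e b v0 v [a, d] (f :: u0 :: u) g) (nn (S.V12 (e :: v0 :: v) [a, d] (f :: u0 :: u) b g) (np (S.V23 [b, a, d] (e :: v0 :: v) (f :: u0 :: u) g) (nn (S.V12 [a, d] (f :: u0 :: u) (e :: v0 :: v) b g) (np (S.V1_0 b f u0 u [a, d] (e :: v0 :: v) g) (S.V12 (b :: u0 :: u) [a, d] (e :: v0 :: v) f g))))))))))))))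
  refine S.m6 ?_
  linear_combination (norm := module) (-6:ℤ) • i0 + (-6:ℤ) • i1 + (-1:ℤ) • i2 + (1:ℤ) • i3 + (-1:ℤ) • i4 + (1:ℤ) • i5 + (-1:ℤ) • i6 + (-1:ℤ) • i7 + (1:ℤ) • i8 + (1:ℤ) • i9 + (1:ℤ) • i10 + (1:ℤ) • i11 + (1:ℤ) • i12 + (-1:ℤ) • i13 + (1:ℤ) • i14 + (-1:ℤ) • i15 + (6:ℤ) • k0 + (6:ℤ) • k1 + (6:ℤ) • k2 + (6:ℤ) • k3 + (-6:ℤ) • k4 + (-6:ℤ) • k5 + (6:ℤ) • k6 + (6:ℤ) • k7 + (6:ℤ) • k8 + (6:ℤ) • k9 + (-6:ℤ) • k10 + (-6:ℤ) • k11 + (1:ℤ) • k12 + (-1:ℤ) • k13 + (-1:ℤ) • k14 + (-1:ℤ) • k15 + (-1:ℤ) • k16 + (-1:ℤ) • k17 + (-1:ℤ) • k18 + (1:ℤ) • k19 + (1:ℤ) • k20 + (1:ℤ) • k21 + (1:ℤ) • k22 + (1:ℤ) • k23 + (-1:ℤ) • k24 + (-1:ℤ) • k25 + (-1:ℤ) • k26 + (1:ℤ) • k27 + (1:ℤ) • k28 + (1:ℤ) • k29 + (-1:ℤ) • k30 + (-1:ℤ) • k31 + (-1:ℤ) • k32 + (-1:ℤ) • k33 + (-1:ℤ) • k34 + (1:ℤ) • k35 + (-1:ℤ) • k36 + (-1:ℤ) • k37 + (-1:ℤ) • k38 + (-1:ℤ)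 • k39 + (-1:ℤ) • k40 + (1:ℤ) • k41 + (1:ℤ) • k42 + (-1:ℤ) • k43 + (1:ℤ) • k44 + (1:ℤ) • k45 + (1:ℤ) • k46 + (-1:ℤ) • k47 + (1:ℤ) • k48 + (1:ℤ) • k49 + (1:ℤ) • k50 + (1:ℤ) • k51 + (1:ℤ) • k52 + (1:ℤ) • k53 + (1:ℤ) • k54 + (1:ℤ) • k55 + (1:ℤ) • k56 + (1:ℤ) • k57 + (1:ℤ) • k58 + (-1:ℤ) • k59 + (-1:ℤ) • k60 + (1:ℤ) • k61 + (1:ℤ) • k62 + (1:ℤ) • k63 + (1:ℤ) • k64 + (-1:ℤ) • k65 + (-1:ℤ) • k66 + (-1:ℤ) • k67 + (-1:ℤ) • k68 + (-1:ℤ) • k69 + (6:ℤ) • k70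

theorem P2V (u v : List α) (e d a f : α) : S.V (a :: u) v [e, d] f = 0 := by
  rcases u with _ | ⟨x, _ | ⟨y, u⟩⟩
  · rw [S.V12, S.V23, S.Omega2, neg_zero, neg_zero]
  · rw [S.V12, S.V23, S.P1V, neg_zero, neg_zero]
  · rcases v with _ | ⟨z, _ | ⟨w, v⟩⟩
    · rw [S.V23, S.Omega2, neg_zero]
    · rw [S.V23, S.P1V, neg_zero]
    · exact S.E5 u v y w x z d e a f

theorem E6a (u : List α) (u0 a b d e f g : α) : S.V (f :: u0 :: u) [e, d, b, a] [] g = 0 := by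
  have i0 := S.STAR [a] (e :: d :: u0 :: u) [] f b g
  have i1 := S.G [g, f, b, a] (e :: u0 :: u) [] d
  have i2 := S.STAR [f, a] (e :: u0 :: u) [] d b g
  have i3 := S.G [a] (g :: e :: d :: b :: u0 :: u) [] f
  have k0 : S.T [g, b, f, a] (e :: d :: u0 :: u) [] = -S.T [g, f, b, a] (e :: d :: u0 :: u) [] := (S.T1_1 g b f a [] (e :: d :: u0 :: u) [])
  have k1 : S.T [a] (g :: b :: f :: e :: d :: u0 :: u) [] = 0 := (nz (S.Tsw [a] (g :: b :: f :: e :: d :: u0 :: u) []) (S.d10 (g :: b :: f :: e :: d :: u0 :: u) a))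
  have k2 : S.V [a] (e :: d :: u0 :: u) [g, b] f = 0 := (nz (S.V12 [] (e :: d :: u0 :: u) [g, b] a f) (nz (S.V23 (a :: e :: d :: u0 :: u) [] [g, b] f) (S.Omega2 (e :: d :: u0 :: u) g b a f)))
  have k3 : S.V (e :: d :: u0 :: u) [a] [g, b] f = 0 := (nz (S.V23 (e :: d :: u0 :: u) [a] [g, b] f) (S.P1V (d :: u0 :: u) [g, b] a e f))
  have k4 : S.V [b, f, a] (e :: d :: u0 :: u) [] g = 0 := (nz (S.V12 [f, a] (e :: d :: u0 :: u) [] b g) (S.Omega2 (e :: d :: u0 :: u) f a b g))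
  have k5 : S.V (b :: f :: e :: d :: u0 :: u) [a] [] g = 0 := (S.Omega1 (f :: e :: d :: u0 :: u) a b g)
  have k6 : S.T [d, g, f, b, a] (e :: u0 :: u) [] = S.T [g, f, d, b, a] (e :: u0 :: u) [] := (np (S.T1_0 d g f [b, a] (e :: u0 :: u) []) (S.T1_1 g d f b [a] (e :: u0 :: u) []))
  have k7 : S.T [g, f, b, a] (d :: e :: u0 :: u) [] = -S.T [g, f, b, a] (e :: d :: u0 :: u) [] := (S.T2_0 d e u0 u [g, f, b, a] [])
  have k8 : S.V [g, f, b, a] (e :: u0 :: u) [] d = S.V [f] [d, b, a] (e :: u0 :: u) g := (np (S.V23 [g, f, b, a] (e :: u0 :: u) [] d) (nn (S.V12 [f, b, a] [] (e :: u0 :: u) g d) (np (S.Vab [] [f, b, a] (e :: u0 :: u) g d) (nn (S.V12 [] [f, b, a] (e :: u0 :: u) d g) (np (S.V1_0 d f b [a] [] (e :: u0 :: u) g) (S.V12 [d, b, a] [] (e :: u0 :: u) f g))))))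
  have k9 : S.V (e :: u0 :: u) [g, f, b, a] [] d = S.V [f] [e, d, b, a] (u0 :: u) g := (np (S.V23 (e :: u0 :: u) [g, f, b, a] [] d) (nn (S.V12 (u0 :: u) [] [g, f, b, a] e d) (np (S.V23 [e] (u0 :: u) [g, f, b, a] d) (nn (S.Vab [] [g, f, b, a] (u0 :: u) e d) (np (S.V12 [] [g, f, b, a] (u0 :: u) d e) (nn (S.V1_1 d g f b [a] [] (u0 :: u) e) (np (S.V1_0 d f g [b, a] [] (u0 :: u) e) (nn (S.V1_1 f d g b [a] [] (u0 :: u) e) (np (S.V12 [g, d, b, a] [] (u0 :: u) f e) (nn (S.Vab [] [g, d, b, a] (u0 :: u) f e) (np (S.V12 [] [g, d, b, a] (u0 :: u) e f) (nn (S.V1_0 e g d [b, a] [] (u0 :: u) f) (np (S.V12 [e, d, b, a] [] (u0 :: u) g f) (S.Vab [] [e, d, b, a] (u0 :: u) g f))))))))))))))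
  have k10 : S.T [g, b, d, f, a] (e :: u0 :: u) [] = -S.T [g, f, d, b, a] (e :: u0 :: u) [] := (nn (S.T1_2 g b d f a [] (e :: u0 :: u) []) (np (S.T1_1 g b f d [a] (e :: u0 :: u) []) (S.T1_2 g f b d a [] (e :: u0 :: u) [])))
  have k11 : S.T [f, a] (g :: b :: d :: e :: u0 :: u) [] = -S.T [f, a] (g :: e :: d :: b :: u0 :: u) [] := (nn (S.T2_2 g b d e u0 u [f, a] []) (np (S.T2_1 g b e d (u0 :: u) [f, a] []) (S.T2_2 g e b d u0 u [f, a] [])))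
  have k12 : S.V [f, a] (e :: u0 :: u) [g, b] d = 0 := (nz (S.V12 [a] (e :: u0 :: u) [g, b] f d) (nz (S.V23 (f :: e :: u0 :: u) [a] [g, b] d) (S.P1V (e :: u0 :: u) [g, b] a f d)))
  have k13 : S.V (e :: u0 :: u) [f, a] [g, b] d = 0 := (nz (S.V23 (e :: u0 :: u) [f, a] [g, b] d) (S.P2V (u0 :: u) [g, b] f a e d))
  have k14 : S.V [b, d, f, a] (e :: u0 :: u) [] g = -S.V [f] [d, b, a] (e :: u0 :: u) g := (nn (S.V23 [b, d, f, a] (e :: u0 :: u) [] g) (np (S.V12 [d, f, a] [] (e :: u0 :: u) b g) (nn (S.V12 [] [d, f, a] (e :: u0 :: u) b g) (np (S.V1_1 b d f a [] [] (e :: u0 :: u) g) (nn (S.V1_0 b f d [a] [] (e :: u0 :: u) g) (np (S.V1_1 f b d a [] [] (e :: u0 :: u) g) (S.V12 [d, b, a] [] (e :: u0 :: u) f g)))))))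
  have k15 : S.V (b :: d :: e :: u0 :: u) [f, a] [] g = 0 := (S.Omega2 (d :: e :: u0 :: u) f a b g)
  have k16 : S.T [a] (f :: g :: e :: d :: b :: u0 :: u) [] = 0 := (nz (S.Tsw [a] (f :: g :: e :: d :: b :: u0 :: u) []) (S.d10 (f :: g :: e :: d :: b :: u0 :: u) a))
  have k17 : S.V [a] (g :: e :: d :: b :: u0 :: u) [] f = 0 := (nz (S.V23 [a] (g :: e :: d :: b :: u0 :: u) [] f) (S.Vee (g :: e :: d :: b :: u0 :: u) a f))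
  have k18 : S.V (g :: e :: d :: b :: u0 :: u) [a] [] f = 0 := (S.Omega1 (e :: d :: b :: u0 :: u) a g f)
  have k19 : S.V (f :: u0 :: u) [e, d, b, a] [] g = -S.V [f] [e, d, b, a] (u0 :: u) g := (nn (S.V23 (f :: u0 :: u) [e, d, b, a] [] g) (np (S.V12 (u0 :: u) [] [e, d, b, a] f g) (S.V23 [f] (u0 :: u) [e, d, b, a] g)))
  refine S.m1 ?_
  linear_combination (norm := module) (1:ℤ) • i0 + (1:ℤ) • i1 + (1:ℤ) • i2 + (-1:ℤ) • i3 + (-1:ℤ) • k0 + (1:ℤ) • k1 + (1:ℤ) • k2 + (1:ℤ) • k3 + (1:ℤ) • k4 + (1:ℤ) • k5 + (-1:ℤ) • k6 + (1:ℤ) • k7 + (1:ℤ) • k8 + (1:ℤ) • k9 + (-1:ℤ) • k10 + (1:ℤ) • k11 + (1:ℤ) • k12 + (1:ℤ) • k13 + (1:ℤ) • k14 + (1:ℤ) • k15 + (-1:ℤ) • k16 + (-1:ℤ) • k17 + (-1:ℤ) • k18 + (1:ℤ) • k19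

theorem E6b (u : List α) (u0 a b d e f g : α) : S.V (f :: a :: u0 :: u) [e, d, b] [] g = 0 := by
  have i0 := S.STAR [f] (g :: u0 :: u) [b] e a d
  have i1 := S.G [e, d, a, f] (u0 :: u) [b] g
  have i2 := S.G [f] (e :: d :: a :: u0 :: u) [b] g
  have i3 := S.STAR [g, f] (u0 :: u) [b] d e a
  have k0 : S.T [d, a, e, f] (g :: u0 :: u) [b] = S.T [e, d, a, f] (g :: u0 :: u) [b] := (np (S.T1_1 d a e f [] (g :: u0 :: u) [b]) (S.T1_0 d e a [f] (g :: u0 :: u) [b]))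
  have k1 : S.T [f] (d :: a :: e :: g :: u0 :: u) [b] = -S.T [f] (g :: e :: d :: a :: u0 :: u) [b] := (nn (S.T2_2 d a e g u0 u [f] [b]) (np (S.T2_1 d a g e (u0 :: u) [f] [b]) (nn (S.T2_2 d g a e u0 u [f] [b]) (np (S.T2_0 d g e (a :: u0 :: u) [f] [b]) (S.T2_1 g d e a (u0 :: u) [f] [b])))))
  have k2 : S.V [f] (g :: u0 :: u) [d, a, b] e = S.V [f] [d, a, b] (e :: u0 :: u) g := (np (S.V23 [f] (g :: u0 :: u) [d, a, b] e) (nn (S.Vab [] [d, a, b] (g :: u0 :: u) f e) (np (S.V23 [e] [d, a, b] (g :: u0 :: u) f) (nn (S.V12 [] (g :: u0 :: u) [d, a, b] e f) (np (S.V1_0 e g u0 u [] [d, a, b] f) (nn (S.V12 (e :: u0 :: u) [] [d, a, b] g f) (np (S.V23 [g] (e :: u0 :: u) [d, a, b] f) (S.Vab [] [d, a, b] (e :: u0 :: u) g f))))))))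
  have k3 : S.V (g :: u0 :: u) [f] [d, a, b] e = 0 := (nz (S.V23 (g :: u0 :: u) [f] [d, a, b] e) (S.P1V (u0 :: u) [d, a, b] f g e))
  have k4 : S.V [a, e, f] (g :: u0 :: u) [b] d = 0 := (S.P1V [e, f] (g :: u0 :: u) b a d)
  have k5 : S.V (a :: e :: g :: u0 :: u) [f] [b] d = 0 := (S.Z11 (e :: g :: u0 :: u) f b a d)
  have k6 : S.V [e, d, a, f] (u0 :: u) [b] g = 0 := (S.P1V [d, a, f] (u0 :: u) b e g)
  have k7 : S.V (u0 :: u) [e, d, a, f] [b] g = 0 := (S.P1V u [e, d, a, f] b u0 g)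
  have k8 : S.V [f] (e :: d :: a :: u0 :: u) [b] g = 0 := (nz (S.V12 [] (e :: d :: a :: u0 :: u) [b] f g) (nz (S.V23 (f :: e :: d :: a :: u0 :: u) [] [b] g) (S.Omega1 (e :: d :: a :: u0 :: u) b f g)))
  have k9 : S.V (e :: d :: a :: u0 :: u) [f] [b] g = 0 := (S.Z11 (d :: a :: u0 :: u) f b e g)
  have k10 : S.T [a, e, d, g, f] (u0 :: u) [b] = -S.T [g, e, d, a, f] (u0 :: u) [b] := (nn (S.T1_2 a e d g f [] (u0 :: u) [b]) (np (S.T1_1 a e g d [f] (u0 :: u) [b]) (nn (S.T1_0 a g e [d, f] (u0 :: u) [b]) (np (S.T1_1 g a e d [f] (u0 :: u) [b]) (S.T1_2 g e a d f [] (u0 :: u) [b])))))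
  have k11 : S.T [g, f] (a :: e :: d :: u0 :: u) [b] = S.T [g, f] (e :: d :: a :: u0 :: u) [b] := (np (S.T2_0 a e d (u0 :: u) [g, f] [b]) (S.T2_1 e a d u0 u [g, f] [b]))
  have k12 : S.V [g, f] (u0 :: u) [a, e, b] d = 0 := (nz (S.V12 [f] (u0 :: u) [a, e, b] g d) (nz (S.V23 (g :: u0 :: u) [f] [a, e, b] d) (S.P1V (u0 :: u) [a, e, b] f g d)))
  have k13 : S.V (u0 :: u) [g, f] [a, e, b] d = 0 := (nz (S.V23 (u0 :: u) [g, f] [a, e, b] d) (S.P2V u [a, e, b] g f u0 d))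
  have k14 : S.V [e, d, g, f] (u0 :: u) [b] a = 0 := (S.P1V [d, g, f] (u0 :: u) b e a)
  have k15 : S.V (e :: d :: u0 :: u) [g, f] [b] a = 0 := (S.P1V (d :: u0 :: u) [g, f] b e a)
  have k16 : S.V (f :: a :: u0 :: u) [e, d, b] [] g = -S.V [f] [d, a, b] (e :: u0 :: u) g := (nn (S.V23 (f :: a :: u0 :: u) [e, d, b] [] g) (np (S.V12 (a :: u0 :: u) [] [e, d, b] f g) (nn (S.V23 [f] (a :: u0 :: u) [e, d, b] g) (np (S.V23 [f] [e, d, b] (a :: u0 :: u) g) (nn (S.V12 [] (a :: u0 :: u) [e, d, b] f g) (np (S.V1_0 f a u0 u [] [e, d, b] g) (nn (S.V12 (f :: u0 :: u) [] [e, d, b] a g) (np (S.V23 [a] (f :: u0 :: u) [e, d, b] g) (nn (S.V12 [] [e, d, b] (f :: u0 :: u) a g) (np (S.V1_1 a e d b [] [] (f :: u0 :: u) g) (nn (S.V1_0 a d e [b] [] (f :: u0 :: u) g) (np (S.V1_1 d a e b [] [] (f :: u0 :: u) g) (nn (S.V12 [e, a, b] [] (f :: u0 :: u) d g) (np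 (S.V12 [] [e, a, b] (f :: u0 :: u) d g) (nn (S.V1_0 d e a [b] [] (f :: u0 :: u) g) (np (S.V12 [d, a, b] [] (f :: u0 :: u) e g) (nn (S.V23 [e] [d, a, b] (f :: u0 :: u) g) (np (S.V12 [] (f :: u0 :: u) [d, a, b] e g) (nn (S.V1_0 e f u0 u [] [d, a, b] g) (np (S.V12 (e :: u0 :: u) [] [d, a, b] f g) (S.V23 [f] (e :: u0 :: u) [d, a, b] g)))))))))))))))))))))
  refine S.m1 ?_
  linear_combination (norm := module) (1:ℤ) • i0 + (1:ℤ) • i1 + (1:ℤ) • i2 + (1:ℤ) • i3 + (-1:ℤ) • k0 + (1:ℤ) • k1 + (1:ℤ) • k2 + (1:ℤ) • k3 + (1:ℤ) • k4 + (1:ℤ) • k5 + (1:ℤ) • k6 + (1:ℤ) • k7 + (1:ℤ) • k8 + (1:ℤ) • k9 + (-1:ℤ) • k10 + (1:ℤ) • k11 + (1:ℤ) • k12 + (1:ℤ) • k13 + (1:ℤ) • k14 + (1:ℤ) • k15 + (1:ℤ) • k16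

theorem E7 (u v : List α) (u0 v0 a b d e f g : α) : (-1:ℤ) • S.V (f :: u0 :: u) (e :: d :: b :: a :: v0 :: v) [] g + S.V (f :: b :: a :: u0 :: u) (e :: d :: v0 :: v) [] g = 0 := by
  have i0 := S.STAR [f] (g :: b :: v0 :: v) (u0 :: u) d a e
  have i1 := S.G [f] (g :: d :: b :: a :: v0 :: v) (u0 :: u) e
  have i2 := S.STAR [e, f] (b :: v0 :: v) (u0 :: u) d a g
  have i3 := S.G [e, d, a, f] (b :: v0 :: v) (u0 :: u) g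
  have i4 := S.G [g, e, d, f] (b :: u0 :: u) (v0 :: v) a
  have i5 := S.STAR [f] (b :: a :: u0 :: u) (v0 :: v) e d g
  have i6 := S.STAR [e, f] (b :: u0 :: u) (v0 :: v) g a d
  have i7 := S.G [f] (g :: d :: b :: a :: u0 :: u) (v0 :: v) e
  have i8 := S.G (a :: u0 :: u) (g :: f :: e :: b :: v0 :: v) [] d
  have i9 := S.STAR (d :: a :: u0 :: u) (e :: v0 :: v) [] b g f
  have i10 := S.G (f :: d :: b :: a :: u0 :: u) (e :: v0 :: v) [] g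
  have i11 := S.STAR (a :: u0 :: u) (g :: e :: v0 :: v) [] b f d
  have k0 : S.T [e, a, d, f] (g :: b :: v0 :: v) (u0 :: u) = -S.T [e, d, a, f] (g :: b :: v0 :: v) (u0 :: u) := (S.T1_1 e a d f [] (g :: b :: v0 :: v) (u0 :: u))
  have k1 : S.T [f] (e :: a :: d :: g :: b :: v0 :: v) (u0 :: u) = -S.T [f] (g :: e :: d :: b :: a :: v0 :: v) (u0 :: u) := (nn (S.T2_2 e a d g b (v0 :: v) [f] (u0 :: u)) (np (S.T2_1 e a g d (b :: v0 :: v) [f] (u0 :: u)) (nn (S.T2_2 e g a d b (v0 :: v) [f] (u0 :: u)) (np (S.T2_3 e g d a b v0 v [f] (u0 :: u)) (S.T2_0 e g d (b :: a :: v0 :: v) [f] (u0 :: u))))))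
  have k2 : S.V [f] (g :: b :: v0 :: v) (e :: a :: u0 :: u) d = S.V [f] (b :: a :: u0 :: u) (e :: d :: v0 :: v) g := (np (S.V23 [f] (g :: b :: v0 :: v) (e :: a :: u0 :: u) d) (nn (S.V23 [f] (e :: a :: u0 :: u) (g :: b :: v0 :: v) d) (np (S.V12 [] (g :: b :: v0 :: v) (e :: a :: u0 :: u) f d) (nn (S.V1_1 f g b v0 v [] (e :: a :: u0 :: u) d) (np (S.V1_0 f b g (v0 :: v) [] (e :: a :: u0 :: u) d) (nn (S.V1_1 b f g v0 v [] (e :: a :: u0 :: u) d) (np (S.V12 (g :: f :: v0 :: v) [] (e :: a :: u0 :: u) b d) (nn (S.V23 [b] (g :: f :: v0 :: v) (e :: a :: u0 :: u) d) (np (S.V12 [] (e :: a :: u0 :: u) (g :: f :: v0 :: v) b d) (nn (S.V1_0 b e a (u0 :: u) [] (g :: f :: v0 :: v) d) (np (S.V12 (b :: a :: u0 :: u) [] (g :: f :: v0 :: v) e d) (nn (S.Vab [] (b :: a :: u0 :: u) (g :: f :: v0 :: v) e d) (np (S.V23 [d] (b :: a :: u0 :: u) (g :: f :: v0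 :: v) e) (nn (S.V12 [] (g :: f :: v0 :: v) (b :: a :: u0 :: u) d e) (np (S.V1_1 d g f v0 v [] (b :: a :: u0 :: u) e) (nn (S.V1_0 d f g (v0 :: v) [] (b :: a :: u0 :: u) e) (np (S.V1_1 f d g v0 v [] (b :: a :: u0 :: u) e) (nn (S.V12 (g :: d :: v0 :: v) [] (b :: a :: u0 :: u) f e) (np (S.V23 [f] (g :: d :: v0 :: v) (b :: a :: u0 :: u) e) (nn (S.Vab [] (b :: a :: u0 :: u) (g :: d :: v0 :: v) f e) (np (S.V23 [e] (b :: a :: u0 :: u) (g :: d :: v0 :: v) f) (nn (S.V12 [] (g :: d :: v0 :: v) (b :: a :: u0 :: u) e f) (np (S.V1_0 e g d (v0 :: v) [] (b :: a :: u0 :: u) f) (nn (S.V12 (e :: d :: v0 :: v) [] (b :: a :: u0 :: u) g f) (np (S.V23 [g] (e :: d :: v0 :: v) (b :: a :: u0 :: u) f) (S.Vab [] (b :: a :: u0 :: u) (e :: d :: v0 :: v) g f))))))))))))))))))))))))))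
  have k3 : S.V (g :: b :: v0 :: v) [f] (e :: a :: u0 :: u) d = 0 := (nz (S.V23 (g :: b :: v0 :: v) [f] (e :: a :: u0 :: u) d) (S.P1V (b :: v0 :: v) (e :: a :: u0 :: u) f g d))
  have k4 : S.V [a, d, f] (g :: b :: v0 :: v) (u0 :: u) e = 0 := (nz (S.V12 [d, f] (g :: b :: v0 :: v) (u0 :: u) a e) (nz (S.V23 (a :: g :: b :: v0 :: v) [d, f] (u0 :: u) e) (S.P2V (g :: b :: v0 :: v) (u0 :: u) d f a e)))
  have k5 : S.V (a :: d :: g :: b :: v0 :: v) [f] (u0 :: u) e = 0 := (nz (S.V23 (a :: d :: g :: b :: v0 :: v) [f] (u0 :: u) e) (S.P1V (d :: g :: b :: v0 :: v) (u0 :: u) f a e))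
  have k6 : S.T [f] (e :: g :: d :: b :: a :: v0 :: v) (u0 :: u) = -S.T [f] (g :: e :: d :: b :: a :: v0 :: v) (u0 :: u) := (S.T2_0 e g d (b :: a :: v0 :: v) [f] (u0 :: u))
  have k7 : S.V [f] (g :: d :: b :: a :: v0 :: v) (u0 :: u) e = S.V [f] (u0 :: u) (e :: d :: b :: a :: v0 :: v) g := (np (S.V23 [f] (g :: d :: b :: a :: v0 :: v) (u0 :: u) e) (nn (S.Vab [] (u0 :: u) (g :: d :: b :: a :: v0 :: v) f e) (np (S.V23 [e] (u0 :: u) (g :: d :: b :: a :: v0 :: v) f) (nn (S.V12 [] (g :: d :: b :: a :: v0 :: v) (u0 :: u) e f) (np (S.V1_0 e g d (b :: a :: v0 :: v) [] (u0 :: u) f) (nn (S.V12 (e :: d :: b :: a :: v0 :: v) [] (u0 :: u) g f) (np (S.V23 [g] (e :: d :: b :: a :: v0 :: v) (u0 :: u) f) (S.Vab [] (u0 :: u) (e :: d :: b :: a :: v0 :: v) g f))))))))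
  have k8 : S.V (g :: d :: b :: a :: v0 :: v) [f] (u0 :: u) e = 0 := (nz (S.V23 (g :: d :: b :: a :: v0 :: v) [f] (u0 :: u) e) (S.P1V (d :: b :: a :: v0 :: v) (u0 :: u) f g e))
  have k9 : S.T [g, a, d, e, f] (b :: v0 :: v) (u0 :: u) = -S.T [g, e, d, a, f] (b :: v0 :: v) (u0 :: u) := (nn (S.T1_2 g a d e f [] (b :: v0 :: v) (u0 :: u)) (np (S.T1_1 g a e d [f] (b :: v0 :: v) (u0 :: u)) (S.T1_2 g e a d f [] (b :: v0 :: v) (u0 :: u))))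
  have k10 : S.T [e, f] (g :: a :: d :: b :: v0 :: v) (u0 :: u) = S.T [e, f] (g :: d :: b :: a :: v0 :: v) (u0 :: u) := (np (S.T2_1 g a d b (v0 :: v) [e, f] (u0 :: u)) (S.T2_2 g d a b v0 v [e, f] (u0 :: u)))
  have k11 : S.V [e, f] (b :: v0 :: v) (g :: a :: u0 :: u) d = 0 := (nz (S.V12 [f] (b :: v0 :: v) (g :: a :: u0 :: u) e d) (nz (S.V23 (e :: b :: v0 :: v) [f] (g :: a :: u0 :: u) d) (S.P1V (b :: v0 :: v) (g :: a :: u0 :: u) f e d)))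
  have k12 : S.V (b :: v0 :: v) [e, f] (g :: a :: u0 :: u) d = 0 := (nz (S.V23 (b :: v0 :: v) [e, f] (g :: a :: u0 :: u) d) (S.P2V (v0 :: v) (g :: a :: u0 :: u) e f b d))
  have k13 : S.V [a, d, e, f] (b :: v0 :: v) (u0 :: u) g = -S.V [e, b, a, f] (u0 :: u) (d :: v0 :: v) g := (nn (S.V23 [a, d, e, f] (b :: v0 :: v) (u0 :: u) g) (np (S.V1_1 a d e f [] (u0 :: u) (b :: v0 :: v) g) (nn (S.V1_0 a e d [f] (u0 :: u) (b :: v0 :: v) g) (np (S.V1_1 e a d f [] (u0 :: u) (b :: v0 :: v) g) (nn (S.V23 [e, d, a, f] (u0 :: u) (b :: v0 :: v) g) (np (S.V12 [d, a, f] (b :: v0 :: v) (u0 :: u) e g) (nn (S.V1_0 e b v0 v [d, a, f] (u0 :: u) g) (np (S.V12 (e :: v0 :: v) [d, a, f] (u0 :: u) b g) (nn (S.V23 [b, d, a, f] (e :: v0 :: v) (u0 :: u) g) (np (S.V1_0 b d a [f] (u0 :: u) (e :: v0 :: v) g) (nn (S.V23 [d, b, a, f] (u0 :: u) (e :: v0 :: v) g) (np (S.V12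 [b, a, f] (e :: v0 :: v) (u0 :: u) d g) (nn (S.V1_0 d e v0 v [b, a, f] (u0 :: u) g) (np (S.V12 (d :: v0 :: v) [b, a, f] (u0 :: u) e g) (S.V23 [e, b, a, f] (d :: v0 :: v) (u0 :: u) g)))))))))))))))
  have k14 : S.V (a :: d :: b :: v0 :: v) [e, f] (u0 :: u) g = 0 := (nz (S.V23 (a :: d :: b :: v0 :: v) [e, f] (u0 :: u) g) (S.P2V (d :: b :: v0 :: v) (u0 :: u) e f a g))
  have k15 : S.V [e, d, a, f] (b :: v0 :: v) (u0 :: u) g = S.V [e, b, a, f] (u0 :: u) (d :: v0 :: v) g := (np (S.V23 [e, d, a, f] (b :: v0 :: v) (u0 :: u) g) (nn (S.V23 [e, d, a, f] (u0 :: u) (b :: v0 :: v) g) (np (S.V12 [d, a, f] (b :: v0 :: v) (u0 :: u) e g) (nn (S.V1_0 e b v0 v [d, a, f] (u0 :: u) g) (np (S.V12 (e :: v0 :: v) [d, a, f] (u0 :: u) b g) (nn (S.V23 [b, d, a, f] (e :: v0 :: v) (u0 :: u) g) (np (S.V1_0 b d a [f] (u0 :: u) (e :: v0 :: v) g) (nn (S.V23 [d,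 b, a, f] (u0 :: u) (e :: v0 :: v) g) (np (S.V12 [b, a, f] (e :: v0 :: v) (u0 :: u) d g) (nn (S.V1_0 d e v0 v [b, a, f] (u0 :: u) g) (np (S.V12 (d :: v0 :: v) [b, a, f] (u0 :: u) e g) (S.V23 [e, b, a, f] (d :: v0 :: v) (u0 :: u) g))))))))))))
  have k16 : S.V (b :: v0 :: v) [e, d, a, f] (u0 :: u) g = S.V [e, d, b, a, f] (u0 :: u) (v0 :: v) g := (np (S.V12 (v0 :: v) [e, d, a, f] (u0 :: u) b g) (nn (S.V23 [b, e, d, a, f] (v0 :: v) (u0 :: u) g) (np (S.V1_1 b e d a [f] (u0 :: u) (v0 :: v) g) (nn (S.V1_0 b d e [a, f] (u0 :: u) (v0 :: v) g) (np (S.V1_1 d b e a [f] (u0 :: u) (v0 :: v) g) (S.V1_0 d e b [a, f] (u0 :: u) (v0 :: v) g))))))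
  have k17 : S.T [a, g, e, d, f] (b :: u0 :: u) (v0 :: v) = -S.T [g, e, d, a, f] (b :: u0 :: u) (v0 :: v) := (nn (S.T1_0 a g e [d, f] (b :: u0 :: u) (v0 :: v)) (np (S.T1_1 g a e d [f] (b :: u0 :: u) (v0 :: v)) (S.T1_2 g e a d f [] (b :: u0 :: u) (v0 :: v))))
  have k18 : S.T [g, e, d, f] (a :: b :: u0 :: u) (v0 :: v) = -S.T [g, e, d, f] (b :: a :: u0 :: u) (v0 :: v) := (S.T2_0 a b u0 u [g, e, d, f] (v0 :: v))
  have k19 : S.V [g, e, d, f] (b :: u0 :: u) (v0 :: v) a = S.V [e, b, a, f] (d :: u0 :: u) (v0 :: v) g := (np (S.Vab [e, d, f] (b :: u0 :: u) (v0 :: v) g a) (nn (S.V1_1 a e d f [] (b :: u0 :: u) (v0 :: v) g) (np (S.V1_0 a d e [f] (b :: u0 :: u) (v0 :: v) g) (nn (S.V1_1 d a e f [] (b :: u0 :: u) (v0 :: v) g) (np (S.V12 [e, a, f] (b :: u0 :: u) (v0 :: v) d g) (nn (S.V1_0 d b u0 u [e, a, f] (v0 :: v) g) (np (S.V12 (d :: u0 ::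 u) [e, a, f] (v0 :: v) b g) (S.V1_0 b e a [f] (d :: u0 :: u) (v0 :: v) g))))))))
  have k20 : S.V (b :: u0 :: u) [g, e, d, f] (v0 :: v) a = S.V [e, d, b, a, f] (u0 :: u) (v0 :: v) g := (np (S.V12 (u0 :: u) [g, e, d, f] (v0 :: v) b a) (nn (S.Vab [g, e, d, f] (u0 :: u) (v0 :: v) b a) (np (S.V1_2 a g e d f [] (u0 :: u) (v0 :: v) b) (nn (S.V1_1 a g d e [f] (u0 :: u) (v0 :: v) b) (np (S.V1_0 a d g [e, f] (u0 :: u) (v0 :: v) b) (nn (S.V1_1 d a g e [f] (u0 :: u) (v0 :: v) b) (np (S.V1_2 d g a e f [] (u0 :: u) (v0 :: v) b) (nn (S.Vab [g, e, a, f] (u0 :: u) (v0 :: v) d b) (np (S.V1_1 b g e a [f] (u0 :: u) (v0 :: v) d) (nn (S.V1_0 b e g [a, f] (u0 :: u) (v0 :: v) d) (np (S.V1_1 e b g a [f] (u0 :: u) (v0 :: v) d) (nn (S.Vab [g, b, a, f] (u0 :: u) (v0 :: v) e d) (np (S.V1_0 d g b [a, f] (u0 :: u) (v0 :: v) e) (S.Vab [d, b, a, f] (u0 :: u)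 (v0 :: v) g e))))))))))))))
  have k21 : S.T [g, d, e, f] (b :: a :: u0 :: u) (v0 :: v) = -S.T [g, e, d, f] (b :: a :: u0 :: u) (v0 :: v) := (S.T1_1 g d e f [] (b :: a :: u0 :: u) (v0 :: v))
  have k22 : S.T [f] (g :: d :: e :: b :: a :: u0 :: u) (v0 :: v) = -S.T [f] (g :: e :: d :: b :: a :: u0 :: u) (v0 :: v) := (S.T2_1 g d e b (a :: u0 :: u) [f] (v0 :: v))
  have k23 : S.V [f] (b :: a :: u0 :: u) (g :: d :: v0 :: v) e = -S.V [f] (b :: a :: u0 :: u) (e :: d :: v0 :: v) g := (nn (S.Vab [] (b :: a :: u0 :: u) (g :: d :: v0 :: v) f e) (np (S.V23 [e] (b :: a :: u0 :: u) (g :: d :: v0 :: v) f) (nn (S.V12 [] (g :: d :: v0 :: v) (b :: a :: u0 :: u) e f) (np (S.V1_0 e g d (v0 :: v) [] (b :: a :: u0 :: u) f) (nn (S.V12 (e :: d :: v0 :: v) [] (b :: a :: u0 :: u) g f) (np (S.V23 [g] (e :: d :: v0 :: v) (b :: a :: u0 :: u) f) (S.Vab [] (b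 :: a :: u0 :: u) (e :: d :: v0 :: v) g f)))))))
  have k24 : S.V (b :: a :: u0 :: u) [f] (g :: d :: v0 :: v) e = 0 := (nz (S.V23 (b :: a :: u0 :: u) [f] (g :: d :: v0 :: v) e) (S.P1V (a :: u0 :: u) (g :: d :: v0 :: v) f b e))
  have k25 : S.V [d, e, f] (b :: a :: u0 :: u) (v0 :: v) g = 0 := (nz (S.V12 [e, f] (b :: a :: u0 :: u) (v0 :: v) d g) (nz (S.V23 (d :: b :: a :: u0 :: u) [e, f] (v0 :: v) g) (S.P2V (b :: a :: u0 :: u) (v0 :: v) e f d g)))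
  have k26 : S.V (d :: e :: b :: a :: u0 :: u) [f] (v0 :: v) g = 0 := (nz (S.V23 (d :: e :: b :: a :: u0 :: u) [f] (v0 :: v) g) (S.P1V (e :: b :: a :: u0 :: u) (v0 :: v) f d g))
  have k27 : S.T [d, a, g, e, f] (b :: u0 :: u) (v0 :: v) = S.T [g, e, d, a, f] (b :: u0 :: u) (v0 :: v) := (np (S.T1_1 d a g e [f] (b :: u0 :: u) (v0 :: v)) (nn (S.T1_2 d g a e f [] (b :: u0 :: u) (v0 :: v)) (np (S.T1_0 d g e [a, f] (b :: u0 :: u) (v0 :: v)) (S.T1_1 g d e a [f] (b :: u0 :: u) (v0 :: v)))))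
  have k28 : S.T [e, f] (d :: a :: g :: b :: u0 :: u) (v0 :: v) = -S.T [e, f] (g :: d :: b :: a :: u0 :: u) (v0 :: v) := (nn (S.T2_1 d a g b (u0 :: u) [e, f] (v0 :: v)) (np (S.T2_2 d g a b u0 u [e, f] (v0 :: v)) (S.T2_0 d g b (a :: u0 :: u) [e, f] (v0 :: v))))
  have k29 : S.V [e, f] (b :: u0 :: u) (d :: a :: v0 :: v) g = 0 := (nz (S.V12 [f] (b :: u0 :: u) (d :: a :: v0 :: v) e g) (nz (S.V23 (e :: b :: u0 :: u) [f] (d :: a :: v0 :: v) g) (S.P1V (b :: u0 :: u) (d :: a :: v0 :: v) f e g)))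
  have k30 : S.V (b :: u0 :: u) [e, f] (d :: a :: v0 :: v) g = 0 := (nz (S.V23 (b :: u0 :: u) [e, f] (d :: a :: v0 :: v) g) (S.P2V (u0 :: u) (d :: a :: v0 :: v) e f b g))
  have k31 : S.V [a, g, e, f] (b :: u0 :: u) (v0 :: v) d = -S.V [e, b, a, f] (d :: u0 :: u) (v0 :: v) g := (nn (S.V1_1 a g e f [] (b :: u0 :: u) (v0 :: v) d) (np (S.V1_0 a e g [f] (b :: u0 :: u) (v0 :: v) d) (nn (S.V1_1 e a g f [] (b :: u0 :: u) (v0 :: v) d) (np (S.V12 [g, a, f] (b :: u0 :: u) (v0 :: v) e d) (nn (S.V1_0 e b u0 u [g, a, f] (v0 :: v) d) (np (S.V12 (e :: u0 :: u) [g, a, f] (v0 :: v) b d) (nn (S.V1_0 b g a [f] (e :: u0 :: u) (v0 :: v) d) (np (S.Vab [b, a, f] (e :: u0 :: u) (v0 :: v) g d) (nn (S.V12 [b, a, f] (e :: u0 :: u) (v0 :: v) d g) (np (S.V1_0 d e u0 u [b, a, f] (v0 :: v) g) (S.V12 (d :: u0 :: u) [b, a, f] (v0 :: v) e g)))))))))))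
  have k32 : S.V (a :: g :: b :: u0 :: u) [e, f] (v0 :: v) d = 0 := (nz (S.V23 (a :: g :: b :: u0 :: u) [e, f] (v0 :: v) d) (S.P2V (g :: b :: u0 :: u) (v0 :: v) e f a d))
  have k33 : S.T [f] (e :: g :: d :: b :: a :: u0 :: u) (v0 :: v) = -S.T [f] (g :: e :: d :: b :: a :: u0 :: u) (v0 :: v) := (S.T2_0 e g d (b :: a :: u0 :: u) [f] (v0 :: v))
  have k34 : S.V [f] (g :: d :: b :: a :: u0 :: u) (v0 :: v) e = -S.V [f] (e :: d :: b :: a :: u0 :: u) (v0 :: v) g := (nn (S.Vab [] (g :: d :: b :: a :: u0 :: u) (v0 :: v) f e) (np (S.V12 [] (g :: d :: b :: a :: u0 :: u) (v0 :: v) e f) (nn (S.V1_0 e g d (b :: a :: u0 :: u) [] (v0 :: v) f) (np (S.V12 (e :: d :: b :: a :: u0 :: u) [] (v0 :: v) g f) (S.Vab [] (e :: d :: b :: a :: u0 :: u) (v0 :: v) g f)))))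
  have k35 : S.V (g :: d :: b :: a :: u0 :: u) [f] (v0 :: v) e = 0 := (nz (S.V23 (g :: d :: b :: a :: u0 :: u) [f] (v0 :: v) e) (S.P1V (d :: b :: a :: u0 :: u) (v0 :: v) f g e))
  have k36 : S.T (a :: u0 :: u) (d :: g :: f :: e :: b :: v0 :: v) [] = -S.T (a :: u0 :: u) (g :: f :: e :: d :: b :: v0 :: v) [] := (nn (S.T2_0 d g f (e :: b :: v0 :: v) (a :: u0 :: u) []) (np (S.T2_1 g d f e (b :: v0 :: v) (a :: u0 :: u) []) (S.T2_2 g f d e b (v0 :: v) (a :: u0 :: u) [])))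
  have k37 : S.V (a :: u0 :: u) (g :: f :: e :: b :: v0 :: v) [] d = -S.V [f] (u0 :: u) (e :: d :: b :: a :: v0 :: v) g := (nn (S.V23 (a :: u0 :: u) (g :: f :: e :: b :: v0 :: v) [] d) (np (S.V12 (u0 :: u) [] (g :: f :: e :: b :: v0 :: v) a d) (nn (S.V23 [a] (u0 :: u) (g :: f :: e :: b :: v0 :: v) d) (np (S.V12 [] (g :: f :: e :: b :: v0 :: v) (u0 :: u) a d) (nn (S.V1_3 a g f e b v0 v [] (u0 :: u) d) (np (S.V1_2 a g f b e (v0 :: v) [] (u0 :: u) d) (nn (S.V1_1 a g b f (e :: v0 :: v) [] (u0 :: u) d) (np (S.V1_0 a b g (f :: e :: v0 :: v) [] (u0 :: u) d) (nn (S.V1_1 b a g f (e :: v0 :: v) [] (u0 :: u) d) (np (S.V1_2 b g a f e (v0 :: v) [] (u0 :: u) d) (nn (S.V1_3 b g f a e v0 v [] (u0 :: u) d) (np (S.V12 (g :: f :: e :: a :: v0 :: v) [] (u0 :: u) b d) (nn (S.V23 [b] (g :: f :: e :: a :: v0 :: v) (u0 :: u) d) (np (S.V23 [b] (u0 :: u)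 (g :: f :: e :: a :: v0 :: v) d) (nn (S.V12 [] (g :: f :: e :: a :: v0 :: v) (u0 :: u) b d) (np (S.V1_2 b g f e a (v0 :: v) [] (u0 :: u) d) (nn (S.V1_1 b g e f (a :: v0 :: v) [] (u0 :: u) d) (np (S.V1_0 b e g (f :: a :: v0 :: v) [] (u0 :: u) d) (nn (S.V1_1 e b g f (a :: v0 :: v) [] (u0 :: u) d) (np (S.V1_2 e g b f a (v0 :: v) [] (u0 :: u) d) (nn (S.V12 (g :: f :: b :: a :: v0 :: v) [] (u0 :: u) e d) (np (S.V23 [e] (g :: f :: b :: a :: v0 :: v) (u0 :: u) d) (nn (S.Vab [] (u0 :: u) (g :: f :: b :: a :: v0 :: v) e d) (np (S.V23 [d] (u0 :: u) (g :: f :: b :: a :: v0 :: v) e) (nn (S.V12 [] (g :: f :: b :: a :: v0 :: v) (u0 :: u) d e) (np (S.V1_1 d g f b (a :: v0 :: v) [] (u0 :: u) e) (nn (S.V1_0 d f g (b :: a :: v0 :: v) [] (u0 :: u) e) (np (S.V1_1 f d g b (a :: v0 :: v) [] (u0 :: u) e) (nn (S.V12 (g :: d :: b :: a :: v0 :: v) [] (u0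 :: u) f e) (np (S.V23 [f] (g :: d :: b :: a :: v0 :: v) (u0 :: u) e) (nn (S.Vab [] (u0 :: u) (g :: d :: b :: a :: v0 :: v) f e) (np (S.V23 [e] (u0 :: u) (g :: d :: b :: a :: v0 :: v) f) (nn (S.V12 [] (g :: d :: b :: a :: v0 :: v) (u0 :: u) e f) (np (S.V1_0 e g d (b :: a :: v0 :: v) [] (u0 :: u) f) (nn (S.V12 (e :: d :: b :: a :: v0 :: v) [] (u0 :: u) g f) (np (S.V23 [g] (e :: d :: b :: a :: v0 :: v) (u0 :: u) f) (S.Vab [] (u0 :: u) (e :: d :: b :: a :: v0 :: v) g f)))))))))))))))))))))))))))))))))))))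
  have k38 : S.V (g :: f :: e :: b :: v0 :: v) (a :: u0 :: u) [] d = S.V [f] (a :: u0 :: u) (e :: d :: b :: v0 :: v) g := (np (S.V23 (g :: f :: e :: b :: v0 :: v) (a :: u0 :: u) [] d) (nn (S.V12 (f :: e :: b :: v0 :: v) [] (a :: u0 :: u) g d) (np (S.V23 [g] (f :: e :: b :: v0 :: v) (a :: u0 :: u) d) (nn (S.Vab [] (a :: u0 :: u) (f :: e :: b :: v0 :: v) g d) (np (S.V23 [d] (a :: u0 :: u) (f :: e :: b :: v0 :: v) g) (nn (S.V12 [] (f :: e :: b :: v0 :: v) (a :: u0 :: u) d g) (np (S.V1_1 d f e b (v0 :: v) [] (a :: u0 :: u) g) (nn (S.V1_0 d e f (b :: v0 :: v) [] (a :: u0 :: u) g) (np (S.V1_1 e d f b (v0 :: v) [] (a :: u0 :: u) g) (nn (S.V12 (f :: d :: b :: v0 :: v) [] (a :: u0 :: u) e g) (np (S.V23 [e] (f :: d :: b :: v0 :: v) (a :: u0 :: u) g) (nn (S.V23 [e] (a :: u0 :: u) (f :: d :: b :: v0 :: v) g) (np (S.V12 [] (f :: d :: b :: v0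 :: v) (a :: u0 :: u) e g) (nn (S.V1_0 e f d (b :: v0 :: v) [] (a :: u0 :: u) g) (np (S.V12 (e :: d :: b :: v0 :: v) [] (a :: u0 :: u) f g) (S.V23 [f] (e :: d :: b :: v0 :: v) (a :: u0 :: u) g))))))))))))))))
  have k39 : S.T (f :: g :: b :: d :: a :: u0 :: u) (e :: v0 :: v) [] = S.T (g :: f :: d :: b :: a :: u0 :: u) (e :: v0 :: v) [] := (np (S.T1_2 f g b d a (u0 :: u) (e :: v0 :: v) []) (S.T1_0 f g d (b :: a :: u0 :: u) (e :: v0 :: v) []))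
  have k40 : S.T (d :: a :: u0 :: u) (f :: g :: b :: e :: v0 :: v) [] = S.T (d :: a :: u0 :: u) (g :: f :: e :: b :: v0 :: v) [] := (np (S.T2_2 f g b e v0 v (d :: a :: u0 :: u) []) (S.T2_0 f g e (b :: v0 :: v) (d :: a :: u0 :: u) []))
  have k41 : S.V (d :: a :: u0 :: u) (e :: v0 :: v) [f, g] b = 0 := (S.P2V (a :: u0 :: u) (e :: v0 :: v) f g d b)
  have k42 : S.V (e :: v0 :: v) (d :: a :: u0 :: u) [f, g] b = 0 := (S.P2V (v0 :: v) (d :: a :: u0 :: u) f g e b)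
  have k43 : S.V (g :: b :: d :: a :: u0 :: u) (e :: v0 :: v) [] f = S.V [f] (d :: b :: a :: u0 :: u) (e :: v0 :: v) g := (np (S.V23 (g :: b :: d :: a :: u0 :: u) (e :: v0 :: v) [] f) (nn (S.V12 (b :: d :: a :: u0 :: u) [] (e :: v0 :: v) g f) (np (S.V12 [] (b :: d :: a :: u0 :: u) (e :: v0 :: v) g f) (nn (S.V1_0 g b d (a :: u0 :: u) [] (e :: v0 :: v) f) (np (S.V12 (g :: d :: a :: u0 :: u) [] (e :: v0 :: v) b f) (nn (S.V12 [] (g :: d :: a :: u0 :: u) (e :: v0 :: v) b f) (np (S.V1_1 b g d a (u0 :: u) [] (e :: v0 :: v) f) (nn (S.V1_0 b d g (a :: u0 :: u) [] (e :: v0 :: v) f) (np (S.V1_1 d b g a (u0 :: u) [] (e :: v0 :: v) f) (nn (S.V12 (g :: b :: a :: u0 :: u) [] (e :: v0 :: v) d f) (np (S.V12 [] (g :: b :: a :: u0 :: u) (e :: v0 :: v) d f) (nn (S.V1_0 d g b (a :: u0 :: u) [] (e :: v0 :: v) f) (np (S.V12 (d :: b :: a :: u0 :: u) []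 (e :: v0 :: v) g f) (S.Vab [] (d :: b :: a :: u0 :: u) (e :: v0 :: v) g f))))))))))))))
  have k44 : S.V (g :: b :: e :: v0 :: v) (d :: a :: u0 :: u) [] f = S.V [f] (b :: a :: u0 :: u) (e :: d :: v0 :: v) g := (np (S.V23 (g :: b :: e :: v0 :: v) (d :: a :: u0 :: u) [] f) (nn (S.V12 (b :: e :: v0 :: v) [] (d :: a :: u0 :: u) g f) (np (S.V23 [g] (b :: e :: v0 :: v) (d :: a :: u0 :: u) f) (nn (S.V23 [g] (d :: a :: u0 :: u) (b :: e :: v0 :: v) f) (np (S.V12 [] (b :: e :: v0 :: v) (d :: a :: u0 :: u) g f) (nn (S.V1_0 g b e (v0 :: v) [] (d :: a :: u0 :: u) f) (np (S.V12 (g :: e :: v0 :: v) [] (d :: a :: u0 :: u) b f) (nn (S.V23 [b] (g :: e :: v0 :: v) (d :: a :: u0 :: u) f) (np (S.V12 [] (d :: a :: u0 :: u) (g :: e :: v0 :: v) b f) (nn (S.V1_0 b d a (u0 :: u) [] (g :: e :: v0 :: v) f) (np (S.V12 (b :: a :: u0 :: u) [] (g :: e :: v0 ::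 v) d f) (nn (S.V23 [d] (b :: a :: u0 :: u) (g :: e :: v0 :: v) f) (np (S.V12 [] (g :: e :: v0 :: v) (b :: a :: u0 :: u) d f) (nn (S.V1_1 d g e v0 v [] (b :: a :: u0 :: u) f) (np (S.V1_0 d e g (v0 :: v) [] (b :: a :: u0 :: u) f) (nn (S.V1_1 e d g v0 v [] (b :: a :: u0 :: u) f) (np (S.V12 (g :: d :: v0 :: v) [] (b :: a :: u0 :: u) e f) (nn (S.V23 [e] (g :: d :: v0 :: v) (b :: a :: u0 :: u) f) (np (S.V23 [e] (b :: a :: u0 :: u) (g :: d :: v0 :: v) f) (nn (S.V12 [] (g :: d :: v0 :: v) (b :: a :: u0 :: u) e f) (np (S.V1_0 e g d (v0 :: v) [] (b :: a :: u0 :: u) f) (nn (S.V12 (e :: d :: v0 :: v) [] (b :: a :: u0 :: u) g f) (np (S.V23 [g] (e :: d :: v0 :: v) (b :: a :: u0 :: u) f) (S.Vab [] (b :: a :: u0 :: u) (e :: d :: v0 :: v) g f))))))))))))))))))))))))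
  have k45 : S.V (f :: d :: b :: a :: u0 :: u) (e :: v0 :: v) [] g = S.V [f] (d :: b :: a :: u0 :: u) (e :: v0 :: v) g := (np (S.V23 (f :: d :: b :: a :: u0 :: u) (e :: v0 :: v) [] g) (S.V12 (d :: b :: a :: u0 :: u) [] (e :: v0 :: v) f g))
  have k46 : S.V (e :: v0 :: v) (f :: d :: b :: a :: u0 :: u) [] g = S.V [f] (e :: d :: b :: a :: u0 :: u) (v0 :: v) g := (np (S.V23 (e :: v0 :: v) (f :: d :: b :: a :: u0 :: u) [] g) (nn (S.V12 (v0 :: v) [] (f :: d :: b :: a :: u0 :: u) e g) (np (S.V23 [e] (v0 :: v) (f :: d :: b :: a :: u0 :: u) g) (nn (S.V12 [] (f :: d :: b :: a :: u0 :: u) (v0 :: v) e g) (np (S.V1_0 e f d (b :: a :: u0 :: u) [] (v0 :: v) g) (S.V12 (e :: d :: b :: a :: u0 :: u) [] (v0 :: v) f g))))))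
  have k47 : S.T (d :: f :: b :: a :: u0 :: u) (g :: e :: v0 :: v) [] = -S.T (f :: d :: b :: a :: u0 :: u) (g :: e :: v0 :: v) [] := (S.T1_0 d f b (a :: u0 :: u) (g :: e :: v0 :: v) [])
  have k48 : S.T (a :: u0 :: u) (d :: f :: b :: g :: e :: v0 :: v) [] = S.T (a :: u0 :: u) (g :: f :: e :: d :: b :: v0 :: v) [] := (np (S.T2_2 d f b g e (v0 :: v) (a :: u0 :: u) []) (nn (S.T2_3 d f g b e v0 v (a :: u0 :: u) []) (np (S.T2_1 d f g e (b :: v0 :: v) (a :: u0 :: u) []) (nn (S.T2_0 d g f (e :: b :: v0 :: v) (a :: u0 :: u) []) (np (S.T2_1 g d f e (b :: v0 :: v) (a :: u0 :: u) []) (S.T2_2 g f d e b (v0 :: v) (a :: u0 :: u) []))))))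
  have k49 : S.V (a :: u0 :: u) (g :: e :: v0 :: v) [d, f] b = 0 := (S.P2V (u0 :: u) (g :: e :: v0 :: v) d f a b)
  have k50 : S.V (g :: e :: v0 :: v) (a :: u0 :: u) [d, f] b = 0 := (S.P2V (e :: v0 :: v) (a :: u0 :: u) d f g b)
  have k51 : S.V (f :: b :: a :: u0 :: u) (g :: e :: v0 :: v) [] d = S.V [f] (b :: a :: u0 :: u) (e :: d :: v0 :: v) g := (np (S.V23 (f :: b :: a :: u0 :: u) (g :: e :: v0 :: v) [] d) (nn (S.V12 (b :: a :: u0 :: u) [] (g :: e :: v0 :: v) f d) (np (S.Vab [] (b :: a :: u0 :: u) (g :: e :: v0 :: v) f d) (nn (S.V23 [d] (b :: a :: u0 :: u) (g :: e :: v0 :: v) f) (np (S.V12 [] (g :: e :: v0 :: v) (b :: a :: u0 :: u) d f) (nn (S.V1_1 d g e v0 v [] (b :: a :: u0 :: u) f) (np (S.V1_0 d e g (v0 :: v) [] (b :: a :: u0 :: u) f) (nn (S.V1_1 e d g v0 v [] (b :: a :: u0 :: u) f) (np (S.V12 (g :: d :: v0 :: v) [] (b ::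 a :: u0 :: u) e f) (nn (S.V23 [e] (g :: d :: v0 :: v) (b :: a :: u0 :: u) f) (np (S.V23 [e] (b :: a :: u0 :: u) (g :: d :: v0 :: v) f) (nn (S.V12 [] (g :: d :: v0 :: v) (b :: a :: u0 :: u) e f) (np (S.V1_0 e g d (v0 :: v) [] (b :: a :: u0 :: u) f) (nn (S.V12 (e :: d :: v0 :: v) [] (b :: a :: u0 :: u) g f) (np (S.V23 [g] (e :: d :: v0 :: v) (b :: a :: u0 :: u) f) (S.Vab [] (b :: a :: u0 :: u) (e :: d :: v0 :: v) g f))))))))))))))))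
  have k52 : S.V (f :: b :: g :: e :: v0 :: v) (a :: u0 :: u) [] d = -S.V [f] (a :: u0 :: u) (e :: d :: b :: v0 :: v) g := (nn (S.V23 (f :: b :: g :: e :: v0 :: v) (a :: u0 :: u) [] d) (np (S.V12 (b :: g :: e :: v0 :: v) [] (a :: u0 :: u) f d) (nn (S.V23 [f] (b :: g :: e :: v0 :: v) (a :: u0 :: u) d) (np (S.V23 [f] (a :: u0 :: u) (b :: g :: e :: v0 :: v) d) (nn (S.V12 [] (b :: g :: e :: v0 :: v) (a :: u0 :: u) f d) (np (S.V1_0 f b g (e :: v0 :: v) [] (a :: u0 :: u) d) (nn (S.V12 (f :: g :: e :: v0 :: v) [] (a :: u0 :: u) b d) (np (S.V23 [b] (f :: g :: e :: v0 :: v) (a :: u0 :: u) d) (nn (S.V23 [b] (a :: u0 :: u) (f :: g :: e :: v0 :: v) d) (np (S.V12 [] (f :: g :: e :: v0 :: v) (a :: u0 :: u) b d) (nn (S.V1_2 b f g e v0 v [] (a :: u0 :: u) d) (np (S.V1_1 b f e g (v0 :: v) [] (a :: u0 :: u) d) (nn (S.V1_0 b e f (g :: v0 :: v) []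 (a :: u0 :: u) d) (np (S.V1_1 e b f g (v0 :: v) [] (a :: u0 :: u) d) (nn (S.V1_2 e f b g v0 v [] (a :: u0 :: u) d) (np (S.V12 (f :: g :: b :: v0 :: v) [] (a :: u0 :: u) e d) (nn (S.V23 [e] (f :: g :: b :: v0 :: v) (a :: u0 :: u) d) (np (S.Vab [] (a :: u0 :: u) (f :: g :: b :: v0 :: v) e d) (nn (S.V23 [d] (a :: u0 :: u) (f :: g :: b :: v0 :: v) e) (np (S.V12 [] (f :: g :: b :: v0 :: v) (a :: u0 :: u) d e) (nn (S.V1_1 d f g b (v0 :: v) [] (a :: u0 :: u) e) (np (S.V1_0 d g f (b :: v0 :: v) [] (a :: u0 :: u) e) (nn (S.V1_1 g d f b (v0 :: v) [] (a :: u0 :: u) e) (np (S.V12 (f :: d :: b :: v0 :: v) [] (a :: u0 :: u) g e) (nn (S.V23 [g] (f :: d :: b :: v0 :: v) (a :: u0 :: u) e) (np (S.Vab [] (a :: u0 :: u) (f :: d :: b :: v0 :: v) g e) (nn (S.V23 [e] (a :: u0 :: u) (f :: d :: b :: v0 :: v) g) (np (S.V12 [] (f :: d :: b :: v0 :: v) (a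 :: u0 :: u) e g) (nn (S.V1_0 e f d (b :: v0 :: v) [] (a :: u0 :: u) g) (np (S.V12 (e :: d :: b :: v0 :: v) [] (a :: u0 :: u) f g) (S.V23 [f] (e :: d :: b :: v0 :: v) (a :: u0 :: u) g)))))))))))))))))))))))))))))))
  have k53 : S.V (f :: u0 :: u) (e :: d :: b :: a :: v0 :: v) [] g = S.V [f] (u0 :: u) (e :: d :: b :: a :: v0 :: v) g := (np (S.V23 (f :: u0 :: u) (e :: d :: b :: a :: v0 :: v) [] g) (S.V12 (u0 :: u) [] (e :: d :: b :: a :: v0 :: v) f g))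
  have k54 : S.V (f :: b :: a :: u0 :: u) (e :: d :: v0 :: v) [] g = S.V [f] (b :: a :: u0 :: u) (e :: d :: v0 :: v) g := (np (S.V23 (f :: b :: a :: u0 :: u) (e :: d :: v0 :: v) [] g) (S.V12 (b :: a :: u0 :: u) [] (e :: d :: v0 :: v) f g))
  refine S.m2 ?_
  linear_combination (norm := module) (-1:ℤ) • i0 + (1:ℤ) • i1 + (1:ℤ) • i2 + (1:ℤ) • i3 + (-1:ℤ) • i4 + (-1:ℤ) • i5 + (-1:ℤ) • i6 + (1:ℤ) • i7 + (-1:ℤ) • i8 + (-1:ℤ) • i9 + (1:ℤ) • i10 + (-1:ℤ) • i11 + (1:ℤ) • k0 + (-1:ℤ) • k1 + (-1:ℤ) • k2 + (-1:ℤ) • k3 + (-1:ℤ) • k4 + (-1:ℤ) • k5 + (1:ℤ) • k6 + (1:ℤ) • k7 + (1:ℤ) • k8 + (-1:ℤ) • k9 + (1:ℤ) • k10 + (1:ℤ) • k11 + (1:ℤ) • k12 + (1:ℤ) • k13 + (1:ℤ) • k14 + (1:ℤ) • k15 + (1:ℤ) • k16 + (1:ℤ) • k17 + (-1:ℤ) • k18 + (-1:ℤ) • k19 + (-1:ℤ) • k20 + (1:ℤ) • k21 + (-1:ℤ) • k22 + (-1:ℤ) • k23 + (-1:ℤ) • k24 + (-1:ℤ) • k25 + (-1:ℤ) • k26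 + (1:ℤ) • k27 + (-1:ℤ) • k28 + (-1:ℤ) • k29 + (-1:ℤ) • k30 + (-1:ℤ) • k31 + (-1:ℤ) • k32 + (1:ℤ) • k33 + (1:ℤ) • k34 + (1:ℤ) • k35 + (-1:ℤ) • k36 + (-1:ℤ) • k37 + (-1:ℤ) • k38 + (1:ℤ) • k39 + (-1:ℤ) • k40 + (-1:ℤ) • k41 + (-1:ℤ) • k42 + (-1:ℤ) • k43 + (-1:ℤ) • k44 + (1:ℤ) • k45 + (1:ℤ) • k46 + (1:ℤ) • k47 + (-1:ℤ) • k48 + (-1:ℤ) • k49 + (-1:ℤ) • k50 + (-1:ℤ) • k51 + (-1:ℤ) • k52 + (-2:ℤ) • k53 + (2:ℤ) • k54

end Sys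
end Pool.Agent.TH36.E3
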