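import Pool.Agent.TH36.E3.Refl

set_option autoImplicit false
set_option linter.all false

/-! If the element f vanishes identically then (yx)x is a sandwich. -/

namespace Pool.Agent.TH36.E3

open Pool.Agent.H461R3.E3

universe u
def R_idA : ℕ → List Tm → Pl
  | 0, [u0, u1, u2, u3, u4] => [(1, (.m (.m (.m u3 u0) (.m u4 u1)) u2)), (1, (.m (.m (.m (.m u3 u0) u4) u1) u2)), (1, (.m (.m (.m u3 (.m u4 u0)) u1) u2)), (1, (.m (.m (.m u3 u0) (.m u4 u2)) u1)), (1, (.m (.m (.m (.m u3 u0) u4) u2) u1)), (1, (.m (.m (.m u3 (.m u4 u0)) u2) u1)), (1, (.m (.m (.m u3 u1) (.m u4 u0)) u2)), (1, (.m (.m (.m (.m u3 u1) u4) u0) u2)), (1, (.m (.m (.m u3 (.m u4 u1)) u0) u2)), (1, (.m (.m (.m u3 u1) (.m u4 u2)) u0)), (1, (.m (.m (.m (.m u3 u1) u4) u2) u0)), (1, (.m (.m (.m u3 (.m u4 u1)) u2) u0)), (1, (.m (.m (.m u3 u2) (.m u4 u0)) u1)), (1, (.m (.m (.m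 (.m u3 u2) u4) u0) u1)), (1, (.m (.m (.m u3 (.m u4 u2)) u0) u1)), (1, (.m (.m (.m u3 u2) (.m u4 u1)) u0)), (1, (.m (.m (.m (.m u3 u2) u4) u1) u0)), (1, (.m (.m (.m u3 (.m u4 u2)) u1) u0))]
  | _, _ => []

theorem R_idA_ok {B : Type u} [NonUnitalNonAssocRing B] (h : Eng B) (h2 : ∀ x : B, x + x = 0 → x = 0)  (hF : ∀ a b c y w : B, (((y * a) * (w * b)) * c) + ((((y * a) * w) * b) * c) + (((y * (w * a)) * b) * c) + (((y * a) * (w * c)) * b) + ((((y * a) * w) * c) * b) + (((y * (w * a)) * c) * b) + (((y * b) * (w * a)) * c) + ((((y * b) * w) * a) * c) + (((y * (w * b)) * a) * c) + (((y * b) * (w * c)) * a) + ((((y * b) * w) * c) * a) + (((y * (w * b)) * c) * a) + (((y * c) * (w * a)) * b) + ((((y * c) * w) * a) * b) + (((y * (w * c)) * a) * b) + (((y * c) * (w * b)) * a) + ((((y * c) * w) * b) * a) + (((y * (w * c)) * b) * a) = 0) (x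 y z : B) : ∀ i s, evP (lk [x, y, z]) (R_idA i s) = 0 := by
  intro i s
  unfold R_idA
  split
  next u0 u1 u2 u3 u4 =>
    have e := hF (u0.ev (lk [x, y, z])) (u1.ev (lk [x, y, z])) (u2.ev (lk [x, y, z])) (u3.ev (lk [x, y, z])) (u4.ev (lk [x, y, z]))
    simp only [evP, Tm.ev, lk] at e ⊢
    linear_combination (norm := module) e
  next => rfl

def C_idA : List Stp :=
  [
   ⟨-3, 0, [(.v 1), (.v 0), (.v 0), (.m (.m (.v 0) (.v 1)) (.m (.v 0) (.v 2)))], []⟩,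
   ⟨6, 0, [(.v 0), (.v 2), (.m (.v 0) (.v 1)), (.m (.v 0) (.m (.v 0) (.v 1)))], []⟩,
   ⟨3, 0, [(.m (.v 0) (.v 2)), (.v 0), (.v 0), (.m (.v 1) (.m (.v 0) (.v 1)))], []⟩,
   ⟨-3, 0, [(.m (.v 2) (.m (.v 0) (.v 1))), (.v 0), (.v 0), (.m (.v 0) (.v 1))], []⟩,
   ⟨-3, 0, [(.v 0), (.v 0), (.v 0), (.v 1)], [(.m (.v 0) (.v 1)), (.v 2)]⟩,
   ⟨3, 0, [(.v 2), (.v 0), (.m (.v 0) (.v 1)), (.m (.v 0) (.v 1))], [(.v 0)]⟩,
   ⟨3, 0, [(.v 0), (.v 1), (.v 1), (.m (.v 0) (.m (.v 0) (.v 2)))], [(.v 0)]⟩,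
   ⟨3, 0, [(.m (.v 0) (.m (.v 0) (.v 2))), (.v 0), (.v 1), (.v 1)], [(.v 0)]⟩,
   ⟨3, 0, [(.v 2), (.v 0), (.v 0), (.m (.v 0) (.v 1))], [(.v 1), (.v 0)]⟩,
   ⟨-3, 0, [(.m (.v 0) (.v 1)), (.v 0), (.v 0), (.v 2)], [(.v 1), (.v 0)]⟩,
   ⟨3, 1, [(.v 0), (.v 0), (.v 1), (.v 0), (.v 2)], [(.v 1), (.v 0)]⟩,
   ⟨3, 0, [(.v 0), (.v 0), (.v 0), (.v 1)], [(.v 2), (.v 1), (.v 0)]⟩,
   ⟨1, 0, [(.v 2), (.v 0), (.v 0), (.v 0)], [(.v 1), (.v 1), (.v 0)]⟩,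
   ⟨-3, 0, [(.v 1), (.v 0), (.v 0), (.v 2)], [(.v 0), (.v 1), (.v 0)]⟩,
   ⟨-3, 0, [(.v 0), (.v 1), (.v 1), (.m (.v 0) (.v 2))], [(.v 0), (.v 0)]⟩,
   ⟨3, 0, [(.v 1), (.v 0), (.v 0), (.m (.v 0) (.v 2))], [(.m (.v 0) (.v 1))]⟩,
   ⟨1, 1, [(.v 0), (.v 0), (.v 0), (.v 1), (.v 2)], [(.m (.v 0) (.v 1))]⟩,
   ⟨1, 0, [(.v 1), (.v 0), (.v 0), (.v 0)], [(.v 2), (.m (.v 0) (.v 1))]⟩,
   ⟨-3, 0, [(.v 0), (.v 0), (.v 0), (.v 2)], [(.m (.v 1) (.m (.v 0) (.v 1)))]⟩]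

def T_idA : Pl := [(1, (.m (.m (.v 2) (.m (.m (.v 1) (.v 0)) (.v 0))) (.m (.m (.v 1) (.v 0)) (.v 0))))]

theorem idA {B : Type u} [NonUnitalNonAssocRing B] (h : Eng B) (h2 : ∀ x : B, x + x = 0 → x = 0)  (hF : ∀ a b c y w : B, (((y * a) * (w * b)) * c) + ((((y * a) * w) * b) * c) + (((y * (w * a)) * b) * c) + (((y * a) * (w * c)) * b) + ((((y * a) * w) * c) * b) + (((y * (w * a)) * c) * b) + (((y * b) * (w * a)) * c) + ((((y * b) * w) * a) * c) + (((y * (w * b)) * a) * c) + (((y * b) * (w * c)) * a) + ((((y * b) * w) * c) * a) + (((y * (w * b)) * c) * a) + (((y * c) * (w * a)) * b) + ((((y * c) * w) * a) * b) + (((y * (w * c)) * a) * b) + (((y * c) * (w * b)) * a) + ((((y * c) * w) * b) * a) + (((y * (w * c)) * b) * a) = 0) (x y z : B) :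
    (z * ((y * x) * x)) * ((y * x) * x) = 0 := by
  have e := chk_sound h (lk [x, y, z]) R_idA (R_idA_ok h h2 hF x y z) (2 ^ 1 * 3 ^ 1) T_idA C_idA (by decide +kernel)
  have e := strip h h2 1 1 _ e
  simp only [T_idA, evP, Tm.ev, lk] at e
  linear_combination (norm := module) e

end Pool.Agent.TH36.E3
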