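import Pool.Agent.TH36.E3.Refl

set_option autoImplicit false
set_option linter.all false

/-! 2-Engel algebras. -/

namespace Pool.Agent.TH36.E3

open Pool.Agent.H461R3.E3

universe u
def R_te1 : ℕ → List Tm → Pl
  | 0, [u0, u1, u2] => [(1, (.m (.m u0 u1) u2)), (1, (.m (.m u0 u2) u1))]
  | _, _ => []

theorem R_te1_ok {B : Type u} [NonUnitalNonAssocRing B] (h : Eng B) (h2 : ∀ x : B, x + x = 0 → x = 0)  (hT : ∀ y a b : B, (y * a) * b + (y * b) * a = 0) (x y z t : B) : ∀ i s, evP (lk [x, y, z, t]) (R_te1 i s) = 0 := by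
  intro i s
  unfold R_te1
  split
  next u0 u1 u2 =>
    have e := hT (u0.ev (lk [x, y, z, t])) (u1.ev (lk [x, y, z, t])) (u2.ev (lk [x, y, z, t]))
    simp only [evP, Tm.ev, lk] at e ⊢
    linear_combination (norm := module) e
  next => rfl

def C_te1 : List Stp :=
  [
   ⟨-1, 1, [(.v 1), (.m (.v 0) (.v 2)), (.v 3)], []⟩,
   ⟨1, 1, [(.v 0), (.v 2), (.m (.v 3) (.v 1))], []⟩,
   ⟨-1, 1, [(.m (.v 0) (.v 1)), (.v 2), (.v 3)], []⟩,
   ⟨-1, 1, [(.v 1), (.v 0), (.v 3)], [(.v 2)]⟩,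
   ⟨-1, 1, [(.v 0), (.v 2), (.v 1)], [(.v 3)]⟩]

def T_te1 : Pl := [(1, (.m (.m (.m (.v 0) (.v 1)) (.v 2)) (.v 3)))]

theorem te1 {B : Type u} [NonUnitalNonAssocRing B] (h : Eng B) (h2 : ∀ x : B, x + x = 0 → x = 0)  (hT : ∀ y a b : B, (y * a) * b + (y * b) * a = 0) (x y z t : B) :
    ((x * y) * z) * t = 0 := by
  have e := chk_sound h (lk [x, y, z, t]) R_te1 (R_te1_ok h h2 hT x y z t) (2 ^ 1 * 3 ^ 0) T_te1 C_te1 (by decide +kernel)
  have e := strip h h2 1 0 _ e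
  simp only [T_te1, evP, Tm.ev, lk] at e
  linear_combination (norm := module) e
def R_te2 : ℕ → List Tm → Pl
  | 0, [u0, u1, u2] => [(1, (.m (.m u0 u1) u2)), (1, (.m (.m u0 u2) u1))]
  | _, _ => []

theorem R_te2_ok {B : Type u} [NonUnitalNonAssocRing B] (h : Eng B) (h2 : ∀ x : B, x + x = 0 → x = 0)  (hT : ∀ y a b : B, (y * a) * b + (y * b) * a = 0) (x y z t : B) : ∀ i s, evP (lk [x, y, z, t]) (R_te2 i s) = 0 := by
  intro i s
  unfold R_te2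
  split
  next u0 u1 u2 =>
    have e := hT (u0.ev (lk [x, y, z, t])) (u1.ev (lk [x, y, z, t])) (u2.ev (lk [x, y, z, t]))
    simp only [evP, Tm.ev, lk] at e ⊢
    linear_combination (norm := module) e
  next => rfl

def C_te2 : List Stp :=
  [
   ⟨-1, 1, [(.v 1), (.v 0), (.m (.v 3) (.v 2))], []⟩,
   ⟨-1, 1, [(.v 3), (.v 2), (.m (.v 0) (.v 1))], []⟩,
   ⟨1, 1, [(.m (.v 3) (.v 1)), (.v 2), (.v 0)], []⟩,
   ⟨1, 1, [(.v 1), (.v 0), (.v 3)], [(.v 2)]⟩,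
   ⟨-1, 1, [(.v 3), (.v 2), (.v 1)], [(.v 0)]⟩]

def T_te2 : Pl := [(1, (.m (.m (.v 0) (.v 1)) (.m (.v 2) (.v 3))))]

theorem te2 {B : Type u} [NonUnitalNonAssocRing B] (h : Eng B) (h2 : ∀ x : B, x + x = 0 → x = 0)  (hT : ∀ y a b : B, (y * a) * b + (y * b) * a = 0) (x y z t : B) :
    (x * y) * (z * t) = 0 := by
  have e := chk_sound h (lk [x, y, z, t]) R_te2 (R_te2_ok h h2 hT x y z t) (2 ^ 1 * 3 ^ 0) T_te2 C_te2 (by decide +kernel)
  have e := strip h h2 1 0 _ e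
  simp only [T_te2, evP, Tm.ev, lk] at e
  linear_combination (norm := module) e

end Pool.Agent.TH36.E3
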