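import Pool.Agent.TH36.E3.Refl

set_option autoImplicit false
set_option linter.all false

/-! The basic identity of degree (3,1,1,1). -/

namespace Pool.Agent.TH36.E3

open Pool.Agent.H461R3.E3

universe u
def R_idI : ℕ → List Tm → Pl
  | _, _ => []

theorem R_idI_ok {B : Type u} [NonUnitalNonAssocRing B] (h : Eng B) (h2 : ∀ x : B, x + x = 0 → x = 0)   (x y w z : B) : ∀ i s, evP (lk [x, y, w, z]) (R_idI i s) = 0 := by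
  intro i s
  unfold R_idI
  split
  next => rfl

def C_idI : List Stp :=
  [
   ⟨-3, 0, [(.v 1), (.v 0), (.v 0), (.m (.v 3) (.m (.v 2) (.v 0)))], []⟩,
   ⟨-3, 0, [(.v 1), (.v 0), (.v 0), (.m (.v 0) (.m (.v 2) (.v 3)))], []⟩,
   ⟨-12, 0, [(.v 0), (.v 0), (.v 0), (.m (.v 3) (.m (.v 2) (.v 1)))], []⟩,
   ⟨6, 0, [(.v 2), (.v 0), (.v 3), (.m (.v 0) (.m (.v 0) (.v 1)))], []⟩,
   ⟨-3, 0, [(.m (.v 1) (.m (.v 2) (.v 0))), (.v 0), (.v 0), (.v 3)], []⟩,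
   ⟨-3, 0, [(.m (.v 2) (.m (.v 0) (.v 1))), (.v 0), (.v 0), (.v 3)], []⟩,
   ⟨3, 0, [(.v 1), (.v 0), (.v 0), (.m (.v 2) (.v 0))], [(.v 3)]⟩,
   ⟨-3, 0, [(.m (.v 0) (.v 1)), (.v 2), (.v 0), (.v 0)], [(.v 3)]⟩,
   ⟨-1, 0, [(.v 1), (.v 0), (.v 0), (.v 0)], [(.v 2), (.v 3)]⟩,
   ⟨-9, 0, [(.v 3), (.v 0), (.v 0), (.m (.v 2) (.v 1))], [(.v 0)]⟩,
   ⟨-18, 0, [(.v 0), (.v 0), (.v 3), (.m (.v 2) (.v 1))], [(.v 0)]⟩,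
   ⟨-6, 0, [(.v 0), (.v 0), (.v 1), (.m (.v 2) (.v 3))], [(.v 0)]⟩,
   ⟨-6, 0, [(.v 2), (.v 0), (.v 3), (.m (.v 0) (.v 1))], [(.v 0)]⟩,
   ⟨-3, 0, [(.m (.v 2) (.v 3)), (.v 0), (.v 0), (.v 1)], [(.v 0)]⟩,
   ⟨3, 0, [(.v 1), (.v 2), (.v 0), (.v 0)], [(.v 3), (.v 0)]⟩,
   ⟨6, 0, [(.v 2), (.v 0), (.v 1), (.v 3)], [(.v 0), (.v 0)]⟩]

def T_idI : Pl := [(1, (.m (.v 3) (.m (.m (.m (.v 1) (.v 0)) (.m (.v 2) (.v 0))) (.v 0)))), (-1, (.m (.m (.v 3) (.m (.m (.v 1) (.v 0)) (.m (.v 2) (.v 0)))) (.v 0))), (-1, (.m (.m (.v 3) (.m (.m (.m (.v 1) (.v 0)) (.v 2)) (.v 0))) (.v 0))), (-1, (.m (.m (.v 3) (.m (.m (.v 1) (.m (.v 2) (.v 0))) (.v 0))) (.v 0))), (-2, (.m (.m (.v 3) (.m (.m (.m (.v 1) (.v 2)) (.v 0)) (.v 0))) (.v 0))), (-2, (.m (.m (.m (.v 3) (.m (.m (.v 1) (.v 0)) (.v 2))) (.v 0)) (.v 0))), (-2, (.m (.m (.m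 (.v 3) (.m (.v 1) (.m (.v 2) (.v 0)))) (.v 0)) (.v 0))), (-4, (.m (.m (.m (.v 3) (.m (.m (.v 1) (.v 2)) (.v 0))) (.v 0)) (.v 0)))]

theorem idI {B : Type u} [NonUnitalNonAssocRing B] (h : Eng B) (h2 : ∀ x : B, x + x = 0 → x = 0)   (x y w z : B) :
    (z * (((y * x) * (w * x)) * x)) - ((z * ((y * x) * (w * x))) * x) - ((z * (((y * x) * w) * x)) * x) - ((z * ((y * (w * x)) * x)) * x) + (-2 : ℤ) • ((z * (((y * w) * x) * x)) * x) + (-2 : ℤ) • (((z * ((y * x) * w)) * x) * x) + (-2 : ℤ) • (((z * (y * (w * x))) * x) * x) + (-4 : ℤ) • (((z * ((y * w) * x)) * x) * x) = 0 := by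
  have e := chk_sound h (lk [x, y, w, z]) R_idI (R_idI_ok h h2  x y w z) (2 ^ 1 * 3 ^ 1) T_idI C_idI (by decide +kernel)
  have e := strip h h2 1 1 _ e
  simp only [T_idI, evP, Tm.ev, lk] at e
  linear_combination (norm := module) e

end Pool.Agent.TH36.E3
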