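import Pool.Agent.TH36.E3.Refl

set_option autoImplicit false
set_option linter.all false

/-! The element gx+(nx)x is a sandwich. -/

namespace Pool.Agent.TH36.E3

open Pool.Agent.H461R3.E3

universe u
def R_miniF : ℕ → List Tm → Pl
  | 0, [u0] => [(1, (.m u0 (.m (.v 2) (.v 0)))), (-1, (.m (.m u0 (.v 2)) (.v 0))), (-1, (.m (.m u0 (.m (.v 1) (.v 0))) (.v 0))), (-2, (.m (.m (.m u0 (.v 1)) (.v 0)) (.v 0)))]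
  | _, _ => []

theorem R_miniF_ok {B : Type u} [NonUnitalNonAssocRing B] (h : Eng B) (h2 : ∀ x : B, x + x = 0 → x = 0) {x n g : B} (hI : ∀ u : B, u * (g * x) - (u * g) * x - (u * (n * x)) * x - (2 : ℤ) • (((u * n) * x) * x) = 0) (z : B) : ∀ i s, evP (lk [x, n, g, z]) (R_miniF i s) = 0 := by
  intro i s
  unfold R_miniF
  split
  next u0 =>
    have e := hI (u0.ev (lk [x, n, g, z]))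
    simp only [evP, Tm.ev, lk] at e ⊢
    linear_combination (norm := module) e
  next => rfl

def C_miniF : List Stp :=
  [
   ⟨12, 0, [(.v 0), (.v 2), (.v 3), (.m (.v 2) (.v 0))], []⟩,
   ⟨-12, 0, [(.v 0), (.v 2), (.v 2), (.m (.v 0) (.v 3))], []⟩,
   ⟨18, 0, [(.v 2), (.v 0), (.v 3), (.m (.v 2) (.v 0))], []⟩,
   ⟨-18, 0, [(.v 2), (.v 2), (.v 0), (.m (.v 0) (.v 3))], []⟩,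
   ⟨-6, 0, [(.v 0), (.v 2), (.v 2), (.v 0)], [(.v 3)]⟩,
   ⟨15, 0, [(.v 3), (.v 2), (.v 2), (.v 0)], [(.v 0)]⟩,
   ⟨12, 0, [(.v 2), (.v 2), (.v 0), (.v 3)], [(.v 0)]⟩,
   ⟨12, 0, [(.v 3), (.v 2), (.v 0), (.v 0)], [(.v 2)]⟩,
   ⟨6, 0, [(.v 2), (.v 0), (.v 0), (.v 3)], [(.v 2)]⟩,
   ⟨6, 0, [(.v 3), (.v 0), (.v 0), (.m (.v 0) (.m (.v 2) (.v 1)))], []⟩,
   ⟨-15, 0, [(.v 3), (.v 0), (.v 0), (.m (.v 1) (.m (.v 2) (.v 0)))], []⟩,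
   ⟨-3, 0, [(.v 3), (.v 0), (.v 0), (.m (.v 2) (.m (.v 1) (.v 0)))], []⟩,
   ⟨-36, 0, [(.v 0), (.v 0), (.v 3), (.m (.v 1) (.m (.v 2) (.v 0)))], []⟩,
   ⟨-6, 0, [(.v 0), (.v 0), (.v 0), (.m (.v 3) (.m (.v 2) (.v 1)))], []⟩,
   ⟨-18, 0, [(.v 0), (.v 0), (.v 0), (.m (.v 1) (.m (.v 2) (.v 3)))], []⟩,
   ⟨-6, 0, [(.v 0), (.v 2), (.v 0), (.m (.v 0) (.m (.v 1) (.v 3)))], []⟩,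
   ⟨6, 0, [(.v 0), (.v 2), (.v 1), (.m (.v 0) (.m (.v 0) (.v 3)))], []⟩,
   ⟨-18, 0, [(.m (.v 0) (.v 3)), (.v 1), (.v 0), (.m (.v 2) (.v 0))], []⟩,
   ⟨6, 0, [(.v 1), (.v 0), (.v 3), (.m (.v 0) (.m (.v 2) (.v 0)))], []⟩,
   ⟨9, 0, [(.v 1), (.v 0), (.v 0), (.m (.v 3) (.m (.v 2) (.v 0)))], []⟩,
   ⟨-6, 0, [(.v 1), (.v 0), (.m (.v 2) (.v 0)), (.m (.v 0) (.v 3))], []⟩,
   ⟨12, 0, [(.v 1), (.v 2), (.v 0), (.m (.v 0) (.m (.v 0) (.v 3)))], []⟩,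
   ⟨-3, 0, [(.m (.v 1) (.v 3)), (.v 0), (.v 0), (.m (.v 2) (.v 0))], []⟩,
   ⟨24, 0, [(.m (.v 1) (.v 0)), (.v 0), (.v 3), (.m (.v 2) (.v 0))], []⟩,
   ⟨3, 0, [(.m (.v 3) (.m (.v 1) (.v 0))), (.v 2), (.v 0), (.v 0)], []⟩,
   ⟨3, 0, [(.v 2), (.v 0), (.v 0), (.m (.v 3) (.m (.v 1) (.v 0)))], []⟩,
   ⟨12, 0, [(.m (.v 3) (.m (.v 2) (.v 0))), (.v 1), (.v 0), (.v 0)], []⟩,
   ⟨12, 0, [(.m (.v 0) (.m (.v 2) (.v 3))), (.v 1), (.v 0), (.v 0)], []⟩,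
   ⟨3, 0, [(.m (.v 2) (.m (.v 0) (.v 3))), (.v 1), (.v 0), (.v 0)], []⟩,
   ⟨3, 0, [(.m (.v 2) (.v 1)), (.v 0), (.v 0), (.m (.v 0) (.v 3))], []⟩,
   ⟨1, 0, [(.m (.v 2) (.m (.v 1) (.v 3))), (.v 0), (.v 0), (.v 0)], []⟩,
   ⟨3, 0, [(.m (.v 2) (.m (.v 1) (.v 0))), (.v 0), (.v 0), (.v 3)], []⟩,
   ⟨-12, 0, [(.v 1), (.v 0), (.v 0), (.m (.v 2) (.v 0))], [(.v 3)]⟩,
   ⟨-3, 0, [(.v 2), (.v 0), (.v 0), (.m (.v 1) (.v 0))], [(.v 3)]⟩,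
   ⟨-3, 0, [(.m (.v 2) (.v 0)), (.v 1), (.v 0), (.v 0)], [(.v 3)]⟩,
   ⟨1, 0, [(.m (.v 2) (.v 1)), (.v 0), (.v 0), (.v 0)], [(.v 3)]⟩,
   ⟨-3, 0, [(.v 0), (.v 2), (.v 0), (.v 0)], [(.v 1), (.v 3)]⟩,
   ⟨-6, 0, [(.v 3), (.v 0), (.v 0), (.m (.v 2) (.v 1))], [(.v 0)]⟩,
   ⟨24, 0, [(.v 0), (.v 1), (.v 3), (.m (.v 2) (.v 0))], [(.v 0)]⟩,
   ⟨-12, 0, [(.v 0), (.v 2), (.v 3), (.m (.v 1) (.v 0))], [(.v 0)]⟩,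
   ⟨-6, 0, [(.v 1), (.v 2), (.v 0), (.m (.v 0) (.v 3))], [(.v 0)]⟩,
   ⟨-24, 0, [(.m (.v 1) (.v 0)), (.v 2), (.v 0), (.v 3)], [(.v 0)]⟩,
   ⟨-18, 0, [(.v 2), (.v 0), (.v 3), (.m (.v 1) (.v 0))], [(.v 0)]⟩,
   ⟨-3, 0, [(.v 2), (.v 0), (.v 0), (.m (.v 1) (.v 3))], [(.v 0)]⟩,
   ⟨6, 0, [(.v 1), (.v 2), (.v 0), (.v 0)], [(.v 3), (.v 0)]⟩,
   ⟨9, 0, [(.v 2), (.v 1), (.v 0), (.v 0)], [(.v 3), (.v 0)]⟩,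
   ⟨-18, 0, [(.v 0), (.v 2), (.v 1), (.v 3)], [(.v 0), (.v 0)]⟩,
   ⟨12, 0, [(.v 2), (.v 0), (.v 0), (.v 3)], [(.v 1), (.v 0)]⟩,
   ⟨-3, 0, [(.v 3), (.v 1), (.v 0), (.v 0)], [(.v 2), (.v 0)]⟩,
   ⟨-30, 0, [(.v 0), (.v 1), (.v 0), (.v 3)], [(.v 2), (.v 0)]⟩,
   ⟨-12, 0, [(.v 3), (.v 0), (.v 0), (.m (.v 2) (.v 0))], [(.v 1)]⟩,
   ⟨4, 0, [(.m (.v 2) (.v 3)), (.v 0), (.v 0), (.v 0)], [(.v 1)]⟩,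
   ⟨-3, 0, [(.v 0), (.v 0), (.v 0), (.v 3)], [(.v 2), (.v 1)]⟩,
   ⟨3, 0, [(.v 3), (.v 0), (.v 0), (.m (.v 1) (.v 0))], [(.v 2)]⟩,
   ⟨-1, 0, [(.m (.v 1) (.v 3)), (.v 0), (.v 0), (.v 0)], [(.v 2)]⟩,
   ⟨6, 0, [(.v 3), (.v 1), (.v 0), (.v 0)], [(.v 0), (.v 2)]⟩,
   ⟨-3, 0, [(.v 0), (.v 0), (.v 0), (.v 3)], [(.v 1), (.v 2)]⟩,
   ⟨30, 0, [(.v 0), (.v 1), (.v 0), (.v 3)], [(.m (.v 2) (.v 0))]⟩,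
   ⟨3, 0, [(.v 1), (.v 0), (.v 0), (.v 3)], [(.m (.v 2) (.v 0))]⟩,
   ⟨6, 0, [(.v 0), (.v 0), (.v 0), (.m (.v 1) (.m (.v 3) (.m (.v 1) (.v 0))))], []⟩,
   ⟨6, 0, [(.v 0), (.v 0), (.v 0), (.m (.v 1) (.m (.v 1) (.m (.v 0) (.v 3))))], []⟩,
   ⟨-15, 0, [(.v 1), (.v 0), (.v 0), (.m (.v 3) (.m (.v 0) (.m (.v 1) (.v 0))))], []⟩,
   ⟨-6, 0, [(.v 1), (.v 0), (.v 0), (.m (.v 0) (.m (.v 3) (.m (.v 1) (.v 0))))], []⟩,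
   ⟨-6, 0, [(.v 1), (.v 0), (.v 0), (.m (.v 0) (.m (.v 0) (.m (.v 1) (.v 3))))], []⟩,
   ⟨18, 0, [(.m (.v 1) (.v 0)), (.v 0), (.v 0), (.m (.v 0) (.m (.v 1) (.v 3)))], []⟩,
   ⟨3, 0, [(.m (.m (.v 1) (.v 0)) (.m (.v 0) (.v 3))), (.v 1), (.v 0), (.v 0)], []⟩,
   ⟨-3, 0, [(.m (.v 1) (.m (.v 1) (.v 0))), (.v 0), (.v 0), (.m (.v 0) (.v 3))], []⟩,
   ⟨9, 0, [(.m (.v 0) (.m (.v 1) (.m (.v 1) (.v 0)))), (.v 0), (.v 0), (.v 3)], []⟩,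
   ⟨-6, 0, [(.v 0), (.v 0), (.v 0), (.m (.v 1) (.m (.v 1) (.v 0)))], [(.v 3)]⟩,
   ⟨36, 0, [(.v 0), (.v 1), (.v 0), (.m (.v 0) (.m (.v 1) (.v 3)))], [(.v 0)]⟩,
   ⟨6, 0, [(.v 1), (.v 0), (.m (.v 1) (.v 0)), (.m (.v 0) (.v 3))], [(.v 0)]⟩,
   ⟨-12, 0, [(.m (.v 1) (.v 0)), (.v 0), (.v 3), (.m (.v 1) (.v 0))], [(.v 0)]⟩,
   ⟨6, 0, [(.m (.v 1) (.m (.v 0) (.v 3))), (.v 1), (.v 0), (.v 0)], [(.v 0)]⟩,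
   ⟨6, 0, [(.v 1), (.v 0), (.v 0), (.m (.v 1) (.v 0))], [(.v 3), (.v 0)]⟩,
   ⟨-6, 0, [(.v 0), (.v 1), (.v 3), (.m (.v 1) (.v 0))], [(.v 0), (.v 0)]⟩,
   ⟨3, 0, [(.v 0), (.v 1), (.v 1), (.v 0)], [(.v 3), (.v 0), (.v 0)]⟩,
   ⟨12, 0, [(.v 3), (.v 1), (.v 0), (.v 0)], [(.v 1), (.v 0), (.v 0)]⟩,
   ⟨-6, 0, [(.m (.v 1) (.v 3)), (.v 0), (.v 0), (.v 0)], [(.v 1), (.v 0)]⟩,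
   ⟨6, 0, [(.v 3), (.v 1), (.v 0), (.v 0)], [(.m (.v 1) (.v 0)), (.v 0)]⟩,
   ⟨-6, 0, [(.v 0), (.v 0), (.v 0), (.m (.v 1) (.m (.v 0) (.v 3)))], [(.v 1)]⟩,
   ⟨-6, 0, [(.v 1), (.v 0), (.v 0), (.v 0)], [(.m (.v 0) (.m (.v 1) (.v 3)))]⟩,
   ⟨6, 0, [(.v 1), (.v 0), (.v 0), (.v 3)], [(.m (.v 0) (.m (.v 1) (.v 0)))]⟩,
   ⟨12, 1, [(.v 3)], [(.v 0), (.v 2)]⟩,
   ⟨-6, 1, [(.m (.v 0) (.v 3))], [(.v 2)]⟩,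
   ⟨-6, 1, [(.v 2)], [(.v 3), (.v 0)]⟩,
   ⟨-6, 1, [(.v 2)], [(.v 0), (.v 3)]⟩,
   ⟨6, 1, [(.v 2)], [(.m (.v 0) (.v 3))]⟩,
   ⟨-18, 1, [(.m (.v 2) (.v 3))], [(.v 0)]⟩,
   ⟨-12, 1, [(.m (.v 3) (.m (.v 2) (.v 0)))], []⟩,
   ⟨18, 1, [(.m (.v 0) (.m (.v 2) (.v 3)))], []⟩,
   ⟨12, 1, [(.m (.v 2) (.m (.v 0) (.v 3)))], []⟩,
   ⟨-12, 1, [(.v 3)], [(.v 1), (.v 0), (.v 0)]⟩,
   ⟨-6, 1, [(.m (.v 0) (.v 3))], [(.v 0), (.v 1)]⟩,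
   ⟨-6, 1, [(.m (.v 0) (.v 3))], [(.v 1), (.v 0)]⟩,
   ⟨-12, 1, [(.v 1)], [(.v 3), (.v 0), (.v 0)]⟩,
   ⟨-18, 1, [(.v 1)], [(.v 0), (.v 3), (.v 0)]⟩,
   ⟨-18, 1, [(.v 1)], [(.v 0), (.v 0), (.v 3)]⟩,
   ⟨6, 1, [(.v 1)], [(.v 0), (.m (.v 0) (.v 3))]⟩,
   ⟨-6, 1, [(.m (.v 1) (.v 0))], [(.v 3), (.v 0)]⟩,
   ⟨-6, 1, [(.m (.v 1) (.v 0))], [(.v 0), (.v 3)]⟩,
   ⟨6, 1, [(.m (.v 1) (.v 0))], [(.m (.v 0) (.v 3))]⟩,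
   ⟨6, 1, [(.m (.v 3) (.m (.v 1) (.v 0)))], [(.v 0)]⟩,
   ⟨12, 1, [(.m (.v 1) (.m (.v 0) (.v 3)))], [(.v 0)]⟩,
   ⟨18, 1, [(.m (.v 3) (.m (.v 0) (.m (.v 1) (.v 0))))], []⟩,
   ⟨-18, 1, [(.m (.v 0) (.m (.v 1) (.m (.v 0) (.v 3))))], []⟩,
   ⟨-12, 1, [(.m (.v 1) (.m (.v 0) (.m (.v 0) (.v 3))))], []⟩,
   ⟨6, 1, [(.m (.m (.v 1) (.v 0)) (.m (.v 0) (.v 3)))], []⟩]

def T_miniF : Pl := [(1, (.m (.m (.v 3) (.m (.v 2) (.v 0))) (.m (.v 2) (.v 0)))), (1, (.m (.m (.v 3) (.m (.v 2) (.v 0))) (.m (.m (.v 1) (.v 0)) (.v 0)))), (1, (.m (.m (.v 3) (.m (.m (.v 1) (.v 0)) (.v 0))) (.m (.v 2) (.v 0)))), (1, (.m (.m (.v 3) (.m (.m (.v 1) (.v 0)) (.v 0))) (.m (.m (.v 1) (.v 0)) (.v 0))))]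

theorem miniF {B : Type u} [NonUnitalNonAssocRing B] (h : Eng B) (h2 : ∀ x : B, x + x = 0 → x = 0) {x n g : B} (hI : ∀ u : B, u * (g * x) - (u * g) * x - (u * (n * x)) * x - (2 : ℤ) • (((u * n) * x) * x) = 0) (z : B) :
    ((z * (g * x)) * (g * x)) + ((z * (g * x)) * ((n * x) * x)) + ((z * ((n * x) * x)) * (g * x)) + ((z * ((n * x) * x)) * ((n * x) * x)) = 0 := by
  have e := chk_sound h (lk [x, n, g, z]) R_miniF (R_miniF_ok h h2 hI z) (2 ^ 1 * 3 ^ 2) T_miniF C_miniF (by decide +kernel)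
  have e := strip h h2 1 2 _ e
  simp only [T_miniF, evP, Tm.ev, lk] at e
  linear_combination (norm := module) e

end Pool.Agent.TH36.E3
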