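import Pool.Agent.TH36.E3.Cert

set_option autoImplicit false
set_option linter.all false

/-! Every system vanishes. -/

namespace Pool.Agent.TH36.E3
namespace Sys
universe u v
variable {α : Type u} {M : Type v} [AddCommGroup M] (S : Sys α M)

theorem VN (v w : List α) (a e : α) : S.V [a] v [] e = 0 := by
  rw [S.V12, S.V0ee, neg_zero]

theorem P0V (n : ℕ) : ∀ v : List α, v.length ≤ n → ∀ (u : List α) (a e : α),
    S.V (a :: u) v [] e = 0 := by
  induction n using Nat.strong_induction_on with
  | _ n ih =>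
    intro v hv u f g
    rcases u with _ | ⟨u0, u⟩
    · exact S.VN v [] f g
    rcases v with _ | ⟨x1, _ | ⟨x2, _ | ⟨x3, _ | ⟨x4, _ | ⟨v0, v⟩⟩⟩⟩⟩
    · exact S.V0ee _ _
    · exact S.Omega1 _ _ _ _
    · exact S.Omega2 _ _ _ _ _
    · rcases u with _ | ⟨u1, u⟩
      · rw [S.V12, S.Omega1, neg_zero]
      · exact S.E6b u u1 u0 x3 x2 x1 f g
    · exact S.E6a u u0 x4 x3 x2 x1 f g
    · have h := S.E7 u v u0 v0 x4 x3 x2 x1 f g
      have h2 := ih (n - 1) (by simp only [List.length_cons] at hv; omega) (x1 :: x2 :: v0 :: v)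
        (by simp only [List.length_cons] at hv ⊢; omega) (x3 :: x4 :: u0 :: u) f g
      rw [h2, add_zero] at h
      have h3 : (-1 : ℤ) • S.V (f :: u0 :: u) (x1 :: x2 :: x3 :: x4 :: v0 :: v) [] g = 0 := h
      linear_combination (norm := module) - h3

theorem V_0 (u v : List α) (a : α) : S.V u v [] a = 0 := by
  rcases u with _ | ⟨x, u⟩
  · rw [S.V23, S.V00, neg_zero]
  · exact S.P0V v.length v le_rfl u x a

theorem V_1 (u v : List α) (d a : α) : S.V u v [d] a = 0 := by
  rcases u with _ | ⟨x, u⟩
  · rw [S.V23, S.V01, neg_zero]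
  · exact S.P1V u v d x a

theorem mv {w : List α} (h : ∀ u v a, S.V u v w a = 0) (u v : List α) (a : α) :
    S.T u (a :: v) w = S.T (a :: u) v w := by
  have h1 := S.G u v w a
  rw [h, h] at h1
  linear_combination (norm := module) -h1

theorem T_0 (v : List α) : ∀ u : List α, S.T u v [] = 0 := by
  induction v with
  | nil => intro u; exact S.d00 u
  | cons a v ih => intro u; rw [S.mv S.V_0]; exact ih _

theorem T_1 (d : α) (v : List α) : ∀ u : List α, S.T u v [d] = 0 := by
  induction v with
  | nil => intro u; exact S.d01 u d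
  | cons a v ih => intro u; rw [S.mv (fun u v a => S.V_1 u v d a)]; exact ih _

/-- the induction statement -/
def P (w : List α) : Prop := (∀ u v a, S.V u v w a = 0) ∧ ∀ u v, S.T u v w = 0

theorem stepV {C : List α} {x b : α} (ih : ∀ w : List α, w.length < (x :: b :: C).length → S.P w) :
    ∀ (n : ℕ) (u : List α), u.length ≤ n → ∀ v a, S.V u v (x :: b :: C) a = 0 := by
  have hA : ∀ u v a, S.V u v (x :: b :: C) a = - S.V v u (x :: b :: C) a := by
    intro u v a
    have h := S.STAR u v C a b x
    obtain ⟨h1, h2⟩ := ih C (by simp only [List.length_cons]; omega)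
    rw [h2, h2, h1, h1] at h
    linear_combination (norm := module) -h
  intro n
  induction n with
  | zero =>
    intro u hu v a
    rw [hA, S.V23, (ih u (by simp only [List.length_cons]; omega)).1, neg_zero, neg_zero]
  | succ n ihn =>
    intro u hu v a
    rcases u with _ | ⟨d, u⟩
    · rw [hA, S.V23, (ih [] (by simp only [List.length_cons, List.length_nil]; omega)).1,
        neg_zero, neg_zero]
    · rw [S.V12, hA, neg_neg]
      exact ihn u (by simp only [List.length_cons] at hu; omega) _ _

theorem stepT {C : List α} {x0 c0 : α} (hV : ∀ u v a, S.V u v (x0 :: c0 :: C) a = 0) :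
    ∀ v u, S.T u v (x0 :: c0 :: C) = 0 := by
  have mv := S.mv hV
  -- the key relation
  have key : ∀ (u : List α) (t x b a : α),
      S.T (x :: b :: a :: u) [t] (x0 :: c0 :: C) = S.T (a :: b :: x :: u) [t] (x0 :: c0 :: C) := by
    intro u t x b a
    have h := S.STAR u [t] (x0 :: c0 :: C) a b x
    have e1 : S.V u [t] (x :: b :: x0 :: c0 :: C) a = 0 := by rw [S.V23, S.V_1, neg_zero]
    have e2 : S.V [t] u (x :: b :: x0 :: c0 :: C) a = 0 := by
      rw [S.V12, S.V23, S.V_0, neg_zero, neg_zero]
    rw [e1, e2, hV, hV] at h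
    rw [mv u [b, a, t] x, mv (x :: u) [a, t] b, mv (b :: x :: u) [t] a] at h
    linear_combination (norm := module) h
  have base : ∀ u, S.T u [] (x0 :: c0 :: C) = 0 := by
    intro u
    rcases u with _ | ⟨x1, _ | ⟨x2, _ | ⟨x3, _ | ⟨x4, _ | ⟨x5, u⟩⟩⟩⟩⟩
    · exact S.b00 _
    · exact S.b10 _ _
    · exact S.b20 _ _ _
    · have h := S.STAR [] [] (x0 :: c0 :: C) x3 x2 x1
      rw [S.V00, hV, S.Tsw [] [x1, x2, x3]] at h
      apply S.two
      linear_combination (norm := module) h
    · rw [← mv]
      have a1 : ∀ x b a, S.T [x, b, a] [x1] (x0 :: c0 :: C) = S.T [a, b, x] [x1] (x0 :: c0 :: C) :=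
        fun x b a => key [] x1 x b a
      have a2 : ∀ x b a, S.T [x, b, a] [x1] (x0 :: c0 :: C)
          = - S.T [b, x, a] [x1] (x0 :: c0 :: C) := fun x b a => S.T1_0 x b a [] _ _
      apply S.two
      have e1 := a1 x2 x3 x4
      have e2 := a2 x4 x3 x2
      have e3 := a1 x3 x4 x2
      have e4 := a2 x2 x4 x3
      have e5 := a1 x4 x2 x3
      have e6 := a2 x3 x2 x4
      linear_combination (norm := module) e1 + e2 - e3 - e4 + e5 + e6
    · rw [← mv]
      have h := key (x5 :: u) x1 x2 x3 x4
      have h1 := S.T1_0 x2 x3 x4 (x5 :: u) [x1] (x0 :: c0 :: C)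
      have h2 := S.T1_1 x3 x2 x4 x5 u [x1] (x0 :: c0 :: C)
      have h3 := S.T1_0 x3 x4 x2 (x5 :: u) [x1] (x0 :: c0 :: C)
      apply S.two
      linear_combination (norm := module) h + h1 - h2 + h3
  intro v
  induction v with
  | nil => exact base
  | cons a v ih => intro u; rw [mv]; exact ih _

theorem all (n : ℕ) : ∀ w : List α, w.length ≤ n → S.P w := by
  induction n with
  | zero =>
    intro w hw
    have : w = [] := List.length_eq_zero_iff.1 (by omega)
    subst this
    exact ⟨S.V_0, fun u v => S.T_0 v u⟩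
  | succ n ih =>
    intro w hw
    rcases w with _ | ⟨x, _ | ⟨b, C⟩⟩
    · exact ⟨S.V_0, fun u v => S.T_0 v u⟩
    · exact ⟨fun u v a => S.V_1 u v x a, fun u v => S.T_1 x v u⟩
    · have hV := fun u v a => S.stepV (C := C) (x := x) (b := b)
        (fun w hw' => ih w (by omega)) (u : List α).length u le_rfl v a
      exact ⟨hV, fun u v => S.stepT hV v u⟩

/-- All the values `T` vanish. -/
theorem T_zero (u v w : List α) : S.T u v w = 0 := (S.all w.length w le_rfl).2 u v

/-- All the values `Ta` vanish. -/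
theorem Ta_zero (u v w : List α) (a : α) : S.Ta u v a w = 0 := by
  have h := (S.all w.length w le_rfl).1 u v a
  rw [V_def, S.T_zero, add_zero] at h
  exact h

end Sys
end Pool.Agent.TH36.E3
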