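import Pool.Agent.H461R3.E3.Fin

set_option autoImplicit false
set_option linter.all false

/-! A small verified checker for identities in anticommutative 3-Engel algebras. -/

namespace Pool.Agent.TH36.E3

open Pool.Agent.H461R3.E3

universe u

/-- nonassociative words in variables indexed by numbers -/
inductive Tm
  | v (n : ℕ)
  | m (a b : Tm)

namespace Tm

def cmp : Tm → Tm → Ordering
  | v a, v b => if a < b then .lt else if b < a then .gt else .eq
  | v _, m _ _ => .lt
  | m _ _, v _ => .gt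
  | m a b, m c d => match cmp a c with
    | .eq => cmp b d
    | .lt => .lt
    | .gt => .gt

theorem eq_of_cmp : ∀ a b : Tm, cmp a b = .eq → a = b := by
  intro a
  induction a with
  | v a =>
    intro b h
    cases b with
    | v b =>
      simp only [cmp] at h
      split_ifs at h with h1 h2
      rw [show a = b by omega]
    | m c d => simp [cmp] at h
  | m a b iha ihb =>
    intro t h
    cases t with
    | v c => simp [cmp] at h
    | m c d =>
      simp only [cmp] at h
      cases h1 : cmp a c with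
      | lt => rw [h1] at h; simp at h
      | gt => rw [h1] at h; simp at h
      | eq => rw [h1] at h; rw [iha c h1, ihb d h]

/-- canonical form, with a sign -/
def nrm : Tm → ℤ × Tm
  | v n => (1, v n)
  | m a b =>
    match cmp a.nrm.2 b.nrm.2 with
    | .lt => (a.nrm.1 * b.nrm.1, m a.nrm.2 b.nrm.2)
    | .gt => (-(a.nrm.1 * b.nrm.1), m b.nrm.2 a.nrm.2)
    | .eq => (0, m a.nrm.2 b.nrm.2)

section
variable {B : Type u} [NonUnitalNonAssocRing B]

def ev (ρ : ℕ → B) : Tm → B
  | v n => ρ n
  | m a b => a.ev ρ * b.ev ρ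

theorem ev_nrm (h : Eng B) (ρ : ℕ → B) (t : Tm) : t.ev ρ = t.nrm.1 • t.nrm.2.ev ρ := by
  induction t with
  | v n => simp [nrm, ev]
  | m a b iha ihb =>
    simp only [nrm, ev]
    rw [iha, ihb]
    cases hc : cmp a.nrm.2 b.nrm.2 with
    | lt => simp only [ev, smul_mul_assoc, mul_smul_comm, smul_smul, mul_comm]
    | gt =>
      simp only [ev, smul_mul_assoc, mul_smul_comm, smul_smul, mul_comm, neg_smul]
      rw [h.ac (a.nrm.2.ev ρ), smul_neg, mul_comm]
    | eq =>
      have := eq_of_cmp _ _ hc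
      rw [this]
      simp only [ev, smul_mul_assoc, mul_smul_comm, h.sq, smul_zero]

end

end Tm

/-- polynomials as lists -/
abbrev Pl := List (ℤ × Tm)

/-- polynomials as trees -/
inductive Mp
  | e
  | n (l : Mp) (t : Tm) (z : ℤ) (r : Mp)

namespace Mp

def ins (t : Tm) (z : ℤ) : Mp → Mp
  | e => n e t z e
  | n l t' z' r => match Tm.cmp t t' with
    | .lt => n (ins t z l) t' z' r
    | .gt => n l t' z' (ins t z r)
    | .eq => n l t' (z' + z) r

def isZ : Mp → Bool
  | e => true
  | n l _ z r => isZ l && (decide (z = 0) && isZ r)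

section
variable {B : Type u} [NonUnitalNonAssocRing B]

def ev (ρ : ℕ → B) : Mp → B
  | e => 0
  | n l t z r => l.ev ρ + z • t.ev ρ + r.ev ρ

theorem ev_ins (ρ : ℕ → B) (t : Tm) (z : ℤ) (p : Mp) : (ins t z p).ev ρ = p.ev ρ + z • t.ev ρ := by
  induction p with
  | e => simp [ins, ev]
  | n l t' z' r ihl ihr =>
    simp only [ins]
    cases hc : Tm.cmp t t' with
    | lt => simp only [ev, ihl]; abel
    | gt => simp only [ev, ihr]; abel
    | eq =>
      have := Tm.eq_of_cmp _ _ hc
      subst this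
      simp only [ev, add_smul]; abel

theorem ev_isZ (ρ : ℕ → B) (p : Mp) (h : p.isZ = true) : p.ev ρ = 0 := by
  induction p with
  | e => rfl
  | n l t z r ihl ihr =>
    simp only [isZ, Bool.and_eq_true, decide_eq_true_eq] at h
    simp only [ev, ihl h.1, ihr h.2.2, h.2.1, zero_smul, add_zero]

end

end Mp

/-- multiply on the right by a list of words -/
def mulR (t : Tm) : List Tm → Tm
  | [] => t
  | a :: l => mulR (.m t a) l

def addP (k : ℤ) (ms : List Tm) : Pl → Mp → Mp
  | [], p => p
  | (z, t) :: q, p => addP k ms q (Mp.ins (mulR t ms).nrm.2 (k * z * (mulR t ms).nrm.1) p)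

/-- a step of a certificate: an instance of a relation, times a coefficient, with multipliers -/
structure Stp where
  k : ℤ
  i : ℕ
  s : List Tm
  ms : List Tm

def engP (a b c d : Tm) : Pl :=
  [(1, .m (.m (.m a b) c) d), (1, .m (.m (.m a b) d) c), (1, .m (.m (.m a c) b) d),
   (1, .m (.m (.m a c) d) b), (1, .m (.m (.m a d) b) c), (1, .m (.m (.m a d) c) b)]

/-- relation number `0` is the linearized Engel identity -/
def relP (R : ℕ → List Tm → Pl) : ℕ → List Tm → Pl
  | 0, [a, b, c, d] => engP a b c d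
  | 0, _ => []
  | n + 1, s => R n s

def addC (R : ℕ → List Tm → Pl) : List Stp → Mp → Mp
  | [], p => p
  | ⟨k, i, s, ms⟩ :: l, p => addC R l (addP k ms (relP R i s) p)

def chk (R : ℕ → List Tm → Pl) (k : ℤ) (tgt : Pl) (l : List Stp) : Bool :=
  (addC R l (addP k [] tgt .e)).isZ

section
variable {B : Type u} [NonUnitalNonAssocRing B]

def evP (ρ : ℕ → B) : Pl → B
  | [] => 0
  | (z, t) :: q => z • t.ev ρ + evP ρ q

def mulRe (ρ : ℕ → B) (x : B) : List Tm → B
  | [] => x
  | a :: l => mulRe ρ (x * a.ev ρ) l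

theorem mulRe_add (ρ : ℕ → B) (l : List Tm) : ∀ x y : B,
    mulRe ρ (x + y) l = mulRe ρ x l + mulRe ρ y l := by
  induction l with
  | nil => intro x y; rfl
  | cons a l ih => intro x y; simp only [mulRe, add_mul, ih]

theorem mulRe_zero (ρ : ℕ → B) (l : List Tm) : mulRe ρ (0 : B) l = 0 := by
  induction l with
  | nil => rfl
  | cons a l ih => simp only [mulRe, zero_mul, ih]

theorem mulRe_smul (ρ : ℕ → B) (l : List Tm) : ∀ (z : ℤ) (x : B),
    mulRe ρ (z • x) l = z • mulRe ρ x l := by
  induction l with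
  | nil => intro z x; rfl
  | cons a l ih => intro z x; simp only [mulRe, smul_mul_assoc, ih]

theorem ev_mulR (ρ : ℕ → B) (l : List Tm) : ∀ t : Tm, (mulR t l).ev ρ = mulRe ρ (t.ev ρ) l := by
  induction l with
  | nil => intro t; rfl
  | cons a l ih => intro t; simp only [mulR, mulRe, ih, Tm.ev]

theorem ev_addP (h : Eng B) (ρ : ℕ → B) (k : ℤ) (ms : List Tm) (q : Pl) : ∀ p : Mp,
    (addP k ms q p).ev ρ = p.ev ρ + k • mulRe ρ (evP ρ q) ms := by
  induction q with
  | nil => intro p; simp [addP, evP, mulRe_zero]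
  | cons a q ih =>
    intro p
    obtain ⟨z, t⟩ := a
    simp only [addP, ih, Mp.ev_ins, evP, mulRe_add, mulRe_smul]
    rw [mul_smul, mul_smul, ← Tm.ev_nrm h, ev_mulR, smul_add, add_assoc]

theorem evP_eng (h : Eng B) (ρ : ℕ → B) (a b c d : Tm) : evP ρ (engP a b c d) = 0 := by
  have := h.e3 (a.ev ρ) (b.ev ρ) (c.ev ρ) (d.ev ρ)
  simp only [engP, evP, Tm.ev, one_smul]
  refine Eq.trans ?_ this
  abel

theorem evP_rel (h : Eng B) (ρ : ℕ → B) (R : ℕ → List Tm → Pl) (hR : ∀ i s, evP ρ (R i s) = 0)
    (i : ℕ) (s : List Tm) : evP ρ (relP R i s) = 0 := by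
  cases i with
  | zero =>
    unfold relP
    split
    · exact evP_eng h ρ _ _ _ _
    · rfl
    · exact hR _ _
  | succ n => exact hR n s

theorem ev_addC (h : Eng B) (ρ : ℕ → B) (R : ℕ → List Tm → Pl) (hR : ∀ i s, evP ρ (R i s) = 0)
    (l : List Stp) : ∀ p : Mp, (addC R l p).ev ρ = p.ev ρ := by
  induction l with
  | nil => intro p; rfl
  | cons a l ih =>
    intro p
    obtain ⟨k, i, s, ms⟩ := a
    simp only [addC, ih, ev_addP h, evP_rel h ρ R hR, mulRe_zero, smul_zero, add_zero]

/-- soundness of the checker -/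
theorem chk_sound (h : Eng B) (ρ : ℕ → B) (R : ℕ → List Tm → Pl)
    (hR : ∀ i s, evP ρ (R i s) = 0) (k : ℤ) (tgt : Pl) (l : List Stp)
    (hc : chk R k tgt l = true) : k • evP ρ tgt = 0 := by
  have h1 := Mp.ev_isZ ρ _ hc
  rw [ev_addC h ρ R hR, ev_addP h] at h1
  simpa [Mp.ev, mulRe] using h1

/-- assignment of the variables by a list -/
def lk : List B → ℕ → B
  | [], _ => 0
  | a :: _, 0 => a
  | _ :: l, n + 1 => lk l n

theorem strip (h : Eng B) (h2 : ∀ x : B, x + x = 0 → x = 0) (a b : ℕ) (x : B)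
    (e : ((2 : ℤ) ^ a * 3 ^ b) • x = 0) : x = 0 := by
  induction a with
  | zero =>
    induction b with
    | zero => simpa using e
    | succ b ih =>
      apply ih
      apply h.tor
      rw [← e, pow_succ]
      module
  | succ a ih =>
    apply ih
    apply h2
    rw [← e, pow_succ]
    module

end

end Pool.Agent.TH36.E3
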