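import Pool.Agent.TH36.E3.Refl

set_option autoImplicit false
set_option linter.all false

/-! From weak sandwiches to strong ones. -/

namespace Pool.Agent.TH36.E3

open Pool.Agent.H461R3.E3

universe u
def R_ws1 : ℕ → List Tm → Pl
  | 0, [u0] => [(1, (.m (.m u0 (.v 0)) (.v 0)))]
  | _, _ => []

theorem R_ws1_ok {B : Type u} [NonUnitalNonAssocRing B] (h : Eng B) (h2 : ∀ x : B, x + x = 0 → x = 0) {c : B} (hw : ∀ u : B, (u * c) * c = 0) (u v : B) : ∀ i s, evP (lk [c, u, v]) (R_ws1 i s) = 0 := by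
  intro i s
  unfold R_ws1
  split
  next u0 =>
    have e := hw (u0.ev (lk [c, u, v]))
    simp only [evP, Tm.ev, lk] at e ⊢
    linear_combination (norm := module) e
  next => rfl

def C_ws1 : List Stp :=
  [
   ⟨-1, 0, [(.v 1), (.v 0), (.v 0), (.v 2)], []⟩,
   ⟨2, 1, [(.v 1)], [(.v 2)]⟩,
   ⟨2, 1, [(.m (.v 1) (.v 2))], []⟩]

def T_ws1 : Pl := [(1, (.m (.m (.m (.v 1) (.v 0)) (.v 2)) (.v 0)))]

theorem ws1 {B : Type u} [NonUnitalNonAssocRing B] (h : Eng B) (h2 : ∀ x : B, x + x = 0 → x = 0) {c : B} (hw : ∀ u : B, (u * c) * c = 0) (u v : B) :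
    ((u * c) * v) * c = 0 := by
  have e := chk_sound h (lk [c, u, v]) R_ws1 (R_ws1_ok h h2 hw u v) (2 ^ 1 * 3 ^ 0) T_ws1 C_ws1 (by decide +kernel)
  have e := strip h h2 1 0 _ e
  simp only [T_ws1, evP, Tm.ev, lk] at e
  linear_combination (norm := module) e

def R_ws3 : ℕ → List Tm → Pl
  | 0, [u0, u1] => [(1, (.m (.m (.m u0 (.v 0)) u1) (.v 0)))]
  | 1, [u0] => [(1, (.m (.m u0 (.v 0)) (.v 0)))]
  | _, _ => []

theorem R_ws3_ok {B : Type u} [NonUnitalNonAssocRing B] (h : Eng B) (h2 : ∀ x : B, x + x = 0 → x = 0) {c : B} (hw : ∀ u : B, (u * c) * c = 0) (u a b : B) : ∀ i s, evP (lk [c, u, a, b]) (R_ws3 i s) = 0 := by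
  intro i s
  unfold R_ws3
  split
  next u0 u1 =>
    have e := ws1 h h2 hw (u0.ev (lk [c, u, a, b])) (u1.ev (lk [c, u, a, b]))
    simp only [evP, Tm.ev, lk] at e ⊢
    linear_combination (norm := module) e
  next u0 =>
    have e := hw (u0.ev (lk [c, u, a, b]))
    simp only [evP, Tm.ev, lk] at e ⊢
    linear_combination (norm := module) e
  next => rfl

def C_ws3 : List Stp :=
  [
   ⟨-1, 0, [(.m (.v 1) (.v 0)), (.v 2), (.v 3), (.v 0)], []⟩,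
   ⟨1, 1, [(.v 1), (.v 2)], [(.v 3)]⟩,
   ⟨1, 1, [(.v 1), (.v 3)], [(.v 2)]⟩,
   ⟨1, 2, [(.v 1)], [(.v 2), (.v 3)]⟩,
   ⟨1, 2, [(.v 1)], [(.v 3), (.v 2)]⟩]

def T_ws3 : Pl := [(1, (.m (.m (.m (.m (.v 1) (.v 0)) (.v 2)) (.v 3)) (.v 0))), (1, (.m (.m (.m (.m (.v 1) (.v 0)) (.v 3)) (.v 2)) (.v 0)))]

theorem ws3 {B : Type u} [NonUnitalNonAssocRing B] (h : Eng B) (h2 : ∀ x : B, x + x = 0 → x = 0) {c : B} (hw : ∀ u : B, (u * c) * c = 0) (u a b : B) :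
    ((((u * c) * a) * b) * c) + ((((u * c) * b) * a) * c) = 0 := by
  have e := chk_sound h (lk [c, u, a, b]) R_ws3 (R_ws3_ok h h2 hw u a b) (2 ^ 0 * 3 ^ 0) T_ws3 C_ws3 (by decide +kernel)
  have e := strip h h2 0 0 _ e
  simp only [T_ws3, evP, Tm.ev, lk] at e
  linear_combination (norm := module) e

def R_ws4 : ℕ → List Tm → Pl
  | 0, [u0, u1] => [(1, (.m (.m (.m u0 (.v 0)) u1) (.v 0)))]
  | _, _ => []

theorem R_ws4_ok {B : Type u} [NonUnitalNonAssocRing B] (h : Eng B) (h2 : ∀ x : B, x + x = 0 → x = 0) {c : B} (hw : ∀ u : B, (u * c) * c = 0) (w u v : B) : ∀ i s, evP (lk [c, w, u, v]) (R_ws4 i s) = 0 := by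
  intro i s
  unfold R_ws4
  split
  next u0 u1 =>
    have e := ws1 h h2 hw (u0.ev (lk [c, w, u, v])) (u1.ev (lk [c, w, u, v]))
    simp only [evP, Tm.ev, lk] at e ⊢
    linear_combination (norm := module) e
  next => rfl

def C_ws4 : List Stp :=
  [
   ⟨1, 0, [(.v 2), (.v 0), (.v 3), (.m (.v 1) (.v 0))], []⟩,
   ⟨1, 1, [(.v 1), (.m (.v 2) (.v 3))], []⟩,
   ⟨1, 1, [(.v 1), (.v 2)], [(.v 3)]⟩]

def T_ws4 : Pl := [(1, (.m (.m (.v 1) (.v 0)) (.m (.m (.v 2) (.v 0)) (.v 3)))), (1, (.m (.m (.v 1) (.v 0)) (.m (.m (.v 2) (.v 3)) (.v 0)))), (1, (.m (.m (.m (.m (.v 1) (.v 0)) (.v 2)) (.v 3)) (.v 0))), (1, (.m (.m (.m (.v 1) (.v 0)) (.m (.v 2) (.v 0))) (.v 3)))]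

theorem ws4 {B : Type u} [NonUnitalNonAssocRing B] (h : Eng B) (h2 : ∀ x : B, x + x = 0 → x = 0) {c : B} (hw : ∀ u : B, (u * c) * c = 0) (w u v : B) :
    ((w * c) * ((u * c) * v)) + ((w * c) * ((u * v) * c)) + ((((w * c) * u) * v) * c) + (((w * c) * (u * c)) * v) = 0 := by
  have e := chk_sound h (lk [c, w, u, v]) R_ws4 (R_ws4_ok h h2 hw w u v) (2 ^ 0 * 3 ^ 0) T_ws4 C_ws4 (by decide +kernel)
  have e := strip h h2 0 0 _ e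
  simp only [T_ws4, evP, Tm.ev, lk] at e
  linear_combination (norm := module) e

def R_ws5 : ℕ → List Tm → Pl
  | 0, [u0, u1, u2] => [(1, (.m (.m (.m (.m u0 (.v 0)) u1) u2) (.v 0))), (1, (.m (.m (.m (.m u0 (.v 0)) u2) u1) (.v 0)))]
  | 1, [u0, u1] => [(1, (.m (.m (.m u0 (.v 0)) u1) (.v 0)))]
  | _, _ => []

theorem R_ws5_ok {B : Type u} [NonUnitalNonAssocRing B] (h : Eng B) (h2 : ∀ x : B, x + x = 0 → x = 0) {c : B} (hw : ∀ u : B, (u * c) * c = 0) (w u v : B) : ∀ i s, evP (lk [c, w, u, v]) (R_ws5 i s) = 0 := by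
  intro i s
  unfold R_ws5
  split
  next u0 u1 u2 =>
    have e := ws3 h h2 hw (u0.ev (lk [c, w, u, v])) (u1.ev (lk [c, w, u, v])) (u2.ev (lk [c, w, u, v]))
    simp only [evP, Tm.ev, lk] at e ⊢
    linear_combination (norm := module) e
  next u0 u1 =>
    have e := ws1 h h2 hw (u0.ev (lk [c, w, u, v])) (u1.ev (lk [c, w, u, v]))
    simp only [evP, Tm.ev, lk] at e ⊢
    linear_combination (norm := module) e
  next => rfl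

def C_ws5 : List Stp :=
  [
   ⟨-1, 1, [(.v 2), (.m (.v 0) (.v 1)), (.v 3)], []⟩,
   ⟨1, 2, [(.v 1), (.m (.v 3) (.m (.v 0) (.v 2)))], []⟩]

def T_ws5 : Pl := [(1, (.m (.m (.m (.m (.v 1) (.v 0)) (.m (.v 2) (.v 0))) (.v 3)) (.v 0)))]

theorem ws5 {B : Type u} [NonUnitalNonAssocRing B] (h : Eng B) (h2 : ∀ x : B, x + x = 0 → x = 0) {c : B} (hw : ∀ u : B, (u * c) * c = 0) (w u v : B) :
    (((w * c) * (u * c)) * v) * c = 0 := by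
  have e := chk_sound h (lk [c, w, u, v]) R_ws5 (R_ws5_ok h h2 hw w u v) (2 ^ 0 * 3 ^ 0) T_ws5 C_ws5 (by decide +kernel)
  have e := strip h h2 0 0 _ e
  simp only [T_ws5, evP, Tm.ev, lk] at e
  linear_combination (norm := module) e

def R_ws6 : ℕ → List Tm → Pl
  | 0, [u0, u1, u2] => [(1, (.m (.m u0 (.v 0)) (.m (.m u1 (.v 0)) u2))), (1, (.m (.m u0 (.v 0)) (.m (.m u1 u2) (.v 0)))), (1, (.m (.m (.m (.m u0 (.v 0)) u1) u2) (.v 0))), (1, (.m (.m (.m u0 (.v 0)) (.m u1 (.v 0))) u2))]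
  | _, _ => []

theorem R_ws6_ok {B : Type u} [NonUnitalNonAssocRing B] (h : Eng B) (h2 : ∀ x : B, x + x = 0 → x = 0) {c : B} (hw : ∀ u : B, (u * c) * c = 0) (w u z : B) : ∀ i s, evP (lk [c, w, u, z]) (R_ws6 i s) = 0 := by
  intro i s
  unfold R_ws6
  split
  next u0 u1 u2 =>
    have e := ws4 h h2 hw (u0.ev (lk [c, w, u, z])) (u1.ev (lk [c, w, u, z])) (u2.ev (lk [c, w, u, z]))
    simp only [evP, Tm.ev, lk] at e ⊢
    linear_combination (norm := module) e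
  next => rfl

def C_ws6 : List Stp :=
  [
   ⟨-1, 0, [(.v 2), (.v 0), (.m (.v 0) (.v 3)), (.m (.v 0) (.v 1))], []⟩,
   ⟨1, 1, [(.v 1), (.v 2), (.m (.v 0) (.v 3))], []⟩,
   ⟨1, 1, [(.v 3), (.v 2), (.m (.v 0) (.v 1))], []⟩]

def T_ws6 : Pl := [(1, (.m (.m (.v 1) (.v 0)) (.m (.m (.v 2) (.v 0)) (.m (.v 3) (.v 0))))), (-1, (.m (.m (.v 3) (.v 0)) (.m (.m (.v 1) (.v 0)) (.m (.v 2) (.v 0)))))]

theorem ws6 {B : Type u} [NonUnitalNonAssocRing B] (h : Eng B) (h2 : ∀ x : B, x + x = 0 → x = 0) {c : B} (hw : ∀ u : B, (u * c) * c = 0) (w u z : B) :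
    ((w * c) * ((u * c) * (z * c))) - ((z * c) * ((w * c) * (u * c))) = 0 := by
  have e := chk_sound h (lk [c, w, u, z]) R_ws6 (R_ws6_ok h h2 hw w u z) (2 ^ 0 * 3 ^ 0) T_ws6 C_ws6 (by decide +kernel)
  have e := strip h h2 0 0 _ e
  simp only [T_ws6, evP, Tm.ev, lk] at e
  linear_combination (norm := module) e

def R_ws7 : ℕ → List Tm → Pl
  | 0, [u0, u1, u2] => [(1, (.m (.m u0 (.v 0)) (.m (.m u1 (.v 0)) u2))), (1, (.m (.m u0 (.v 0)) (.m (.m u1 u2) (.v 0)))), (1, (.m (.m (.m (.m u0 (.v 0)) u1) u2) (.v 0))), (1, (.m (.m (.m u0 (.v 0)) (.m u1 (.v 0))) u2))]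
  | 1, [u0, u1, u2] => [(1, (.m (.m (.m (.m u0 (.v 0)) (.m u1 (.v 0))) u2) (.v 0)))]
  | _, _ => []

theorem R_ws7_ok {B : Type u} [NonUnitalNonAssocRing B] (h : Eng B) (h2 : ∀ x : B, x + x = 0 → x = 0) {c : B} (hw : ∀ u : B, (u * c) * c = 0) (w u y z : B) : ∀ i s, evP (lk [c, w, u, y, z]) (R_ws7 i s) = 0 := by
  intro i s
  unfold R_ws7
  split
  next u0 u1 u2 =>
    have e := ws4 h h2 hw (u0.ev (lk [c, w, u, y, z])) (u1.ev (lk [c, w, u, y, z])) (u2.ev (lk [c, w, u, y, z]))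
    simp only [evP, Tm.ev, lk] at e ⊢
    linear_combination (norm := module) e
  next u0 u1 u2 =>
    have e := ws5 h h2 hw (u0.ev (lk [c, w, u, y, z])) (u1.ev (lk [c, w, u, y, z])) (u2.ev (lk [c, w, u, y, z]))
    simp only [evP, Tm.ev, lk] at e ⊢
    linear_combination (norm := module) e
  next => rfl

def C_ws7 : List Stp :=
  [
   ⟨-1, 1, [(.v 1), (.v 2), (.m (.m (.v 3) (.v 0)) (.m (.v 4) (.v 0)))], []⟩,
   ⟨-1, 2, [(.v 3), (.v 4), (.v 2)], [(.m (.v 0) (.v 1))]⟩,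
   ⟨-1, 2, [(.v 3), (.v 4), (.m (.v 2) (.m (.v 0) (.v 1)))], []⟩]

def T_ws7 : Pl := [(1, (.m (.m (.v 1) (.v 0)) (.m (.m (.v 2) (.v 0)) (.m (.m (.v 3) (.v 0)) (.m (.v 4) (.v 0)))))), (1, (.m (.m (.m (.v 1) (.v 0)) (.m (.v 2) (.v 0))) (.m (.m (.v 3) (.v 0)) (.m (.v 4) (.v 0)))))]

theorem ws7 {B : Type u} [NonUnitalNonAssocRing B] (h : Eng B) (h2 : ∀ x : B, x + x = 0 → x = 0) {c : B} (hw : ∀ u : B, (u * c) * c = 0) (w u y z : B) :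
    ((w * c) * ((u * c) * ((y * c) * (z * c)))) + (((w * c) * (u * c)) * ((y * c) * (z * c))) = 0 := by
  have e := chk_sound h (lk [c, w, u, y, z]) R_ws7 (R_ws7_ok h h2 hw w u y z) (2 ^ 0 * 3 ^ 0) T_ws7 C_ws7 (by decide +kernel)
  have e := strip h h2 0 0 _ e
  simp only [T_ws7, evP, Tm.ev, lk] at e
  linear_combination (norm := module) e

def R_ws8 : ℕ → List Tm → Pl
  | 0, [u0, u1, u2, u3] => [(1, (.m (.m u0 (.v 0)) (.m (.m u1 (.v 0)) (.m (.m u2 (.v 0)) (.m u3 (.v 0)))))), (1, (.m (.m (.m u0 (.v 0)) (.m u1 (.v 0))) (.m (.m u2 (.v 0)) (.m u3 (.v 0)))))]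
  | 1, [u0, u1, u2] => [(1, (.m (.m u0 (.v 0)) (.m (.m u1 (.v 0)) (.m u2 (.v 0))))), (-1, (.m (.m u2 (.v 0)) (.m (.m u0 (.v 0)) (.m u1 (.v 0)))))]
  | _, _ => []

theorem R_ws8_ok {B : Type u} [NonUnitalNonAssocRing B] (h : Eng B) (h2 : ∀ x : B, x + x = 0 → x = 0) {c : B} (hw : ∀ u : B, (u * c) * c = 0) (w u y z : B) : ∀ i s, evP (lk [c, w, u, y, z]) (R_ws8 i s) = 0 := by
  intro i s
  unfold R_ws8
  split
  next u0 u1 u2 u3 =>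
    have e := ws7 h h2 hw (u0.ev (lk [c, w, u, y, z])) (u1.ev (lk [c, w, u, y, z])) (u2.ev (lk [c, w, u, y, z])) (u3.ev (lk [c, w, u, y, z]))
    simp only [evP, Tm.ev, lk] at e ⊢
    linear_combination (norm := module) e
  next u0 u1 u2 =>
    have e := ws6 h h2 hw (u0.ev (lk [c, w, u, y, z])) (u1.ev (lk [c, w, u, y, z])) (u2.ev (lk [c, w, u, y, z]))
    simp only [evP, Tm.ev, lk] at e ⊢
    linear_combination (norm := module) e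
  next => rfl

def C_ws8 : List Stp :=
  [
   ⟨-1, 1, [(.v 1), (.v 2), (.v 3), (.v 4)], []⟩,
   ⟨1, 1, [(.v 1), (.v 3), (.v 4), (.v 2)], []⟩,
   ⟨-1, 1, [(.v 2), (.v 4), (.v 1), (.v 3)], []⟩,
   ⟨1, 1, [(.v 2), (.v 1), (.v 3), (.v 4)], []⟩,
   ⟨-1, 2, [(.v 2), (.v 4), (.v 3)], [(.m (.v 0) (.v 1))]⟩,
   ⟨-1, 2, [(.v 4), (.v 3), (.v 1)], [(.m (.v 0) (.v 2))]⟩]

def T_ws8 : Pl := [(1, (.m (.m (.m (.v 1) (.v 0)) (.m (.v 2) (.v 0))) (.m (.m (.v 3) (.v 0)) (.m (.v 4) (.v 0)))))]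

theorem ws8 {B : Type u} [NonUnitalNonAssocRing B] (h : Eng B) (h2 : ∀ x : B, x + x = 0 → x = 0) {c : B} (hw : ∀ u : B, (u * c) * c = 0) (w u y z : B) :
    ((w * c) * (u * c)) * ((y * c) * (z * c)) = 0 := by
  have e := chk_sound h (lk [c, w, u, y, z]) R_ws8 (R_ws8_ok h h2 hw w u y z) (2 ^ 1 * 3 ^ 0) T_ws8 C_ws8 (by decide +kernel)
  have e := strip h h2 1 0 _ e
  simp only [T_ws8, evP, Tm.ev, lk] at e
  linear_combination (norm := module) e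

def R_ws9 : ℕ → List Tm → Pl
  | 0, [u0, u1, u2, u3] => [(1, (.m (.m u0 (.v 0)) (.m (.m u1 (.v 0)) (.m (.m u2 (.v 0)) (.m u3 (.v 0)))))), (1, (.m (.m (.m u0 (.v 0)) (.m u1 (.v 0))) (.m (.m u2 (.v 0)) (.m u3 (.v 0)))))]
  | 1, [u0, u1, u2, u3] => [(1, (.m (.m (.m u0 (.v 0)) (.m u1 (.v 0))) (.m (.m u2 (.v 0)) (.m u3 (.v 0)))))]
  | _, _ => []

theorem R_ws9_ok {B : Type u} [NonUnitalNonAssocRing B] (h : Eng B) (h2 : ∀ x : B, x + x = 0 → x = 0) {c : B} (hw : ∀ u : B, (u * c) * c = 0) (w u y z : B) : ∀ i s, evP (lk [c, w, u, y, z]) (R_ws9 i s) = 0 := by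
  intro i s
  unfold R_ws9
  split
  next u0 u1 u2 u3 =>
    have e := ws7 h h2 hw (u0.ev (lk [c, w, u, y, z])) (u1.ev (lk [c, w, u, y, z])) (u2.ev (lk [c, w, u, y, z])) (u3.ev (lk [c, w, u, y, z]))
    simp only [evP, Tm.ev, lk] at e ⊢
    linear_combination (norm := module) e
  next u0 u1 u2 u3 =>
    have e := ws8 h h2 hw (u0.ev (lk [c, w, u, y, z])) (u1.ev (lk [c, w, u, y, z])) (u2.ev (lk [c, w, u, y, z])) (u3.ev (lk [c, w, u, y, z]))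
    simp only [evP, Tm.ev, lk] at e ⊢
    linear_combination (norm := module) e
  next => rfl

def C_ws9 : List Stp :=
  [
   ⟨-1, 1, [(.v 1), (.v 2), (.v 3), (.v 4)], []⟩,
   ⟨1, 2, [(.v 1), (.v 2), (.v 3), (.v 4)], []⟩]

def T_ws9 : Pl := [(1, (.m (.m (.v 1) (.v 0)) (.m (.m (.v 2) (.v 0)) (.m (.m (.v 3) (.v 0)) (.m (.v 4) (.v 0))))))]

theorem ws9 {B : Type u} [NonUnitalNonAssocRing B] (h : Eng B) (h2 : ∀ x : B, x + x = 0 → x = 0) {c : B} (hw : ∀ u : B, (u * c) * c = 0) (w u y z : B) :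
    (w * c) * ((u * c) * ((y * c) * (z * c))) = 0 := by
  have e := chk_sound h (lk [c, w, u, y, z]) R_ws9 (R_ws9_ok h h2 hw w u y z) (2 ^ 0 * 3 ^ 0) T_ws9 C_ws9 (by decide +kernel)
  have e := strip h h2 0 0 _ e
  simp only [T_ws9, evP, Tm.ev, lk] at e
  linear_combination (norm := module) e

def R_ws10 : ℕ → List Tm → Pl
  | 0, [u0, u1, u2] => [(1, (.m (.m (.m (.m u0 (.v 0)) u1) u2) (.v 0))), (1, (.m (.m (.m (.m u0 (.v 0)) u2) u1) (.v 0)))]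
  | 1, [u0, u1, u2] => [(1, (.m (.m (.m (.m u0 (.v 0)) (.m u1 (.v 0))) u2) (.v 0)))]
  | _, _ => []

theorem R_ws10_ok {B : Type u} [NonUnitalNonAssocRing B] (h : Eng B) (h2 : ∀ x : B, x + x = 0 → x = 0) {c : B} (hw : ∀ u : B, (u * c) * c = 0) (u y z t : B) : ∀ i s, evP (lk [c, u, y, z, t]) (R_ws10 i s) = 0 := by
  intro i s
  unfold R_ws10
  split
  next u0 u1 u2 =>
    have e := ws3 h h2 hw (u0.ev (lk [c, u, y, z, t])) (u1.ev (lk [c, u, y, z, t])) (u2.ev (lk [c, u, y, z, t]))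
    simp only [evP, Tm.ev, lk] at e ⊢
    linear_combination (norm := module) e
  next u0 u1 u2 =>
    have e := ws5 h h2 hw (u0.ev (lk [c, u, y, z, t])) (u1.ev (lk [c, u, y, z, t])) (u2.ev (lk [c, u, y, z, t]))
    simp only [evP, Tm.ev, lk] at e ⊢
    linear_combination (norm := module) e
  next => rfl

def C_ws10 : List Stp :=
  [
   ⟨-1, 1, [(.v 1), (.m (.m (.v 2) (.v 0)) (.m (.v 3) (.v 0))), (.v 4)], []⟩,
   ⟨-1, 2, [(.v 2), (.v 3), (.m (.v 4) (.m (.v 0) (.v 1)))], []⟩]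

def T_ws10 : Pl := [(1, (.m (.m (.m (.m (.v 1) (.v 0)) (.m (.m (.v 2) (.v 0)) (.m (.v 3) (.v 0)))) (.v 4)) (.v 0)))]

theorem ws10 {B : Type u} [NonUnitalNonAssocRing B] (h : Eng B) (h2 : ∀ x : B, x + x = 0 → x = 0) {c : B} (hw : ∀ u : B, (u * c) * c = 0) (u y z t : B) :
    (((u * c) * ((y * c) * (z * c))) * t) * c = 0 := by
  have e := chk_sound h (lk [c, u, y, z, t]) R_ws10 (R_ws10_ok h h2 hw u y z t) (2 ^ 0 * 3 ^ 0) T_ws10 C_ws10 (by decide +kernel)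
  have e := strip h h2 0 0 _ e
  simp only [T_ws10, evP, Tm.ev, lk] at e
  linear_combination (norm := module) e

def R_ws11a : ℕ → List Tm → Pl
  | 0, [u0, u1, u2] => [(1, (.m (.m (.m (.m u0 (.v 0)) (.m u1 (.v 0))) u2) (.v 0)))]
  | 1, [u0, u1] => [(1, (.m (.m (.m u0 (.v 0)) u1) (.v 0)))]
  | _, _ => []

theorem R_ws11a_ok {B : Type u} [NonUnitalNonAssocRing B] (h : Eng B) (h2 : ∀ x : B, x + x = 0 → x = 0) {c : B} (hw : ∀ u : B, (u * c) * c = 0) (p q x y : B) : ∀ i s, evP (lk [c, p, q, x, y]) (R_ws11a i s) = 0 := by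
  intro i s
  unfold R_ws11a
  split
  next u0 u1 u2 =>
    have e := ws5 h h2 hw (u0.ev (lk [c, p, q, x, y])) (u1.ev (lk [c, p, q, x, y])) (u2.ev (lk [c, p, q, x, y]))
    simp only [evP, Tm.ev, lk] at e ⊢
    linear_combination (norm := module) e
  next u0 u1 =>
    have e := ws1 h h2 hw (u0.ev (lk [c, p, q, x, y])) (u1.ev (lk [c, p, q, x, y]))
    simp only [evP, Tm.ev, lk] at e ⊢
    linear_combination (norm := module) e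
  next => rfl

def C_ws11a : List Stp :=
  [
   ⟨-1, 0, [(.m (.m (.v 1) (.v 0)) (.m (.v 2) (.v 0))), (.v 3), (.v 4), (.v 0)], []⟩,
   ⟨1, 1, [(.v 1), (.v 2), (.v 3)], [(.v 4)]⟩,
   ⟨1, 1, [(.v 1), (.v 2), (.v 4)], [(.v 3)]⟩,
   ⟨-1, 2, [(.v 1), (.m (.v 0) (.v 2))], [(.v 3), (.v 4)]⟩,
   ⟨-1, 2, [(.v 1), (.m (.v 0) (.v 2))], [(.v 4), (.v 3)]⟩]

def T_ws11a : Pl := [(1, (.m (.m (.m (.m (.m (.v 1) (.v 0)) (.m (.v 2) (.v 0))) (.v 3)) (.v 4)) (.v 0))), (1, (.m (.m (.m (.m (.m (.v 1) (.v 0)) (.m (.v 2) (.v 0))) (.v 4)) (.v 3)) (.v 0)))]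

theorem ws11a {B : Type u} [NonUnitalNonAssocRing B] (h : Eng B) (h2 : ∀ x : B, x + x = 0 → x = 0) {c : B} (hw : ∀ u : B, (u * c) * c = 0) (p q x y : B) :
    (((((p * c) * (q * c)) * x) * y) * c) + (((((p * c) * (q * c)) * y) * x) * c) = 0 := by
  have e := chk_sound h (lk [c, p, q, x, y]) R_ws11a (R_ws11a_ok h h2 hw p q x y) (2 ^ 0 * 3 ^ 0) T_ws11a C_ws11a (by decide +kernel)
  have e := strip h h2 0 0 _ e
  simp only [T_ws11a, evP, Tm.ev, lk] at e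
  linear_combination (norm := module) e

def R_ws11 : ℕ → List Tm → Pl
  | 0, [u0, u1, u2, u3] => [(1, (.m (.m (.m (.m (.m u0 (.v 0)) (.m u1 (.v 0))) u2) u3) (.v 0))), (1, (.m (.m (.m (.m (.m u0 (.v 0)) (.m u1 (.v 0))) u3) u2) (.v 0)))]
  | 1, [u0, u1, u2] => [(1, (.m (.m (.m (.m u0 (.v 0)) u1) u2) (.v 0))), (1, (.m (.m (.m (.m u0 (.v 0)) u2) u1) (.v 0)))]
  | 2, [u0, u1, u2] => [(1, (.m (.m u0 (.v 0)) (.m (.m u1 (.v 0)) u2))), (1, (.m (.m u0 (.v 0)) (.m (.m u1 u2) (.v 0)))), (1, (.m (.m (.m (.m u0 (.v 0)) u1) u2) (.v 0))), (1, (.m (.m (.m u0 (.v 0)) (.m u1 (.v 0))) u2))]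
  | 3, [u0, u1] => [(1, (.m (.m (.m u0 (.v 0)) u1) (.v 0)))]
  | 4, [u0, u1, u2] => [(1, (.m (.m (.m (.m u0 (.v 0)) (.m u1 (.v 0))) u2) (.v 0)))]
  | _, _ => []

theorem R_ws11_ok {B : Type u} [NonUnitalNonAssocRing B] (h : Eng B) (h2 : ∀ x : B, x + x = 0 → x = 0) {c : B} (hw : ∀ u : B, (u * c) * c = 0) (p q x y : B) : ∀ i s, evP (lk [c, p, q, x, y]) (R_ws11 i s) = 0 := by
  intro i s
  unfold R_ws11
  split
  next u0 u1 u2 u3 =>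
    have e := ws11a h h2 hw (u0.ev (lk [c, p, q, x, y])) (u1.ev (lk [c, p, q, x, y])) (u2.ev (lk [c, p, q, x, y])) (u3.ev (lk [c, p, q, x, y]))
    simp only [evP, Tm.ev, lk] at e ⊢
    linear_combination (norm := module) e
  next u0 u1 u2 =>
    have e := ws3 h h2 hw (u0.ev (lk [c, p, q, x, y])) (u1.ev (lk [c, p, q, x, y])) (u2.ev (lk [c, p, q, x, y]))
    simp only [evP, Tm.ev, lk] at e ⊢
    linear_combination (norm := module) e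
  next u0 u1 u2 =>
    have e := ws4 h h2 hw (u0.ev (lk [c, p, q, x, y])) (u1.ev (lk [c, p, q, x, y])) (u2.ev (lk [c, p, q, x, y]))
    simp only [evP, Tm.ev, lk] at e ⊢
    linear_combination (norm := module) e
  next u0 u1 =>
    have e := ws1 h h2 hw (u0.ev (lk [c, p, q, x, y])) (u1.ev (lk [c, p, q, x, y]))
    simp only [evP, Tm.ev, lk] at e ⊢
    linear_combination (norm := module) e
  next u0 u1 u2 =>
    have e := ws5 h h2 hw (u0.ev (lk [c, p, q, x, y])) (u1.ev (lk [c, p, q, x, y])) (u2.ev (lk [c, p, q, x, y]))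
    simp only [evP, Tm.ev, lk] at e ⊢
    linear_combination (norm := module) e
  next => rfl

def C_ws11 : List Stp :=
  [
   ⟨-1, 1, [(.v 1), (.v 2), (.v 3), (.v 4)], []⟩,
   ⟨1, 2, [(.v 2), (.v 3), (.m (.m (.v 1) (.v 0)) (.v 4))], []⟩,
   ⟨-1, 3, [(.v 1), (.v 2), (.v 3)], [(.v 4), (.v 0)]⟩,
   ⟨1, 2, [(.v 1), (.m (.v 3) (.m (.v 0) (.v 2))), (.v 4)], []⟩,
   ⟨-1, 3, [(.v 2), (.v 1), (.v 4)], [(.v 3), (.v 0)]⟩,
   ⟨-1, 4, [(.m (.v 3) (.m (.v 2) (.m (.v 0) (.v 1)))), (.v 4)], []⟩,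
   ⟨1, 5, [(.v 1), (.m (.v 2) (.v 3)), (.v 4)], []⟩,
   ⟨-1, 4, [(.m (.v 4) (.m (.v 1) (.m (.v 0) (.v 2)))), (.v 3)], []⟩,
   ⟨1, 5, [(.v 2), (.m (.v 1) (.v 4)), (.v 3)], []⟩]

def T_ws11 : Pl := [(1, (.m (.m (.m (.m (.m (.v 1) (.v 0)) (.m (.v 2) (.v 0))) (.v 3)) (.v 4)) (.v 0)))]

theorem ws11 {B : Type u} [NonUnitalNonAssocRing B] (h : Eng B) (h2 : ∀ x : B, x + x = 0 → x = 0) {c : B} (hw : ∀ u : B, (u * c) * c = 0) (p q x y : B) :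
    ((((p * c) * (q * c)) * x) * y) * c = 0 := by
  have e := chk_sound h (lk [c, p, q, x, y]) R_ws11 (R_ws11_ok h h2 hw p q x y) (2 ^ 1 * 3 ^ 0) T_ws11 C_ws11 (by decide +kernel)
  have e := strip h h2 1 0 _ e
  simp only [T_ws11, evP, Tm.ev, lk] at e
  linear_combination (norm := module) e

def R_ws13 : ℕ → List Tm → Pl
  | 0, [u0, u1, u2, u3] => [(1, (.m (.m (.m (.m (.m u0 (.v 0)) (.m u1 (.v 0))) u2) u3) (.v 0)))]
  | 1, [u0, u1, u2] => [(1, (.m (.m (.m (.m u0 (.v 0)) (.m u1 (.v 0))) u2) (.v 0)))]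
  | _, _ => []

theorem R_ws13_ok {B : Type u} [NonUnitalNonAssocRing B] (h : Eng B) (h2 : ∀ x : B, x + x = 0 → x = 0) {c : B} (hw : ∀ u : B, (u * c) * c = 0) (u t y z : B) : ∀ i s, evP (lk [c, u, t, y, z]) (R_ws13 i s) = 0 := by
  intro i s
  unfold R_ws13
  split
  next u0 u1 u2 u3 =>
    have e := ws11 h h2 hw (u0.ev (lk [c, u, t, y, z])) (u1.ev (lk [c, u, t, y, z])) (u2.ev (lk [c, u, t, y, z])) (u3.ev (lk [c, u, t, y, z]))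
    simp only [evP, Tm.ev, lk] at e ⊢
    linear_combination (norm := module) e
  next u0 u1 u2 =>
    have e := ws5 h h2 hw (u0.ev (lk [c, u, t, y, z])) (u1.ev (lk [c, u, t, y, z])) (u2.ev (lk [c, u, t, y, z]))
    simp only [evP, Tm.ev, lk] at e ⊢
    linear_combination (norm := module) e
  next => rfl

def C_ws13 : List Stp :=
  [
   ⟨-1, 0, [(.v 1), (.v 0), (.v 2), (.m (.m (.v 3) (.v 0)) (.m (.v 4) (.v 0)))], []⟩,
   ⟨-1, 1, [(.v 3), (.v 4), (.v 1), (.v 2)], []⟩,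
   ⟨1, 2, [(.v 3), (.v 4), (.m (.v 2) (.v 1))], []⟩,
   ⟨-1, 2, [(.v 3), (.v 4), (.v 1)], [(.v 2)]⟩]

def T_ws13 : Pl := [(1, (.m (.m (.m (.v 1) (.v 0)) (.v 2)) (.m (.m (.v 3) (.v 0)) (.m (.v 4) (.v 0))))), (1, (.m (.m (.m (.v 1) (.v 0)) (.m (.m (.v 3) (.v 0)) (.m (.v 4) (.v 0)))) (.v 2))), (1, (.m (.m (.m (.v 1) (.v 2)) (.v 0)) (.m (.m (.v 3) (.v 0)) (.m (.v 4) (.v 0)))))]

theorem ws13 {B : Type u} [NonUnitalNonAssocRing B] (h : Eng B) (h2 : ∀ x : B, x + x = 0 → x = 0) {c : B} (hw : ∀ u : B, (u * c) * c = 0) (u t y z : B) :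
    (((u * c) * t) * ((y * c) * (z * c))) + (((u * c) * ((y * c) * (z * c))) * t) + (((u * t) * c) * ((y * c) * (z * c))) = 0 := by
  have e := chk_sound h (lk [c, u, t, y, z]) R_ws13 (R_ws13_ok h h2 hw u t y z) (2 ^ 0 * 3 ^ 0) T_ws13 C_ws13 (by decide +kernel)
  have e := strip h h2 0 0 _ e
  simp only [T_ws13, evP, Tm.ev, lk] at e
  linear_combination (norm := module) e

def R_ws15a : ℕ → List Tm → Pl
  | 0, [u0, u1] => [(1, (.m (.m (.m u0 (.v 0)) u1) (.v 0)))]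
  | _, _ => []

theorem R_ws15a_ok {B : Type u} [NonUnitalNonAssocRing B] (h : Eng B) (h2 : ∀ x : B, x + x = 0 → x = 0) {c : B} (hw : ∀ u : B, (u * c) * c = 0) (u v w z : B) : ∀ i s, evP (lk [c, u, v, w, z]) (R_ws15a i s) = 0 := by
  intro i s
  unfold R_ws15a
  split
  next u0 u1 =>
    have e := ws1 h h2 hw (u0.ev (lk [c, u, v, w, z])) (u1.ev (lk [c, u, v, w, z]))
    simp only [evP, Tm.ev, lk] at e ⊢
    linear_combination (norm := module) e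
  next => rfl

def C_ws15a : List Stp :=
  [
   ⟨-1, 0, [(.m (.m (.v 1) (.v 0)) (.v 2)), (.v 3), (.v 0), (.m (.v 4) (.v 0))], []⟩,
   ⟨1, 1, [(.v 4), (.m (.v 3) (.m (.v 2) (.m (.v 0) (.v 1))))], []⟩,
   ⟨-1, 1, [(.v 1), (.v 2)], [(.v 3), (.m (.v 0) (.v 4))]⟩,
   ⟨-1, 1, [(.v 1), (.v 2)], [(.m (.v 0) (.v 4)), (.v 3)]⟩,
   ⟨-1, 1, [(.v 4), (.m (.v 2) (.m (.v 0) (.v 1)))], [(.v 3)]⟩]

def T_ws15a : Pl := [(1, (.m (.m (.m (.m (.m (.v 1) (.v 0)) (.v 2)) (.v 3)) (.v 0)) (.m (.v 4) (.v 0)))), (1, (.m (.m (.m (.m (.m (.v 1) (.v 0)) (.v 2)) (.m (.v 4) (.v 0))) (.v 3)) (.v 0)))]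

theorem ws15a {B : Type u} [NonUnitalNonAssocRing B] (h : Eng B) (h2 : ∀ x : B, x + x = 0 → x = 0) {c : B} (hw : ∀ u : B, (u * c) * c = 0) (u v w z : B) :
    (((((u * c) * v) * w) * c) * (z * c)) + (((((u * c) * v) * (z * c)) * w) * c) = 0 := by
  have e := chk_sound h (lk [c, u, v, w, z]) R_ws15a (R_ws15a_ok h h2 hw u v w z) (2 ^ 0 * 3 ^ 0) T_ws15a C_ws15a (by decide +kernel)
  have e := strip h h2 0 0 _ e
  simp only [T_ws15a, evP, Tm.ev, lk] at e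
  linear_combination (norm := module) e

def R_ws14a : ℕ → List Tm → Pl
  | 0, [u0, u1, u2, u3] => [(1, (.m (.m (.m (.m (.m u0 (.v 0)) u1) u2) (.v 0)) (.m u3 (.v 0)))), (1, (.m (.m (.m (.m (.m u0 (.v 0)) u1) (.m u3 (.v 0))) u2) (.v 0)))]
  | 1, [u0, u1] => [(1, (.m (.m (.m u0 (.v 0)) u1) (.v 0)))]
  | 2, [u0, u1, u2] => [(1, (.m (.m (.m (.m u0 (.v 0)) u1) u2) (.v 0))), (1, (.m (.m (.m (.m u0 (.v 0)) u2) u1) (.v 0)))]
  | _, _ => []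

theorem R_ws14a_ok {B : Type u} [NonUnitalNonAssocRing B] (h : Eng B) (h2 : ∀ x : B, x + x = 0 → x = 0) {c : B} (hw : ∀ u : B, (u * c) * c = 0) (u v y z : B) : ∀ i s, evP (lk [c, u, v, y, z]) (R_ws14a i s) = 0 := by
  intro i s
  unfold R_ws14a
  split
  next u0 u1 u2 u3 =>
    have e := ws15a h h2 hw (u0.ev (lk [c, u, v, y, z])) (u1.ev (lk [c, u, v, y, z])) (u2.ev (lk [c, u, v, y, z])) (u3.ev (lk [c, u, v, y, z]))
    simp only [evP, Tm.ev, lk] at e ⊢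
    linear_combination (norm := module) e
  next u0 u1 =>
    have e := ws1 h h2 hw (u0.ev (lk [c, u, v, y, z])) (u1.ev (lk [c, u, v, y, z]))
    simp only [evP, Tm.ev, lk] at e ⊢
    linear_combination (norm := module) e
  next u0 u1 u2 =>
    have e := ws3 h h2 hw (u0.ev (lk [c, u, v, y, z])) (u1.ev (lk [c, u, v, y, z])) (u2.ev (lk [c, u, v, y, z]))
    simp only [evP, Tm.ev, lk] at e ⊢
    linear_combination (norm := module) e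
  next => rfl

def C_ws14a : List Stp :=
  [
   ⟨1, 0, [(.v 3), (.v 0), (.m (.v 4) (.v 0)), (.m (.m (.v 1) (.v 0)) (.v 2))], []⟩,
   ⟨1, 1, [(.v 1), (.v 2), (.v 3), (.v 4)], []⟩,
   ⟨1, 2, [(.v 4), (.v 3)], [(.m (.v 2) (.m (.v 0) (.v 1)))]⟩,
   ⟨1, 2, [(.v 4), (.m (.v 3) (.m (.v 2) (.m (.v 0) (.v 1))))], []⟩,
   ⟨1, 3, [(.v 4), (.v 3), (.m (.v 2) (.m (.v 0) (.v 1)))], []⟩]

def T_ws14a : Pl := [(1, (.m (.m (.m (.v 1) (.v 0)) (.v 2)) (.m (.m (.v 3) (.v 0)) (.m (.v 4) (.v 0))))), (1, (.m (.m (.m (.m (.v 1) (.v 0)) (.v 2)) (.m (.v 3) (.v 0))) (.m (.v 4) (.v 0))))]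

theorem ws14a {B : Type u} [NonUnitalNonAssocRing B] (h : Eng B) (h2 : ∀ x : B, x + x = 0 → x = 0) {c : B} (hw : ∀ u : B, (u * c) * c = 0) (u v y z : B) :
    (((u * c) * v) * ((y * c) * (z * c))) + ((((u * c) * v) * (y * c)) * (z * c)) = 0 := by
  have e := chk_sound h (lk [c, u, v, y, z]) R_ws14a (R_ws14a_ok h h2 hw u v y z) (2 ^ 0 * 3 ^ 0) T_ws14a C_ws14a (by decide +kernel)
  have e := strip h h2 0 0 _ e
  simp only [T_ws14a, evP, Tm.ev, lk] at e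
  linear_combination (norm := module) e

def R_ws17 : ℕ → List Tm → Pl
  | 0, [u0, u1, u2, u3] => [(1, (.m (.m (.m (.m (.m u0 (.v 0)) u1) u2) (.v 0)) (.m u3 (.v 0)))), (1, (.m (.m (.m (.m (.m u0 (.v 0)) u1) (.m u3 (.v 0))) u2) (.v 0)))]
  | 1, [u0, u1, u2, u3] => [(1, (.m (.m (.m (.m (.m u0 (.v 0)) (.m u1 (.v 0))) u2) u3) (.v 0)))]
  | 2, [u0, u1, u2] => [(1, (.m (.m (.m (.m u0 (.v 0)) (.m u1 (.v 0))) u2) (.v 0)))]
  | 3, [u0, u1] => [(1, (.m (.m (.m u0 (.v 0)) u1) (.v 0)))]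
  | _, _ => []

theorem R_ws17_ok {B : Type u} [NonUnitalNonAssocRing B] (h : Eng B) (h2 : ∀ x : B, x + x = 0 → x = 0) {c : B} (hw : ∀ u : B, (u * c) * c = 0) (w u v y : B) : ∀ i s, evP (lk [c, w, u, v, y]) (R_ws17 i s) = 0 := by
  intro i s
  unfold R_ws17
  split
  next u0 u1 u2 u3 =>
    have e := ws15a h h2 hw (u0.ev (lk [c, w, u, v, y])) (u1.ev (lk [c, w, u, v, y])) (u2.ev (lk [c, w, u, v, y])) (u3.ev (lk [c, w, u, v, y]))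
    simp only [evP, Tm.ev, lk] at e ⊢
    linear_combination (norm := module) e
  next u0 u1 u2 u3 =>
    have e := ws11 h h2 hw (u0.ev (lk [c, w, u, v, y])) (u1.ev (lk [c, w, u, v, y])) (u2.ev (lk [c, w, u, v, y])) (u3.ev (lk [c, w, u, v, y]))
    simp only [evP, Tm.ev, lk] at e ⊢
    linear_combination (norm := module) e
  next u0 u1 u2 =>
    have e := ws5 h h2 hw (u0.ev (lk [c, w, u, v, y])) (u1.ev (lk [c, w, u, v, y])) (u2.ev (lk [c, w, u, v, y]))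
    simp only [evP, Tm.ev, lk] at e ⊢
    linear_combination (norm := module) e
  next u0 u1 =>
    have e := ws1 h h2 hw (u0.ev (lk [c, w, u, v, y])) (u1.ev (lk [c, w, u, v, y]))
    simp only [evP, Tm.ev, lk] at e ⊢
    linear_combination (norm := module) e
  next => rfl

def C_ws17 : List Stp :=
  [
   ⟨-1, 1, [(.v 1), (.v 2), (.v 3), (.v 4)], []⟩,
   ⟨1, 2, [(.v 4), (.v 1), (.v 2), (.v 3)], []⟩,
   ⟨-1, 0, [(.v 1), (.v 0), (.v 2), (.m (.v 0) (.v 4))], [(.v 3), (.v 0)]⟩,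
   ⟨-1, 3, [(.v 4), (.m (.v 2) (.v 1)), (.v 3)], []⟩,
   ⟨1, 4, [(.m (.m (.v 0) (.v 4)) (.m (.v 2) (.v 1))), (.v 3)], []⟩,
   ⟨1, 4, [(.v 4), (.v 1)], [(.v 2), (.v 3), (.v 0)]⟩,
   ⟨-1, 4, [(.m (.v 2) (.m (.v 1) (.m (.v 0) (.v 4)))), (.v 3)], []⟩]

def T_ws17 : Pl := [(1, (.m (.m (.m (.m (.m (.v 1) (.v 0)) (.v 2)) (.v 3)) (.v 0)) (.m (.v 4) (.v 0))))]

theorem ws17 {B : Type u} [NonUnitalNonAssocRing B] (h : Eng B) (h2 : ∀ x : B, x + x = 0 → x = 0) {c : B} (hw : ∀ u : B, (u * c) * c = 0) (w u v y : B) :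
    ((((w * c) * u) * v) * c) * (y * c) = 0 := by
  have e := chk_sound h (lk [c, w, u, v, y]) R_ws17 (R_ws17_ok h h2 hw w u v y) (2 ^ 0 * 3 ^ 0) T_ws17 C_ws17 (by decide +kernel)
  have e := strip h h2 0 0 _ e
  simp only [T_ws17, evP, Tm.ev, lk] at e
  linear_combination (norm := module) e

def R_ws16 : ℕ → List Tm → Pl
  | 0, [u0, u1, u2] => [(1, (.m (.m u0 (.v 0)) (.m (.m u1 (.v 0)) u2))), (1, (.m (.m u0 (.v 0)) (.m (.m u1 u2) (.v 0)))), (1, (.m (.m (.m (.m u0 (.v 0)) u1) u2) (.v 0))), (1, (.m (.m (.m u0 (.v 0)) (.m u1 (.v 0))) u2))]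
  | 1, [u0, u1, u2, u3] => [(1, (.m (.m (.m u0 (.v 0)) u1) (.m (.m u2 (.v 0)) (.m u3 (.v 0))))), (1, (.m (.m (.m (.m u0 (.v 0)) u1) (.m u2 (.v 0))) (.m u3 (.v 0))))]
  | 2, [u0, u1, u2, u3] => [(1, (.m (.m (.m u0 (.v 0)) u1) (.m (.m u2 (.v 0)) (.m u3 (.v 0))))), (1, (.m (.m (.m u0 (.v 0)) (.m (.m u2 (.v 0)) (.m u3 (.v 0)))) u1)), (1, (.m (.m (.m u0 u1) (.v 0)) (.m (.m u2 (.v 0)) (.m u3 (.v 0)))))]
  | 3, [u0, u1, u2, u3] => [(1, (.m (.m (.m (.m (.m u0 (.v 0)) u1) u2) (.v 0)) (.m u3 (.v 0))))]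
  | 4, [u0, u1, u2] => [(1, (.m (.m u0 (.v 0)) (.m (.m u1 (.v 0)) (.m u2 (.v 0))))), (-1, (.m (.m u2 (.v 0)) (.m (.m u0 (.v 0)) (.m u1 (.v 0)))))]
  | _, _ => []

theorem R_ws16_ok {B : Type u} [NonUnitalNonAssocRing B] (h : Eng B) (h2 : ∀ x : B, x + x = 0 → x = 0) {c : B} (hw : ∀ u : B, (u * c) * c = 0) (w u v y : B) : ∀ i s, evP (lk [c, w, u, v, y]) (R_ws16 i s) = 0 := by
  intro i s
  unfold R_ws16
  split
  next u0 u1 u2 =>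
    have e := ws4 h h2 hw (u0.ev (lk [c, w, u, v, y])) (u1.ev (lk [c, w, u, v, y])) (u2.ev (lk [c, w, u, v, y]))
    simp only [evP, Tm.ev, lk] at e ⊢
    linear_combination (norm := module) e
  next u0 u1 u2 u3 =>
    have e := ws14a h h2 hw (u0.ev (lk [c, w, u, v, y])) (u1.ev (lk [c, w, u, v, y])) (u2.ev (lk [c, w, u, v, y])) (u3.ev (lk [c, w, u, v, y]))
    simp only [evP, Tm.ev, lk] at e ⊢
    linear_combination (norm := module) e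
  next u0 u1 u2 u3 =>
    have e := ws13 h h2 hw (u0.ev (lk [c, w, u, v, y])) (u1.ev (lk [c, w, u, v, y])) (u2.ev (lk [c, w, u, v, y])) (u3.ev (lk [c, w, u, v, y]))
    simp only [evP, Tm.ev, lk] at e ⊢
    linear_combination (norm := module) e
  next u0 u1 u2 u3 =>
    have e := ws17 h h2 hw (u0.ev (lk [c, w, u, v, y])) (u1.ev (lk [c, w, u, v, y])) (u2.ev (lk [c, w, u, v, y])) (u3.ev (lk [c, w, u, v, y]))
    simp only [evP, Tm.ev, lk] at e ⊢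
    linear_combination (norm := module) e
  next u0 u1 u2 =>
    have e := ws6 h h2 hw (u0.ev (lk [c, w, u, v, y])) (u1.ev (lk [c, w, u, v, y])) (u2.ev (lk [c, w, u, v, y]))
    simp only [evP, Tm.ev, lk] at e ⊢
    linear_combination (norm := module) e
  next => rfl

def C_ws16 : List Stp :=
  [
   ⟨-1, 1, [(.v 1), (.v 2), (.v 3)], [(.m (.v 4) (.v 0))]⟩,
   ⟨-1, 2, [(.v 2), (.v 3), (.v 1), (.v 4)], []⟩,
   ⟨1, 3, [(.v 2), (.v 3), (.v 1), (.v 4)], []⟩,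
   ⟨1, 4, [(.v 1), (.v 2), (.v 3), (.v 4)], []⟩,
   ⟨1, 5, [(.v 1), (.v 4), (.v 2)], [(.v 3)]⟩,
   ⟨-1, 5, [(.v 4), (.v 1), (.m (.v 2) (.v 3))], []⟩]

def T_ws16 : Pl := [(1, (.m (.m (.m (.m (.v 1) (.v 0)) (.m (.v 2) (.v 0))) (.v 3)) (.m (.v 4) (.v 0)))), (1, (.m (.m (.m (.v 1) (.v 0)) (.m (.m (.v 2) (.v 0)) (.m (.v 4) (.v 0)))) (.v 3)))]

theorem ws16 {B : Type u} [NonUnitalNonAssocRing B] (h : Eng B) (h2 : ∀ x : B, x + x = 0 → x = 0) {c : B} (hw : ∀ u : B, (u * c) * c = 0) (w u v y : B) :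
    ((((w * c) * (u * c)) * v) * (y * c)) + (((w * c) * ((u * c) * (y * c))) * v) = 0 := by
  have e := chk_sound h (lk [c, w, u, v, y]) R_ws16 (R_ws16_ok h h2 hw w u v y) (2 ^ 0 * 3 ^ 0) T_ws16 C_ws16 (by decide +kernel)
  have e := strip h h2 0 0 _ e
  simp only [T_ws16, evP, Tm.ev, lk] at e
  linear_combination (norm := module) e

def R_ws18 : ℕ → List Tm → Pl
  | 0, [u0, u1, u2, u3] => [(1, (.m (.m (.m u0 (.v 0)) u1) (.m (.m u2 (.v 0)) (.m u3 (.v 0))))), (1, (.m (.m (.m u0 (.v 0)) (.m (.m u2 (.v 0)) (.m u3 (.v 0)))) u1)), (1, (.m (.m (.m u0 u1) (.v 0)) (.m (.m u2 (.v 0)) (.m u3 (.v 0)))))]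
  | 1, [u0, u1, u2] => [(1, (.m (.m (.m (.m u0 (.v 0)) (.m u1 (.v 0))) u2) (.v 0)))]
  | 2, [u0, u1, u2, u3] => [(1, (.m (.m (.m (.m u0 (.v 0)) (.m (.m u1 (.v 0)) (.m u2 (.v 0)))) u3) (.v 0)))]
  | 3, [u0, u1] => [(1, (.m (.m (.m u0 (.v 0)) u1) (.v 0)))]
  | 4, [u0] => [(1, (.m (.m u0 (.v 0)) (.v 0)))]
  | _, _ => []

theorem R_ws18_ok {B : Type u} [NonUnitalNonAssocRing B] (h : Eng B) (h2 : ∀ x : B, x + x = 0 → x = 0) {c : B} (hw : ∀ u : B, (u * c) * c = 0) (u y z t x : B) : ∀ i s, evP (lk [c, u, y, z, t, x]) (R_ws18 i s) = 0 := by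
  intro i s
  unfold R_ws18
  split
  next u0 u1 u2 u3 =>
    have e := ws13 h h2 hw (u0.ev (lk [c, u, y, z, t, x])) (u1.ev (lk [c, u, y, z, t, x])) (u2.ev (lk [c, u, y, z, t, x])) (u3.ev (lk [c, u, y, z, t, x]))
    simp only [evP, Tm.ev, lk] at e ⊢
    linear_combination (norm := module) e
  next u0 u1 u2 =>
    have e := ws5 h h2 hw (u0.ev (lk [c, u, y, z, t, x])) (u1.ev (lk [c, u, y, z, t, x])) (u2.ev (lk [c, u, y, z, t, x]))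
    simp only [evP, Tm.ev, lk] at e ⊢
    linear_combination (norm := module) e
  next u0 u1 u2 u3 =>
    have e := ws10 h h2 hw (u0.ev (lk [c, u, y, z, t, x])) (u1.ev (lk [c, u, y, z, t, x])) (u2.ev (lk [c, u, y, z, t, x])) (u3.ev (lk [c, u, y, z, t, x]))
    simp only [evP, Tm.ev, lk] at e ⊢
    linear_combination (norm := module) e
  next u0 u1 =>
    have e := ws1 h h2 hw (u0.ev (lk [c, u, y, z, t, x])) (u1.ev (lk [c, u, y, z, t, x]))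
    simp only [evP, Tm.ev, lk] at e ⊢
    linear_combination (norm := module) e
  next u0 =>
    have e := hw (u0.ev (lk [c, u, y, z, t, x]))
    simp only [evP, Tm.ev, lk] at e ⊢
    linear_combination (norm := module) e
  next => rfl

def C_ws18 : List Stp :=
  [
   ⟨-2, 1, [(.v 1), (.v 4), (.v 2), (.v 3)], [(.v 5), (.v 0)]⟩,
   ⟨-2, 2, [(.v 2), (.v 3), (.m (.v 5) (.m (.v 4) (.m (.v 0) (.v 1))))], []⟩,
   ⟨-2, 3, [(.m (.v 4) (.v 1)), (.v 2), (.v 3), (.v 5)], []⟩,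
   ⟨1, 3, [(.v 1), (.v 2), (.v 3), (.v 4)], [(.v 5)]⟩,
   ⟨1, 0, [(.m (.m (.v 0) (.v 1)) (.m (.m (.v 0) (.v 2)) (.m (.v 0) (.v 3)))), (.v 4), (.v 5), (.v 0)], []⟩,
   ⟨-1, 0, [(.m (.v 0) (.v 1)), (.m (.m (.v 0) (.v 2)) (.m (.v 0) (.v 3))), (.v 4), (.v 5)], [(.v 0)]⟩,
   ⟨1, 0, [(.v 4), (.m (.v 0) (.v 1)), (.m (.m (.v 0) (.v 2)) (.m (.v 0) (.v 3))), (.v 5)], [(.v 0)]⟩,
   ⟨1, 3, [(.v 1), (.v 2), (.v 3), (.v 5)], [(.v 4)]⟩,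
   ⟨1, 4, [(.v 1), (.m (.m (.v 0) (.v 2)) (.m (.v 0) (.v 3)))], [(.v 4), (.v 5)]⟩,
   ⟨1, 4, [(.v 1), (.m (.m (.v 0) (.v 2)) (.m (.v 0) (.v 3)))], [(.v 5), (.v 4)]⟩,
   ⟨-1, 2, [(.v 2), (.v 3), (.m (.v 4) (.m (.v 5) (.m (.v 0) (.v 1))))], []⟩,
   ⟨1, 4, [(.v 1), (.m (.v 5) (.m (.v 4) (.m (.m (.v 0) (.v 2)) (.m (.v 0) (.v 3)))))], []⟩,
   ⟨-1, 2, [(.v 2), (.v 3), (.m (.m (.v 0) (.v 1)) (.m (.v 4) (.v 5)))], []⟩,
   ⟨-1, 4, [(.v 1), (.m (.m (.v 4) (.v 5)) (.m (.m (.v 0) (.v 2)) (.m (.v 0) (.v 3))))], []⟩,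
   ⟨1, 0, [(.m (.m (.v 0) (.v 2)) (.m (.v 0) (.v 3))), (.m (.v 5) (.m (.v 0) (.v 1))), (.v 4), (.v 0)], []⟩,
   ⟨1, 0, [(.m (.v 0) (.v 1)), (.m (.v 4) (.m (.m (.v 0) (.v 2)) (.m (.v 0) (.v 3)))), (.v 5), (.v 0)], []⟩,
   ⟨-1, 2, [(.v 2), (.v 3), (.m (.v 5) (.m (.v 0) (.v 1)))], [(.v 4)]⟩,
   ⟨-1, 2, [(.v 2), (.v 3), (.v 4)], [(.m (.v 5) (.m (.v 0) (.v 1)))]⟩,
   ⟨1, 4, [(.v 2), (.m (.v 0) (.v 3))], [(.m (.v 5) (.m (.v 0) (.v 1))), (.v 4)]⟩,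
   ⟨1, 4, [(.v 2), (.m (.v 0) (.v 3))], [(.v 4), (.m (.v 5) (.m (.v 0) (.v 1)))]⟩,
   ⟨1, 4, [(.v 1), (.m (.v 4) (.m (.m (.v 0) (.v 2)) (.m (.v 0) (.v 3))))], [(.v 5)]⟩,
   ⟨1, 4, [(.v 1), (.v 5)], [(.m (.v 4) (.m (.m (.v 0) (.v 2)) (.m (.v 0) (.v 3))))]⟩,
   ⟨1, 5, [(.v 1)], [(.m (.v 4) (.m (.m (.v 0) (.v 2)) (.m (.v 0) (.v 3)))), (.v 5)]⟩,
   ⟨1, 5, [(.v 1)], [(.v 5), (.m (.v 4) (.m (.m (.v 0) (.v 2)) (.m (.v 0) (.v 3))))]⟩]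

def T_ws18 : Pl := [(1, (.m (.m (.m (.m (.m (.v 1) (.v 0)) (.m (.m (.v 2) (.v 0)) (.m (.v 3) (.v 0)))) (.v 4)) (.v 5)) (.v 0)))]

theorem ws18 {B : Type u} [NonUnitalNonAssocRing B] (h : Eng B) (h2 : ∀ x : B, x + x = 0 → x = 0) {c : B} (hw : ∀ u : B, (u * c) * c = 0) (u y z t x : B) :
    ((((u * c) * ((y * c) * (z * c))) * t) * x) * c = 0 := by
  have e := chk_sound h (lk [c, u, y, z, t, x]) R_ws18 (R_ws18_ok h h2 hw u y z t x) (2 ^ 1 * 3 ^ 0) T_ws18 C_ws18 (by decide +kernel)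
  have e := strip h h2 1 0 _ e
  simp only [T_ws18, evP, Tm.ev, lk] at e
  linear_combination (norm := module) e

def R_ws19 : ℕ → List Tm → Pl
  | 0, [u0, u1, u2, u3, u4] => [(1, (.m (.m (.m (.m (.m u0 (.v 0)) (.m (.m u1 (.v 0)) (.m u2 (.v 0)))) u3) u4) (.v 0)))]
  | 1, [u0, u1, u2, u3] => [(1, (.m (.m u0 (.v 0)) (.m (.m u1 (.v 0)) (.m (.m u2 (.v 0)) (.m u3 (.v 0))))))]
  | 2, [u0, u1, u2, u3] => [(1, (.m (.m (.m (.m u0 (.v 0)) (.m (.m u1 (.v 0)) (.m u2 (.v 0)))) u3) (.v 0)))]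
  | _, _ => []

theorem R_ws19_ok {B : Type u} [NonUnitalNonAssocRing B] (h : Eng B) (h2 : ∀ x : B, x + x = 0 → x = 0) {c : B} (hw : ∀ u : B, (u * c) * c = 0) (u y z t x : B) : ∀ i s, evP (lk [c, u, y, z, t, x]) (R_ws19 i s) = 0 := by
  intro i s
  unfold R_ws19
  split
  next u0 u1 u2 u3 u4 =>
    have e := ws18 h h2 hw (u0.ev (lk [c, u, y, z, t, x])) (u1.ev (lk [c, u, y, z, t, x])) (u2.ev (lk [c, u, y, z, t, x])) (u3.ev (lk [c, u, y, z, t, x])) (u4.ev (lk [c, u, y, z, t, x]))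
    simp only [evP, Tm.ev, lk] at e ⊢
    linear_combination (norm := module) e
  next u0 u1 u2 u3 =>
    have e := ws9 h h2 hw (u0.ev (lk [c, u, y, z, t, x])) (u1.ev (lk [c, u, y, z, t, x])) (u2.ev (lk [c, u, y, z, t, x])) (u3.ev (lk [c, u, y, z, t, x]))
    simp only [evP, Tm.ev, lk] at e ⊢
    linear_combination (norm := module) e
  next u0 u1 u2 u3 =>
    have e := ws10 h h2 hw (u0.ev (lk [c, u, y, z, t, x])) (u1.ev (lk [c, u, y, z, t, x])) (u2.ev (lk [c, u, y, z, t, x])) (u3.ev (lk [c, u, y, z, t, x]))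
    simp only [evP, Tm.ev, lk] at e ⊢
    linear_combination (norm := module) e
  next => rfl

def C_ws19 : List Stp :=
  [
   ⟨1, 0, [(.v 4), (.v 0), (.v 5), (.m (.m (.v 1) (.v 0)) (.m (.m (.v 2) (.v 0)) (.m (.v 3) (.v 0))))], []⟩,
   ⟨1, 1, [(.v 1), (.v 2), (.v 3), (.v 4), (.v 5)], []⟩,
   ⟨-1, 2, [(.v 4), (.v 1), (.v 2), (.v 3)], [(.v 5)]⟩,
   ⟨-1, 2, [(.m (.v 4) (.v 5)), (.v 1), (.v 2), (.v 3)], []⟩,
   ⟨1, 3, [(.v 1), (.v 2), (.v 3), (.m (.v 4) (.v 5))], []⟩,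
   ⟨1, 3, [(.v 1), (.v 2), (.v 3), (.v 4)], [(.v 5)]⟩]

def T_ws19 : Pl := [(1, (.m (.m (.m (.v 1) (.v 0)) (.m (.m (.v 2) (.v 0)) (.m (.v 3) (.v 0)))) (.m (.m (.v 4) (.v 0)) (.v 5))))]

theorem ws19 {B : Type u} [NonUnitalNonAssocRing B] (h : Eng B) (h2 : ∀ x : B, x + x = 0 → x = 0) {c : B} (hw : ∀ u : B, (u * c) * c = 0) (u y z t x : B) :
    ((u * c) * ((y * c) * (z * c))) * ((t * c) * x) = 0 := by
  have e := chk_sound h (lk [c, u, y, z, t, x]) R_ws19 (R_ws19_ok h h2 hw u y z t x) (2 ^ 0 * 3 ^ 0) T_ws19 C_ws19 (by decide +kernel)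
  have e := strip h h2 0 0 _ e
  simp only [T_ws19, evP, Tm.ev, lk] at e
  linear_combination (norm := module) e

def R_ws20 : ℕ → List Tm → Pl
  | 0, [u0, u1, u2] => [(1, (.m (.m u0 (.v 0)) (.m (.m u1 (.v 0)) u2))), (1, (.m (.m u0 (.v 0)) (.m (.m u1 u2) (.v 0)))), (1, (.m (.m (.m (.m u0 (.v 0)) u1) u2) (.v 0))), (1, (.m (.m (.m u0 (.v 0)) (.m u1 (.v 0))) u2))]
  | 1, [u0, u1, u2, u3, u4] => [(1, (.m (.m (.m u0 (.v 0)) (.m (.m u1 (.v 0)) (.m u2 (.v 0)))) (.m (.m u3 (.v 0)) u4)))]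
  | 2, [u0, u1, u2, u3] => [(1, (.m (.m (.m u0 (.v 0)) (.m u1 (.v 0))) (.m (.m u2 (.v 0)) (.m u3 (.v 0)))))]
  | 3, [u0, u1, u2, u3] => [(1, (.m (.m u0 (.v 0)) (.m (.m u1 (.v 0)) (.m (.m u2 (.v 0)) (.m u3 (.v 0))))))]
  | 4, [u0, u1] => [(1, (.m (.m (.m u0 (.v 0)) u1) (.v 0)))]
  | 5, [u0, u1, u2, u3] => [(1, (.m (.m (.m (.m u0 (.v 0)) (.m (.m u1 (.v 0)) (.m u2 (.v 0)))) u3) (.v 0)))]
  | 6, [u0, u1, u2] => [(1, (.m (.m (.m (.m u0 (.v 0)) (.m u1 (.v 0))) u2) (.v 0)))]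
  | _, _ => []

theorem R_ws20_ok {B : Type u} [NonUnitalNonAssocRing B] (h : Eng B) (h2 : ∀ x : B, x + x = 0 → x = 0) {c : B} (hw : ∀ u : B, (u * c) * c = 0) (u t x y z : B) : ∀ i s, evP (lk [c, u, t, x, y, z]) (R_ws20 i s) = 0 := by
  intro i s
  unfold R_ws20
  split
  next u0 u1 u2 =>
    have e := ws4 h h2 hw (u0.ev (lk [c, u, t, x, y, z])) (u1.ev (lk [c, u, t, x, y, z])) (u2.ev (lk [c, u, t, x, y, z]))
    simp only [evP, Tm.ev, lk] at e ⊢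
    linear_combination (norm := module) e
  next u0 u1 u2 u3 u4 =>
    have e := ws19 h h2 hw (u0.ev (lk [c, u, t, x, y, z])) (u1.ev (lk [c, u, t, x, y, z])) (u2.ev (lk [c, u, t, x, y, z])) (u3.ev (lk [c, u, t, x, y, z])) (u4.ev (lk [c, u, t, x, y, z]))
    simp only [evP, Tm.ev, lk] at e ⊢
    linear_combination (norm := module) e
  next u0 u1 u2 u3 =>
    have e := ws8 h h2 hw (u0.ev (lk [c, u, t, x, y, z])) (u1.ev (lk [c, u, t, x, y, z])) (u2.ev (lk [c, u, t, x, y, z])) (u3.ev (lk [c, u, t, x, y, z]))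
    simp only [evP, Tm.ev, lk] at e ⊢
    linear_combination (norm := module) e
  next u0 u1 u2 u3 =>
    have e := ws9 h h2 hw (u0.ev (lk [c, u, t, x, y, z])) (u1.ev (lk [c, u, t, x, y, z])) (u2.ev (lk [c, u, t, x, y, z])) (u3.ev (lk [c, u, t, x, y, z]))
    simp only [evP, Tm.ev, lk] at e ⊢
    linear_combination (norm := module) e
  next u0 u1 =>
    have e := ws1 h h2 hw (u0.ev (lk [c, u, t, x, y, z])) (u1.ev (lk [c, u, t, x, y, z]))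
    simp only [evP, Tm.ev, lk] at e ⊢
    linear_combination (norm := module) e
  next u0 u1 u2 u3 =>
    have e := ws10 h h2 hw (u0.ev (lk [c, u, t, x, y, z])) (u1.ev (lk [c, u, t, x, y, z])) (u2.ev (lk [c, u, t, x, y, z])) (u3.ev (lk [c, u, t, x, y, z]))
    simp only [evP, Tm.ev, lk] at e ⊢
    linear_combination (norm := module) e
  next u0 u1 u2 =>
    have e := ws5 h h2 hw (u0.ev (lk [c, u, t, x, y, z])) (u1.ev (lk [c, u, t, x, y, z])) (u2.ev (lk [c, u, t, x, y, z]))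
    simp only [evP, Tm.ev, lk] at e ⊢
    linear_combination (norm := module) e
  next => rfl

def C_ws20 : List Stp :=
  [
   ⟨-1, 1, [(.v 1), (.v 2), (.v 3)], [(.m (.m (.v 4) (.v 0)) (.m (.v 5) (.v 0)))]⟩,
   ⟨-2, 2, [(.v 1), (.v 4), (.v 5), (.v 2), (.v 3)], []⟩,
   ⟨1, 3, [(.v 1), (.m (.v 2) (.v 3)), (.v 4), (.v 5)], []⟩,
   ⟨1, 0, [(.v 2), (.v 0), (.v 3), (.m (.m (.v 0) (.v 1)) (.m (.m (.v 0) (.v 4)) (.m (.v 0) (.v 5))))], []⟩,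
   ⟨-1, 0, [(.v 0), (.v 1), (.m (.m (.v 0) (.v 4)) (.m (.v 0) (.v 5))), (.m (.v 3) (.m (.v 0) (.v 2)))], []⟩,
   ⟨1, 0, [(.m (.v 2) (.m (.v 0) (.v 1))), (.v 3), (.v 0), (.m (.m (.v 0) (.v 4)) (.m (.v 0) (.v 5)))], []⟩,
   ⟨1, 4, [(.v 2), (.v 1), (.v 4), (.v 5)], [(.v 3)]⟩,
   ⟨-1, 5, [(.v 1), (.v 2)], [(.v 3), (.m (.m (.v 0) (.v 4)) (.m (.v 0) (.v 5)))]⟩,
   ⟨1, 4, [(.m (.v 2) (.v 3)), (.v 1), (.v 4), (.v 5)], []⟩,
   ⟨-1, 6, [(.v 1), (.v 4), (.v 5), (.m (.v 2) (.v 3))], []⟩,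
   ⟨-1, 6, [(.v 1), (.v 4), (.v 5), (.v 2)], [(.v 3)]⟩,
   ⟨1, 5, [(.v 4), (.m (.v 0) (.v 5))], [(.v 1), (.m (.v 3) (.m (.v 0) (.v 2)))]⟩,
   ⟨1, 5, [(.v 4), (.m (.v 0) (.v 5))], [(.m (.v 3) (.m (.v 0) (.v 2))), (.v 1)]⟩,
   ⟨-1, 5, [(.v 2), (.v 3)], [(.v 1), (.m (.m (.v 0) (.v 4)) (.m (.v 0) (.v 5)))]⟩,
   ⟨-1, 5, [(.v 2), (.v 3)], [(.m (.m (.v 0) (.v 4)) (.m (.v 0) (.v 5))), (.v 1)]⟩,
   ⟨-1, 7, [(.v 4), (.v 5), (.v 1)], [(.v 2), (.v 3), (.v 0)]⟩,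
   ⟨-1, 5, [(.m (.v 2) (.m (.v 1) (.m (.m (.v 0) (.v 4)) (.m (.v 0) (.v 5))))), (.v 3)], []⟩,
   ⟨-1, 7, [(.v 4), (.v 5), (.m (.v 3) (.m (.v 2) (.m (.v 0) (.v 1))))], []⟩,
   ⟨-1, 5, [(.v 1), (.v 2)], [(.m (.m (.v 0) (.v 4)) (.m (.v 0) (.v 5))), (.v 3)]⟩,
   ⟨1, 7, [(.v 4), (.v 5), (.m (.v 2) (.m (.v 0) (.v 1)))], [(.v 3)]⟩,
   ⟨-1, 0, [(.v 1), (.v 0), (.m (.m (.v 0) (.v 4)) (.m (.v 0) (.v 5))), (.v 2)], [(.v 3), (.v 0)]⟩,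
   ⟨-1, 6, [(.m (.v 2) (.v 1)), (.v 4), (.v 5), (.v 3)], []⟩,
   ⟨-1, 5, [(.m (.m (.v 2) (.v 1)) (.m (.m (.v 0) (.v 4)) (.m (.v 0) (.v 5)))), (.v 3)], []⟩]

def T_ws20 : Pl := [(1, (.m (.m (.m (.m (.v 1) (.v 0)) (.m (.v 2) (.v 0))) (.v 3)) (.m (.m (.v 4) (.v 0)) (.m (.v 5) (.v 0)))))]

theorem ws20 {B : Type u} [NonUnitalNonAssocRing B] (h : Eng B) (h2 : ∀ x : B, x + x = 0 → x = 0) {c : B} (hw : ∀ u : B, (u * c) * c = 0) (u t x y z : B) :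
    (((u * c) * (t * c)) * x) * ((y * c) * (z * c)) = 0 := by
  have e := chk_sound h (lk [c, u, t, x, y, z]) R_ws20 (R_ws20_ok h h2 hw u t x y z) (2 ^ 0 * 3 ^ 0) T_ws20 C_ws20 (by decide +kernel)
  have e := strip h h2 0 0 _ e
  simp only [T_ws20, evP, Tm.ev, lk] at e
  linear_combination (norm := module) e

def R_ws22 : ℕ → List Tm → Pl
  | 0, [u0, u1, u2] => [(1, (.m (.m u0 (.v 0)) (.m (.m u1 (.v 0)) u2))), (1, (.m (.m u0 (.v 0)) (.m (.m u1 u2) (.v 0)))), (1, (.m (.m (.m (.m u0 (.v 0)) u1) u2) (.v 0))), (1, (.m (.m (.m u0 (.v 0)) (.m u1 (.v 0))) u2))]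
  | 1, [u0, u1, u2, u3, u4] => [(1, (.m (.m (.m (.m u0 (.v 0)) (.m u1 (.v 0))) u2) (.m (.m u3 (.v 0)) (.m u4 (.v 0)))))]
  | 2, [u0, u1, u2, u3] => [(1, (.m (.m (.m (.m u0 (.v 0)) (.m u1 (.v 0))) u2) (.m u3 (.v 0)))), (1, (.m (.m (.m u0 (.v 0)) (.m (.m u1 (.v 0)) (.m u3 (.v 0)))) u2))]
  | 3, [u0, u1, u2, u3] => [(1, (.m (.m (.m (.m (.m u0 (.v 0)) u1) u2) (.v 0)) (.m u3 (.v 0))))]
  | 4, [u0, u1, u2, u3] => [(1, (.m (.m (.m (.m (.m u0 (.v 0)) (.m u1 (.v 0))) u2) u3) (.v 0)))]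
  | 5, [u0, u1, u2] => [(1, (.m (.m (.m (.m u0 (.v 0)) u1) u2) (.v 0))), (1, (.m (.m (.m (.m u0 (.v 0)) u2) u1) (.v 0)))]
  | 6, [u0, u1] => [(1, (.m (.m (.m u0 (.v 0)) u1) (.v 0)))]
  | 7, [u0, u1, u2] => [(1, (.m (.m u0 (.v 0)) (.m (.m u1 (.v 0)) (.m u2 (.v 0))))), (-1, (.m (.m u2 (.v 0)) (.m (.m u0 (.v 0)) (.m u1 (.v 0)))))]
  | 8, [u0, u1, u2, u3, u4] => [(1, (.m (.m (.m (.m (.m u0 (.v 0)) (.m (.m u1 (.v 0)) (.m u2 (.v 0)))) u3) u4) (.v 0)))]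
  | _, _ => []

theorem R_ws22_ok {B : Type u} [NonUnitalNonAssocRing B] (h : Eng B) (h2 : ∀ x : B, x + x = 0 → x = 0) {c : B} (hw : ∀ u : B, (u * c) * c = 0) (p q x y : B) : ∀ i s, evP (lk [c, p, q, x, y]) (R_ws22 i s) = 0 := by
  intro i s
  unfold R_ws22
  split
  next u0 u1 u2 =>
    have e := ws4 h h2 hw (u0.ev (lk [c, p, q, x, y])) (u1.ev (lk [c, p, q, x, y])) (u2.ev (lk [c, p, q, x, y]))
    simp only [evP, Tm.ev, lk] at e ⊢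
    linear_combination (norm := module) e
  next u0 u1 u2 u3 u4 =>
    have e := ws20 h h2 hw (u0.ev (lk [c, p, q, x, y])) (u1.ev (lk [c, p, q, x, y])) (u2.ev (lk [c, p, q, x, y])) (u3.ev (lk [c, p, q, x, y])) (u4.ev (lk [c, p, q, x, y]))
    simp only [evP, Tm.ev, lk] at e ⊢
    linear_combination (norm := module) e
  next u0 u1 u2 u3 =>
    have e := ws16 h h2 hw (u0.ev (lk [c, p, q, x, y])) (u1.ev (lk [c, p, q, x, y])) (u2.ev (lk [c, p, q, x, y])) (u3.ev (lk [c, p, q, x, y]))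
    simp only [evP, Tm.ev, lk] at e ⊢
    linear_combination (norm := module) e
  next u0 u1 u2 u3 =>
    have e := ws17 h h2 hw (u0.ev (lk [c, p, q, x, y])) (u1.ev (lk [c, p, q, x, y])) (u2.ev (lk [c, p, q, x, y])) (u3.ev (lk [c, p, q, x, y]))
    simp only [evP, Tm.ev, lk] at e ⊢
    linear_combination (norm := module) e
  next u0 u1 u2 u3 =>
    have e := ws11 h h2 hw (u0.ev (lk [c, p, q, x, y])) (u1.ev (lk [c, p, q, x, y])) (u2.ev (lk [c, p, q, x, y])) (u3.ev (lk [c, p, q, x, y]))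
    simp only [evP, Tm.ev, lk] at e ⊢
    linear_combination (norm := module) e
  next u0 u1 u2 =>
    have e := ws3 h h2 hw (u0.ev (lk [c, p, q, x, y])) (u1.ev (lk [c, p, q, x, y])) (u2.ev (lk [c, p, q, x, y]))
    simp only [evP, Tm.ev, lk] at e ⊢
    linear_combination (norm := module) e
  next u0 u1 =>
    have e := ws1 h h2 hw (u0.ev (lk [c, p, q, x, y])) (u1.ev (lk [c, p, q, x, y]))
    simp only [evP, Tm.ev, lk] at e ⊢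
    linear_combination (norm := module) e
  next u0 u1 u2 =>
    have e := ws6 h h2 hw (u0.ev (lk [c, p, q, x, y])) (u1.ev (lk [c, p, q, x, y])) (u2.ev (lk [c, p, q, x, y]))
    simp only [evP, Tm.ev, lk] at e ⊢
    linear_combination (norm := module) e
  next u0 u1 u2 u3 u4 =>
    have e := ws18 h h2 hw (u0.ev (lk [c, p, q, x, y])) (u1.ev (lk [c, p, q, x, y])) (u2.ev (lk [c, p, q, x, y])) (u3.ev (lk [c, p, q, x, y])) (u4.ev (lk [c, p, q, x, y]))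
    simp only [evP, Tm.ev, lk] at e ⊢
    linear_combination (norm := module) e
  next => rfl

def C_ws22 : List Stp :=
  [
   ⟨-1, 0, [(.v 2), (.v 0), (.m (.m (.v 1) (.v 0)) (.v 3)), (.m (.m (.m (.v 1) (.v 0)) (.m (.v 2) (.v 0))) (.v 4))], []⟩,
   ⟨1, 1, [(.v 2), (.v 1), (.v 3)], [(.m (.m (.m (.v 1) (.v 0)) (.m (.v 2) (.v 0))) (.v 4))]⟩,
   ⟨1, 2, [(.v 1), (.v 2), (.v 4), (.v 2), (.m (.v 1) (.v 3))], []⟩,
   ⟨1, 3, [(.v 1), (.v 2), (.v 4), (.m (.m (.m (.v 2) (.v 0)) (.v 1)) (.v 3))], []⟩,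
   ⟨-1, 4, [(.v 2), (.v 1), (.v 3), (.v 2)], [(.m (.v 1) (.v 0)), (.v 4)]⟩,
   ⟨-1, 3, [(.v 1), (.v 2), (.v 4), (.v 2)], [(.m (.m (.v 1) (.v 0)) (.v 3))]⟩,
   ⟨1, 3, [(.v 1), (.v 2), (.v 4), (.m (.m (.m (.v 1) (.v 0)) (.v 3)) (.v 2))], []⟩,
   ⟨-1, 4, [(.v 1), (.v 3), (.v 2), (.v 2)], [(.m (.v 1) (.v 0)), (.v 4)]⟩,
   ⟨-1, 5, [(.v 1), (.v 2), (.v 4), (.m (.v 2) (.m (.m (.v 1) (.v 0)) (.v 3)))], []⟩,
   ⟨-1, 5, [(.v 1), (.v 2), (.v 4), (.v 2)], [(.m (.m (.v 1) (.v 0)) (.v 3))]⟩,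
   ⟨-1, 6, [(.v 1), (.v 3), (.m (.v 2) (.m (.m (.m (.v 1) (.v 0)) (.m (.v 2) (.v 0))) (.v 4)))], []⟩,
   ⟨-1, 0, [(.v 2), (.m (.m (.m (.v 1) (.v 0)) (.m (.v 2) (.v 0))) (.v 4)), (.m (.v 1) (.v 0)), (.v 3)], [(.v 0)]⟩,
   ⟨-1, 7, [(.v 1), (.m (.m (.v 2) (.m (.m (.m (.v 1) (.v 0)) (.m (.v 2) (.v 0))) (.v 4))) (.v 3))], []⟩,
   ⟨-1, 7, [(.v 1), (.m (.m (.v 2) (.v 3)) (.m (.m (.m (.v 1) (.v 0)) (.m (.v 2) (.v 0))) (.v 4)))], []⟩,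
   ⟨-1, 5, [(.v 1), (.v 2), (.v 4), (.m (.m (.v 2) (.m (.v 1) (.v 0))) (.v 3))], []⟩,
   ⟨-1, 5, [(.v 1), (.v 2), (.v 4), (.m (.m (.v 2) (.v 3)) (.m (.v 1) (.v 0)))], []⟩,
   ⟨-1, 0, [(.v 1), (.v 0), (.v 2), (.m (.m (.m (.v 1) (.v 0)) (.m (.v 2) (.v 0))) (.v 4))], [(.v 3), (.v 0)]⟩,
   ⟨-1, 3, [(.v 1), (.v 2), (.v 4), (.v 1)], [(.v 2), (.v 3), (.v 0)]⟩,
   ⟨-1, 8, [(.v 1), (.v 1), (.v 2)], [(.v 4), (.v 2), (.v 3), (.v 0)]⟩,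
   ⟨-1, 3, [(.v 1), (.v 2), (.v 4), (.m (.v 1) (.v 2))], [(.v 3), (.v 0)]⟩,
   ⟨1, 9, [(.v 1), (.v 2), (.m (.v 1) (.v 2)), (.v 4), (.v 3)], []⟩,
   ⟨-1, 5, [(.v 1), (.v 2), (.v 4), (.m (.v 1) (.v 2))], [(.v 3), (.v 0)]⟩,
   ⟨-1, 5, [(.v 1), (.v 2), (.v 4), (.v 1)], [(.v 2), (.v 3), (.v 0)]⟩,
   ⟨1, 7, [(.m (.m (.v 1) (.m (.m (.m (.v 1) (.v 0)) (.m (.v 2) (.v 0))) (.v 4))) (.v 2)), (.v 3)], []⟩]

def T_ws22 : Pl := [(1, (.m (.m (.m (.m (.v 1) (.v 0)) (.m (.v 2) (.v 0))) (.v 3)) (.m (.m (.m (.v 1) (.v 0)) (.m (.v 2) (.v 0))) (.v 4))))]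

theorem ws22 {B : Type u} [NonUnitalNonAssocRing B] (h : Eng B) (h2 : ∀ x : B, x + x = 0 → x = 0) {c : B} (hw : ∀ u : B, (u * c) * c = 0) (p q x y : B) :
    (((p * c) * (q * c)) * x) * (((p * c) * (q * c)) * y) = 0 := by
  have e := chk_sound h (lk [c, p, q, x, y]) R_ws22 (R_ws22_ok h h2 hw p q x y) (2 ^ 0 * 3 ^ 0) T_ws22 C_ws22 (by decide +kernel)
  have e := strip h h2 0 0 _ e
  simp only [T_ws22, evP, Tm.ev, lk] at e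
  linear_combination (norm := module) e

end Pool.Agent.TH36.E3
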