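import Pool.Agent.TH36.E3.Strong
import Pool.Agent.H461R3.E3.Solv
import Pool.Agent.TH36.E3.WS
import Pool.Agent.TH36.E3.CertI
import Pool.Agent.TH36.E3.CertM
import Pool.Agent.TH36.E3.CertA
import Pool.Agent.TH36.E3.CertB

set_option autoImplicit false
set_option linter.all false

/-! Semiprime anticommutative 3-Engel algebras of characteristic not two or three: all products of
four elements vanish. -/

namespace Pool.Agent.TH36.E3

open Pool.Agent.H461R3.E3

universe u

section
variable {B : Type u} [NonUnitalNonAssocRing B] (h : Eng B) (h2 : ∀ x : B, x + x = 0 → x = 0)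
  (hs : Semiprime' B)

include h h2 hs

/-- weak sandwiches vanish -/
theorem weak_zero {c : B} (hw : ∀ u : B, (u * c) * c = 0) : c = 0 := by
  have hS : ∀ p q : B, (p * c) * (q * c) = 0 := by
    intro p q
    apply str_zero h h2 (c := (p * c) * (q * c)) ?_ hs
    constructor
    · intro x
      have e := ws20 h h2 hw p q x p q
      rw [h.ac x, neg_mul, e, neg_zero]
    · intro x y
      have e := ws22 h h2 hw p q x y
      rw [h.ac x, h.ac y, neg_mul, mul_neg, neg_neg, e]
  exact str_zero h h2 ⟨hw, hS⟩ hs

/-- the element `f` vanishes identically -/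
theorem f_zero (x y w : B) : ((y * x) * (w * x)) * x + (((y * x) * w) * x) * x +
    ((y * (w * x)) * x) * x = 0 := by
  have hI : ∀ u : B, u * (((y * x) * (w * x)) * x) - (u * ((y * x) * (w * x))) * x -
      (u * (((y * x) * w + y * (w * x) + (2 : ℤ) • ((y * w) * x)) * x)) * x -
      (2 : ℤ) • (((u * ((y * x) * w + y * (w * x) + (2 : ℤ) • ((y * w) * x))) * x) * x) = 0 := by
    intro u
    have e := idI h h2 x y w u
    simp only [add_mul, mul_add, smul_mul_assoc, mul_smul_comm]
    linear_combination (norm := module) e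
  have hz : ((y * x) * (w * x)) * x +
      (((y * x) * w + y * (w * x) + (2 : ℤ) • ((y * w) * x)) * x) * x = 0 := by
    apply weak_zero h h2 hs
    intro u
    have e := miniF h h2 hI u
    simp only [mul_add, add_mul] at e ⊢
    linear_combination (norm := module) e
  have e1 := h.e1 (y * w) x
  simp only [add_mul, smul_mul_assoc] at hz
  rw [e1] at hz
  linear_combination (norm := module) hz

/-- the polarized form -/
theorem f_lin (a b c y w : B) : (((y * a) * (w * b)) * c) + ((((y * a) * w) * b) * c) + (((y * (w * a)) * b) * c) + (((y * a) * (w * c)) * b) + ((((y * a) * w) * c) * b) + (((y * (w * a)) * c) * b) + (((y * b) * (w * a)) * c) + ((((y * b) * w) * a) * c) + (((y * (w * b)) * a) * c) + (((y * b) * (w * c)) * a) + ((((y * b) * w) * c) * a) + (((y * (w * b)) * c) * a) + (((y * c) * (w * a)) * b) + ((((y * c) * w) * a) * b) + (((y * (w * c)) * a) * b) + (((y * c) * (w * b)) * a) + ((((y * c) * w) * b) * a) + (((y * (w * c)) * b) * a) = 0 := by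
  have e1 := f_zero h h2 hs (a + b + c) y w
  have e2 := f_zero h h2 hs (a + b) y w
  have e3 := f_zero h h2 hs (a + c) y w
  have e4 := f_zero h h2 hs (b + c) y w
  have e5 := f_zero h h2 hs a y w
  have e6 := f_zero h h2 hs b y w
  have e7 := f_zero h h2 hs c y w
  simp only [mul_add, add_mul] at e1 e2 e3 e4
  linear_combination (norm := module) e1 - e2 - e3 - e4 + e5 + e6 + e7

theorem two_engel (x y : B) : (y * x) * x = 0 :=
  weak_zero h h2 hs (idA h h2 (f_lin h h2 hs) x y)

theorem two_engel_lin (y a b : B) : (y * a) * b + (y * b) * a = 0 := by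
  have e1 := two_engel h h2 hs (a + b) y
  have e2 := two_engel h h2 hs a y
  have e3 := two_engel h h2 hs b y
  simp only [mul_add, add_mul] at e1
  linear_combination (norm := module) e1 - e2 - e3

theorem four1 (x y z t : B) : ((x * y) * z) * t = 0 :=
  te1 h h2 (two_engel_lin h h2 hs) x y z t

theorem four2 (x y z t : B) : (x * y) * (z * t) = 0 :=
  te2 h h2 (two_engel_lin h h2 hs) x y z t

theorem prod4 {n : ℕ} {x : B} (hx : IsProd (Set.univ : Set B) n x) : 4 ≤ n → x = 0 := by
  have f2 : ∀ {n : ℕ} {x : B}, IsProd (Set.univ : Set B) n x → n = 2 → ∃ a b, x = a * b := by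
    intro n x hx hn
    cases hx with
    | base _ => omega
    | @mul m k y z hy hz => exact ⟨y, z, rfl⟩
  have f3 : ∀ {n : ℕ} {x : B}, IsProd (Set.univ : Set B) n x → n = 3 →
      ∃ a b d, x = (a * b) * d := by
    intro n x hx hn
    cases hx with
    | base _ => omega
    | @mul m k y z hy hz =>
      have h1 := isProd_pos hy
      have h3 := isProd_pos hz
      have : m = 2 ∨ k = 2 := by omega
      rcases this with hm | hk
      · obtain ⟨a, b, rfl⟩ := f2 hy hm
        exact ⟨a, b, z, rfl⟩
      · obtain ⟨a, b, rfl⟩ := f2 hz hk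
        exact ⟨-a, b, y, by rw [h.ac y, neg_mul, neg_mul]⟩
  induction hx with
  | base _ => intro hn; omega
  | @mul m k y z hy hz ihy ihz =>
    intro hn
    have h1 := isProd_pos hy
    have h3 := isProd_pos hz
    by_cases hm : 4 ≤ m
    · rw [ihy hm, zero_mul]
    by_cases hk : 4 ≤ k
    · rw [ihz hk, mul_zero]
    by_cases hm3 : m = 3
    · obtain ⟨a, b, d, rfl⟩ := f3 hy hm3
      exact four1 h h2 hs a b d z
    by_cases hk3 : k = 3
    · obtain ⟨a, b, d, rfl⟩ := f3 hz hk3
      rw [h.ac, four1 h h2 hs a b d y, neg_zero]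
    · obtain ⟨a, b, rfl⟩ := f2 hy (by omega)
      obtain ⟨a', b', rfl⟩ := f2 hz (by omega)
      exact four2 h h2 hs a b a' b'

end

end Pool.Agent.TH36.E3
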