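import Pool.Agent.TH36.E3.Bridge

set_option autoImplicit false
set_option linter.all false

/-! Words with three factors `c` vanish when `c` is a strong sandwich. -/

namespace Pool.Agent.TH36.E3

open Pool.Agent.H461R3.E3

universe u

variable {B : Type u} [NonUnitalNonAssocRing B]

theorem TT_zero' {c : B} {n : ℕ} {u v w : List B} (h0 : (ext c u * ext c v) * ext c w = 0) :
    TT c n u v w = 0 := by
  by_cases hn : u.length + v.length + w.length = n
  · rw [TTp hn, h0]
  · exact TTn hn

theorem TA_zero' {c : B} {n : ℕ} {u v w : List B} {a : B}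
    (h0 : ((ext c u * ext c v) * a) * ext c w = 0) : TA c n u v a w = 0 := by
  by_cases hn : u.length + v.length + w.length + 1 = n
  · rw [TAp hn, h0]
  · exact TAn hn

section
variable (h : Eng B) (h2 : ∀ x : B, x + x = 0 → x = 0) {c : B} (hc : Str c)

include h hc in
theorem b_00 : ext c [] * ext c [] = 0 := h.sq c

include h hc in
theorem b_10 (x : B) : ext c [x] * ext c [] = 0 := by
  simp only [ext]
  rw [h.ac c x, neg_mul, hc.s, neg_zero]

include h h2 hc in
theorem b_20 (x y : B) : ext c [x, y] * ext c [] = 0 := by
  simp only [ext]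
  exact cyc' h h2 hc y x

include h hc in
theorem b_11 (x y : B) : ext c [x] * ext c [y] = 0 := by
  simp only [ext]
  rw [h.ac c x, h.ac c y, neg_mul, mul_neg, neg_neg, hc.t]

/-- the system attached to a strong sandwich -/
noncomputable def sysOf (n : ℕ) (hlow : ∀ m x, m < n → W c 3 m x → x = 0) : Sys B B where
  T := TT c n
  Ta := fun u v a w => TA c n u v a w
  two := h2
  three := h.tor
  Tsw := ax_Tsw h
  Tasw := ax_Tasw h
  T1 := ax_T1 h hlow
  Ta1 := ax_Ta1 h hlow
  T3 := ax_T3 h hlow
  Ta3 := ax_Ta3 h hlow
  T3e0 := ax_T3e0 h hlow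
  T3e2 := ax_T3e2 h hlow
  R3 := ax_R3 h hlow
  R7 := ax_R7 h hlow
  RII := ax_RII h hlow
  RIIp := ax_RIIp h hlow
  RIp := ax_RIp h hlow
  b00 := fun w => TT_zero' (by rw [b_00 h hc, zero_mul])
  b10 := fun x w => TT_zero' (by rw [b_10 h hc, zero_mul])
  b20 := fun x y w => TT_zero' (by rw [b_20 h h2 hc, zero_mul])
  b11 := fun x y w => TT_zero' (by rw [b_11 h hc, zero_mul])
  c00 := fun a w => TA_zero' (by rw [b_00 h hc, zero_mul, zero_mul])
  c10 := fun x a w => TA_zero' (by rw [b_10 h hc, zero_mul, zero_mul])
  c20 := fun x y a w => TA_zero' (by rw [b_20 h h2 hc, zero_mul, zero_mul])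
  c11 := fun x y a w => TA_zero' (by rw [b_11 h hc, zero_mul, zero_mul])
  d00 := fun u => TT_zero' (hc.s _)
  d01 := fun u x => TT_zero' (by
    simp only [ext]
    rw [h.ac c x, mul_neg, hc.t, neg_zero])
  d10 := fun u x => TT_zero' (by
    simp only [ext]
    rw [h.ac (ext c u), neg_mul, cyc' h h2 hc, neg_zero])
  e00 := fun u a => TA_zero' (cyc h h2 hc _ _)

include h in
theorem W1_form {k m : ℕ} {y : B} (hy : W c k m y) (hk : k = 1) :
    ∃ l : List B, ∃ r ∈ Lo c 1 m, l.length = m ∧ y = ext c l + r := by
  induction hy with
  | c => exact ⟨[], 0, zero_mem _, rfl, by simp [ext]⟩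
  | l b => omega
  | @mul k m l n x y hx hy ihx ihy =>
    rcases Nat.eq_zero_or_pos k with hk0 | hk0
    · -- `x` is free of `c`
      obtain ⟨l', r, hr, hl, rfl⟩ := ihy (by omega)
      have hl1 : l = 1 := by omega
      subst hk0
      subst hl1
      have hm := hx.pos rfl
      rcases Nat.lt_or_ge 1 m with hm1 | hm1
      · refine ⟨List.replicate (m + n) 0, x * (ext c l' + r) - ext c (List.replicate (m + n) 0),
          ?_, by simp, by abel⟩
        have e0 : ext c (List.replicate (m + n) 0) = 0 := by
          obtain ⟨q, hq⟩ : ∃ q, m + n = q + 1 := ⟨m + n - 1, by omega⟩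
          rw [hq, List.replicate_succ]
          simp only [ext, mul_zero]
        rw [e0, sub_zero, h.ac x, add_mul]
        refine neg_mem (add_mem ?_ ?_)
        · exact ((wd_W c l').mul (W.l x)).lo (by omega)
        · have := Lo_mul_W hr (W.l x)
          refine AddSubgroup.closure_mono ?_ this
          rintro z ⟨q, hq, hz⟩
          exact ⟨q, by omega, hz⟩
      · have hm2 : m = 1 := by omega
        subst hm2
        refine ⟨(-x) :: l', x * r, ?_, by simp [hl]; omega, ?_⟩
        · rw [h.ac x]
          have := Lo_mul_W hr (W.l x)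
          refine neg_mem (AddSubgroup.closure_mono ?_ this)
          rintro z ⟨q, hq, hz⟩
          exact ⟨q, by omega, hz⟩
        · simp only [ext, mul_add]
          rw [h.ac x (ext c l'), mul_neg]
    · obtain ⟨l', r, hr, hl, rfl⟩ := ihx (by omega)
      have hl0 : l = 0 := by omega
      have hk1 : k = 1 := by omega
      subst hl0
      subst hk1
      have hn := hy.pos rfl
      rcases Nat.lt_or_ge 1 n with hn1 | hn1
      · refine ⟨List.replicate (m + n) 0, (ext c l' + r) * y - ext c (List.replicate (m + n) 0),
          ?_, by simp, by abel⟩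
        have e0 : ext c (List.replicate (m + n) 0) = 0 := by
          obtain ⟨q, hq⟩ : ∃ q, m + n = q + 1 := ⟨m + n - 1, by omega⟩
          rw [hq, List.replicate_succ]
          simp only [ext, mul_zero]
        rw [e0, sub_zero, add_mul]
        refine add_mem ?_ ?_
        · exact ((wd_W c l').mul (W.l y)).lo (by omega)
        · have := Lo_mul_W hr (W.l y)
          refine AddSubgroup.closure_mono ?_ this
          rintro z ⟨q, hq, hz⟩
          exact ⟨q, by omega, hz⟩
      · have hn2 : n = 1 := by omega
        subst hn2
        refine ⟨y :: l', r * y, ?_, by simp [hl], ?_⟩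
        · have := Lo_mul_W hr (W.l y)
          refine AddSubgroup.closure_mono ?_ this
          rintro z ⟨q, hq, hz⟩
          exact ⟨q, by omega, hz⟩
        · simp only [ext, add_mul]

include h in
theorem W2_form {k m : ℕ} {y : B} (hy : W c k m y) (hk : k = 2) :
    ∃ u v t : List B, ∃ r ∈ Lo c 2 m, u.length + v.length + t.length = m ∧
      y = ext (ext c u * ext c v) t + r := by
  have trivial_form : ∀ {m : ℕ} {y : B}, y ∈ Lo c 2 m →
      ∃ u v t : List B, ∃ r ∈ Lo c 2 m, u.length + v.length + t.length = m ∧
      y = ext (ext c u * ext c v) t + r := by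
    intro m y hy
    refine ⟨[], [], List.replicate m 0, y, hy, by simp, ?_⟩
    have : ∀ q : ℕ, ext (ext c [] * ext c []) (List.replicate q 0) = 0 := by
      intro q
      induction q with
      | zero => exact h.sq c
      | succ q ih => rw [List.replicate_succ]; simp only [ext, mul_zero]
    rw [this, zero_add]
  induction hy with
  | c => omega
  | l b => omega
  | @mul k m l n x y hx hy ihx ihy =>
    rcases Nat.eq_zero_or_pos k with hk0 | hk0
    · obtain ⟨u, v, t, r, hr, hl, rfl⟩ := ihy (by omega)
      have hl1 : l = 2 := by omega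
      subst hk0
      subst hl1
      have hm := hx.pos rfl
      rcases Nat.lt_or_ge 1 m with hm1 | hm1
      · apply trivial_form
        rw [h.ac x]
        have h1 := (hy.mul (W.l x)).lo (show n + 1 < m + n by omega)
        exact neg_mem h1
      · have hm2 : m = 1 := by omega
        subst hm2
        refine ⟨u, v, (-x) :: t, x * r, ?_, by simp only [List.length_cons]; omega, ?_⟩
        · rw [h.ac x]
          have := Lo_mul_W hr (W.l x)
          refine neg_mem (AddSubgroup.closure_mono ?_ this)
          rintro z ⟨q, hq, hz⟩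
          exact ⟨q, by omega, hz⟩
        · simp only [ext, mul_add]
          rw [h.ac x (ext (ext c u * ext c v) t), mul_neg]
    · rcases Nat.eq_zero_or_pos l with hl0 | hl0
      · obtain ⟨u, v, t, r, hr, hl, rfl⟩ := ihx (by omega)
        have hk2 : k = 2 := by omega
        subst hl0
        subst hk2
        have hn := hy.pos rfl
        rcases Nat.lt_or_ge 1 n with hn1 | hn1
        · apply trivial_form
          exact (hx.mul (W.l y)).lo (show m + 1 < m + n by omega)
        · have hn2 : n = 1 := by omega
          subst hn2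
          refine ⟨u, v, y :: t, r * y, ?_, by simp only [List.length_cons]; omega, ?_⟩
          · have := Lo_mul_W hr (W.l y)
            refine AddSubgroup.closure_mono ?_ this
            rintro z ⟨q, hq, hz⟩
            exact ⟨q, by omega, hz⟩
          · simp only [ext, add_mul]
      · have hk1 : k = 1 := by omega
        have hl1 : l = 1 := by omega
        subst hk1
        subst hl1
        obtain ⟨u, r1, hr1, hu, rfl⟩ := W1_form h hx rfl
        obtain ⟨v, r2, hr2, hv, rfl⟩ := W1_form h hy rfl
        refine ⟨u, v, [], ext c u * r2 + r1 * (ext c v + r2), ?_, by simp [hu, hv], ?_⟩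
        · refine add_mem ?_ ?_
          · have := W_mul_Lo (wd_W c u) hr2
            rw [hu] at this
            exact this
          · have := Lo_mul_W hr1 hy
            exact this
        · simp only [ext, mul_add, add_mul]
          abel

include h h2 hc in
theorem tops (n : ℕ) (hlow : ∀ m x, m < n → W c 3 m x → x = 0) (q : ℕ) :
    ∀ u v t w : List B, t.length ≤ q → u.length + v.length + t.length + w.length = n →
      ext (ext c u * ext c v) t * ext c w = 0 := by
  have S := sysOf h h2 hc n hlow
  induction q using Nat.strong_induction_on with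
  | _ q ih =>
    intro u v t w ht hn
    rcases t with _ | ⟨b, _ | ⟨a, t⟩⟩
    · have e := (sysOf h h2 hc n hlow).T_zero u v w
      have e' : TT c n u v w = 0 := e
      rw [TTp (by simp only [List.length_nil] at hn; omega)] at e'
      exact e'
    · have e := (sysOf h h2 hc n hlow).Ta_zero u v w b
      have e' : TA c n u v b w = 0 := e
      rw [TAp (by simp only [List.length_cons, List.length_nil] at hn; omega)] at e'
      exact e'
    · simp only [List.length_cons] at ht hn
      have hM := ext_W ((wd_W c u).mul (wd_W c v)) t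
      have e := m2 h hlow a b hM (wd_W c w) (by omega)
      have e2 := ih (q - 1) (by omega) u v t (b :: a :: w) (by omega)
        (by simp only [List.length_cons]; omega)
      simp only [ext] at e2 ⊢
      rw [← e]
      exact e2

include h h2 hc in
/-- words with three factors `c` vanish -/
theorem W3_zero (n : ℕ) : ∀ x, W c 3 n x → x = 0 := by
  induction n using Nat.strong_induction_on with
  | _ n ih =>
    have hlow : ∀ m x, m < n → W c 3 m x → x = 0 := fun m x hm hx => ih m hm x hx
    have key : ∀ (m l : ℕ) (x y : B), W c 2 m x → W c 1 l y → m + l = n → x * y = 0 := by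
      intro m l x y hx hy hml
      obtain ⟨u, v, t, r1, hr1, h1, rfl⟩ := W2_form h hx rfl
      obtain ⟨w, r2, hr2, h3, rfl⟩ := W1_form h hy rfl
      have z1 : ext (ext c u * ext c v) t * ext c w = 0 :=
        tops h h2 hc n hlow t.length u v t w le_rfl (by omega)
      have z2 : ext (ext c u * ext c v) t * r2 = 0 := by
        refine Lo3 h hlow ?_
        have := W_mul_Lo (ext_W ((wd_W c u).mul (wd_W c v)) t) hr2
        rw [h1, hml] at this
        exact this
      have z3 : r1 * (ext c w + r2) = 0 := by
        refine Lo3 h hlow ?_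
        have := Lo_mul_W hr1 hy
        rw [hml] at this
        exact this
      rw [add_mul, z3, mul_add, z1, z2]
      simp
    intro x hx
    generalize hk : (3 : ℕ) = k at hx
    cases hx with
    | c => omega
    | l b => omega
    | @mul k m l n' x y hx hy =>
      have hk' : k = 0 ∨ k = 1 ∨ k = 2 ∨ k = 3 := by omega
      rcases hk' with rfl | rfl | rfl | rfl
      · have hl : l = 3 := by omega
        subst hl
        have := hx.pos rfl
        rw [hlow _ _ (by omega) hy, mul_zero]
      · have hl : l = 2 := by omega
        subst hl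
        rw [h.ac, key _ _ _ _ hy hx (by omega), neg_zero]
      · have hl : l = 1 := by omega
        subst hl
        exact key _ _ _ _ hx hy rfl
      · have hl : l = 0 := by omega
        subst hl
        have := hy.pos rfl
        rw [hlow _ _ (by omega) hx, zero_mul]

/-- a factor `c` may be regarded as a letter -/
theorem W_drop {k m : ℕ} {x : B} (hx : W c k m x) : 1 ≤ k → W c (k - 1) (m + 1) x := by
  induction hx with
  | c => intro _; exact W.l c
  | l b => intro h; omega
  | @mul k m l n x y hx hy ihx ihy =>
    intro hk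
    rcases Nat.eq_zero_or_pos k with hk0 | hk0
    · have := hx.mul (ihy (by omega))
      have e1 : k + (l - 1) = k + l - 1 := by omega
      have e2 : m + (n + 1) = m + n + 1 := by omega
      rw [e1, e2] at this
      exact this
    · have := (ihx (by omega)).mul hy
      have e1 : k - 1 + l = k + l - 1 := by omega
      have e2 : m + 1 + n = m + n + 1 := by omega
      rw [e1, e2] at this
      exact this

include h h2 hc in
theorem W_zero {k : ℕ} (hk : 3 ≤ k) : ∀ {n : ℕ} {x : B}, W c k n x → x = 0 := by
  induction k, hk using Nat.le_induction with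
  | base => intro n x hx; exact W3_zero h h2 hc n x hx
  | succ k hk ih =>
    intro n x hx
    have := W_drop hx (by omega)
    rw [Nat.add_sub_cancel] at this
    exact ih this

/-- an algebra without nonzero ideals of square zero -/
def Semiprime' (B : Type u) [NonUnitalNonAssocRing B] : Prop :=
  ∀ I : AddSubgroup B, (∀ x ∈ I, ∀ a : B, x * a ∈ I) → (∀ x ∈ I, ∀ y ∈ I, x * y = 0) →
    ∀ x ∈ I, x = 0

/-- sums of words with at least `d` factors `c` -/
def Nd (c : B) (d : ℕ) : AddSubgroup B := AddSubgroup.closure {x | ∃ k m, d ≤ k ∧ W c k m x}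

theorem Nd_ideal (d : ℕ) : ∀ x ∈ Nd c d, ∀ a : B, x * a ∈ Nd c d := by
  intro x hx a
  unfold Nd at hx
  induction hx using AddSubgroup.closure_induction with
  | mem x hx =>
    obtain ⟨k, m, hk, hx⟩ := hx
    exact AddSubgroup.subset_closure ⟨k + 0, m + 1, by omega, hx.mul (W.l a)⟩
  | zero => rw [zero_mul]; exact zero_mem _
  | add x y _ _ h1 h2 => rw [add_mul]; exact add_mem h1 h2
  | neg x _ h1 => rw [neg_mul]; exact neg_mem h1

theorem Nd_sq (d : ℕ) (hz : ∀ k m x, d + d ≤ k → W c k m x → x = 0) :
    ∀ x ∈ Nd c d, ∀ y ∈ Nd c d, x * y = 0 := by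
  intro x hx y hy
  unfold Nd at hx hy
  induction hx using AddSubgroup.closure_induction with
  | mem x hx =>
    obtain ⟨k, m, hk, hx⟩ := hx
    induction hy using AddSubgroup.closure_induction with
    | mem y hy =>
      obtain ⟨l, n, hl, hy⟩ := hy
      exact hz (k + l) (m + n) _ (by omega) (hx.mul hy)
    | zero => rw [mul_zero]
    | add a b _ _ h1 h2 => rw [mul_add, h1, h2, add_zero]
    | neg a _ h1 => rw [mul_neg, h1, neg_zero]
  | zero => rw [zero_mul]
  | add a b _ _ h1 h2 => rw [add_mul, h1, h2, add_zero]
  | neg a _ h1 => rw [neg_mul, h1, neg_zero]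

include h h2 hc in
/-- strong sandwiches vanish in semiprime algebras -/
theorem str_zero (hs : Semiprime' B) : c = 0 := by
  have z2 : ∀ k m x, 2 ≤ k → W c k m x → x = 0 := by
    intro k m x hk hx
    exact hs (Nd c 2) (Nd_ideal 2)
      (Nd_sq 2 (fun k m x hk hx => W_zero h h2 hc (by omega) hx)) x
      (AddSubgroup.subset_closure ⟨k, m, hk, hx⟩)
  exact hs (Nd c 1) (Nd_ideal 1) (Nd_sq 1 (fun k m x hk hx => z2 k m x hk hx)) c
    (AddSubgroup.subset_closure ⟨1, 0, le_rfl, W.c⟩)

end

end Pool.Agent.TH36.E3
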