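import Pool.Agent.TH36.E3.Semi

set_option autoImplicit false
set_option linter.all false

/-! Local nilpotency of anticommutative 3-Engel algebras in characteristic not two or three. -/

namespace Pool.Agent.TH36.E3

open Pool.Agent.H461R3.E3

universe u v

variable {F : Type u} [Field F] {A : Type v} [NonUnitalNonAssocRing A] [Module F A]
variable [IsScalarTower F A A] [SMulCommClass F A A]

theorem isProd_map {Q : Type v} [NonUnitalNonAssocRing Q] (π : A →ₙ+* Q) {n : ℕ} {x : A}
    (hx : IsProd (Set.univ : Set A) n x) : IsProd (Set.univ : Set Q) n (π x) := by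
  induction hx with
  | base _ => exact IsProd.base (Set.mem_univ _)
  | mul _ _ h1 h2 => rw [map_mul]; exact IsProd.mul h1 h2

theorem quotCore {Q : Type v} [NonUnitalNonAssocRing Q] (π : A →ₙ+* Q)
    (hsur : Function.Surjective π) {J : Submodule F A} (hker : ∀ a, π a = 0 ↔ a ∈ J)
    (hA : Eng A) (h2F : (2 : F) ≠ 0) (h3F : (3 : F) ≠ 0)
    (hmax : ∀ I : Submodule F A, J ≤ I → (∀ u ∈ I, ∀ a : A, u * a ∈ I) →
      (∀ u ∈ I, ∀ v ∈ I, u * v ∈ J) → I ≤ J) {n : ℕ} (hn : 4 ≤ n) {x : A}
    (hx : IsProd (Set.univ : Set A) n x) : x ∈ J := by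
  have hQ : Eng Q := by
    refine ⟨?_, ?_, ?_, ?_, ?_⟩
    · intro x
      obtain ⟨a, rfl⟩ := hsur x
      rw [← map_mul, hA.sq, map_zero]
    · intro x y
      obtain ⟨a, rfl⟩ := hsur x
      obtain ⟨b, rfl⟩ := hsur y
      rw [← map_mul, ← map_mul, ← map_mul, hA.e1, map_zero]
    · intro x y z
      obtain ⟨a, rfl⟩ := hsur x
      obtain ⟨b, rfl⟩ := hsur y
      obtain ⟨d, rfl⟩ := hsur z
      simp only [← map_mul, ← map_add, hA.e2, map_zero]
    · intro x y z t
      obtain ⟨a, rfl⟩ := hsur x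
      obtain ⟨b, rfl⟩ := hsur y
      obtain ⟨d, rfl⟩ := hsur z
      obtain ⟨e, rfl⟩ := hsur t
      simp only [← map_mul, ← map_add, hA.e3, map_zero]
    · intro x hx
      obtain ⟨a, rfl⟩ := hsur x
      rw [← map_add, ← map_add, hker] at hx
      rw [hker]
      have e : a = (3 : F)⁻¹ • (a + a + a) := by
        have : a + a + a = (3 : F) • a := by module
        rw [this, smul_smul, inv_mul_cancel₀ h3F, one_smul]
      rw [e]
      exact J.smul_mem _ hx
  have h2Q : ∀ x : Q, x + x = 0 → x = 0 := by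
    intro x hx
    obtain ⟨a, rfl⟩ := hsur x
    rw [← map_add, hker] at hx
    rw [hker]
    have e : a = (2 : F)⁻¹ • (a + a) := by
      have : a + a = (2 : F) • a := by module
      rw [this, smul_smul, inv_mul_cancel₀ h2F, one_smul]
    rw [e]
    exact J.smul_mem _ hx
  have hs : Semiprime' Q := by
    intro I hI hII x hx
    obtain ⟨a, rfl⟩ := hsur x
    rw [hker]
    refine hmax (Submodule.span F {b | π b ∈ I}) ?_ ?_ ?_ (Submodule.subset_span hx)
    · intro b hb
      refine Submodule.subset_span ?_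
      show π b ∈ I
      rw [(hker b).2 hb]
      exact zero_mem _
    · intro u hu b
      refine Submodule.span_induction (p := fun u _ => u * b ∈ Submodule.span F {b | π b ∈ I})
        ?_ ?_ ?_ ?_ hu
      · intro y hy
        refine Submodule.subset_span ?_
        show π (y * b) ∈ I
        rw [map_mul]
        exact hI _ hy _
      · rw [zero_mul]; exact Submodule.zero_mem _
      · intro y z _ _ h1 h2
        rw [add_mul]; exact Submodule.add_mem _ h1 h2
      · intro r y _ h1
        rw [smul_mul_assoc]; exact Submodule.smul_mem _ _ h1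
    · intro u hu w hw
      refine Submodule.span_induction (p := fun u _ => u * w ∈ J) ?_ ?_ ?_ ?_ hu
      · intro y hy
        refine Submodule.span_induction (p := fun w _ => y * w ∈ J) ?_ ?_ ?_ ?_ hw
        · intro z hz
          rw [← hker, map_mul]
          exact hII _ hy _ hz
        · rw [mul_zero]; exact Submodule.zero_mem _
        · intro y z _ _ h1 h2
          rw [mul_add]; exact Submodule.add_mem _ h1 h2
        · intro r y _ h1
          rw [mul_smul_comm]; exact Submodule.smul_mem _ _ h1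
      · rw [zero_mul]; exact Submodule.zero_mem _
      · intro y z _ _ h1 h2
        rw [add_mul]; exact Submodule.add_mem _ h1 h2
      · intro r y _ h1
        rw [smul_mul_assoc]; exact Submodule.smul_mem _ _ h1
  rw [← hker]
  exact prod4 hQ h2Q hs (isProd_map π hx) hn

/-- the congruence of an ideal -/
def qcon (hA : Eng A) (J : Submodule F A) (hJ : ∀ u ∈ J, ∀ a : A, u * a ∈ J) : RingCon A where
  r x y := x - y ∈ J
  iseqv :=
    { refl := fun x => by simp
      symm := fun {x y} h => by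
        have := J.neg_mem h
        simpa using this
      trans := fun {x y z} h1 h2 => by
        have := J.add_mem h1 h2
        simpa using this }
  mul' := fun {a b d e} h1 h2 => by
    have k1 : (a - b) * d ∈ J := hJ _ h1 _
    have k2 : (d - e) * b ∈ J := hJ _ h2 _
    show a * d - b * e ∈ J
    have : a * d - b * e = (a - b) * d - (d - e) * b := by
      rw [sub_mul, sub_mul, hA.ac d b, hA.ac e b]; abel
    rw [this]
    exact J.sub_mem k1 k2
  add' := fun {a b d e} h1 h2 => by
    show a + d - (b + e) ∈ J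
    have := J.add_mem h1 h2
    have e1 : a + d - (b + e) = (a - b) + (d - e) := by abel
    rw [e1]
    exact this

theorem quot4 (hA : Eng A) (h2F : (2 : F) ≠ 0) (h3F : (3 : F) ≠ 0)
    (J : Submodule F A) (hJ : ∀ u ∈ J, ∀ a : A, u * a ∈ J)
    (hmax : ∀ I : Submodule F A, J ≤ I → (∀ u ∈ I, ∀ a : A, u * a ∈ I) →
      (∀ u ∈ I, ∀ v ∈ I, u * v ∈ J) → I ≤ J) {n : ℕ} (hn : 4 ≤ n) {x : A}
    (hx : IsProd (Set.univ : Set A) n x) : x ∈ J := by
  let π : A →ₙ+* (qcon hA J hJ).Quotient :=
    { toFun := fun a => (a : (qcon hA J hJ).Quotient)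
      map_mul' := fun _ _ => rfl
      map_zero' := rfl
      map_add' := fun _ _ => rfl }
  refine quotCore (F := F) π ?_ ?_ hA h2F h3F hmax hn hx
  · intro x
    induction x using Quotient.inductionOn' with
    | h a => exact ⟨a, rfl⟩
  · intro a
    have e : π a = 0 ↔ (qcon hA J hJ) a 0 := (qcon hA J hJ).eq (a := a) (b := 0)
    rw [e]
    show a - 0 ∈ J ↔ a ∈ J
    rw [sub_zero]

theorem isProd_span {S : Set A} (hgen : NonUnitalAlgebra.adjoin F S = ⊤) {n : ℕ} {x : A}
    (hx : IsProd (Set.univ : Set A) n x) :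
    x ∈ Submodule.span F {y : A | ∃ k, n ≤ k ∧ IsProd S k y} := by
  induction hx with
  | @base x _ =>
    have h1 : x ∈ NonUnitalAlgebra.adjoin F S := by rw [hgen]; exact NonUnitalAlgebra.mem_top
    refine Submodule.span_mono ?_ (adjoin_span h1)
    rintro y ⟨k, hk⟩
    exact ⟨k, isProd_pos hk, hk⟩
  | @mul m n x y _ _ h1 h2 =>
    refine Submodule.span_induction
      (p := fun x _ => x * y ∈ Submodule.span F {y : A | ∃ k, m + n ≤ k ∧ IsProd S k y})
      ?_ ?_ ?_ ?_ h1
    · rintro x ⟨k, hmk, hk⟩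
      refine Submodule.span_induction
        (p := fun y _ => x * y ∈ Submodule.span F {y : A | ∃ k, m + n ≤ k ∧ IsProd S k y})
        ?_ ?_ ?_ ?_ h2
      · rintro y ⟨l, hnl, hl⟩
        exact Submodule.subset_span ⟨k + l, by omega, IsProd.mul hk hl⟩
      · rw [mul_zero]; exact Submodule.zero_mem _
      · intro y z _ _ h1 h2
        rw [mul_add]; exact Submodule.add_mem _ h1 h2
      · intro c y _ h1
        rw [mul_smul_comm]; exact Submodule.smul_mem _ c h1
    · rw [zero_mul]; exact Submodule.zero_mem _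
    · intro y z _ _ h1 h2
      rw [add_mul]; exact Submodule.add_mem _ h1 h2
    · intro c y _ h1
      rw [smul_mul_assoc]; exact Submodule.smul_mem _ c h1

/-- the quotient by `J` is nilpotent -/
def NilMod (J : Submodule F A) : Prop :=
  ∃ N, 1 ≤ N ∧ ∀ n, N ≤ n → ∀ x : A, IsProd (Set.univ : Set A) n x → x ∈ J

theorem nil_of_fin {S : Set A} (hA : Eng A) (hgen : NonUnitalAlgebra.adjoin F S = ⊤)
    {J : Submodule F A} (hJ : ∀ u ∈ J, ∀ a : A, u * a ∈ J) {N : ℕ} (hN1 : 1 ≤ N)
    (hN : ∀ k x, N ≤ k → k < 2 * N → IsProd S k x → x ∈ J) : NilMod J := by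
  have h1 : ∀ k x, N ≤ k → IsProd S k x → x ∈ J := by
    intro k
    induction k using Nat.strong_induction_on with
    | _ k ih =>
      intro x hk hx
      by_cases hk2 : k < 2 * N
      · exact hN k x hk hk2 hx
      · cases hx with
        | base _ => omega
        | @mul m l y z hy hz =>
          have p1 := isProd_pos hy
          have p2 := isProd_pos hz
          by_cases hm : N ≤ m
          · exact hJ _ (ih m (by omega) y hm hy) _
          · rw [hA.ac]
            exact J.neg_mem (hJ _ (ih l (by omega) z (by omega) hz) _)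
  refine ⟨N, hN1, ?_⟩
  intro n hn x hx
  refine (Submodule.span_le.2 ?_) (isProd_span hgen hx)
  rintro y ⟨k, hk, hy⟩
  exact h1 k y (by omega) hy

theorem finite_chain {c : Set (Submodule F A)} (hc : IsChain (· ≤ ·) c) (hne : c.Nonempty)
    {T : Set A} (hT : T.Finite) : (∀ x ∈ T, ∃ J ∈ c, x ∈ J) → ∃ J ∈ c, ∀ x ∈ T, x ∈ J := by
  induction T, hT using Set.Finite.induction_on with
  | empty =>
    intro _
    obtain ⟨J, hJ⟩ := hne
    exact ⟨J, hJ, fun x hx => absurd hx (Set.notMem_empty x)⟩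
  | insert _ _ ih =>
    intro h
    obtain ⟨J, hJ, h1⟩ := ih (fun x hx => h x (Set.mem_insert_of_mem _ hx))
    obtain ⟨K, hK, h2⟩ := h _ (Set.mem_insert _ _)
    rcases hc.total hJ hK with h3 | h3
    · refine ⟨K, hK, ?_⟩
      intro x hx
      rcases Set.mem_insert_iff.1 hx with rfl | hx
      · exact h2
      · exact h3 (h1 x hx)
    · refine ⟨J, hJ, ?_⟩
      intro x hx
      rcases Set.mem_insert_iff.1 hx with rfl | hx
      · exact h3 h2
      · exact h1 x hx

theorem fg_nilp (h2F : (2 : F) ≠ 0) (h3F : (3 : F) ≠ 0) (h0 : Anticommutative A)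
    (h1 : ThreeEngel A) {S : Set A} (hS : S.Finite) (hgen : NonUnitalAlgebra.adjoin F S = ⊤) :
    NilMod (⊥ : Submodule F A) := by
  have hF : ∃ m : F, m ≠ 0 ∧ m ≠ 1 := by
    refine ⟨2, h2F, ?_⟩
    intro e
    have : (1 : F) = 0 := by linear_combination e
    exact one_ne_zero this
  have hA : Eng A := eng_of (F := F) h3F hF h0 h1
  have hAct := act_of (F := F) hF h0 h1
  by_contra hno
  let s : Set (Submodule F A) := {J | (∀ u ∈ J, ∀ a : A, u * a ∈ J) ∧ ¬ NilMod J}
  have hbot : (⊥ : Submodule F A) ∈ s := by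
    refine ⟨?_, hno⟩
    intro u hu a
    rw [(Submodule.mem_bot F).1 hu, zero_mul]
    exact Submodule.zero_mem _
  have hchain : ∀ c ⊆ s, IsChain (· ≤ ·) c → ∀ y ∈ c, ∃ ub ∈ s, ∀ z ∈ c, z ≤ ub := by
    intro c hcs hc y hy
    have hmem : ∀ x, x ∈ sSup c ↔ ∃ J ∈ c, x ∈ J := fun x =>
      Submodule.mem_sSup_of_directed ⟨y, hy⟩ hc.directedOn
    refine ⟨sSup c, ⟨?_, ?_⟩, fun z hz => le_sSup hz⟩
    · intro u hu a
      obtain ⟨J, hJ, huJ⟩ := (hmem u).1 hu
      exact (hmem _).2 ⟨J, hJ, (hcs hJ).1 u huJ a⟩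
    · rintro ⟨N, hN1, hN⟩
      have hT : (⋃ k ∈ Finset.range (2 * N), {x : A | N ≤ k ∧ IsProd S k x}).Finite := by
        refine Set.Finite.biUnion (Finset.finite_toSet _) fun k _ => ?_
        exact (isProd_finite hS k).subset fun x hx => hx.2
      obtain ⟨J, hJ, hJ2⟩ := finite_chain hc ⟨y, hy⟩ hT (by
        intro x hx
        simp only [Set.mem_iUnion] at hx
        obtain ⟨k, hk, hNk, hx⟩ := hx
        exact (hmem x).1 (hN k hNk x (isProd_univ hx)))
      refine (hcs hJ).2 (nil_of_fin hA hgen (hcs hJ).1 hN1 ?_)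
      intro k x hk1 hk2 hx
      refine hJ2 x ?_
      simp only [Set.mem_iUnion]
      exact ⟨k, Finset.mem_range.2 hk2, hk1, hx⟩
  obtain ⟨J, _, hJmax⟩ := zorn_le_nonempty₀ s hchain ⊥ hbot
  have hJs : J ∈ s := hJmax.prop
  have hmax : ∀ I : Submodule F A, J ≤ I → (∀ u ∈ I, ∀ a : A, u * a ∈ I) →
      (∀ u ∈ I, ∀ v ∈ I, u * v ∈ J) → I ≤ J := by
    intro I hJI hI hIJ
    by_cases hIs : I ∈ s
    · exact hJmax.le_of_ge hIs hJI
    · exfalso
      have hnil : NilMod I := by
        by_contra hn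
        exact hIs ⟨hI, hn⟩
      obtain ⟨N, hN1, hN⟩ := hnil
      exact hJs.2 (step hAct h0 hS hgen hI hJs.1 hIJ hN1 hN)
  exact hJs.2 ⟨4, by omega, fun n hn x hx => quot4 hA h2F h3F J hJs.1 hmax hn hx⟩

theorem isProd_sub {B : NonUnitalSubalgebra F A} {n : ℕ} {x : A}
    (hx : IsProd (B : Set A) n x) :
    ∃ y : B, (y : A) = x ∧ IsProd (Set.univ : Set B) n y := by
  induction hx with
  | @base x hx => exact ⟨⟨x, hx⟩, rfl, IsProd.base (Set.mem_univ _)⟩
  | mul _ _ h1 h2 =>
    obtain ⟨y, rfl, hy⟩ := h1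
    obtain ⟨z, rfl, hz⟩ := h2
    exact ⟨y * z, rfl, IsProd.mul hy hz⟩

/-- Anticommutative 3-Engel algebras over a field of characteristic different from two and three
are locally nilpotent. -/
theorem loc_nilp (h2F : (2 : F) ≠ 0) (h3F : (3 : F) ≠ 0) (h0 : Anticommutative A)
    (h1 : ThreeEngel A) {S : Set A} (hS : S.Finite) :
    ∃ N, 1 ≤ N ∧ ∀ n, N ≤ n → ∀ x : A,
      IsProd (NonUnitalAlgebra.adjoin F S : Set A) n x → x = 0 := by
  let B := NonUnitalAlgebra.adjoin F S
  have h0B : Anticommutative B := fun x => Subtype.ext (h0 x)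
  have h1B : ThreeEngel B := fun x y => Subtype.ext (h1 x y)
  let S' : Set B := Subtype.val ⁻¹' S
  have hS' : S'.Finite := hS.preimage Subtype.val_injective.injOn
  have hgen : NonUnitalAlgebra.adjoin F S' = ⊤ := by
    rw [eq_top_iff]
    rintro ⟨x, hx⟩ -
    induction hx using NonUnitalAlgebra.adjoin_induction with
    | mem x hx => exact NonUnitalAlgebra.subset_adjoin F hx
    | add x y hx hy h1 h2 => exact add_mem (S := NonUnitalSubalgebra F B) h1 h2
    | zero => exact zero_mem (S := NonUnitalSubalgebra F B) _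
    | mul x y hx hy h1 h2 => exact mul_mem (S := NonUnitalSubalgebra F B) h1 h2
    | smul r x hx h1 => exact SMulMemClass.smul_mem (S := NonUnitalSubalgebra F B) r h1
  obtain ⟨N, hN1, hN⟩ := fg_nilp (F := F) (A := B) h2F h3F h0B h1B hS' hgen
  refine ⟨N, hN1, ?_⟩
  intro n hn x hx
  obtain ⟨y, rfl, hy⟩ := isProd_sub hx
  have := hN n hn y hy
  rw [(Submodule.mem_bot F).1 this]
  rfl

end Pool.Agent.TH36.E3
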