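import Mathlib

/-! Abstract trilinear systems attached to a strong sandwich in an anticommutative 3-Engel
algebra.  Words `c a₁ ⋯ a_k` are encoded by lists `[a_k, ..., a₁]`. -/

set_option autoImplicit false
set_option linter.all false

namespace Pool.Agent.TH36.E3

universe u v

/-- The system of relations between the values `T u v w = ((cu)(cv))(cw)` and
`Ta u v a w = (((cu)(cv))a)(cw)`. -/
structure Sys (α : Type u) (M : Type v) [AddCommGroup M] where
  T : List α → List α → List α → M
  Ta : List α → List α → α → List α → M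
  two : ∀ x : M, x + x = 0 → x = 0
  three : ∀ x : M, x + x + x = 0 → x = 0
  Tsw : ∀ u v w, T u v w = - T v u w
  Tasw : ∀ u v a w, Ta u v a w = - Ta v u a w
  T1 : ∀ p x y z u v w, T (p ++ x :: y :: z :: u) v w = - T (p ++ y :: x :: z :: u) v w
  Ta1 : ∀ p x y z u v a w, Ta (p ++ x :: y :: z :: u) v a w = - Ta (p ++ y :: x :: z :: u) v a w
  T3 : ∀ u v p x y z w, T u v (p ++ x :: y :: z :: w) = - T u v (p ++ y :: x :: z :: w)
  Ta3 : ∀ u v a p x y z w, Ta u v a (p ++ x :: y :: z :: w) = - Ta u v a (p ++ y :: x :: z :: w)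
  T3e0 : ∀ u v x y, T u v [x, y] = - T u v [y, x]
  T3e2 : ∀ u v p q x y, T u v [p, q, x, y] = - T u v [p, q, y, x]
  R3 : ∀ u v w a, T (a :: u) v w + T (a :: u) w v + Ta u v a w + Ta u w a v = 0
  R7 : ∀ u v w a b, Ta (a :: u) v b w + Ta (b :: u) v a w + T (b :: a :: u) v w
    + T (a :: b :: u) v w = 0
  RII : ∀ u v w a b, Ta (a :: u) v b w - Ta u (a :: v) b w + T (b :: a :: u) v w
    - T u (b :: a :: v) w = 0
  RIIp : ∀ u v w a b e, T (a :: u) v (e :: b :: w) - T u (a :: v) (e :: b :: w)
    + Ta (b :: a :: u) v e w - Ta u (b :: a :: v) e w = 0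
  RIp : ∀ u v w a b e, Ta u v a (e :: b :: w) + Ta u v b (e :: a :: w) + T (a :: u) v (e :: b :: w)
    + T (b :: u) v (e :: a :: w) + Ta (b :: a :: u) v e w + Ta (a :: b :: u) v e w = 0
  b00 : ∀ w, T [] [] w = 0
  b10 : ∀ x w, T [x] [] w = 0
  b20 : ∀ x y w, T [x, y] [] w = 0
  b11 : ∀ x y w, T [x] [y] w = 0
  c00 : ∀ a w, Ta [] [] a w = 0
  c10 : ∀ x a w, Ta [x] [] a w = 0
  c20 : ∀ x y a w, Ta [x, y] [] a w = 0
  c11 : ∀ x y a w, Ta [x] [y] a w = 0
  d00 : ∀ u, T u [] [] = 0
  d01 : ∀ u x, T u [] [x] = 0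
  d10 : ∀ u x, T u [x] [] = 0
  e00 : ∀ u a, Ta u [] a [] = 0

namespace Sys

variable {α : Type u} {M : Type v} [AddCommGroup M] (S : Sys α M)

/-- the combination `Ta u v a w + T (a :: u) v w` -/
def V (u v w : List α) (a : α) : M := S.Ta u v a w + S.T (a :: u) v w

theorem V_def (u v w : List α) (a : α) : S.V u v w a = S.Ta u v a w + S.T (a :: u) v w := rfl

/-- antisymmetry in the last two slots -/
theorem V23 (u v w : List α) (a : α) : S.V u v w a = - S.V u w v a := by
  have h := S.R3 u v w a
  simp only [V_def]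
  linear_combination (norm := module) h

/-- antisymmetry in the first two slots -/
theorem V12 (u v w : List α) (a b : α) : S.V (a :: u) v w b = - S.V (a :: v) u w b := by
  have h := S.RII u v w a b
  have h1 := S.Tasw u (a :: v) b w
  have h2 := S.Tsw u (b :: a :: v) w
  simp only [V_def]
  linear_combination (norm := module) h + h1 + h2

/-- antisymmetry in the pair -/
theorem Vab (u v w : List α) (a b : α) : S.V (a :: u) v w b = - S.V (b :: u) v w a := by
  have h := S.R7 u v w a b
  simp only [V_def]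
  linear_combination (norm := module) h

/-- tail antisymmetry -/
theorem V1 (p : List α) (x y z : α) (u v w : List α) (a : α) :
    S.V (p ++ x :: y :: z :: u) v w a = - S.V (p ++ y :: x :: z :: u) v w a := by
  simp only [V_def]
  have h1 := S.Ta1 p x y z u v a w
  have h2 := S.T1 (a :: p) x y z u v w
  simp only [List.cons_append] at h2
  rw [h1, h2]; abel

theorem G (u v w : List α) (a : α) :
    S.T (a :: u) v w - S.T u (a :: v) w - S.V u v w a - S.V v u w a = 0 := by
  have h1 := S.Tasw u v a w
  have h2 := S.Tsw u (a :: v) w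
  simp only [V_def]
  linear_combination (norm := module) - h1 - h2

theorem STAR (u v w : List α) (a b x : α) :
    S.T (x :: b :: a :: u) v w - S.T u (x :: b :: a :: v) w - S.V u v (x :: b :: w) a
      - S.V v u (x :: b :: w) a - S.V (b :: a :: u) v w x - S.V (b :: a :: v) u w x = 0 := by
  have h := S.RIIp u v w a b x
  have h1 := S.Tasw u v a (x :: b :: w)
  have h2 := S.Tsw u (a :: v) (x :: b :: w)
  have h3 := S.Tasw u (b :: a :: v) x w
  have h4 := S.Tsw u (x :: b :: a :: v) w
  simp only [V_def]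
  linear_combination (norm := module) - h1 - h2 - h3 - h4 - h

theorem RI (u v w : List α) (a b e : α) :
    S.V u v (e :: b :: w) a + S.V u v (e :: a :: w) b + S.V (b :: a :: u) v w e
      + S.V (a :: b :: u) v w e - S.T (e :: b :: a :: u) v w - S.T (e :: a :: b :: u) v w = 0 := by
  have h := S.RIp u v w a b e
  simp only [V_def]
  linear_combination (norm := module) h


theorem nn {x y z : M} (h : x = -y) (h' : y = z) : x = -z := by rw [h, h']
theorem np {x y z : M} (h : x = -y) (h' : y = -z) : x = z := by rw [h, h', neg_neg]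
theorem nz {x y : M} (h : x = -y) (h' : y = 0) : x = 0 := by rw [h, h', neg_zero]

include S in
theorem m1 {x : M} (h : (1 : ℤ) • x = 0) : x = 0 := by rwa [one_smul] at h
include S in
theorem m2 {x : M} (h : (2 : ℤ) • x = 0) : x = 0 := by
  apply S.two
  linear_combination (norm := module) h
include S in
theorem m3 {x : M} (h : (3 : ℤ) • x = 0) : x = 0 := by
  apply S.three
  linear_combination (norm := module) h
include S in
theorem m6 {x : M} (h : (6 : ℤ) • x = 0) : x = 0 := by
  apply S.two
  apply S.three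
  linear_combination (norm := module) h
include S in
theorem self_neg {x : M} (h : x = -x) : x = 0 := by
  apply S.two
  linear_combination (norm := module) h

theorem T2 (p : List α) (x y z : α) (v u w : List α) :
    S.T u (p ++ x :: y :: z :: v) w = - S.T u (p ++ y :: x :: z :: v) w := by
  rw [S.Tsw, S.T1, ← S.Tsw]

theorem V3 (p : List α) (x y z : α) (w u v : List α) (a : α) :
    S.V u v (p ++ x :: y :: z :: w) a = - S.V u v (p ++ y :: x :: z :: w) a := by
  simp only [V_def]
  have h1 := S.Ta3 u v a p x y z w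
  have h2 := S.T3 (a :: u) v p x y z w
  rw [h1, h2]; abel

theorem V2 (p : List α) (x y z : α) (v u w : List α) (a : α) :
    S.V u (p ++ x :: y :: z :: v) w a = - S.V u (p ++ y :: x :: z :: v) w a := by
  rw [S.V23, S.V3, ← S.V23]

theorem BT (u v w : List α) (a : α) (h : S.Ta u v a w = 0) :
    S.V u v w a - S.T (a :: u) v w = 0 := by
  rw [V_def, h]; abel

theorem Vee (w : List α) (a e : α) : S.V [a] [] w e = 0 := S.self_neg (S.V12 [] [] w a e)

theorem V0ee (u : List α) (a : α) : S.V u [] [] a = 0 := S.self_neg (S.V23 u [] [] a)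

theorem V00 (w : List α) (a : α) : S.V [] [] w a = 0 := by
  rw [V_def, S.c00, S.b10, add_zero]

theorem V01 (x : α) (w : List α) (a : α) : S.V [] [x] w a = 0 := by
  rw [V_def, S.b11, S.Tasw, S.c10, neg_zero, add_zero]

theorem V1_0 (x y z : α) (u v w : List α) (a : α) :
    S.V (x :: y :: z :: u) v w a = - S.V (y :: x :: z :: u) v w a := S.V1 [] x y z u v w a

theorem V1_1 (p x y z : α) (u v w : List α) (a : α) :
    S.V (p :: x :: y :: z :: u) v w a = - S.V (p :: y :: x :: z :: u) v w a := S.V1 [p] x y z u v w a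

theorem V1_2 (p q x y z : α) (u v w : List α) (a : α) :
    S.V (p :: q :: x :: y :: z :: u) v w a = - S.V (p :: q :: y :: x :: z :: u) v w a := S.V1 [p, q] x y z u v w a

theorem V1_3 (p q r x y z : α) (u v w : List α) (a : α) :
    S.V (p :: q :: r :: x :: y :: z :: u) v w a = - S.V (p :: q :: r :: y :: x :: z :: u) v w a := S.V1 [p, q, r] x y z u v w a

theorem V1_4 (p q r s x y z : α) (u v w : List α) (a : α) :
    S.V (p :: q :: r :: s :: x :: y :: z :: u) v w a = - S.V (p :: q :: r :: s :: y :: x :: z :: u) v w a := S.V1 [p, q, r, s] x y z u v w a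

theorem V1_5 (p q r s t x y z : α) (u v w : List α) (a : α) :
    S.V (p :: q :: r :: s :: t :: x :: y :: z :: u) v w a = - S.V (p :: q :: r :: s :: t :: y :: x :: z :: u) v w a := S.V1 [p, q, r, s, t] x y z u v w a

theorem V2_0 (x y z : α) (v u w : List α) (a : α) :
    S.V u (x :: y :: z :: v) w a = - S.V u (y :: x :: z :: v) w a := S.V2 [] x y z v u w a

theorem V2_1 (p x y z : α) (v u w : List α) (a : α) :
    S.V u (p :: x :: y :: z :: v) w a = - S.V u (p :: y :: x :: z :: v) w a := S.V2 [p] x y z v u w a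

theorem V2_2 (p q x y z : α) (v u w : List α) (a : α) :
    S.V u (p :: q :: x :: y :: z :: v) w a = - S.V u (p :: q :: y :: x :: z :: v) w a := S.V2 [p, q] x y z v u w a

theorem V2_3 (p q r x y z : α) (v u w : List α) (a : α) :
    S.V u (p :: q :: r :: x :: y :: z :: v) w a = - S.V u (p :: q :: r :: y :: x :: z :: v) w a := S.V2 [p, q, r] x y z v u w a

theorem V2_4 (p q r s x y z : α) (v u w : List α) (a : α) :
    S.V u (p :: q :: r :: s :: x :: y :: z :: v) w a = - S.V u (p :: q :: r :: s :: y :: x :: z :: v) w a := S.V2 [p, q, r, s] x y z v u w a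

theorem V2_5 (p q r s t x y z : α) (v u w : List α) (a : α) :
    S.V u (p :: q :: r :: s :: t :: x :: y :: z :: v) w a = - S.V u (p :: q :: r :: s :: t :: y :: x :: z :: v) w a := S.V2 [p, q, r, s, t] x y z v u w a

theorem V3_0 (x y z : α) (w u v : List α) (a : α) :
    S.V u v (x :: y :: z :: w) a = - S.V u v (y :: x :: z :: w) a := S.V3 [] x y z w u v a

theorem V3_1 (p x y z : α) (w u v : List α) (a : α) :
    S.V u v (p :: x :: y :: z :: w) a = - S.V u v (p :: y :: x :: z :: w) a := S.V3 [p] x y z w u v a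

theorem V3_2 (p q x y z : α) (w u v : List α) (a : α) :
    S.V u v (p :: q :: x :: y :: z :: w) a = - S.V u v (p :: q :: y :: x :: z :: w) a := S.V3 [p, q] x y z w u v a

theorem V3_3 (p q r x y z : α) (w u v : List α) (a : α) :
    S.V u v (p :: q :: r :: x :: y :: z :: w) a = - S.V u v (p :: q :: r :: y :: x :: z :: w) a := S.V3 [p, q, r] x y z w u v a

theorem V3_4 (p q r s x y z : α) (w u v : List α) (a : α) :
    S.V u v (p :: q :: r :: s :: x :: y :: z :: w) a = - S.V u v (p :: q :: r :: s :: y :: x :: z :: w) a := S.V3 [p, q, r, s] x y z w u v a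

theorem V3_5 (p q r s t x y z : α) (w u v : List α) (a : α) :
    S.V u v (p :: q :: r :: s :: t :: x :: y :: z :: w) a = - S.V u v (p :: q :: r :: s :: t :: y :: x :: z :: w) a := S.V3 [p, q, r, s, t] x y z w u v a

theorem T1_0 (x y z : α) (u v w : List α) :
    S.T (x :: y :: z :: u) v w = - S.T (y :: x :: z :: u) v w := S.T1 [] x y z u v w

theorem T1_1 (p x y z : α) (u v w : List α) :
    S.T (p :: x :: y :: z :: u) v w = - S.T (p :: y :: x :: z :: u) v w := S.T1 [p] x y z u v w

theorem T1_2 (p q x y z : α) (u v w : List α) :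
    S.T (p :: q :: x :: y :: z :: u) v w = - S.T (p :: q :: y :: x :: z :: u) v w := S.T1 [p, q] x y z u v w

theorem T1_3 (p q r x y z : α) (u v w : List α) :
    S.T (p :: q :: r :: x :: y :: z :: u) v w = - S.T (p :: q :: r :: y :: x :: z :: u) v w := S.T1 [p, q, r] x y z u v w

theorem T1_4 (p q r s x y z : α) (u v w : List α) :
    S.T (p :: q :: r :: s :: x :: y :: z :: u) v w = - S.T (p :: q :: r :: s :: y :: x :: z :: u) v w := S.T1 [p, q, r, s] x y z u v w

theorem T1_5 (p q r s t x y z : α) (u v w : List α) :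
    S.T (p :: q :: r :: s :: t :: x :: y :: z :: u) v w = - S.T (p :: q :: r :: s :: t :: y :: x :: z :: u) v w := S.T1 [p, q, r, s, t] x y z u v w

theorem T2_0 (x y z : α) (v u w : List α) :
    S.T u (x :: y :: z :: v) w = - S.T u (y :: x :: z :: v) w := S.T2 [] x y z v u w

theorem T2_1 (p x y z : α) (v u w : List α) :
    S.T u (p :: x :: y :: z :: v) w = - S.T u (p :: y :: x :: z :: v) w := S.T2 [p] x y z v u w

theorem T2_2 (p q x y z : α) (v u w : List α) :
    S.T u (p :: q :: x :: y :: z :: v) w = - S.T u (p :: q :: y :: x :: z :: v) w := S.T2 [p, q] x y z v u w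

theorem T2_3 (p q r x y z : α) (v u w : List α) :
    S.T u (p :: q :: r :: x :: y :: z :: v) w = - S.T u (p :: q :: r :: y :: x :: z :: v) w := S.T2 [p, q, r] x y z v u w

theorem T2_4 (p q r s x y z : α) (v u w : List α) :
    S.T u (p :: q :: r :: s :: x :: y :: z :: v) w = - S.T u (p :: q :: r :: s :: y :: x :: z :: v) w := S.T2 [p, q, r, s] x y z v u w

theorem T2_5 (p q r s t x y z : α) (v u w : List α) :
    S.T u (p :: q :: r :: s :: t :: x :: y :: z :: v) w = - S.T u (p :: q :: r :: s :: t :: y :: x :: z :: v) w := S.T2 [p, q, r, s, t] x y z v u w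

theorem T3_0 (x y z : α) (w u v : List α) :
    S.T u v (x :: y :: z :: w) = - S.T u v (y :: x :: z :: w) := S.T3 u v [] x y z w

theorem T3_1 (p x y z : α) (w u v : List α) :
    S.T u v (p :: x :: y :: z :: w) = - S.T u v (p :: y :: x :: z :: w) := S.T3 u v [p] x y z w

theorem T3_2 (p q x y z : α) (w u v : List α) :
    S.T u v (p :: q :: x :: y :: z :: w) = - S.T u v (p :: q :: y :: x :: z :: w) := S.T3 u v [p, q] x y z w

theorem T3_3 (p q r x y z : α) (w u v : List α) :
    S.T u v (p :: q :: r :: x :: y :: z :: w) = - S.T u v (p :: q :: r :: y :: x :: z :: w) := S.T3 u v [p, q, r] x y z w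

theorem T3_4 (p q r s x y z : α) (w u v : List α) :
    S.T u v (p :: q :: r :: s :: x :: y :: z :: w) = - S.T u v (p :: q :: r :: s :: y :: x :: z :: w) := S.T3 u v [p, q, r, s] x y z w

theorem T3_5 (p q r s t x y z : α) (w u v : List α) :
    S.T u v (p :: q :: r :: s :: t :: x :: y :: z :: w) = - S.T u v (p :: q :: r :: s :: t :: y :: x :: z :: w) := S.T3 u v [p, q, r, s, t] x y z w

end Sys

end Pool.Agent.TH36.E3
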