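import Pool.Agent.TH36.E3.Final
import Pool.Agent.H461R3.E3.Fin

set_option autoImplicit false
set_option linter.all false

/-! Words in a strong sandwich `c`: products of three or more copies of `c` with other elements
vanish. -/

namespace Pool.Agent.TH36.E3

open Pool.Agent.H461R3.E3

universe u

variable {B : Type u} [NonUnitalNonAssocRing B]

/-- `W c k n x`: `x` is a product, with some bracketing, of `k` copies of `c` and `n` arbitrary
elements. -/
inductive W (c : B) : ℕ → ℕ → B → Prop
  | c : W c 1 0 c
  | l (b : B) : W c 0 1 b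
  | mul {k m l n : ℕ} {x y : B} (hx : W c k m x) (hy : W c l n y) : W c (k + l) (m + n) (x * y)

/-- sums of words with fewer than `n` letters -/
def Lo (c : B) (d n : ℕ) : AddSubgroup B := AddSubgroup.closure {x | ∃ m, m < n ∧ W c d m x}

theorem W.lo {c : B} {d m n : ℕ} {x : B} (h : W c d m x) (hm : m < n) : x ∈ Lo c d n :=
  AddSubgroup.subset_closure ⟨m, hm, h⟩

theorem Lo_mul_W {c : B} {d e n m : ℕ} {x y : B} (hx : x ∈ Lo c d n) (hy : W c e m y) :
    x * y ∈ Lo c (d + e) (n + m) := by
  unfold Lo at hx
  induction hx using AddSubgroup.closure_induction with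
  | mem x hx => obtain ⟨k, hk, hx⟩ := hx; exact (hx.mul hy).lo (by omega)
  | zero => rw [zero_mul]; exact zero_mem _
  | add a b _ _ ha hb => rw [add_mul]; exact add_mem ha hb
  | neg a _ ha => rw [neg_mul]; exact neg_mem ha

theorem W_mul_Lo {c : B} {d e n m : ℕ} {x y : B} (hx : W c d n x) (hy : y ∈ Lo c e m) :
    x * y ∈ Lo c (d + e) (n + m) := by
  unfold Lo at hy
  induction hy using AddSubgroup.closure_induction with
  | mem y hy => obtain ⟨k, hk, hy⟩ := hy; exact (hx.mul hy).lo (by omega)
  | zero => rw [mul_zero]; exact zero_mem _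
  | add a b _ _ ha hb => rw [mul_add]; exact add_mem ha hb
  | neg a _ ha => rw [mul_neg]; exact neg_mem ha

theorem Lo_mul_Lo {c : B} {d e n m : ℕ} {x y : B} (hx : x ∈ Lo c d n) (hy : y ∈ Lo c e m) :
    x * y ∈ Lo c (d + e) (n + m) := by
  unfold Lo at hx
  induction hx using AddSubgroup.closure_induction with
  | mem x hx =>
    obtain ⟨k, hk, hx⟩ := hx
    have h := W_mul_Lo hx hy
    refine AddSubgroup.closure_mono ?_ h
    rintro z ⟨q, hq, hz⟩
    exact ⟨q, by omega, hz⟩
  | zero => rw [zero_mul]; exact zero_mem _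
  | add a b _ _ ha hb => rw [add_mul]; exact add_mem ha hb
  | neg a _ ha => rw [neg_mul]; exact neg_mem ha

/-- `ext m [a_k, ..., a_1] = m a_1 ⋯ a_k` -/
def ext (m : B) : List B → B
  | [] => m
  | a :: l => ext m l * a

theorem ext_W {c m : B} {k j : ℕ} (hm : W c k j m) (l : List B) :
    W c k (j + l.length) (ext m l) := by
  induction l with
  | nil => exact hm
  | cons a l ih => exact ih.mul (W.l a)

theorem wd_W (c : B) (l : List B) : W c 1 l.length (ext c l) := by
  have := ext_W (W.c : W c 1 0 c) l
  rwa [Nat.zero_add] at this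

theorem W.pos {c : B} {k m : ℕ} {x : B} (h : W c k m x) : k = 0 → 1 ≤ m := by
  induction h with
  | c => intro h; omega
  | l b => intro _; exact le_rfl
  | mul _ _ h1 h2 => intro h; have := h1 (by omega); omega

section
variable (h : Eng B)
include h

theorem sw' (m a y z : B) : ((m * a) * y) * z + ((m * a) * z) * y + (m * (a * y)) * z +
    (m * (a * z)) * y + m * ((a * y) * z) + m * ((a * z) * y) = 0 := by
  have h' := h.e3 a m y z
  rw [h.ac a m, h.ac (a * y) m, h.ac (a * z) m, h.ac (a * y * z) m, h.ac (a * z * y) m] at h'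
  simp only [neg_mul] at h'
  linear_combination (norm := module) -h'

theorem tailLo (c : B) (p : List B) (x y z : B) (u : List B) :
    ext c (p ++ x :: y :: z :: u) + ext c (p ++ y :: x :: z :: u) ∈
      Lo c 1 (p.length + u.length + 3) := by
  induction p with
  | nil =>
    simp only [List.nil_append, List.length_nil, ext]
    have h1 := sw' h (ext c u) z y x
    have e : ext c u * z * y * x + ext c u * z * x * y =
      -((ext c u * (z * y)) * x + (ext c u * (z * x)) * y + ext c u * ((z * y) * x) +
        ext c u * ((z * x) * y)) := by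
      linear_combination (norm := module) h1
    rw [e]
    have hu := wd_W c u
    refine neg_mem (add_mem (add_mem (add_mem ?_ ?_) ?_) ?_)
    · exact ((hu.mul (W.l (z * y))).mul (W.l x)).lo (by omega)
    · exact ((hu.mul (W.l (z * x))).mul (W.l y)).lo (by omega)
    · exact (hu.mul (W.l ((z * y) * x))).lo (by omega)
    · exact (hu.mul (W.l ((z * x) * y))).lo (by omega)
  | cons q p ih =>
    have h1 := Lo_mul_W ih (W.l q)
    simp only [List.cons_append, ext, List.length_cons]
    rw [← add_mul]
    have e : p.length + 1 + u.length + 3 = p.length + u.length + 3 + 1 := by omega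
    rw [e]
    exact h1

end

/-- strong sandwiches -/
structure Str (c : B) : Prop where
  s : ∀ x : B, (x * c) * c = 0
  t : ∀ x y : B, (x * c) * (y * c) = 0

section
variable (h : Eng B) (h2 : ∀ x : B, x + x = 0 → x = 0)
include h h2

theorem cyc {c : B} (hc : Str c) (x y : B) : ((x * c) * y) * c = 0 := by
  have e := h.e3 x c c y
  rw [hc.s, hc.s (x * y), zero_mul] at e
  apply h2
  linear_combination (norm := module) e

theorem cyc' {c : B} (hc : Str c) (x y : B) : ((c * x) * y) * c = 0 := by
  rw [h.ac c x, neg_mul, neg_mul, cyc h h2 hc, neg_zero]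

end

section
variable (h : Eng B) {c : B} {n : ℕ} (hlow : ∀ m x, m < n → W c 3 m x → x = 0)
include h hlow

theorem Lo3 {x : B} (hx : x ∈ Lo c 3 n) : x = 0 := by
  unfold Lo at hx
  induction hx using AddSubgroup.closure_induction with
  | mem x hx => obtain ⟨k, hk, hx⟩ := hx; exact hlow k x hk hx
  | zero => rfl
  | add a b _ _ ha hb => rw [ha, hb, add_zero]
  | neg a _ ha => rw [ha, neg_zero]

theorem m2 {j k : ℕ} {m w : B} (x y : B) (hm : W c 2 j m) (hw : W c 1 k w) (hn : j + k + 2 = n) :
    m * ((w * x) * y) = ((m * x) * y) * w := by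
  have e := h.e3 x w y m
  have z1 : (w * x) * m = 0 := hlow _ _ (by omega) ((hw.mul (W.l x)).mul hm)
  have z2 : ((x * y) * w) * m = 0 := hlow _ _ (by omega) (((W.l (x * y)).mul hw).mul hm)
  have z3 : ((x * y) * m) * w = 0 := hlow _ _ (by omega) (((W.l (x * y)).mul hm).mul hw)
  have z4 : (m * x) * w = 0 := hlow _ _ (by omega) ((hm.mul (W.l x)).mul hw)
  rw [z2, z3, h.ac x w, h.ac x m] at e
  simp only [neg_mul, z1, z4, zero_mul, neg_zero, add_zero] at e
  rw [h.ac m]
  linear_combination (norm := module) e

theorem m2s {j k : ℕ} {m w : B} (x y : B) (hm : W c 2 j m) (hw : W c 1 k w) (hn : j + k + 2 = n) :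
    m * ((w * x) * y) = - (m * ((w * y) * x)) := by
  have e := h.e3 w x y m
  have z1 : (w * x) * m = 0 := hlow _ _ (by omega) ((hw.mul (W.l x)).mul hm)
  have z2 : (w * y) * m = 0 := hlow _ _ (by omega) ((hw.mul (W.l y)).mul hm)
  have z3 : (w * m) * x * y = 0 := by
    rw [show (w * m) * x = 0 from ?_, zero_mul]
    have : w * m = 0 := hlow _ _ (by omega) (hw.mul hm)
    rw [this, zero_mul]
  have z4 : (w * m) * y * x = 0 := by
    have : w * m = 0 := hlow _ _ (by omega) (hw.mul hm)
    rw [this, zero_mul, zero_mul]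
  rw [z1, z2, z3, z4] at e
  simp only [zero_mul, add_zero] at e
  rw [h.ac m, h.ac m]
  linear_combination (norm := module) -e

end

end Pool.Agent.TH36.E3
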